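import Pool.Agent.GamE.ZDefs

/-!
# Affine forms and the coefficients of the difference equation: definitions
-/

namespace GamE

open MvPolynomial Finset

/-- the affine form `x + ∑ e_j X_j` -/
noncomputable def wf {r : ℕ} (x : ℚ) (e : Fin r → ℚ) : RR r := C x + ∑ j, C (e j) * X j

/-- the `i`-th coordinate of `x + ∑ t_j e_j` as a polynomial in `t` -/
noncomputable def wi {r ℓ : ℕ} (x : Fin ℓ → ℚ) (e : Fin r → Fin ℓ → ℤ) (i : Fin ℓ) : RR r :=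
  wf (x i) (fun j => (e j i : ℚ))

/-- numerator of `U(w + γ) / U(w)`, `w = x + ∑ t_j e_j`: the product of the `p w_i + k` for `γ_i > 0`,
`0 < k < p γ_i`, `p ∤ k` -/
noncomputable def AA {r ℓ : ℕ} (p : ℕ) (x : Fin ℓ → ℚ) (e : Fin r → Fin ℓ → ℤ) (γ : Fin ℓ → ℤ) :
    RR r :=
  ∏ i, ∏ k ∈ (range (p * (γ i).toNat)).filter (fun k => ¬ p ∣ k), (C (p : ℚ) * wi x e i + C (k : ℚ))

/-- denominator of `U(w + γ) / U(w)`: the product of the `p (w_i + γ_i) + k` for `γ_i < 0`,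
`0 < k < p |γ_i|`, `p ∤ k` -/
noncomputable def BB {r ℓ : ℕ} (p : ℕ) (x : Fin ℓ → ℚ) (e : Fin r → Fin ℓ → ℤ) (γ : Fin ℓ → ℤ) :
    RR r :=
  ∏ i, ∏ k ∈ (range (p * (-γ i).toNat)).filter (fun k => ¬ p ∣ k),
    (C (p : ℚ) * (wi x e i + C (γ i : ℚ)) + C (k : ℚ))

/-- the first unit vector, times `t` -/
def e0 {s : ℕ} (t : ℚ) : Fin (s + 1) → ℚ := Pi.single 0 t

end GamE
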