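import Pool.Agent.GamP.Defs2
import Pool.Agent.GamE.TDefs

/-!
# The auxiliary function: definitions
-/

namespace GamE

open Finset Polynomial GamP

/-- the function `U(z) = ∏_i Γ(p (μ_i + ∑_ι λ_{i,ι} z_ι))` on `ℤ_p^r` -/
noncomputable def UU {r ℓ : ℕ} (p : ℕ) [Fact p.Prime] (Γ : ℤ_[p] → ℤ_[p]) (μ : Fin ℓ → ℤ_[p])
    (lam : Fin ℓ → Fin r → ℤ_[p]) (z : Fin r → ℤ_[p]) : ℤ_[p] :=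
  ∏ i, Γ (p * (μ i + ∑ ι, lam i ι * z ι))

/-- the auxiliary function `∑ c_{κ,k} ∏_ι (p^{v(κ_ι!)} binomial(z_ι, κ_ι)) U(z)^k` -/
noncomputable def G3 {r ℓ : ℕ} (p : ℕ) [Fact p.Prime] (Γ : ℤ_[p] → ℤ_[p]) (μ : Fin ℓ → ℤ_[p])
    (lam : Fin ℓ → Fin r → ℤ_[p]) (T₁ T₂ : ℕ) (c : (Fin r → Fin T₁) × Fin T₂ → ℤ)
    (z : Fin r → ℤ_[p]) : ℤ_[p] :=
  ∑ i : (Fin r → Fin T₁) × Fin T₂,
    (c i : ℤ_[p]) * (∏ ι, ep p (i.1 ι) (z ι)) * UU p Γ μ lam z ^ (i.2 : ℕ)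

/-- Tuples `α` of residues modulo `b` with prescribed sum, `∏ Γ(p α_i / b)` algebraic of degree at most `D`,
and without small relations `m α_i + m' α_j ≡ 0 mod b`, `1 ≤ m, m' ≤ H`. -/
structure Tup (p : ℕ) [Fact p.Prime] (Γ : ℤ_[p] → ℤ_[p]) (ℓ b D H c : ℕ)
    (𝒜 : Finset (Fin ℓ → ℕ)) : Prop where
  lt : ∀ α ∈ 𝒜, ∀ i, α i < b
  sum : ∀ α ∈ 𝒜, ∑ i, α i = c
  alg : ∀ α ∈ 𝒜, ∃ s : Fin ℓ → ℤ_[p], (∀ i, (b : ℤ_[p]) * s i = α i) ∧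
    DegLE D (∏ i, Γ (p * s i))
  nd : ∀ α ∈ 𝒜, ∀ i j, i ≠ j → ∀ m m' : ℕ, 1 ≤ m → m ≤ H → 1 ≤ m' → m' ≤ H →
    ¬ b ∣ m * α i + m' * α j

end GamE
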