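import Pool.Agent.GamE.ZDefs

/-!
# Elementary lemmas on translations

All are direct: `tr` is `aeval`, use `MvPolynomial.algHom_ext`, `eval_tr` by `MvPolynomial.induction_on` or
comparing algebra homomorphisms on the variables; `totalDegree_tr`: `tr γ f = aeval (X i + C (γ i)) f`, each
monomial of degree `k` is mapped to a product of `k` polynomials of degree at most one
(`totalDegree_finset_prod`, `totalDegree_pow`, `totalDegree_add`). `tr_ind` : `tr` preserves `supported`.
`dj_sh`: `Ind (sh γ I) J ↔ Ind I J` because `tr` maps `supported ℚ J` bijectively to itself.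
-/

namespace GamE

open MvPolynomial Finset

variable {r : ℕ}

theorem tr_tr (γ γ' : Fin r → ℚ) (f : RR r) : tr γ (tr γ' f) = tr (γ + γ') f := by
  have h : (tr γ).comp (tr γ') = tr (γ + γ') := by
    apply MvPolynomial.algHom_ext
    intro j
    simp only [tr, AlgHom.comp_apply, aeval_X, map_add, Pi.add_apply]
    rw [show (C (γ' j) : RR r) = algebraMap ℚ (RR r) (γ' j) from rfl, AlgHom.commutes]
    rw [show (algebraMap ℚ (RR r) (γ' j)) = C (γ' j) from rfl]
    ring
  exact DFunLike.congr_fun h f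

theorem tr_zero (f : RR r) : tr 0 f = f := by
  have h : tr (0 : Fin r → ℚ) = AlgHom.id ℚ (RR r) := by
    apply MvPolynomial.algHom_ext
    intro j
    simp [tr]
  rw [h]
  rfl

theorem eval_tr (γ x : Fin r → ℚ) (f : RR r) : eval x (tr γ f) = eval (x + γ) f := by
  have h : (aeval x : RR r →ₐ[ℚ] ℚ).comp (tr γ) = aeval (x + γ) := by
    apply MvPolynomial.algHom_ext
    intro j
    simp [tr]
  have h2 := DFunLike.congr_fun h f
  simpa [MvPolynomial.coe_aeval_eq_eval] using h2

theorem totalDegree_tr (γ : Fin r → ℚ) (f : RR r) : (tr γ f).totalDegree ≤ f.totalDegree := by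
  have h1 : tr γ f = ∑ d ∈ f.support, C (coeff d f) * ∏ i ∈ d.support, (X i + C (γ i)) ^ d i := by
    unfold tr
    rw [aeval_def, eval₂_eq]
    rfl
  rw [h1]
  apply MvPolynomial.totalDegree_finsetSum_le
  intro d hd
  refine (totalDegree_mul _ _).trans ?_
  rw [totalDegree_C, zero_add]
  refine (totalDegree_finsetProd _ _).trans ?_
  refine le_trans ?_ (le_totalDegree hd)
  unfold Finsupp.sum
  apply Finset.sum_le_sum
  intro i _
  refine (totalDegree_pow _ _).trans ?_
  have : (X i + C (γ i) : RR r).totalDegree ≤ 1 := by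
    refine (totalDegree_add _ _).trans ?_
    rw [totalDegree_X, totalDegree_C]
    simp
  calc d i * (X i + C (γ i) : RR r).totalDegree ≤ d i * 1 := Nat.mul_le_mul_left _ this
    _ = d i := mul_one _

private theorem tr_neg_tr (γ : Fin r → ℚ) (f : RR r) : tr (-γ) (tr γ f) = f := by
  rw [tr_tr, neg_add_cancel, tr_zero]

private theorem tr_tr_neg (γ : Fin r → ℚ) (f : RR r) : tr γ (tr (-γ) f) = f := by
  rw [tr_tr, add_neg_cancel, tr_zero]

theorem tr_ne_zero (γ : Fin r → ℚ) {f : RR r} (hf : f ≠ 0) : tr γ f ≠ 0 := by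
  intro h
  apply hf
  rw [← tr_neg_tr γ f, h, map_zero]

theorem tr_supported (γ : Fin r → ℚ) {J : Set (Fin r)} {f : RR r} (hf : f ∈ supported ℚ J) :
    tr γ f ∈ supported ℚ J := by
  have h : (supported ℚ J : Subalgebra ℚ (RR r)) ≤ (supported ℚ J).comap (tr γ) := by
    conv_lhs => rw [supported_eq_adjoin_X]
    rw [Algebra.adjoin_le_iff]
    rintro _ ⟨i, hi, rfl⟩
    rw [SetLike.mem_coe, Subalgebra.mem_comap]
    unfold tr
    rw [aeval_X]
    refine add_mem ?_ ?_
    · rw [supported_eq_adjoin_X]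
      exact Algebra.subset_adjoin ⟨i, hi, rfl⟩
    · exact (supported ℚ J).algebraMap_mem _
  exact h hf

theorem qv_add (γ γ' : Fin r → ℤ) : qv (γ + γ') = qv γ + qv γ' := by
  funext i
  simp [qv]

theorem sh_sh (γ γ' : Fin r → ℤ) (I : Ideal (RR r)) : sh γ (sh γ' I) = sh (γ + γ') I := by
  ext f
  unfold sh
  rw [Ideal.mem_comap, Ideal.mem_comap, Ideal.mem_comap, tr_tr, qv_add, add_comm]

private theorem qv_zero : qv (0 : Fin r → ℤ) = 0 := by
  funext i
  simp [qv]

private theorem qv_neg (γ : Fin r → ℤ) : qv (-γ) = - qv γ := by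
  funext i
  simp [qv]

theorem sh_zero (I : Ideal (RR r)) : sh 0 I = I := by
  ext f
  unfold sh
  rw [Ideal.mem_comap, qv_zero, tr_zero]

theorem sh_le_sh (γ : Fin r → ℤ) {I J : Ideal (RR r)} : sh γ I ≤ sh γ J ↔ I ≤ J := by
  constructor
  · intro h f hf
    have h1 : tr (-qv γ) f ∈ sh γ I := by
      unfold sh
      rw [Ideal.mem_comap, tr_tr_neg]
      exact hf
    have h2 := h h1
    unfold sh at h2
    rw [Ideal.mem_comap, tr_tr_neg] at h2
    exact h2
  · intro h
    exact Ideal.comap_mono h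

theorem sh_prime (γ : Fin r → ℤ) {I : Ideal (RR r)} (hI : I.IsPrime) : (sh γ I).IsPrime :=
  Ideal.comap_isPrime _ I

private theorem ind_sh (γ : Fin r → ℤ) (I : Ideal (RR r)) (J : Finset (Fin r)) :
    Ind I J → Ind (sh γ I) J := by
  intro h f hf hfi
  unfold sh at hfi
  rw [Ideal.mem_comap] at hfi
  have h0 := h _ (tr_supported (qv γ) hf) hfi
  by_contra hne
  exact tr_ne_zero (qv γ) hne h0

theorem dj_sh (γ : Fin r → ℤ) (I : Ideal (RR r)) : dj (sh γ I) = dj I := by
  classical
  have hiff : ∀ J, Ind (sh γ I) J ↔ Ind I J := by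
    intro J
    constructor
    · intro h
      have := ind_sh (-γ) _ J h
      rw [sh_sh, neg_add_cancel, sh_zero] at this
      exact this
    · exact ind_sh γ I J
  unfold dj
  congr 1
  ext J
  simp only [Finset.mem_filter, Finset.mem_univ, true_and]
  exact hiff J

/-- the zeros of the translated ideal -/
theorem eval_sh {γ : Fin r → ℤ} {I : Ideal (RR r)} {x : Fin r → ℚ}
    (h : ∀ g ∈ sh γ I, eval x g = 0) : ∀ g ∈ I, eval (x - qv γ) g = 0 := by
  intro g hg
  have h1 : tr (-qv γ) g ∈ sh γ I := by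
    unfold sh
    rw [Ideal.mem_comap, tr_tr_neg]
    exact hg
  have h2 := h _ h1
  rw [eval_tr] at h2
  rw [sub_eq_add_neg]
  exact h2

theorem JJ_mono {f : RR r} {K K' : ℕ} (h : K ≤ K') : JJ f K ≤ JJ f K' := by
  unfold JJ
  apply Ideal.span_mono
  rintro _ ⟨γ, hγ, rfl⟩
  refine ⟨γ, fun i => ⟨(hγ i).1, (hγ i).2.trans ?_⟩, rfl⟩
  exact_mod_cast h

/-- if all the translates by the box `[0, K + M]` are in `I`, then all the translates by the box `[0, K]`
are in `sh γ I`, `γ ∈ [0, M]` -/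
theorem JJ_sh {f : RR r} {K M : ℕ} {I : Ideal (RR r)} (h : JJ f (K + M) ≤ I) {γ : Fin r → ℤ}
    (hγ : ∀ i, 0 ≤ γ i ∧ γ i ≤ M) : JJ f K ≤ sh γ I := by
  unfold JJ
  rw [Ideal.span_le]
  rintro _ ⟨δ, hδ, rfl⟩
  rw [SetLike.mem_coe]
  unfold sh
  rw [Ideal.mem_comap, tr_tr, ← qv_add]
  apply h
  apply Ideal.subset_span
  refine ⟨γ + δ, fun i => ?_, rfl⟩
  have h1 := hγ i
  have h2 := hδ i
  rw [Pi.add_apply]
  push_cast
  constructor
  · linarith [h1.1, h2.1]
  · linarith [h1.2, h2.2]

end GamE
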