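import Pool.Agent.GamE.DjLt
import Pool.Agent.GamE.TrL

/-!
# Primes which are stable under many translations

PROOF of `stab_affine`. Let `φ : RR r → MvPolynomial (Fin m) ℚ` be the algebra homomorphism
`X j ↦ C (x j) + ∑ i, C (v i j) * X i`, `I' = ker φ`, a prime. `𝔮 ≤ I'`: for `f ∈ 𝔮` and `n : Fin m → ℕ`,
`f (x + ∑ n_i v_i) = 0` (`eval_tr`, stability, induction), so `φ f` vanishes on `ℕ^m`, so `φ f = 0`
(`MvPolynomial.funext_set` or similar: infinite sets in each coordinate).
There is `J : Finset (Fin r)` with `J.card = m` such that the columns `(v i j)_i`, `j ∈ J`, are a basis of `ℚ^m` (the rows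
are independent, so the columns span; extract a basis). Then `Ind I' J`: on `supported ℚ J` the map `φ` is injective
(an invertible affine change of variables). So `m = J.card ≤ dj I' ≤ dj 𝔮` (`le_dj`, `dj_anti`): first claim.
If `dj 𝔮 = m`: then `𝔮 = I'`, otherwise `𝔮 < I'` and `dj I' < dj 𝔮 = m` by `dj_lt`, contradiction. Now let `y` be a zero of
`𝔮 = I'`. For every linear form `l` on `ℚ^r` which vanishes on all `v i`, the polynomial `∑ j, C (l_j) * (X j - C (x j))` is in
`ker φ`, so `l (y - x) = 0`; so `y - x ∈ span v` (`Submodule.exists_le_ker_of_notMem` or dual annihilators).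
-/

namespace GamE

open MvPolynomial Finset

/-- the parametrisation -/
private noncomputable def parA {r m : ℕ} (v : Fin m → Fin r → ℚ) (x : Fin r → ℚ) :
    RR r →ₐ[ℚ] MvPolynomial (Fin m) ℚ :=
  aeval (fun j => C (x j) + ∑ i, C (v i j) * X i)

private theorem eval_parA {r m : ℕ} (v : Fin m → Fin r → ℚ) (x : Fin r → ℚ) (a : Fin m → ℚ)
    (f : RR r) : eval a (parA v x f) = eval (fun j => x j + ∑ i, v i j * a i) f := by
  have h : (aeval a : MvPolynomial (Fin m) ℚ →ₐ[ℚ] ℚ).comp (parA v x) =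
      aeval (fun j => x j + ∑ i, v i j * a i) := by
    apply MvPolynomial.algHom_ext
    intro j
    simp [parA]
  have h2 := DFunLike.congr_fun h f
  simpa [MvPolynomial.coe_aeval_eq_eval] using h2

private theorem tr_stab {r m : ℕ} {𝔮 : Ideal (RR r)} {v : Fin m → Fin r → ℚ}
    (hstab : ∀ i, ∀ f ∈ 𝔮, tr (v i) f ∈ 𝔮) (n : Fin m → ℕ) :
    ∀ f ∈ 𝔮, tr (∑ i, n i • v i) f ∈ 𝔮 := by
  let S : AddSubmonoid (Fin r → ℚ) :=
    { carrier := {w | ∀ f ∈ 𝔮, tr w f ∈ 𝔮}
      zero_mem' := by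
        intro f hf
        rw [tr_zero]
        exact hf
      add_mem' := by
        intro a b ha hb f hf
        rw [← tr_tr]
        exact ha _ (hb _ hf) }
  have hm : ∀ i, v i ∈ S := hstab
  have : (∑ i, n i • v i) ∈ S := sum_mem (fun i _ => nsmul_mem (hm i) _)
  exact this

private theorem le_kerA {r m : ℕ} {𝔮 : Ideal (RR r)} {v : Fin m → Fin r → ℚ}
    (hstab : ∀ i, ∀ f ∈ 𝔮, tr (v i) f ∈ 𝔮) {x : Fin r → ℚ}
    (hx : ∀ f ∈ 𝔮, eval x f = 0) : 𝔮 ≤ RingHom.ker (parA v x) := by
  intro f hf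
  rw [RingHom.mem_ker]
  apply MvPolynomial.funext_set (fun _ => Set.range (fun n : ℕ => (n : ℚ)))
    (fun _ => Set.infinite_range_of_injective Nat.cast_injective)
  intro a ha
  have ha' : ∀ i, ∃ n : ℕ, (n : ℚ) = a i := fun i => ha i (Set.mem_univ i)
  choose n hn using ha'
  rw [map_zero, eval_parA]
  have h := hx _ (tr_stab hstab n f hf)
  rw [eval_tr] at h
  rw [← h]
  congr 2
  funext j
  rw [Pi.add_apply, Finset.sum_apply]
  congr 1
  exact Finset.sum_congr rfl (fun i _ => by rw [← hn i, Pi.smul_apply, nsmul_eq_mul]; ring)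

/-- good column sets -/
private def Qs {r m : ℕ} (v : Fin m → Fin r → ℚ) (J : Finset (Fin r)) : Prop :=
  ∀ a : Fin m → ℚ, (∀ j ∈ J, ∑ i, v i j * a i = 0) → a = 0

private theorem exists_J {r m : ℕ} {v : Fin m → Fin r → ℚ} (hv : LinearIndependent ℚ v) :
    ∃ J : Finset (Fin r), J.card = m ∧ ∀ t : Fin r → ℚ, ∃ a : Fin m → ℚ,
      ∀ j ∈ J, ∑ i, v i j * a i = t j := by
  classical
  have hQ : Qs v univ := by
    intro a ha
    rw [Fintype.linearIndependent_iff] at hv
    funext i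
    apply hv a
    funext j
    have := ha j (mem_univ j)
    simp only [Finset.sum_apply, Pi.smul_apply, smul_eq_mul, Pi.zero_apply]
    rw [← this]
    exact Finset.sum_congr rfl (fun i _ => mul_comm _ _)
  have hex : ∃ n, ∃ J : Finset (Fin r), J.card = n ∧ Qs v J := ⟨_, univ, rfl, hQ⟩
  obtain ⟨J, hJn, hJ⟩ := Nat.find_spec hex
  have hmin : ∀ J' : Finset (Fin r), Qs v J' → J.card ≤ J'.card := by
    intro J' h'
    rw [hJn]
    exact Nat.find_min' hex ⟨J', rfl, h'⟩
  have hdel : ∀ j0 ∈ J, ∃ a : Fin m → ℚ, ∀ j ∈ J, ∑ i, v i j * a i = if j = j0 then 1 else 0 := by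
    intro j0 hj0
    have hn : ¬ Qs v (J.erase j0) := by
      intro h
      have h1 := hmin _ h
      rw [card_erase_of_mem hj0] at h1
      have h2 : 0 < J.card := card_pos.2 ⟨j0, hj0⟩
      omega
    unfold Qs at hn
    push Not at hn
    obtain ⟨a, ha, ha0⟩ := hn
    have hne : ∑ i, v i j0 * a i ≠ 0 := by
      intro h0
      apply ha0
      apply hJ a
      intro j hj
      by_cases hjj : j = j0
      · rw [hjj]; exact h0
      · exact ha j (mem_erase.2 ⟨hjj, hj⟩)
    refine ⟨fun i => (∑ i, v i j0 * a i)⁻¹ * a i, fun j hj => ?_⟩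
    have he : ∑ i, v i j * ((∑ i, v i j0 * a i)⁻¹ * a i) =
        (∑ i, v i j0 * a i)⁻¹ * ∑ i, v i j * a i := by
      rw [Finset.mul_sum]
      exact Finset.sum_congr rfl (fun i _ => by ring)
    rw [he]
    split_ifs with hjj
    · rw [hjj, inv_mul_cancel₀ hne]
    · rw [ha j (mem_erase.2 ⟨hjj, hj⟩), mul_zero]
  choose! b hb using hdel
  have hsur : ∀ t : Fin r → ℚ, ∃ a : Fin m → ℚ, ∀ j ∈ J, ∑ i, v i j * a i = t j := by
    intro t
    refine ⟨fun i => ∑ j0 ∈ J, t j0 * b j0 i, fun j hj => ?_⟩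
    calc ∑ i, v i j * ∑ j0 ∈ J, t j0 * b j0 i
        = ∑ j0 ∈ J, t j0 * ∑ i, v i j * b j0 i := by
          simp_rw [Finset.mul_sum]
          rw [Finset.sum_comm]
          exact Finset.sum_congr rfl (fun _ _ => Finset.sum_congr rfl (fun _ _ => by ring))
      _ = ∑ j0 ∈ J, t j0 * (if j = j0 then 1 else 0) :=
          Finset.sum_congr rfl (fun j0 h0 => by rw [hb j0 h0 j hj])
      _ = t j := by simp [hj]
  refine ⟨J, ?_, hsur⟩
  let L : (Fin m → ℚ) →ₗ[ℚ] (J → ℚ) :=
    { toFun := fun a j => ∑ i, v i j * a i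
      map_add' := by
        intro a b
        funext j
        simp only [Pi.add_apply, mul_add, Finset.sum_add_distrib]
      map_smul' := by
        intro c a
        funext j
        simp only [Pi.smul_apply, smul_eq_mul, RingHom.id_apply, Finset.mul_sum]
        exact Finset.sum_congr rfl (fun _ _ => by ring) }
  have hLi : Function.Injective L := by
    rw [← LinearMap.ker_eq_bot, LinearMap.ker_eq_bot']
    intro a ha
    apply hJ a
    intro j hj
    exact congrFun ha ⟨j, hj⟩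
  have hLs : Function.Surjective L := by
    intro t
    obtain ⟨a, ha⟩ := hsur (fun j => if h : j ∈ J then t ⟨j, h⟩ else 0)
    refine ⟨a, ?_⟩
    funext j
    have := ha j j.2
    simpa [L] using this
  have h1 := (LinearEquiv.ofBijective L ⟨hLi, hLs⟩).finrank_eq
  simpa using h1.symm

private theorem ind_ker {r m : ℕ} (v : Fin m → Fin r → ℚ) (x : Fin r → ℚ) {J : Finset (Fin r)}
    (hJ : ∀ t : Fin r → ℚ, ∃ a : Fin m → ℚ, ∀ j ∈ J, ∑ i, v i j * a i = t j) :
    Ind (RingHom.ker (parA v x)) J := by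
  intro f hfs hf
  rw [RingHom.mem_ker] at hf
  apply MvPolynomial.funext
  intro t
  obtain ⟨a, ha⟩ := hJ (fun j => t j - x j)
  have h1 := eval_parA v x a f
  rw [hf, map_zero] at h1
  rw [map_zero, h1]
  rw [mem_supported] at hfs
  apply MvPolynomial.eval₂_congr
  intro i c hic hc
  have hi : i ∈ (J : Set (Fin r)) := by
    apply hfs
    rw [mem_coe, mem_vars_iff_mem_support]
    exact ⟨c, mem_support_iff.2 hc, hic⟩
  rw [ha i (mem_coe.1 hi)]
  ring

theorem stab_affine {r m : ℕ} {𝔮 : Ideal (RR r)} (hq : 𝔮.IsPrime) {v : Fin m → Fin r → ℚ}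
    (hv : LinearIndependent ℚ v) (hstab : ∀ i, ∀ f ∈ 𝔮, tr (v i) f ∈ 𝔮) {x : Fin r → ℚ}
    (hx : ∀ f ∈ 𝔮, eval x f = 0) :
    m ≤ dj 𝔮 ∧ (dj 𝔮 = m → ∀ y : Fin r → ℚ, (∀ f ∈ 𝔮, eval y f = 0) →
      y - x ∈ Submodule.span ℚ (Set.range v)) := by
  obtain ⟨J, hJc, hJ⟩ := exists_J hv
  have hle := le_kerA hstab hx
  have hmk : m ≤ dj (RingHom.ker (parA v x)) := by
    have := le_dj (ind_ker v x hJ)
    omega
  have hprime : (RingHom.ker (parA v x)).IsPrime := RingHom.ker_isPrime _
  refine ⟨hmk.trans (dj_anti hle), fun hdj y hy => ?_⟩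
  have heq : 𝔮 = RingHom.ker (parA v x) := by
    by_contra hne
    have := dj_lt hq hprime (lt_of_le_of_ne hle hne)
    omega
  by_contra hns
  obtain ⟨l, hl0, hl⟩ := Submodule.exists_le_ker_of_notMem hns
  have hlv : ∀ i, l (v i) = 0 := fun i => hl (Submodule.subset_span ⟨i, rfl⟩)
  have hlsum : ∀ w : Fin r → ℚ, l w = ∑ j, w j * l (Pi.single j 1) := by
    intro w
    conv_lhs => rw [pi_eq_sum_univ' w]
    rw [map_sum]
    refine Finset.sum_congr rfl (fun j _ => ?_)
    rw [map_smul, smul_eq_mul]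
  have hg : (∑ j, C (l (Pi.single j 1)) * (X j - C (x j)) : RR r) ∈ RingHom.ker (parA v x) := by
    rw [RingHom.mem_ker]
    apply MvPolynomial.funext
    intro a
    rw [map_zero, eval_parA, map_sum]
    have : ∀ j, eval (fun j => x j + ∑ i, v i j * a i) (C (l (Pi.single j 1)) * (X j - C (x j)) : RR r) =
        ∑ i, a i * (v i j * l (Pi.single j 1)) := by
      intro j
      simp only [map_mul, map_sub, eval_C, eval_X]
      rw [add_sub_cancel_left, Finset.mul_sum]
      exact Finset.sum_congr rfl (fun i _ => by ring)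
    rw [Finset.sum_congr rfl (fun j _ => this j), Finset.sum_comm]
    apply Finset.sum_eq_zero
    intro i _
    rw [← Finset.mul_sum, ← hlsum, hlv, mul_zero]
  rw [← heq] at hg
  have h2 := hy _ hg
  apply hl0
  rw [hlsum, ← h2, map_sum]
  refine Finset.sum_congr rfl (fun j _ => ?_)
  simp only [map_mul, map_sub, eval_C, eval_X, Pi.sub_apply]
  ring

end GamE
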