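import Mathlib

/-!
# Numerical inequalities for the choice of the parameters

`T₂ = Z^(12 r + 5)`, `T₁ = Z^(h+8) T₂ N`, `e = Z^5 T₁`, `L = Z^8 T₁`.

PROOFS.
* `num3a`: `2 p^4 ≤ Z^4` (`2 p ≤ Z`), so `(2 p^4 Z^8 T₁)^r ≤ Z^(12 r) T₁^r`, `2 Z^8 T₁ ≤ Z^9 T₁`; the left side is at most
  `Z^(12 r + 9) T₁^(r+1)`, the right side is `Z^(12 r + 10) T₁^(r+1)`, `Z ≥ 2`.
* `num3b`: everything is at most a power of `2`: `M = (2 p b ℓ)^(3 p ℓ G) ≤ 2^(Z * 3 p ℓ G) ≤ 2^(Z^4 G) = 2^(Z^(h+6) N)`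
  (`3 p ℓ ≤ Z^3`), so `M^T₂ ≤ 2^T₁`; `b ≤ 2^Z`, `p ≤ 2^Z`, `G ≤ T₁`, so `(p^T₁ b^(2T₁) 2^(G+T₁))^r ≤ 2^(r (3 Z + 2) T₁)`;
  `T₁^r ≤ 2^(r T₁)`; `p^(Z^5 T₁) ≤ 2^(Z^6 T₁)`. The bracket is at most `2^((r (3 Z + 3) + 1 + Z^6) T₁) ≤ 2^(2 Z^6 T₁)`
  (`r + 1 ≤ Z`), its `D`-th power at most `2^(2 Z^7 T₁)`; `(D + T₂)! Y^T₂ ≤ N ≤ 2^T₁`. Total
  `≤ 2^((2 Z^7 + 1) T₁) < 2^(2 Z^8 T₁) ≤ p^(2 Z^8 T₁)`.
-/

namespace GamE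

theorem num3a {p Z r T₁ T₂ : ℕ} (hp : 2 ≤ p) (hpZ : 2 * p ≤ Z) (hT₁ : 1 ≤ T₁)
    (hT₂ : T₂ = Z ^ (12 * r + 5)) :
    2 * (Z ^ 8 * T₁) * (2 * p ^ 4 * (Z ^ 8 * T₁)) ^ r < Z ^ 5 * T₁ * (T₁ ^ r * T₂) := by
  have hZ : 4 ≤ Z := by omega
  have h1 : 2 * p ^ 4 ≤ Z ^ 4 := by
    calc 2 * p ^ 4 ≤ 16 * p ^ 4 := Nat.mul_le_mul_right _ (by norm_num)
      _ = (2 * p) ^ 4 := by ring
      _ ≤ Z ^ 4 := Nat.pow_le_pow_left hpZ 4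
  have h2 : 2 * p ^ 4 * (Z ^ 8 * T₁) ≤ Z ^ 12 * T₁ := by
    calc 2 * p ^ 4 * (Z ^ 8 * T₁) ≤ Z ^ 4 * (Z ^ 8 * T₁) := Nat.mul_le_mul_right _ h1
      _ = Z ^ 12 * T₁ := by ring
  have h3 : (2 * p ^ 4 * (Z ^ 8 * T₁)) ^ r ≤ (Z ^ 12 * T₁) ^ r := Nat.pow_le_pow_left h2 r
  have hpos : 0 < Z ^ 8 * T₁ * (Z ^ (12 * r) * T₁ ^ r) := by positivity
  calc 2 * (Z ^ 8 * T₁) * (2 * p ^ 4 * (Z ^ 8 * T₁)) ^ r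
      ≤ 2 * (Z ^ 8 * T₁) * (Z ^ 12 * T₁) ^ r := Nat.mul_le_mul_left _ h3
    _ = 2 * (Z ^ 8 * T₁ * (Z ^ (12 * r) * T₁ ^ r)) := by
        rw [mul_pow, ← pow_mul]
        ring
    _ < 4 ^ 2 * (Z ^ 8 * T₁ * (Z ^ (12 * r) * T₁ ^ r)) := by
        apply Nat.mul_lt_mul_of_pos_right (by norm_num) hpos
    _ ≤ Z ^ 2 * (Z ^ 8 * T₁ * (Z ^ (12 * r) * T₁ ^ r)) := by
        apply Nat.mul_le_mul_right
        exact Nat.pow_le_pow_left hZ 2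
    _ = Z ^ 5 * T₁ * (T₁ ^ r * T₂) := by
        rw [hT₂, pow_add Z (12 * r) 5]
        ring

theorem num3b {p Z r b ℓ D Y h N T₁ T₂ G : ℕ} (hp : 2 ≤ p) (hpZ : 2 * p ≤ Z) (hb : 1 ≤ b)
    (hℓ : 1 ≤ ℓ) (hZ : 2 * p * b * ℓ ≤ 2 ^ Z) (hℓZ : ℓ ≤ Z) (hrZ : r + 1 ≤ Z) (hDZ : D ≤ Z)
    (hT₂ : 1 ≤ T₂) (hT₁ : T₁ = Z ^ (h + 8) * T₂ * N) (hG : G = Z ^ (h + 2) * N)
    (hN : (D + T₂).factorial * Y ^ T₂ ≤ N) (hN1 : 1 ≤ N) :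
    (D + T₂).factorial * Y ^ T₂ * (T₁ ^ r * p ^ (Z ^ 5 * T₁) *
      (p ^ T₁ * b ^ (2 * T₁) * 2 ^ (G + T₁)) ^ r * ((2 * p * b * ℓ) ^ (3 * p * ℓ * G)) ^ T₂) ^ D <
      p ^ (2 * (Z ^ 8 * T₁)) := by
  have hZ4 : 4 ≤ Z := by omega
  have hZ1 : 1 ≤ Z := by omega
  have hT₁pos : 1 ≤ T₁ := by
    rw [hT₁]
    have : 0 < Z ^ (h + 8) * T₂ * N := by positivity
    omega
  -- the sizes of `p` and `b`
  have hbl : 1 ≤ b * ℓ := Nat.mul_pos hb hℓ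
  have hpl : 1 ≤ 2 * p * ℓ := Nat.mul_pos (by omega) hℓ
  have hp2 : p ≤ 2 ^ Z := by
    calc p ≤ 2 * p := by omega
      _ ≤ 2 * p * (b * ℓ) := Nat.le_mul_of_pos_right _ hbl
      _ = 2 * p * b * ℓ := by ring
      _ ≤ 2 ^ Z := hZ
  have hb2 : b ≤ 2 ^ Z := by
    calc b ≤ b * (2 * p * ℓ) := Nat.le_mul_of_pos_right _ hpl
      _ = 2 * p * b * ℓ := by ring
      _ ≤ 2 ^ Z := hZ
  -- the last factor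
  have h3pl : 3 * p * ℓ ≤ Z ^ 3 := by
    calc 3 * p * ℓ ≤ 4 * p * ℓ := Nat.mul_le_mul_right _ (by omega)
      _ = 2 * (2 * p) * ℓ := by ring
      _ ≤ Z * Z * Z := Nat.mul_le_mul (Nat.mul_le_mul (by omega) hpZ) hℓZ
      _ = Z ^ 3 := by ring
  have hM : ((2 * p * b * ℓ) ^ (3 * p * ℓ * G)) ^ T₂ ≤ 2 ^ T₁ := by
    calc ((2 * p * b * ℓ) ^ (3 * p * ℓ * G)) ^ T₂
        ≤ ((2 ^ Z) ^ (3 * p * ℓ * G)) ^ T₂ :=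
          Nat.pow_le_pow_left (Nat.pow_le_pow_left hZ _) _
      _ = 2 ^ (Z * (3 * p * ℓ * G) * T₂) := by rw [← pow_mul, ← pow_mul]; ring_nf
      _ ≤ 2 ^ T₁ := by
          apply Nat.pow_le_pow_right (by norm_num)
          calc Z * (3 * p * ℓ * G) * T₂ ≤ Z * (Z ^ 3 * G) * T₂ :=
                Nat.mul_le_mul_right _ (Nat.mul_le_mul_left _ (Nat.mul_le_mul_right _ h3pl))
            _ = Z ^ (h + 6) * T₂ * N := by rw [hG]; ring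
            _ ≤ Z ^ (h + 8) * T₂ * N :=
                Nat.mul_le_mul_right _ (Nat.mul_le_mul_right _
                  (Nat.pow_le_pow_right hZ1 (by omega)))
            _ = T₁ := hT₁.symm
  have hGT : G ≤ T₁ := by
    rw [hG, hT₁]
    calc Z ^ (h + 2) * N ≤ Z ^ (h + 8) * N :=
          Nat.mul_le_mul_right _ (Nat.pow_le_pow_right hZ1 (by omega))
      _ ≤ Z ^ (h + 8) * T₂ * N :=
          Nat.mul_le_mul_right _ (Nat.le_mul_of_pos_right _ hT₂)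
  have hNT : N ≤ T₁ := by
    rw [hT₁]
    exact Nat.le_mul_of_pos_left _ (by positivity)
  have hA : (p ^ T₁ * b ^ (2 * T₁) * 2 ^ (G + T₁)) ^ r ≤ 2 ^ (r * (3 * Z + 2) * T₁) := by
    have h1 : p ^ T₁ * b ^ (2 * T₁) * 2 ^ (G + T₁) ≤ 2 ^ ((3 * Z + 2) * T₁) := by
      calc p ^ T₁ * b ^ (2 * T₁) * 2 ^ (G + T₁)
          ≤ (2 ^ Z) ^ T₁ * (2 ^ Z) ^ (2 * T₁) * 2 ^ (T₁ + T₁) := by
            apply Nat.mul_le_mul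
            · exact Nat.mul_le_mul (Nat.pow_le_pow_left hp2 _) (Nat.pow_le_pow_left hb2 _)
            · exact Nat.pow_le_pow_right (by norm_num) (by omega)
        _ = 2 ^ ((3 * Z + 2) * T₁) := by
            rw [← pow_mul, ← pow_mul, ← pow_add, ← pow_add]
            congr 1
            ring
    calc (p ^ T₁ * b ^ (2 * T₁) * 2 ^ (G + T₁)) ^ r ≤ (2 ^ ((3 * Z + 2) * T₁)) ^ r :=
          Nat.pow_le_pow_left h1 r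
      _ = 2 ^ (r * (3 * Z + 2) * T₁) := by
          rw [← pow_mul]
          congr 1
          ring
  have hB : T₁ ^ r ≤ 2 ^ (r * T₁) := by
    calc T₁ ^ r ≤ (2 ^ T₁) ^ r := Nat.pow_le_pow_left Nat.lt_two_pow_self.le r
      _ = 2 ^ (r * T₁) := by rw [← pow_mul, Nat.mul_comm]
  have hC : p ^ (Z ^ 5 * T₁) ≤ 2 ^ (Z ^ 6 * T₁) := by
    calc p ^ (Z ^ 5 * T₁) ≤ (2 ^ Z) ^ (Z ^ 5 * T₁) := Nat.pow_le_pow_left hp2 _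
      _ = 2 ^ (Z ^ 6 * T₁) := by
          rw [← pow_mul]
          congr 1
          ring
  have hr6 : r * (3 * Z + 3) + 1 ≤ Z ^ 6 := by
    have h1 : r * (3 * Z + 3) + 1 ≤ Z * (3 * Z + 3) + Z * Z := by
      have h2 : r * (3 * Z + 3) ≤ Z * (3 * Z + 3) := Nat.mul_le_mul_right _ (by omega)
      have h3 : 1 ≤ Z * Z := Nat.mul_pos hZ1 hZ1
      omega
    have h4 : Z * (3 * Z + 3) + Z * Z ≤ 4 ^ 4 * Z ^ 2 := by nlinarith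
    have h5 : 4 ^ 4 * Z ^ 2 ≤ Z ^ 4 * Z ^ 2 := Nat.mul_le_mul_right _ (Nat.pow_le_pow_left hZ4 4)
    calc r * (3 * Z + 3) + 1 ≤ Z * (3 * Z + 3) + Z * Z := h1
      _ ≤ 4 ^ 4 * Z ^ 2 := h4
      _ ≤ Z ^ 4 * Z ^ 2 := h5
      _ = Z ^ 6 := by ring
  have hbr : T₁ ^ r * p ^ (Z ^ 5 * T₁) * (p ^ T₁ * b ^ (2 * T₁) * 2 ^ (G + T₁)) ^ r *
      ((2 * p * b * ℓ) ^ (3 * p * ℓ * G)) ^ T₂ ≤ 2 ^ (2 * Z ^ 6 * T₁) := by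
    calc T₁ ^ r * p ^ (Z ^ 5 * T₁) * (p ^ T₁ * b ^ (2 * T₁) * 2 ^ (G + T₁)) ^ r *
          ((2 * p * b * ℓ) ^ (3 * p * ℓ * G)) ^ T₂
        ≤ 2 ^ (r * T₁) * 2 ^ (Z ^ 6 * T₁) * 2 ^ (r * (3 * Z + 2) * T₁) * 2 ^ T₁ :=
          Nat.mul_le_mul (Nat.mul_le_mul (Nat.mul_le_mul hB hC) hA) hM
      _ = 2 ^ ((r * (3 * Z + 3) + 1 + Z ^ 6) * T₁) := by
          rw [← pow_add, ← pow_add, ← pow_add]
          congr 1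
          ring
      _ ≤ 2 ^ (2 * Z ^ 6 * T₁) := by
          apply Nat.pow_le_pow_right (by norm_num)
          apply Nat.mul_le_mul_right
          omega
  have hfin : (D + T₂).factorial * Y ^ T₂ ≤ 2 ^ T₁ :=
    hN.trans (hNT.trans Nat.lt_two_pow_self.le)
  have hexp : T₁ + 2 * Z ^ 7 * T₁ < 2 * (Z ^ 8 * T₁) := by
    have h1 : Z ^ 8 = Z * Z ^ 7 := by ring
    have h2 : 4 * Z ^ 7 ≤ Z * Z ^ 7 := Nat.mul_le_mul_right _ hZ4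
    have h3 : 1 ≤ Z ^ 7 := Nat.one_le_pow _ _ hZ1
    have h4 : 1 + 2 * Z ^ 7 < 2 * Z ^ 8 := by omega
    calc T₁ + 2 * Z ^ 7 * T₁ = (1 + 2 * Z ^ 7) * T₁ := by ring
      _ < (2 * Z ^ 8) * T₁ := Nat.mul_lt_mul_of_pos_right h4 (by omega)
      _ = 2 * (Z ^ 8 * T₁) := by ring
  calc (D + T₂).factorial * Y ^ T₂ * (T₁ ^ r * p ^ (Z ^ 5 * T₁) *
      (p ^ T₁ * b ^ (2 * T₁) * 2 ^ (G + T₁)) ^ r * ((2 * p * b * ℓ) ^ (3 * p * ℓ * G)) ^ T₂) ^ D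
      ≤ 2 ^ T₁ * (2 ^ (2 * Z ^ 6 * T₁)) ^ D :=
        Nat.mul_le_mul hfin (Nat.pow_le_pow_left hbr D)
    _ ≤ 2 ^ T₁ * 2 ^ (2 * Z ^ 7 * T₁) := by
        apply Nat.mul_le_mul_left
        rw [← pow_mul]
        apply Nat.pow_le_pow_right (by norm_num)
        calc 2 * Z ^ 6 * T₁ * D ≤ 2 * Z ^ 6 * T₁ * Z := Nat.mul_le_mul_left _ hDZ
          _ = 2 * Z ^ 7 * T₁ := by ring
    _ = 2 ^ (T₁ + 2 * Z ^ 7 * T₁) := by rw [← pow_add]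
    _ < 2 ^ (2 * (Z ^ 8 * T₁)) := Nat.pow_lt_pow_right (by norm_num) hexp
    _ ≤ p ^ (2 * (Z ^ 8 * T₁)) := Nat.pow_le_pow_left hp _

end GamE
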