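import Mathlib

/-!
# The pigeonhole principle with `p`-adic values, for an arbitrary finite set of conditions

PROOF. Exactly as `pigeon2` of `Pool/Agent/GamP/Pig2.lean` (copy it), with the index type `κ` instead of `Fin L`: the map
`(ι → Fin (p^e)) → (κ → ZMod (p^(2L)))` is not injective because `(p^(2L))^(card κ) < (p^e)^(card ι)`.
-/

namespace GamE

open Finset

theorem pigeon3 {ι κ : Type*} [Fintype ι] [Fintype κ] {p : ℕ} [Fact p.Prime] (L e : ℕ)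
    (v : ι → κ → ℤ_[p]) (h : 2 * L * Fintype.card κ < e * Fintype.card ι) :
    ∃ c : ι → ℤ, (∃ i, c i ≠ 0) ∧ (∀ i, |c i| < (p : ℤ) ^ e) ∧
      ∀ t : κ, (p : ℤ_[p]) ^ (2 * L) ∣ ∑ i, (c i : ℤ_[p]) * v i t := by
  classical
  have hp : 2 ≤ p := (Fact.out : p.Prime).two_le
  have hp0 : 0 < p := by omega
  have hne : NeZero (p ^ (2 * L)) := ⟨(Nat.pow_pos hp0).ne'⟩
  let f : (ι → Fin (p ^ e)) → (κ → ZMod (p ^ (2 * L))) := fun x t =>
    PadicInt.toZModPow (2 * L) (∑ i, (((x i : ℕ) : ℤ) : ℤ_[p]) * v i t)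
  have hcard : Fintype.card (κ → ZMod (p ^ (2 * L))) < Fintype.card (ι → Fin (p ^ e)) := by
    rw [Fintype.card_fun, Fintype.card_fun, ZMod.card, Fintype.card_fin,
      ← pow_mul, ← pow_mul]
    exact Nat.pow_lt_pow_right (by omega) h
  obtain ⟨x, y, hxy, hf⟩ := Fintype.exists_ne_map_eq_of_card_lt f hcard
  refine ⟨fun i => ((x i : ℕ) : ℤ) - ((y i : ℕ) : ℤ), ?_, ?_, ?_⟩
  · by_contra hall
    push Not at hall
    apply hxy
    funext i
    have := hall i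
    apply Fin.ext
    omega
  · intro i
    have h1 : ((x i : ℕ) : ℤ) < (p : ℤ) ^ e := by exact_mod_cast (x i).2
    have h2 : ((y i : ℕ) : ℤ) < (p : ℤ) ^ e := by exact_mod_cast (y i).2
    have h3 : (0 : ℤ) ≤ ((x i : ℕ) : ℤ) := Int.natCast_nonneg _
    have h4 : (0 : ℤ) ≤ ((y i : ℕ) : ℤ) := Int.natCast_nonneg _
    rw [abs_lt]
    constructor <;> linarith
  · intro t
    have h1 : PadicInt.toZModPow (2 * L) (∑ i, (((x i : ℕ) : ℤ) : ℤ_[p]) * v i t) =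
        PadicInt.toZModPow (2 * L) (∑ i, (((y i : ℕ) : ℤ) : ℤ_[p]) * v i t) :=
      congrFun hf t
    have h2 : ∑ i, ((((x i : ℕ) : ℤ) - ((y i : ℕ) : ℤ) : ℤ) : ℤ_[p]) * v i t =
        ∑ i, (((x i : ℕ) : ℤ) : ℤ_[p]) * v i t - ∑ i, (((y i : ℕ) : ℤ) : ℤ_[p]) * v i t := by
      rw [← sum_sub_distrib]
      exact sum_congr rfl fun i _ => by rw [Int.cast_sub]; ring
    have h3 : (∑ i, ((((x i : ℕ) : ℤ) - ((y i : ℕ) : ℤ) : ℤ) : ℤ_[p]) * v i t) ∈
        RingHom.ker (PadicInt.toZModPow (p := p) (2 * L)) := by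
      rw [RingHom.mem_ker, h2, map_sub, h1, sub_self]
    rw [PadicInt.ker_toZModPow, Ideal.mem_span_singleton] at h3
    exact h3

end GamE
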