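import Pool.Agent.GamE.ADefs

/-!
# The points in the optimal coordinates

PROOF. In `ℚ_[p]` (`ℤ_[p] → ℚ_[p]` is injective, `b ≠ 0`): `s_i + g_i = s₀_i + ∑_j t_j e_j(i)` (`ht`, `b s_i = α_i`, `b s₀_i = α₀_i`), so with
`t'_j = t_j + n_j`: `s_i + (g_i + ∑ n_j e_j(i)) - s₀_i = ∑_j t'_j e_j(i) = ∑_j t'_j ∑_ι lam_{i,ι} e_j(I₀ ι)
= ∑_ι lam_{i,ι} (s_{I₀ ι} + g_{I₀ ι} + ∑ n_j e_j(I₀ ι) - s₀_{I₀ ι})`. `g_small`: `g_i = (α₀_i - α_i)/b + ∑ t_j e_j(i)`. `g_sum`: sum of `ht`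
over `i`.
-/

namespace GamE

open Finset GamP

theorem pts_rel {p : ℕ} [Fact p.Prime] {r ℓ b : ℕ} (hb : 1 ≤ b) {α α₀ : Fin ℓ → ℕ}
    {e : Fin r → Fin ℓ → ℤ} {t : Fin r → ℚ} {g : Fin ℓ → ℤ}
    (ht : ∀ i, (α i : ℚ) / b + g i = (α₀ i : ℚ) / b + ∑ j, t j * e j i)
    {I₀ : Fin r → Fin ℓ} {lam : Fin ℓ → Fin r → ℤ_[p]}
    (hlam : ∀ i j, (e j i : ℤ_[p]) = ∑ ι, lam i ι * (e j (I₀ ι) : ℤ_[p]))
    {s s₀ : Fin ℓ → ℤ_[p]} (hs : ∀ i, (b : ℤ_[p]) * s i = α i)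
    (hs₀ : ∀ i, (b : ℤ_[p]) * s₀ i = α₀ i) (n : Fin r → ℤ) (i : Fin ℓ) :
    (s₀ i - ∑ ι, lam i ι * s₀ (I₀ ι)) +
      ∑ ι, lam i ι * (s (I₀ ι) + ((g (I₀ ι) + ∑ j, n j * e j (I₀ ι) : ℤ) : ℤ_[p])) =
      s i + ((g i + ∑ j, n j * e j i : ℤ) : ℤ_[p]) := by
  have hbq : (b : ℚ_[p]) ≠ 0 := by
    have : b ≠ 0 := by omega
    exact_mod_cast this
  set φ : ℤ_[p] →+* ℚ_[p] := PadicInt.Coe.ringHom with hφ
  have inj : Function.Injective φ := Subtype.coe_injective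
  have hS : ∀ i, φ (s i) + g i = φ (s₀ i) + ∑ j, (t j : ℚ_[p]) * e j i := by
    intro i
    have h1 : φ (s i) = (α i : ℚ_[p]) / b := by
      rw [eq_div_iff hbq, mul_comm]
      have := congrArg φ (hs i)
      rwa [map_mul, map_natCast, map_natCast] at this
    have h2 : φ (s₀ i) = (α₀ i : ℚ_[p]) / b := by
      rw [eq_div_iff hbq, mul_comm]
      have := congrArg φ (hs₀ i)
      rwa [map_mul, map_natCast, map_natCast] at this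
    rw [h1, h2]
    have h3 := congrArg (fun x : ℚ => (x : ℚ_[p])) (ht i)
    push_cast at h3
    exact h3
  have hl : ∀ i j, (e j i : ℚ_[p]) = ∑ ι, φ (lam i ι) * (e j (I₀ ι) : ℚ_[p]) := by
    intro i j
    have h3 := congrArg φ (hlam i j)
    simpa only [map_sum, map_mul, map_intCast] using h3
  apply inj
  have h4 : ∀ ι, φ (s (I₀ ι)) + ((g (I₀ ι) : ℚ_[p]) + ∑ j, (n j : ℚ_[p]) * e j (I₀ ι)) =
      φ (s₀ (I₀ ι)) + ∑ j, ((t j : ℚ_[p]) + n j) * e j (I₀ ι) := by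
    intro ι
    rw [← add_assoc, hS (I₀ ι), add_assoc, ← sum_add_distrib]
    congr 1
    exact sum_congr rfl fun j _ => by ring
  have h5 : φ (s i) + ((g i : ℚ_[p]) + ∑ j, (n j : ℚ_[p]) * e j i) =
      φ (s₀ i) + ∑ j, ((t j : ℚ_[p]) + n j) * e j i := by
    rw [← add_assoc, hS i, add_assoc, ← sum_add_distrib]
    congr 1
    exact sum_congr rfl fun j _ => by ring
  simp only [map_add, map_sub, map_sum, map_mul, map_intCast, Int.cast_add, Int.cast_sum,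
    Int.cast_mul]
  have h6 : ∑ j, ((t j : ℚ_[p]) + n j) * e j i =
      ∑ ι, φ (lam i ι) * ∑ j, ((t j : ℚ_[p]) + n j) * e j (I₀ ι) := by
    simp_rw [mul_sum]
    rw [sum_comm]
    refine sum_congr rfl fun j _ => ?_
    rw [hl i j, mul_sum]
    exact sum_congr rfl fun ι _ => by ring
  have h7 : ∑ ι, φ (lam i ι) * (φ (s (I₀ ι)) +
      ((g (I₀ ι) : ℚ_[p]) + ∑ j, (n j : ℚ_[p]) * e j (I₀ ι))) =
      ∑ ι, φ (lam i ι) * φ (s₀ (I₀ ι)) +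
      ∑ ι, φ (lam i ι) * ∑ j, ((t j : ℚ_[p]) + n j) * e j (I₀ ι) := by
    rw [← sum_add_distrib]
    refine sum_congr rfl fun ι _ => ?_
    rw [h4 ι, mul_add]
  rw [h5, h7, h6]
  ring

theorem g_small {r ℓ b E : ℕ} {α α₀ : Fin ℓ → ℕ} (hα : ∀ i, α i < b) (hα₀ : ∀ i, α₀ i < b)
    {e : Fin r → Fin ℓ → ℤ} (he : ∀ j i, |e j i| ≤ (E : ℤ)) {t : Fin r → ℚ}
    (ht01 : ∀ j, 0 ≤ t j ∧ t j < 1) {g : Fin ℓ → ℤ}
    (ht : ∀ i, (α i : ℚ) / b + g i = (α₀ i : ℚ) / b + ∑ j, t j * e j i) (i : Fin ℓ) :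
    |g i| ≤ 1 + (r : ℤ) * E := by
  have hb : 0 < b := lt_of_le_of_lt (Nat.zero_le _) (hα i)
  have hbq : (0 : ℚ) < b := by exact_mod_cast hb
  have h1 : (g i : ℚ) = ((α₀ i : ℚ) - α i) / b + ∑ j, t j * e j i := by
    have := ht i
    field_simp at this ⊢
    linarith
  have h2 : |((α₀ i : ℚ) - α i) / b| ≤ 1 := by
    rw [abs_div, abs_of_pos hbq, div_le_one hbq, abs_le]
    have h3 : (α i : ℚ) < b := by exact_mod_cast hα i
    have h4 : (α₀ i : ℚ) < b := by exact_mod_cast hα₀ i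
    have h5 : (0 : ℚ) ≤ α i := by positivity
    have h6 : (0 : ℚ) ≤ α₀ i := by positivity
    constructor <;> linarith
  have h3 : |∑ j, t j * (e j i : ℚ)| ≤ (r : ℚ) * E := by
    refine (abs_sum_le_sum_abs _ _).trans ?_
    have : ∀ j ∈ (univ : Finset (Fin r)), |t j * (e j i : ℚ)| ≤ (E : ℚ) := by
      intro j _
      rw [abs_mul, abs_of_nonneg (ht01 j).1]
      have h4 : |(e j i : ℚ)| ≤ E := by exact_mod_cast he j i
      calc t j * |(e j i : ℚ)| ≤ 1 * |(e j i : ℚ)| :=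
            mul_le_mul_of_nonneg_right (ht01 j).2.le (abs_nonneg _)
        _ ≤ E := by rw [one_mul]; exact h4
    refine (sum_le_sum this).trans ?_
    rw [sum_const, card_univ, Fintype.card_fin, nsmul_eq_mul]
  have h4 : |(g i : ℚ)| ≤ 1 + (r : ℚ) * E := by
    rw [h1]
    exact (abs_add_le _ _).trans (add_le_add h2 h3)
  exact_mod_cast h4

theorem g_sum {r ℓ b : ℕ} (hb : 1 ≤ b) {α α₀ : Fin ℓ → ℕ} (hα : ∑ i, α i = ∑ i, α₀ i)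
    {e : Fin r → Fin ℓ → ℤ} (hes : ∀ j, ∑ i, e j i = 0) {t : Fin r → ℚ} {g : Fin ℓ → ℤ}
    (ht : ∀ i, (α i : ℚ) / b + g i = (α₀ i : ℚ) / b + ∑ j, t j * e j i) : ∑ i, g i = 0 := by
  have hbq : (b : ℚ) ≠ 0 := by
    have : b ≠ 0 := by omega
    exact_mod_cast this
  have h1 : ∑ i, ((α i : ℚ) / b + g i) = ∑ i, ((α₀ i : ℚ) / b + ∑ j, t j * e j i) :=
    sum_congr rfl fun i _ => ht i
  rw [sum_add_distrib, sum_add_distrib, ← sum_div, ← sum_div, sum_comm] at h1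
  have h2 : ∑ i, (α i : ℚ) = ∑ i, (α₀ i : ℚ) := by exact_mod_cast hα
  have h3 : ∑ j, ∑ i, t j * (e j i : ℚ) = 0 := by
    refine sum_eq_zero fun j _ => ?_
    rw [← mul_sum]
    have : ∑ i, (e j i : ℚ) = 0 := by exact_mod_cast hes j
    rw [this, mul_zero]
  rw [h2, h3] at h1
  have h4 : ∑ i, (g i : ℚ) = 0 := by linarith
  exact_mod_cast h4

end GamE
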