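import Pool.Agent.GamP.Bin

/-!
# Integrality and size of the binomials at a rational point (numerator of any sign)

PROOF. As `ep_int` of `GamP/Bin` (copy it). Size: `|a - b j| ≤ b (G + j)`, so
`|∏_{j<i} (a - b j)| ≤ b^i * ∏_{j<i} (G + j) = b^i * G.ascFactorial-like = b^i * i! * (G+i-1 choose i) ≤ b^i * i! * 2^(G+i)`
(`Nat.ascFactorial`/`Nat.multichoose`, or directly: `∏_{j<i} (G + j) ≤ i! * 2^(G+i)` by induction on `i`:
`G + i ≤ 2 (i+1) * ...` is false in general, so use binomial coefficients). Integrality: `fact_dvd_int` of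
`GamP/Bin`: `i! ∣ b^i * ∏_{j<i} (a - b j)` for every integer `a`; and `i! * choose z i = ∏ (z - j)` (`fact_choose`).
-/

namespace GamE

open Finset GamP

private theorem prod_sizeZ {b G : ℕ} {a : ℤ} (ha : |a| ≤ (b : ℤ) * G) (i : ℕ) :
    |∏ j ∈ range i, (a - (b : ℤ) * j)| ≤ (b : ℤ) ^ i * i.factorial * 2 ^ (G + i) := by
  rw [abs_prod]
  have hterm : ∀ j : ℕ, |a - (b : ℤ) * j| ≤ b * ((G + j : ℕ) : ℤ) := by
    intro j
    calc |a - (b : ℤ) * j| ≤ |a| + |(b : ℤ) * j| := abs_sub _ _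
      _ ≤ b * G + b * j := by
        rw [abs_of_nonneg (by positivity : (0 : ℤ) ≤ (b : ℤ) * j)]
        linarith
      _ = b * ((G + j : ℕ) : ℤ) := by push_cast; ring
  refine (prod_le_prod (fun _ _ => abs_nonneg _) fun j _ => hterm j).trans ?_
  rw [prod_mul_distrib, prod_const, card_range, mul_assoc]
  refine mul_le_mul_of_nonneg_left ?_ (by positivity)
  have h1 : ∏ j ∈ range i, ((G + j : ℕ) : ℤ) = ((G.ascFactorial i : ℕ) : ℤ) := by
    rw [Nat.ascFactorial_eq_prod_range]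
    push_cast
    rfl
  rw [h1, Nat.ascFactorial_eq_factorial_mul_choose']
  have h2 : (G + i - 1).choose i ≤ 2 ^ (G + i) :=
    (Nat.choose_le_two_pow _ _).trans (Nat.pow_le_pow_right (by norm_num) (Nat.sub_le _ _))
  have h3 : i.factorial * (G + i - 1).choose i ≤ i.factorial * 2 ^ (G + i) :=
    Nat.mul_le_mul_left _ h2
  exact_mod_cast h3

theorem ep_intZ {p : ℕ} [Fact p.Prime] {b i G : ℕ} {a : ℤ} (ha : |a| ≤ (b : ℤ) * G)
    {z : ℤ_[p]} (hz : (b : ℤ_[p]) * z = (a : ℤ_[p])) :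
    ∃ c : ℤ, |c| ≤ (p : ℤ) ^ i * (b : ℤ) ^ (2 * i) * 2 ^ (G + i) ∧
      (c : ℤ_[p]) = (b : ℤ_[p]) ^ (2 * i) * ep p i z := by
  have hp : p.Prime := Fact.out
  have hp1 : (1 : ℤ) ≤ p := by exact_mod_cast hp.pos
  obtain ⟨c', hc'⟩ := fact_dvd_int b a i
  have hfpos : (0 : ℤ) < (i.factorial : ℤ) := by exact_mod_cast i.factorial_pos
  have hfz : ((i.factorial : ℕ) : ℤ_[p]) ≠ 0 := by exact_mod_cast i.factorial_ne_zero
  refine ⟨(p : ℤ) ^ (padicValNat p i.factorial) * c', ?_, ?_⟩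
  · have h1 : |c'| * i.factorial ≤ (b : ℤ) ^ (2 * i) * 2 ^ (G + i) * i.factorial := by
      have h2 : |c'| * i.factorial = |(b : ℤ) ^ i * ∏ j ∈ range i, (a - (b : ℤ) * j)| := by
        rw [hc', abs_mul, abs_of_pos hfpos, mul_comm]
      rw [h2, abs_mul, abs_of_nonneg (by positivity : (0 : ℤ) ≤ (b : ℤ) ^ i)]
      calc (b : ℤ) ^ i * |∏ j ∈ range i, (a - (b : ℤ) * j)|
          ≤ (b : ℤ) ^ i * ((b : ℤ) ^ i * i.factorial * 2 ^ (G + i)) := by
            gcongr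
            exact prod_sizeZ ha i
        _ = (b : ℤ) ^ (2 * i) * 2 ^ (G + i) * i.factorial := by rw [two_mul i, pow_add]; ring
    have h3 : |c'| ≤ (b : ℤ) ^ (2 * i) * 2 ^ (G + i) := le_of_mul_le_mul_right h1 hfpos
    rw [abs_mul, abs_of_nonneg (by positivity : (0 : ℤ) ≤ (p : ℤ) ^ (padicValNat p i.factorial)),
      mul_assoc]
    have h4 : (p : ℤ) ^ padicValNat p i.factorial ≤ (p : ℤ) ^ i :=
      pow_le_pow_right₀ hp1 (val_fact_le hp i)
    exact mul_le_mul h4 h3 (abs_nonneg _) (by positivity)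
  · unfold ep
    have h1 : ((i.factorial : ℕ) : ℤ_[p]) * (c' : ℤ_[p]) =
        ((i.factorial : ℕ) : ℤ_[p]) * ((b : ℤ_[p]) ^ (2 * i) * Ring.choose z i) := by
      have h2 := congrArg (Int.cast : ℤ → ℤ_[p]) hc'
      push_cast at h2
      rw [← h2]
      have h3 : ((i.factorial : ℕ) : ℤ_[p]) * ((b : ℤ_[p]) ^ (2 * i) * Ring.choose z i) =
          (b : ℤ_[p]) ^ (2 * i) * (((i.factorial : ℕ) : ℤ_[p]) * Ring.choose z i) := by ring
      rw [h3, fact_choose, two_mul, pow_add, mul_assoc]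
      congr 1
      have h4 : ∏ j ∈ range i, ((a : ℤ_[p]) - b * j) =
          ∏ j ∈ range i, ((b : ℤ_[p]) * (z - j)) := by
        refine prod_congr rfl fun j _ => ?_
        rw [← hz]
        ring
      rw [h4, prod_mul_distrib, prod_const, card_range]
    have h5 := mul_left_cancel₀ hfz h1
    push_cast
    rw [h5]
    ring

end GamE
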