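import Pool.Agent.GamE.RatZ

/-!
# The height of `U(s + g) / U(s)`, `∑ g_i = 0`

PROOF. Let `n_i = |g_i|`, `S = ∑_{g_i ≥ 0} n_i = ∑_{g_i < 0} n_i`, `S ≤ ℓ G`. For `g_i ≥ 0`: `RZ_gamma` with `a = α_i`, `x = s_i`, `n = n_i`,
and `RZ_fact` (`|α_i| ≤ b (n_i + 1)`): with `c_i = (p b^2)^(n_i (p-1))`:
`c_i Γ(p (s_i + g_i)) = ± A_i (n_i!)^(p-1) Γ(p s_i)`. For `g_i < 0`: `a = α_i - n_i b` (`|a| ≤ b n_i + b`), `x = s_i - n_i`:
`c_i Γ(p s_i) = ± A_i (n_i!)^(p-1) Γ(p (s_i + g_i))`. Multiply the first ones, and the second ones: both products of the `c_i`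
are equal to `(p b^2)^(S (p-1))`, which cancels: `(∏_- ± A_i (n_i!)^(p-1)) ∏_i Γ(p(s_i+g_i)) = (∏_+ ± A_i (n_i!)^(p-1)) ∏_i Γ(p s_i)`.
With the multinomial coefficients `M_± = S! / ∏_± n_i!` (natural numbers, `M_± ≤ ℓ^S`: `Nat.multinomial`, or
`Finset.sum_pow`-like bound) multiply by `(M_+ M_-)^(p-1)` and divide by `(S!)^(p-1)`:
`B = ∏_- (± A_i) * M_+^(p-1)`, `A = ∏_+ (± A_i) * M_-^(p-1)`. Sizes: `|∏_± A_i| ≤ (2 p b)^(2 p S)`, `M^(p-1) ≤ ℓ^(p S)`, together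
`≤ (2 p b ℓ)^(3 p S) ≤ (2 p b ℓ)^(3 p ℓ G)` (if `ℓ = 0` everything is `1`; the `A_i`, `M` do not depend on `s`).
-/

namespace GamE

open Finset GamP

private theorem kz_multinomial_le {ι : Type*} [DecidableEq ι] (s : Finset ι) (f : ι → ℕ) :
    Nat.multinomial s f ≤ s.card ^ (∑ i ∈ s, f i) := by
  induction s using Finset.induction_on with
  | empty => simp
  | insert a s ha ih =>
    rw [Nat.multinomial_insert ha, Finset.card_insert_of_notMem ha, Finset.sum_insert ha]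
    have h1 : (s.card + 1) ^ (f a + ∑ i ∈ s, f i) =
        ∑ m ∈ range (f a + ∑ i ∈ s, f i + 1),
          s.card ^ m * 1 ^ (f a + ∑ i ∈ s, f i - m) * (f a + ∑ i ∈ s, f i).choose m :=
      add_pow _ _ _
    have h2 : s.card ^ (∑ i ∈ s, f i) * 1 ^ (f a + ∑ i ∈ s, f i - ∑ i ∈ s, f i) *
        (f a + ∑ i ∈ s, f i).choose (∑ i ∈ s, f i) ≤ (s.card + 1) ^ (f a + ∑ i ∈ s, f i) := by
      rw [h1]
      exact Finset.single_le_sum
        (f := fun m => s.card ^ m * 1 ^ (f a + ∑ i ∈ s, f i - m) *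
          (f a + ∑ i ∈ s, f i).choose m) (fun _ _ => Nat.zero_le _)
        (Finset.mem_range.2 (by omega))
    rw [one_pow, mul_one, Nat.choose_symm_add.symm] at h2
    calc (f a + ∑ i ∈ s, f i).choose (f a) * Nat.multinomial s f
        ≤ (f a + ∑ i ∈ s, f i).choose (f a) * s.card ^ (∑ i ∈ s, f i) :=
          Nat.mul_le_mul_left _ ih
      _ = s.card ^ (∑ i ∈ s, f i) * (f a + ∑ i ∈ s, f i).choose (f a) := mul_comm _ _
      _ ≤ _ := h2

private theorem kz_bound {ι : Type*} [DecidableEq ι] {p b ℓ G : ℕ} (hp : 1 ≤ p) (hb : 1 ≤ b)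
    (hℓ : 1 ≤ ℓ) (P Q : Finset ι) (n : ι → ℕ) (S : ℕ) (hP : ∑ i ∈ P, n i = S)
    (hQ : ∑ i ∈ Q, n i = S) (hQc : Q.card ≤ ℓ) (hS : S ≤ ℓ * G) (W : ι → ℤ)
    (hW : ∀ i, |W i| ≤ (2 * (p : ℤ) * b) ^ (2 * p * n i)) :
    |(∏ i ∈ P, W i) * ((Nat.multinomial Q n : ℕ) : ℤ) ^ (p - 1)| ≤
      (2 * (p : ℤ) * b * ℓ) ^ (3 * p * ℓ * G) := by
  have hp' : (1 : ℤ) ≤ p := by exact_mod_cast hp
  have hb' : (1 : ℤ) ≤ b := by exact_mod_cast hb
  have hℓ' : (1 : ℤ) ≤ ℓ := by exact_mod_cast hℓ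
  have h2pb : (1 : ℤ) ≤ 2 * p * b := by nlinarith
  have h2pbl : (1 : ℤ) ≤ 2 * p * b * ℓ := by nlinarith
  have h1 : |∏ i ∈ P, W i| ≤ (2 * (p : ℤ) * b) ^ (2 * p * S) := by
    rw [Finset.abs_prod]
    calc ∏ i ∈ P, |W i| ≤ ∏ i ∈ P, (2 * (p : ℤ) * b) ^ (2 * p * n i) :=
          Finset.prod_le_prod (fun _ _ => abs_nonneg _) (fun i _ => hW i)
      _ = (2 * (p : ℤ) * b) ^ (2 * p * S) := by
          rw [Finset.prod_pow_eq_pow_sum, ← Finset.mul_sum, hP]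
  have h2 : |((Nat.multinomial Q n : ℕ) : ℤ) ^ (p - 1)| ≤ (ℓ : ℤ) ^ (p * S) := by
    have h3 : Nat.multinomial Q n ≤ ℓ ^ S := by
      refine (kz_multinomial_le Q n).trans ?_
      rw [hQ]
      exact Nat.pow_le_pow_left hQc S
    have h4 : Nat.multinomial Q n ^ (p - 1) ≤ ℓ ^ (p * S) := by
      calc Nat.multinomial Q n ^ (p - 1) ≤ (ℓ ^ S) ^ (p - 1) := Nat.pow_le_pow_left h3 _
        _ = ℓ ^ (S * (p - 1)) := by rw [← pow_mul]
        _ ≤ ℓ ^ (p * S) := by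
            refine Nat.pow_le_pow_right hℓ ?_
            rw [Nat.mul_comm p S]
            exact Nat.mul_le_mul_left _ (Nat.sub_le _ _)
    rw [abs_of_nonneg (by positivity)]
    exact_mod_cast h4
  rw [abs_mul]
  calc |∏ i ∈ P, W i| * |((Nat.multinomial Q n : ℕ) : ℤ) ^ (p - 1)|
      ≤ (2 * (p : ℤ) * b) ^ (2 * p * S) * (ℓ : ℤ) ^ (p * S) :=
        mul_le_mul h1 h2 (abs_nonneg _) (by positivity)
    _ ≤ (2 * (p : ℤ) * b * ℓ) ^ (2 * p * S) * (2 * (p : ℤ) * b * ℓ) ^ (p * S) := by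
        refine mul_le_mul ?_ ?_ (by positivity) (by positivity)
        · exact pow_le_pow_left₀ (by positivity) (by nlinarith) _
        · exact pow_le_pow_left₀ (by positivity) (by nlinarith) _
    _ = (2 * (p : ℤ) * b * ℓ) ^ (3 * p * S) := by
        rw [← pow_add]
        congr 1
        ring
    _ ≤ (2 * (p : ℤ) * b * ℓ) ^ (3 * p * ℓ * G) := by
        refine pow_le_pow_right₀ h2pbl ?_
        calc 3 * p * S ≤ 3 * p * (ℓ * G) := Nat.mul_le_mul_left _ hS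
          _ = 3 * p * ℓ * G := by ring

theorem keyZ {p : ℕ} [Fact p.Prime] {Γ : ℤ_[p] → ℤ_[p]} (h : IsMorita p Γ) {ℓ b G : ℕ}
    (hℓ : 1 ≤ ℓ) (hb : ¬ p ∣ b) {α : Fin ℓ → ℕ} (hα : ∀ i, α i < b) {g : Fin ℓ → ℤ}
    (hg : ∑ i, g i = 0) (hG : ∀ i, |g i| ≤ (G : ℤ)) :
    ∃ A B : ℤ, A ≠ 0 ∧ B ≠ 0 ∧ |A| ≤ (2 * (p : ℤ) * b * ℓ) ^ (3 * p * ℓ * G) ∧
      |B| ≤ (2 * (p : ℤ) * b * ℓ) ^ (3 * p * ℓ * G) ∧
      ∀ s : Fin ℓ → ℤ_[p], (∀ i, (b : ℤ_[p]) * s i = α i) →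
        (B : ℤ_[p]) * ∏ i, Γ (p * (s i + g i)) = (A : ℤ_[p]) * ∏ i, Γ (p * s i) := by
  classical
  have hprime : p.Prime := Fact.out
  have hbpos : 1 ≤ b := by
    rcases Nat.eq_zero_or_pos b with h0 | h0
    · exact absurd (h0 ▸ dvd_zero p) hb
    · exact h0
  have hbZ : (1 : ℤ) ≤ b := by exact_mod_cast hbpos
  set n : Fin ℓ → ℕ := fun i => (g i).natAbs with hn
  have hnabs : ∀ i, ((n i : ℕ) : ℤ) = |g i| := fun i => Int.natCast_natAbs (g i)
  set a : Fin ℓ → ℤ := fun i => if 0 ≤ g i then (α i : ℤ) else (α i : ℤ) + g i * b with hadef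
  have ha : ∀ i, |a i| ≤ (b : ℤ) * (n i + 1) := by
    intro i
    have hα1 : (α i : ℤ) < b := by exact_mod_cast hα i
    have hα0 : (0 : ℤ) ≤ α i := Int.natCast_nonneg _
    rw [hnabs i]
    by_cases h0 : 0 ≤ g i
    · have h1 : a i = α i := by simp [hadef, h0]
      rw [h1, abs_of_nonneg hα0, abs_of_nonneg h0]
      nlinarith
    · have h1 : a i = (α i : ℤ) + g i * b := by simp [hadef, h0]
      push Not at h0
      rw [h1, abs_of_neg h0, abs_le]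
      constructor
      · nlinarith
      · nlinarith
  have hex := fun i => RZ_fact hprime hb (ha i)
  choose A hA0 hAle hAeq using hex
  set W : Fin ℓ → ℤ := fun i => (-1) ^ (p * n i) * A i with hW
  have hWne : ∀ i, W i ≠ 0 := fun i => mul_ne_zero (pow_ne_zero _ (by norm_num)) (hA0 i)
  have hWle : ∀ i, |W i| ≤ (2 * (p : ℤ) * b) ^ (2 * p * n i) := by
    intro i
    have h1 : |W i| = |A i| := by
      show |(-1) ^ (p * n i) * A i| = |A i|
      rw [abs_mul, abs_pow, abs_neg, abs_one, one_pow, one_mul]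
    rw [h1]
    exact hAle i
  -- the one step relation
  have hstep : ∀ (i : Fin ℓ) (x : ℤ_[p]), (b : ℤ_[p]) * x = (a i : ℤ_[p]) →
      (((p : ℤ_[p]) * b * b) ^ (p - 1)) ^ (n i) * Γ (p * (x + n i)) =
        (W i : ℤ_[p]) * (((n i).factorial : ℕ) : ℤ_[p]) ^ (p - 1) * Γ (p * x) := by
    intro i x hx
    have h1 := RZ_gamma h hx (n i)
    have h2 : ((p : ℤ_[p]) * b) ^ (n i * (p - 1)) * (RZ p (a i) b (n i) : ℤ_[p]) =
        (A i : ℤ_[p]) * (((n i).factorial : ℕ) : ℤ_[p]) ^ (p - 1) := by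
      have h3 := congrArg (fun z : ℤ => (z : ℤ_[p])) (hAeq i)
      push_cast at h3
      exact h3
    have h4 : (((p : ℤ_[p]) * b * b) ^ (p - 1)) ^ (n i) =
        ((p : ℤ_[p]) * b) ^ (n i * (p - 1)) * (b : ℤ_[p]) ^ (n i * (p - 1)) := by
      rw [← pow_mul, ← mul_pow, Nat.mul_comm (p - 1) (n i)]
    have h5 : (W i : ℤ_[p]) = (-1) ^ (p * n i) * (A i : ℤ_[p]) := by
      simp [hW]
    rw [h4, mul_assoc, h1, h5]
    calc ((p : ℤ_[p]) * b) ^ (n i * (p - 1)) *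
          ((-1) ^ (p * n i) * (RZ p (a i) b (n i) : ℤ_[p]) * Γ (p * x))
        = (-1) ^ (p * n i) * (((p : ℤ_[p]) * b) ^ (n i * (p - 1)) *
          (RZ p (a i) b (n i) : ℤ_[p])) * Γ (p * x) := by ring
      _ = _ := by
        rw [h2]
        ring
  set P : Finset (Fin ℓ) := univ.filter (fun i => 0 ≤ g i) with hP
  set N : Finset (Fin ℓ) := univ.filter (fun i => ¬ 0 ≤ g i) with hN
  set S : ℕ := ∑ i ∈ P, n i with hS
  have hsplit : ∑ i ∈ P, g i + ∑ i ∈ N, g i = 0 := by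
    rw [hP, hN, Finset.sum_filter_add_sum_filter_not, hg]
  have hPs : ((∑ i ∈ P, n i : ℕ) : ℤ) = ∑ i ∈ P, g i := by
    rw [Nat.cast_sum]
    refine Finset.sum_congr rfl fun i hi => ?_
    rw [hnabs i, abs_of_nonneg (Finset.mem_filter.1 hi).2]
  have hNs : ((∑ i ∈ N, n i : ℕ) : ℤ) = - ∑ i ∈ N, g i := by
    rw [Nat.cast_sum, ← Finset.sum_neg_distrib]
    refine Finset.sum_congr rfl fun i hi => ?_
    have h0 : ¬ 0 ≤ g i := (Finset.mem_filter.1 hi).2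
    push Not at h0
    rw [hnabs i, abs_of_neg h0]
  have hSN : ∑ i ∈ N, n i = S := by
    have : ((∑ i ∈ N, n i : ℕ) : ℤ) = ((∑ i ∈ P, n i : ℕ) : ℤ) := by
      rw [hNs, hPs]
      linarith
    exact_mod_cast this
  have hnG : ∀ i, n i ≤ G := by
    intro i
    have := hG i
    rw [← hnabs i] at this
    exact_mod_cast this
  have hcardP : P.card ≤ ℓ := (Finset.card_le_univ _).trans_eq (Fintype.card_fin ℓ)
  have hcardN : N.card ≤ ℓ := (Finset.card_le_univ _).trans_eq (Fintype.card_fin ℓ)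
  have hSle : S ≤ ℓ * G := by
    calc S ≤ ∑ i ∈ P, G := Finset.sum_le_sum fun i _ => hnG i
      _ = P.card * G := by rw [Finset.sum_const, smul_eq_mul]
      _ ≤ ℓ * G := Nat.mul_le_mul_right _ hcardP
  set mP : ℕ := Nat.multinomial P n with hmP
  set mN : ℕ := Nat.multinomial N n with hmN
  have hmP1 : (∏ i ∈ P, (n i).factorial) * mP = S.factorial := Nat.multinomial_spec P n
  have hmN1 : (∏ i ∈ N, (n i).factorial) * mN = S.factorial := by
    rw [← hSN]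
    exact Nat.multinomial_spec N n
  have hmP0 : mP ≠ 0 := by
    intro h0
    rw [h0, Nat.mul_zero] at hmP1
    exact (Nat.factorial_ne_zero S) hmP1.symm
  have hmN0 : mN ≠ 0 := by
    intro h0
    rw [h0, Nat.mul_zero] at hmN1
    exact (Nat.factorial_ne_zero S) hmN1.symm
  refine ⟨(∏ i ∈ P, W i) * (mN : ℤ) ^ (p - 1), (∏ i ∈ N, W i) * (mP : ℤ) ^ (p - 1), ?_, ?_, ?_,
    ?_, ?_⟩
  · exact mul_ne_zero (Finset.prod_ne_zero_iff.2 fun i _ => hWne i)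
      (pow_ne_zero _ (by exact_mod_cast hmN0))
  · exact mul_ne_zero (Finset.prod_ne_zero_iff.2 fun i _ => hWne i)
      (pow_ne_zero _ (by exact_mod_cast hmP0))
  · exact kz_bound hprime.one_le hbpos hℓ P N n S rfl hSN hcardN hSle W hWle
  · exact kz_bound hprime.one_le hbpos hℓ N P n S hSN rfl hcardP hSle W hWle
  · intro s hs
    -- the products over `P` and `N`
    set K : ℤ_[p] := ((p : ℤ_[p]) * b * b) ^ (p - 1) with hK
    have hpne : (p : ℤ_[p]) ≠ 0 := by exact_mod_cast hprime.ne_zero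
    have hbne : (b : ℤ_[p]) ≠ 0 := by
      have : b ≠ 0 := by omega
      exact_mod_cast this
    have hKne : K ≠ 0 := pow_ne_zero _ (mul_ne_zero (mul_ne_zero hpne hbne) hbne)
    have hPrel : K ^ S * ∏ i ∈ P, Γ (p * (s i + g i)) =
        (∏ i ∈ P, (W i : ℤ_[p])) * (∏ i ∈ P, (((n i).factorial : ℕ) : ℤ_[p])) ^ (p - 1) *
          ∏ i ∈ P, Γ (p * s i) := by
      rw [hS, ← Finset.prod_pow_eq_pow_sum, ← Finset.prod_mul_distrib, ← Finset.prod_pow,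
        ← Finset.prod_mul_distrib, ← Finset.prod_mul_distrib]
      refine Finset.prod_congr rfl fun i hi => ?_
      have h0 : 0 ≤ g i := (Finset.mem_filter.1 hi).2
      have h1 : a i = α i := by simp [hadef, h0]
      have h2 := hstep i (s i) (by rw [h1, hs i]; push_cast; rfl)
      have h3 : ((n i : ℕ) : ℤ_[p]) = (g i : ℤ_[p]) := by
        have h4 : ((n i : ℕ) : ℤ) = g i := by rw [hnabs i, abs_of_nonneg h0]
        rw [← h4]
        push_cast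
        rfl
      rw [h3] at h2
      exact h2
    have hNrel : K ^ S * ∏ i ∈ N, Γ (p * s i) =
        (∏ i ∈ N, (W i : ℤ_[p])) * (∏ i ∈ N, (((n i).factorial : ℕ) : ℤ_[p])) ^ (p - 1) *
          ∏ i ∈ N, Γ (p * (s i + g i)) := by
      rw [← hSN, ← Finset.prod_pow_eq_pow_sum, ← Finset.prod_mul_distrib, ← Finset.prod_pow,
        ← Finset.prod_mul_distrib, ← Finset.prod_mul_distrib]
      refine Finset.prod_congr rfl fun i hi => ?_
      have h0 : ¬ 0 ≤ g i := (Finset.mem_filter.1 hi).2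
      have h1 : a i = (α i : ℤ) + g i * b := by simp [hadef, h0]
      have h2 := hstep i (s i + g i) (by
        rw [h1, mul_add, hs i]
        push_cast
        ring)
      have h3 : ((n i : ℕ) : ℤ_[p]) = -(g i : ℤ_[p]) := by
        have h4 : ((n i : ℕ) : ℤ) = -(g i) := by
          push Not at h0
          rw [hnabs i, abs_of_neg h0]
        have h5 := congrArg (fun z : ℤ => (z : ℤ_[p])) h4
        push_cast at h5
        exact h5
      rw [h3, add_neg_cancel_right] at h2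
      exact h2
    have hall1 : ∏ i, Γ (p * (s i + g i)) =
        (∏ i ∈ P, Γ (p * (s i + g i))) * ∏ i ∈ N, Γ (p * (s i + g i)) := by
      rw [hP, hN, Finset.prod_filter_mul_prod_filter_not]
    have hall2 : ∏ i, Γ (p * s i) =
        (∏ i ∈ P, Γ (p * s i)) * ∏ i ∈ N, Γ (p * s i) := by
      rw [hP, hN, Finset.prod_filter_mul_prod_filter_not]
    have hfP : (∏ i ∈ P, (((n i).factorial : ℕ) : ℤ_[p])) * (mP : ℤ_[p]) =
        ((S.factorial : ℕ) : ℤ_[p]) := by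
      rw [← hmP1]
      push_cast
      rfl
    have hfN : (∏ i ∈ N, (((n i).factorial : ℕ) : ℤ_[p])) * (mN : ℤ_[p]) =
        ((S.factorial : ℕ) : ℤ_[p]) := by
      rw [← hmN1]
      push_cast
      rfl
    have hSf : ((S.factorial : ℕ) : ℤ_[p]) ≠ 0 := by
      exact_mod_cast Nat.factorial_ne_zero S
    rw [hall1, hall2]
    push_cast
    generalize (∏ i ∈ P, Γ (p * (s i + g i))) = X1 at hPrel ⊢
    generalize (∏ i ∈ N, Γ (p * (s i + g i))) = X2 at hNrel ⊢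
    generalize (∏ i ∈ P, Γ (p * s i)) = Y1 at hPrel ⊢
    generalize (∏ i ∈ N, Γ (p * s i)) = Y2 at hNrel ⊢
    generalize (∏ i ∈ P, (W i : ℤ_[p])) = w1 at hPrel ⊢
    generalize (∏ i ∈ N, (W i : ℤ_[p])) = w2 at hNrel ⊢
    generalize (∏ i ∈ P, (((n i).factorial : ℕ) : ℤ_[p])) = f1 at hPrel hfP
    generalize (∏ i ∈ N, (((n i).factorial : ℕ) : ℤ_[p])) = f2 at hNrel hfN
    have hKS : K ^ S ≠ 0 := pow_ne_zero _ hKne
    have hmain : (w2 * f2 ^ (p - 1)) * (X1 * X2) = (w1 * f1 ^ (p - 1)) * (Y1 * Y2) := by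
      refine mul_left_cancel₀ hKS ?_
      calc K ^ S * ((w2 * f2 ^ (p - 1)) * (X1 * X2))
          = (K ^ S * X1) * (w2 * f2 ^ (p - 1) * X2) := by ring
        _ = (w1 * f1 ^ (p - 1) * Y1) * (K ^ S * Y2) := by rw [hPrel, hNrel]
        _ = K ^ S * ((w1 * f1 ^ (p - 1)) * (Y1 * Y2)) := by ring
    have hSf' : (((S.factorial : ℕ) : ℤ_[p])) ^ (p - 1) ≠ 0 := pow_ne_zero _ hSf
    refine mul_left_cancel₀ hSf' ?_
    calc (((S.factorial : ℕ) : ℤ_[p])) ^ (p - 1) * (w2 * (mP : ℤ_[p]) ^ (p - 1) * (X1 * X2))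
        = (f2 * (mN : ℤ_[p])) ^ (p - 1) * (w2 * (mP : ℤ_[p]) ^ (p - 1) * (X1 * X2)) := by
          rw [hfN]
      _ = ((mN : ℤ_[p]) * mP) ^ (p - 1) * ((w2 * f2 ^ (p - 1)) * (X1 * X2)) := by
          rw [mul_pow, mul_pow]
          ring
      _ = ((mN : ℤ_[p]) * mP) ^ (p - 1) * ((w1 * f1 ^ (p - 1)) * (Y1 * Y2)) := by rw [hmain]
      _ = (f1 * (mP : ℤ_[p])) ^ (p - 1) * (w1 * (mN : ℤ_[p]) ^ (p - 1) * (Y1 * Y2)) := by
          rw [mul_pow, mul_pow]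
          ring
      _ = _ := by rw [hfP]

end GamE
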