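import Pool.Agent.GamE.ADefs
import Pool.Agent.GamE.EpZ
import Pool.Agent.GamE.KeyZ
import Pool.Agent.GamP.Liou

/-!
# Small implies zero, at the exceptional points (several variables)

PROOF. As `vanish2` of `GamP/Vanish2` (copy its structure). Let `y = ∏_i Γ(p s_i)`; `A`, `B` of `keyZ`;
`U(z) = ∏ Γ(p (s_i + g_i))` by `hz`, so `B U(z) = A y`. For each `ι`, `κ`: `E ι κ` of `ep_intZ` (`a := a ι`). Let
`C i = c i * ∏_ι (b^(2 (T₁ - i.1 ι)) * E ι (i.1 ι))` for `i : (Fin r → Fin T₁) × Fin T₂`, then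
`(C i : ℤ_[p]) = c i * b^(2 T₁ r) * ∏_ι ep p (i.1 ι) (z ι)` and
`|C i| ≤ p^e * (p^T₁ b^(2 T₁) 2^(G + T₁))^r`. Let
`Q = ∑ i, Polynomial.C (C i * A^(i.2) * B^(T₂ - 1 - i.2)) * X^(i.2) ∈ ℤ[X]`:
`aeval y Q = b^(2 T₁ r) * B^(T₂ - 1) * G3 z`. If `aeval y Q = 0` then `G3 z = 0` (`b`, `B` nonzero). Otherwise
`p^K ∣ G3 z ∣ aeval y Q`, so by `liouville` (GamP/Liou) with `T = T₂` and
`H = T₁^r * p^e * (p^T₁ * b^(2 T₁) * 2^(G + T₁))^r * ((2 p b ℓ)^(3 p ℓ G))^T₂` (each coefficient of `Q` is a sum of `T₁^r` terms;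
`|A|^k |B|^(T₂-1-k) ≤ M^T₂` as `M ≥ 1`): contradiction to `hbig`.
-/

namespace GamE

open Finset Polynomial GamP

theorem vanish3 {p : ℕ} [Fact p.Prime] {Γ : ℤ_[p] → ℤ_[p]} (h : IsMorita p Γ) {r ℓ b G : ℕ}
    (hℓ : 1 ≤ ℓ) (hb : ¬ p ∣ b) {α : Fin ℓ → ℕ} (hα : ∀ i, α i < b) {g : Fin ℓ → ℤ}
    (hg : ∑ i, g i = 0) (hG : ∀ i, |g i| ≤ (G : ℤ)) {s : Fin ℓ → ℤ_[p]}
    (hs : ∀ i, (b : ℤ_[p]) * s i = α i) {F : ℤ[X]}
    (hF : Irreducible (F.map (Int.castRingHom ℚ))) (hFy : aeval (∏ i, Γ (p * s i)) F = 0)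
    {D Y : ℕ} (hFD : F.natDegree ≤ D) (hFY : ∀ i, |F.coeff i| ≤ (Y : ℤ))
    {μ : Fin ℓ → ℤ_[p]} {lam : Fin ℓ → Fin r → ℤ_[p]} {z : Fin r → ℤ_[p]}
    (hz : ∀ i, μ i + ∑ ι, lam i ι * z ι = s i + g i) {a : Fin r → ℤ}
    (ha : ∀ ι, (b : ℤ_[p]) * z ι = (a ι : ℤ_[p])) (haG : ∀ ι, |a ι| ≤ (b : ℤ) * G)
    {T₁ T₂ e K : ℕ} (c : (Fin r → Fin T₁) × Fin T₂ → ℤ) (hc : ∀ i, |c i| < (p : ℤ) ^ e)
    (hdvd : (p : ℤ_[p]) ^ K ∣ G3 p Γ μ lam T₁ T₂ c z)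
    (hbig : (D + T₂).factorial * Y ^ T₂ * (T₁ ^ r * p ^ e *
      (p ^ T₁ * b ^ (2 * T₁) * 2 ^ (G + T₁)) ^ r * ((2 * p * b * ℓ) ^ (3 * p * ℓ * G)) ^ T₂) ^ D <
      p ^ K) :
    G3 p Γ μ lam T₁ T₂ c z = 0 := by
  classical
  have hp : p.Prime := Fact.out
  have hb0 : b ≠ 0 := by
    rintro rfl
    exact hb (dvd_zero p)
  have hb1 : 1 ≤ b := Nat.one_le_iff_ne_zero.2 hb0
  have hbz : (b : ℤ_[p]) ≠ 0 := by exact_mod_cast hb0
  obtain ⟨A, B, hA, hB, hAM, hBM, hAB⟩ := keyZ h hℓ hb hα hg hG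
  have hAB' := hAB s hs
  set y := ∏ i, Γ (p * s i) with hy
  have hU : UU p Γ μ lam z = ∏ i, Γ (p * (s i + g i)) := by
    unfold UU
    exact prod_congr rfl fun i _ => by rw [hz i]
  rw [← hU] at hAB'
  set U := UU p Γ μ lam z with hUdef
  set M := (2 * p * b * ℓ) ^ (3 * p * ℓ * G) with hM
  have hp1 : (1 : ℤ) ≤ p := by exact_mod_cast hp.pos
  have hb1' : (1 : ℤ) ≤ b := by exact_mod_cast hb1
  have hM1 : 1 ≤ M := by
    apply Nat.one_le_pow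
    have := hp.pos
    positivity
  have hAM' : |A| ≤ (M : ℤ) := by
    rw [hM]; push_cast; exact hAM
  have hBM' : |B| ≤ (M : ℤ) := by
    rw [hM]; push_cast; exact hBM
  -- the integers of the binomials
  choose E hEb hEe using fun (ι : Fin r) (i : ℕ) => ep_intZ (p := p) (i := i) (haG ι) (ha ι)
  let C : (Fin r → Fin T₁) × Fin T₂ → ℤ := fun i =>
    c i * ∏ ι, ((b : ℤ) ^ (2 * (T₁ - (i.1 ι : ℕ))) * E ι (i.1 ι))
  have hCe : ∀ i : (Fin r → Fin T₁) × Fin T₂, (C i : ℤ_[p]) =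
      c i * (b : ℤ_[p]) ^ (2 * T₁ * r) * ∏ ι, ep p (i.1 ι) (z ι) := by
    intro i
    have h1 : ∀ ι : Fin r, (((b : ℤ) ^ (2 * (T₁ - (i.1 ι : ℕ))) * E ι (i.1 ι) : ℤ) : ℤ_[p]) =
        (b : ℤ_[p]) ^ (2 * T₁) * ep p (i.1 ι) (z ι) := by
      intro ι
      have hi : (i.1 ι : ℕ) ≤ T₁ := (i.1 ι).2.le
      push_cast
      rw [hEe, ← mul_assoc, ← pow_add]
      congr 2
      omega
    simp only [C]
    rw [Int.cast_mul, Int.cast_prod, prod_congr rfl fun ι _ => h1 ι, prod_mul_distrib,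
      prod_const, card_univ, Fintype.card_fin, ← pow_mul]
    ring
  have hCb : ∀ i : (Fin r → Fin T₁) × Fin T₂, |C i| ≤ (p : ℤ) ^ e *
      ((p : ℤ) ^ T₁ * (b : ℤ) ^ (2 * T₁) * 2 ^ (G + T₁)) ^ r := by
    intro i
    simp only [C]
    rw [abs_mul, abs_prod]
    have h1 : ∀ ι ∈ (univ : Finset (Fin r)),
        |(b : ℤ) ^ (2 * (T₁ - (i.1 ι : ℕ))) * E ι (i.1 ι)| ≤
        (p : ℤ) ^ T₁ * (b : ℤ) ^ (2 * T₁) * 2 ^ (G + T₁) := by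
      intro ι _
      have hi : (i.1 ι : ℕ) ≤ T₁ := (i.1 ι).2.le
      rw [abs_mul, abs_of_nonneg
        (by positivity : (0 : ℤ) ≤ (b : ℤ) ^ (2 * (T₁ - (i.1 ι : ℕ))))]
      have e2 := hEb ι (i.1 ι)
      have e4 : (p : ℤ) ^ (i.1 ι : ℕ) ≤ (p : ℤ) ^ T₁ := pow_le_pow_right₀ hp1 hi
      have e5 : (2 : ℤ) ^ (G + (i.1 ι : ℕ)) ≤ 2 ^ (G + T₁) :=
        pow_le_pow_right₀ (by norm_num) (by omega)
      calc (b : ℤ) ^ (2 * (T₁ - (i.1 ι : ℕ))) * |E ι (i.1 ι)|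
          ≤ (b : ℤ) ^ (2 * (T₁ - (i.1 ι : ℕ))) *
            ((p : ℤ) ^ T₁ * (b : ℤ) ^ (2 * (i.1 ι : ℕ)) * 2 ^ (G + T₁)) := by
            gcongr
            refine e2.trans ?_
            gcongr
        _ = (p : ℤ) ^ T₁ * ((b : ℤ) ^ (2 * (T₁ - (i.1 ι : ℕ))) * (b : ℤ) ^ (2 * (i.1 ι : ℕ))) *
            2 ^ (G + T₁) := by ring
        _ = _ := by
            rw [← pow_add, show 2 * (T₁ - (i.1 ι : ℕ)) + 2 * (i.1 ι : ℕ) = 2 * T₁ by omega]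
    refine mul_le_mul (hc i).le ?_ (prod_nonneg fun _ _ => abs_nonneg _) (by positivity)
    refine (prod_le_prod (fun _ _ => abs_nonneg _) h1).trans ?_
    rw [prod_const, card_univ, Fintype.card_fin]
  let Q : ℤ[X] := ∑ i : (Fin r → Fin T₁) × Fin T₂,
    Polynomial.C (C i * A ^ (i.2 : ℕ) * B ^ (T₂ - 1 - (i.2 : ℕ))) * X ^ (i.2 : ℕ)
  have hQy : aeval y Q =
      (b : ℤ_[p]) ^ (2 * T₁ * r) * (B : ℤ_[p]) ^ (T₂ - 1) * G3 p Γ μ lam T₁ T₂ c z := by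
    simp only [Q, map_sum, map_mul, map_pow, aeval_C, aeval_X, G3]
    rw [mul_sum]
    refine sum_congr rfl fun i _ => ?_
    have hi2 : (i.2 : ℕ) ≤ T₂ - 1 := by have := i.2.2; omega
    have hAj : ((A : ℤ_[p]) * y) ^ (i.2 : ℕ) = ((B : ℤ_[p]) * U) ^ (i.2 : ℕ) := by rw [hAB']
    have hsplitB : (B : ℤ_[p]) ^ (T₂ - 1) =
        (B : ℤ_[p]) ^ (i.2 : ℕ) * (B : ℤ_[p]) ^ (T₂ - 1 - (i.2 : ℕ)) := by
      rw [← pow_add]; congr 1; omega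
    have hCi := hCe i
    simp only [algebraMap_int_eq, eq_intCast]
    rw [hCi, hsplitB]
    calc (c i : ℤ_[p]) * (b : ℤ_[p]) ^ (2 * T₁ * r) * (∏ ι, ep p (i.1 ι) (z ι)) *
          (A : ℤ_[p]) ^ (i.2 : ℕ) * (B : ℤ_[p]) ^ (T₂ - 1 - (i.2 : ℕ)) * y ^ (i.2 : ℕ)
        = (c i : ℤ_[p]) * (b : ℤ_[p]) ^ (2 * T₁ * r) * (∏ ι, ep p (i.1 ι) (z ι)) *
          (B : ℤ_[p]) ^ (T₂ - 1 - (i.2 : ℕ)) * ((A : ℤ_[p]) * y) ^ (i.2 : ℕ) := by ring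
      _ = _ := by rw [hAj]; ring
  have hBz : (B : ℤ_[p]) ≠ 0 := by exact_mod_cast hB
  by_cases hQ0 : aeval y Q = 0
  · rw [hQ0] at hQy
    have h1 : (b : ℤ_[p]) ^ (2 * T₁ * r) * (B : ℤ_[p]) ^ (T₂ - 1) ≠ 0 :=
      mul_ne_zero (pow_ne_zero _ hbz) (pow_ne_zero _ hBz)
    rcases mul_eq_zero.mp hQy.symm with h2 | h2
    · exact absurd h2 h1
    · exact h2
  exfalso
  have hdvd' : (p : ℤ_[p]) ^ K ∣ aeval y Q := by
    rw [hQy]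
    exact Dvd.dvd.mul_left hdvd _
  set H := T₁ ^ r * p ^ e * (p ^ T₁ * b ^ (2 * T₁) * 2 ^ (G + T₁)) ^ r * M ^ T₂ with hH
  have hdeg : Q.natDegree ≤ T₂ := by
    refine natDegree_sum_le_of_forall_le _ _ fun i _ => ?_
    refine (natDegree_C_mul_X_pow_le _ _).trans i.2.2.le
  have hcoef : ∀ j, |Q.coeff j| ≤ (H : ℤ) := by
    intro j
    simp only [Q, finsetSum_coeff, coeff_C_mul, coeff_X_pow]
    refine (abs_sum_le_sum_abs _ _).trans ?_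
    set W : ℤ := (p : ℤ) ^ e * ((p : ℤ) ^ T₁ * (b : ℤ) ^ (2 * T₁) * 2 ^ (G + T₁)) ^ r with hW
    have hWnn : 0 ≤ W := by positivity
    have hterm : ∀ i : (Fin r → Fin T₁) × Fin T₂,
        |C i * A ^ (i.2 : ℕ) * B ^ (T₂ - 1 - (i.2 : ℕ)) * (if j = (i.2 : ℕ) then 1 else 0)| ≤
        if j = (i.2 : ℕ) then W * (M : ℤ) ^ T₂ else 0 := by
      intro i
      split_ifs with hj
      · rw [mul_one, abs_mul, abs_mul, abs_pow, abs_pow]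
        have hM2 : (1 : ℤ) ≤ M := by exact_mod_cast hM1
        calc |C i| * |A| ^ (i.2 : ℕ) * |B| ^ (T₂ - 1 - (i.2 : ℕ))
            ≤ W * (M : ℤ) ^ (i.2 : ℕ) * (M : ℤ) ^ (T₂ - 1 - (i.2 : ℕ)) := by
              gcongr
              exact hCb i
          _ = W * (M : ℤ) ^ ((i.2 : ℕ) + (T₂ - 1 - (i.2 : ℕ))) := by rw [pow_add]; ring
          _ ≤ _ := by
              have h9 : (i.2 : ℕ) + (T₂ - 1 - (i.2 : ℕ)) ≤ T₂ := by have := i.2.2; omega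
              exact mul_le_mul_of_nonneg_left (pow_le_pow_right₀ hM2 h9) hWnn
      · simp
    refine (sum_le_sum fun i _ => hterm i).trans ?_
    rw [Fintype.sum_prod_type]
    have hinner : ∀ i1 : Fin r → Fin T₁, ∑ i2 : Fin T₂, (if j = (i2 : ℕ) then
        W * (M : ℤ) ^ T₂ else 0) ≤ W * (M : ℤ) ^ T₂ := by
      intro i1
      have hnn : (0 : ℤ) ≤ W * (M : ℤ) ^ T₂ := mul_nonneg hWnn (by positivity)
      by_cases hj : j < T₂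
      · rw [sum_eq_single (⟨j, hj⟩ : Fin T₂)]
        · simp
        · intro i2 _ hne
          rw [if_neg]
          intro h1
          apply hne
          ext
          exact h1.symm
        · intro h1
          exact absurd (mem_univ _) h1
      · rw [sum_eq_zero]
        · exact hnn
        · intro i2 _
          rw [if_neg]
          have := i2.2
          omega
    refine (sum_le_sum fun i1 _ => hinner i1).trans (le_of_eq ?_)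
    rw [sum_const, card_univ, Fintype.card_fun, Fintype.card_fin, Fintype.card_fin,
      nsmul_eq_mul, hH, hW]
    push_cast
    ring
  have hl := liouville hF hFy hFD hFY hdeg hcoef hQ0 hdvd'
  exact absurd hbig (not_lt.mpr hl)

end GamE
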