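import Pool.Agent.GamE.Small3
import Pool.Agent.GamE.Pig3
import Pool.Agent.GamE.Van3
import Pool.Agent.GamE.Pts
import Pool.Agent.GamE.Num3
import Pool.Agent.GamP.Irr

/-!
# The auxiliary function

PROOF. For `α ∈ 𝒜` fix `s_α` (`h𝒜.alg`; it is unique as `b ≠ 0`), `y_α = ∏ Γ(p s_α)`, an irreducible `F_α` with `F_α(y_α) = 0`, degree at
most `D` (`DegLE.exists_irred`), and `Y` bounding all the coefficients (as in `propM` of `GamP/PropM`). Let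
`T₂ = Z^(12 r + 5)`, `N₁ = (D + T₂)! Y^T₂ + 2`, `N ≥ N₁`, `T₁ = Z^(hh+8) T₂ N`, `L = Z^8 T₁`, `e' = Z^5 T₁`, `G = Z^(hh+2) N`. `pigeon3` with the
conditions `t : Fin r → Fin (2 p^4 L)` and `v i t = (∏ ep p (i.1 ι) t_ι) * UU(t)^(i.2)` (`num3a`, `Fintype.card`), so
`p^(2L) ∣ G3 t`; `G3_small`: `p^(2L) ∣ G3 z` for all `z`. For `α ∈ 𝒜`, `n` let `G_i = g α i + ∑ n_j e_j(i)`; `∑ G_i = 0` (`g_sum`, `hes`),
`|G_i| + 1 ≤ 2 + r Z^hh + r Z^hh N ≤ Z^(hh+2) N = G` (`g_small`, `r + 1 ≤ Z`). `vanish3` with `g := G_i`, `z ι = s_{I₀ ι} + G_{I₀ ι}` (`pts_rel`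
gives `hz`), `a ι = α_{I₀ ι} + b G_{I₀ ι}`, `|a ι| ≤ b (|G| + 1) ≤ b G`, `K = 2 L`, `num3b`.
-/

namespace GamE

open Finset GamP Polynomial

theorem exists_aux {p : ℕ} [Fact p.Prime] {Γ : ℤ_[p] → ℤ_[p]} (h : IsMorita p Γ)
    {r ℓ b D Z hh H c₀ : ℕ} (hpb : ¬ p ∣ b) (hℓ : 1 ≤ ℓ) (hZ : 2 * p * b * ℓ ≤ 2 ^ Z)
    (hpZ : 2 * p ≤ Z) (hℓZ : ℓ ≤ Z) (hrZ : r + 1 ≤ Z) (hDZ : D ≤ Z)
    {𝒜 : Finset (Fin ℓ → ℕ)} (h𝒜 : Tup p Γ ℓ b D H c₀ 𝒜)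
    {e : Fin r → Fin ℓ → ℤ} (hes : ∀ j, ∑ i, e j i = 0) (heZ : ∀ j i, |e j i| ≤ (Z : ℤ) ^ hh)
    {α₀ : Fin ℓ → ℕ} (hα₀ : α₀ ∈ 𝒜) {t : (Fin ℓ → ℕ) → Fin r → ℚ} {g : (Fin ℓ → ℕ) → Fin ℓ → ℤ}
    (ht01 : ∀ α ∈ 𝒜, ∀ j, 0 ≤ t α j ∧ t α j < 1)
    (ht : ∀ α ∈ 𝒜, ∀ i, (α i : ℚ) / b + g α i = (α₀ i : ℚ) / b + ∑ j, t α j * e j i)
    (I₀ : Fin r → Fin ℓ) (lam : Fin ℓ → Fin r → ℤ_[p])
    (hlam : ∀ i j, (e j i : ℤ_[p]) = ∑ ι, lam i ι * (e j (I₀ ι) : ℤ_[p]))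
    (s₀ : Fin ℓ → ℤ_[p]) (hs₀ : ∀ i, (b : ℤ_[p]) * s₀ i = α₀ i) :
    ∃ N₁ : ℕ, ∀ N, N₁ ≤ N →
      ∃ c : (Fin r → Fin (Z ^ (hh + 8) * Z ^ (12 * r + 5) * N)) × Fin (Z ^ (12 * r + 5)) → ℤ,
        (∃ i, c i ≠ 0) ∧ ∀ α ∈ 𝒜, ∀ n : Fin r → ℤ, (∀ j, 0 ≤ n j ∧ n j < N) →
          ∀ s : Fin ℓ → ℤ_[p], (∀ i, (b : ℤ_[p]) * s i = α i) →
            G3 p Γ (fun i => s₀ i - ∑ ι, lam i ι * s₀ (I₀ ι)) lam _ _ c
              (fun ι => s (I₀ ι) + ((g α (I₀ ι) + ∑ j, n j * e j (I₀ ι) : ℤ) : ℤ_[p])) = 0 := by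
  classical
  have hp : p.Prime := Fact.out
  have hp2 : 2 ≤ p := hp.two_le
  have hb1 : 1 ≤ b := by
    rcases Nat.eq_zero_or_pos b with h0 | h0
    · exact absurd (h0 ▸ dvd_zero p) hpb
    · exact h0
  have hb0 : (b : ℤ_[p]) ≠ 0 := by
    have : b ≠ 0 := by omega
    exact_mod_cast this
  have hF : ∀ α ∈ 𝒜, ∃ F : ℤ[X], Irreducible (F.map (Int.castRingHom ℚ)) ∧ F.natDegree ≤ D ∧
      ∀ s : Fin ℓ → ℤ_[p], (∀ i, (b : ℤ_[p]) * s i = α i) → aeval (∏ i, Γ (p * s i)) F = 0 := by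
    intro α hα
    obtain ⟨s, hs, hdeg⟩ := h𝒜.alg α hα
    obtain ⟨F, hF1, hF2, hF3⟩ := hdeg.exists_irred
    refine ⟨F, hF1, hF2, fun s' hs' => ?_⟩
    have : s' = s := by
      funext i
      apply mul_left_cancel₀ hb0
      rw [hs' i, hs i]
    rw [this]
    exact hF3
  choose! F hF1 hF2 hF3 using hF
  obtain ⟨Y, hY⟩ : ∃ Y : ℕ, ∀ α ∈ 𝒜, ∀ i, |(F α).coeff i| ≤ (Y : ℤ) := by
    refine ⟨𝒜.sup (fun α => (F α).support.sup (fun i => ((F α).coeff i).natAbs)), ?_⟩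
    intro α hα i
    by_cases hi : i ∈ (F α).support
    · rw [← Int.natCast_natAbs]
      have h1 : ((F α).coeff i).natAbs ≤ (F α).support.sup (fun i => ((F α).coeff i).natAbs) :=
        Finset.le_sup (f := fun i => ((F α).coeff i).natAbs) hi
      have h2 : (F α).support.sup (fun i => ((F α).coeff i).natAbs) ≤
          𝒜.sup (fun α => (F α).support.sup (fun i => ((F α).coeff i).natAbs)) :=
        Finset.le_sup (f := fun α => (F α).support.sup (fun i => ((F α).coeff i).natAbs)) hα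
      exact_mod_cast h1.trans h2
    · rw [Polynomial.notMem_support_iff.1 hi, abs_zero]
      positivity
  have hZ1 : 1 ≤ Z := by omega
  refine ⟨(D + Z ^ (12 * r + 5)).factorial * Y ^ (Z ^ (12 * r + 5)) + 2, fun N hN => ?_⟩
  have hN1 : 1 ≤ N := by omega
  obtain ⟨T₂, hT₂⟩ : ∃ T₂, T₂ = Z ^ (12 * r + 5) := ⟨_, rfl⟩
  rw [← hT₂] at hN ⊢
  have hT₂1 : 1 ≤ T₂ := by rw [hT₂]; exact Nat.one_le_pow _ _ hZ1
  obtain ⟨T₁, hT₁⟩ : ∃ T₁, T₁ = Z ^ (hh + 8) * T₂ * N := ⟨_, rfl⟩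
  rw [← hT₁]
  have hT₁1 : 1 ≤ T₁ := by
    rw [hT₁]
    exact Nat.mul_pos (Nat.mul_pos (Nat.pow_pos hZ1) hT₂1) hN1
  obtain ⟨μ, hμ⟩ : ∃ μ : Fin ℓ → ℤ_[p], μ = fun i => s₀ i - ∑ ι, lam i ι * s₀ (I₀ ι) := ⟨_, rfl⟩
  rw [← hμ]
  obtain ⟨c, hc0, hc, hcd⟩ := pigeon3 (ι := (Fin r → Fin T₁) × Fin T₂)
    (κ := Fin r → Fin (2 * p ^ 4 * (Z ^ 8 * T₁))) (p := p) (Z ^ 8 * T₁) (Z ^ 5 * T₁)
    (fun i t => (∏ ι, ep p (i.1 ι) ((t ι : ℕ) : ℤ_[p])) *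
      UU p Γ μ lam (fun ι => ((t ι : ℕ) : ℤ_[p])) ^ (i.2 : ℕ)) (by
      rw [Fintype.card_prod, Fintype.card_fun, Fintype.card_fun, Fintype.card_fin, Fintype.card_fin,
        Fintype.card_fin, Fintype.card_fin]
      exact num3a hp2 hpZ hT₁1 hT₂)
  refine ⟨c, hc0, ?_⟩
  have hsmall : ∀ z : Fin r → ℤ_[p], (p : ℤ_[p]) ^ (2 * (Z ^ 8 * T₁)) ∣
      G3 p Γ μ lam T₁ T₂ c z := by
    apply G3_small h
    intro t
    have h1 := hcd t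
    unfold G3
    have h2 : ∑ i : (Fin r → Fin T₁) × Fin T₂, (c i : ℤ_[p]) *
        ((∏ ι, ep p (i.1 ι) ((t ι : ℕ) : ℤ_[p])) *
          UU p Γ μ lam (fun ι => ((t ι : ℕ) : ℤ_[p])) ^ (i.2 : ℕ)) =
        ∑ i : (Fin r → Fin T₁) × Fin T₂, (c i : ℤ_[p]) *
        (∏ ι, ep p (i.1 ι) ((t ι : ℕ) : ℤ_[p])) *
          UU p Γ μ lam (fun ι => ((t ι : ℕ) : ℤ_[p])) ^ (i.2 : ℕ) :=
      Finset.sum_congr rfl (fun i _ => (mul_assoc _ _ _).symm)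
    rw [← h2]
    exact h1
  intro α hα n hn s hs
  have hZh : 1 ≤ Z ^ hh := Nat.one_le_pow _ _ hZ1
  have hgs : ∑ i, (g α i + ∑ j, n j * e j i) = 0 := by
    rw [Finset.sum_add_distrib, g_sum hb1 ((h𝒜.sum α hα).trans (h𝒜.sum α₀ hα₀).symm) hes (ht α hα),
      zero_add, Finset.sum_comm]
    apply Finset.sum_eq_zero
    intro j _
    rw [← Finset.mul_sum, hes j, mul_zero]
  have hgb : ∀ i, |g α i + ∑ j, n j * e j i| + 1 ≤ ((Z ^ (hh + 2) * N : ℕ) : ℤ) := by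
    intro i
    have h1 := g_small (E := Z ^ hh) (h𝒜.lt α hα) (h𝒜.lt α₀ hα₀)
      (fun j i => by push_cast; exact heZ j i) (ht01 α hα) (ht α hα) i
    have h2 : |∑ j, n j * e j i| ≤ (r : ℤ) * (N * (Z : ℤ) ^ hh) := by
      refine (Finset.abs_sum_le_sum_abs _ _).trans ?_
      refine (Finset.sum_le_card_nsmul _ _ ((N : ℤ) * (Z : ℤ) ^ hh) ?_).trans ?_
      · intro j _
        rw [abs_mul]
        refine mul_le_mul ?_ (heZ j i) (abs_nonneg _) (by positivity)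
        rw [abs_of_nonneg (hn j).1]
        exact (hn j).2.le
      · rw [Finset.card_univ, Fintype.card_fin, nsmul_eq_mul]
    have h3 := abs_add_le (g α i) (∑ j, n j * e j i)
    have h4 : (2 : ℤ) + r * (Z : ℤ) ^ hh + r * (N * (Z : ℤ) ^ hh) ≤ (Z : ℤ) ^ (hh + 2) * N := by
      have a1 : (1 : ℤ) ≤ (Z : ℤ) ^ hh := by exact_mod_cast hZh
      have a2 : (1 : ℤ) ≤ N := by exact_mod_cast hN1
      have a3 : (r : ℤ) + 1 ≤ Z := by exact_mod_cast hrZ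
      have a4 : (2 : ℤ) ≤ Z := by
        have : 2 ≤ Z := by omega
        exact_mod_cast this
      have a5 : (1 : ℤ) ≤ (Z : ℤ) ^ hh * N := by nlinarith
      have a0 : (0 : ℤ) ≤ r := by positivity
      have b1 : (Z : ℤ) ^ hh ≤ (Z : ℤ) ^ hh * N := by nlinarith
      have b2 : (2 : ℤ) + r * (Z : ℤ) ^ hh + r * (N * (Z : ℤ) ^ hh) ≤
          (2 + 2 * r) * ((Z : ℤ) ^ hh * N) := by nlinarith
      refine b2.trans ?_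
      rw [pow_add]
      have b3 : (2 + 2 * (r : ℤ)) ≤ (Z : ℤ) ^ 2 := by nlinarith
      calc (2 + 2 * (r : ℤ)) * ((Z : ℤ) ^ hh * N) ≤ (Z : ℤ) ^ 2 * ((Z : ℤ) ^ hh * N) := by
            exact mul_le_mul_of_nonneg_right b3 (by positivity)
        _ = (Z : ℤ) ^ hh * (Z : ℤ) ^ 2 * N := by ring
    push_cast
    push_cast at h1
    linarith
  refine vanish3 h (G := Z ^ (hh + 2) * N) (e := Z ^ 5 * T₁) (K := 2 * (Z ^ 8 * T₁)) (D := D) (Y := Y)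
    hℓ hpb (h𝒜.lt α hα) hgs (fun i => by linarith [hgb i]) hs (hF1 α hα) (hF3 α hα s hs) (hF2 α hα)
    (hY α hα) (fun i => ?_) (a := fun ι => (α (I₀ ι) : ℤ) + b * (g α (I₀ ι) + ∑ j, n j * e j (I₀ ι)))
    (fun ι => ?_) (fun ι => ?_) c hc (hsmall _) ?_
  · rw [hμ]
    exact pts_rel hb1 (ht α hα) hlam hs hs₀ n i
  · rw [mul_add, hs]
    push_cast
    rfl
  · have h1 := hgb (I₀ ι)
    have h2 : (α (I₀ ι) : ℤ) ≤ b := by exact_mod_cast (h𝒜.lt α hα (I₀ ι)).le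
    have h3 : (0 : ℤ) ≤ b := by positivity
    calc |(α (I₀ ι) : ℤ) + b * (g α (I₀ ι) + ∑ j, n j * e j (I₀ ι))|
        ≤ |(α (I₀ ι) : ℤ)| + |(b : ℤ) * (g α (I₀ ι) + ∑ j, n j * e j (I₀ ι))| := abs_add_le _ _
      _ ≤ b + b * |g α (I₀ ι) + ∑ j, n j * e j (I₀ ι)| := by
          rw [abs_mul, abs_of_nonneg h3, abs_of_nonneg (by positivity : (0 : ℤ) ≤ (α (I₀ ι) : ℤ))]
          linarith
      _ = b * (|g α (I₀ ι) + ∑ j, n j * e j (I₀ ι)| + 1) := by ring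
      _ ≤ b * ((Z ^ (hh + 2) * N : ℕ) : ℤ) := mul_le_mul_of_nonneg_left h1 h3
  · exact num3b hp2 hpZ hb1 hℓ hZ hℓZ hrZ hDZ hT₂1 hT₁ rfl (by omega) hN1

end GamE
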