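import Pool.Agent.GamE.ADefs
import Pool.Agent.GamP.Bin

/-!
# The auxiliary function as a polynomial

PROOFS.
* `cpol_ne`: let `k` be such that some `c (κ, k) ≠ 0`, and choose such a `κ` with `∑ κ_ι` minimal. As the determinant is not
  zero there is `τ : Fin r → ℚ` with `x (I₀ ι) + ∑_j τ_j e_j (I₀ ι) = κ_ι` for all `ι`. Evaluate `cpol .. k` at `τ`: the term of `κ'` is
  `c (κ', k) ∏_ι p^v binomial(κ_ι, κ'_ι)`, zero unless `κ'_ι ≤ κ_ι` for all `ι`; by minimality only `κ' = κ` remains, so the value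
  is `c (κ, k) ∏ p^v ≠ 0`.
* `cpol_deg`: `wi` has total degree at most `1`, `bp p κ w` at most `κ < T₁`.
* `cpol_eval`: `κ! * ep p κ z = p^v ∏_{j<κ} (z - j)` (`fact_choose` of `GamP/Bin`).
-/

namespace GamE

open MvPolynomial Finset GamP

/-- `p^{v(κ!)} binomial(w, κ)` as a polynomial -/
noncomputable def bp {r : ℕ} (p κ : ℕ) (w : RR r) : RR r :=
  C ((p : ℚ) ^ (padicValNat p κ.factorial) / κ.factorial) * ∏ j ∈ range κ, (w - C (j : ℚ))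

/-- the coefficient of `U^k` in the auxiliary function, as a polynomial in `t` -/
noncomputable def cpol {r ℓ : ℕ} (p : ℕ) (x : Fin ℓ → ℚ) (e : Fin r → Fin ℓ → ℤ)
    (I₀ : Fin r → Fin ℓ) {T₁ T₂ : ℕ} (c : (Fin r → Fin T₁) × Fin T₂ → ℤ) (k : Fin T₂) : RR r :=
  ∑ κ : Fin r → Fin T₁, C (c (κ, k) : ℚ) * ∏ ι, bp p (κ ι) (wi x e (I₀ ι))

private theorem eval_wi {r ℓ : ℕ} (x : Fin ℓ → ℚ) (e : Fin r → Fin ℓ → ℤ) (i : Fin ℓ)
    (τ : Fin r → ℚ) : eval τ (wi x e i) = x i + ∑ j, τ j * e j i := by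
  unfold wi wf
  simp only [map_add, map_sum, map_mul, eval_C, eval_X]
  congr 1
  exact Finset.sum_congr rfl fun j _ => mul_comm _ _

private theorem eval_bp {r : ℕ} (p κ : ℕ) (w : RR r) (τ : Fin r → ℚ) :
    eval τ (bp p κ w) = (p : ℚ) ^ (padicValNat p κ.factorial) / κ.factorial *
      ∏ j ∈ range κ, (eval τ w - (j : ℚ)) := by
  unfold bp
  simp only [map_mul, map_prod, map_sub, eval_C]

private theorem eval_cpol {r ℓ : ℕ} (p : ℕ) (x : Fin ℓ → ℚ) (e : Fin r → Fin ℓ → ℤ)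
    (I₀ : Fin r → Fin ℓ) {T₁ T₂ : ℕ} (c : (Fin r → Fin T₁) × Fin T₂ → ℤ) (k : Fin T₂)
    (τ : Fin r → ℚ) :
    eval τ (cpol p x e I₀ c k) = ∑ κ : Fin r → Fin T₁, (c (κ, k) : ℚ) *
      ∏ ι, ((p : ℚ) ^ (padicValNat p (κ ι : ℕ).factorial) / ((κ ι : ℕ).factorial : ℕ) *
        ∏ j ∈ range (κ ι), ((x (I₀ ι) + ∑ j, τ j * e j (I₀ ι)) - (j : ℚ))) := by
  unfold cpol
  simp only [map_sum, map_mul, map_prod, eval_C, eval_bp, eval_wi]

private theorem exists_tau {r ℓ : ℕ} {x : Fin ℓ → ℚ} {e : Fin r → Fin ℓ → ℤ}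
    {I₀ : Fin r → Fin ℓ} (hdet : Matrix.det (Matrix.of fun (j ι : Fin r) => (e j (I₀ ι) : ℚ)) ≠ 0)
    (a : Fin r → ℚ) : ∃ τ : Fin r → ℚ, ∀ ι, x (I₀ ι) + ∑ j, τ j * e j (I₀ ι) = a ι := by
  set M : Matrix (Fin r) (Fin r) ℚ := Matrix.of fun (j ι : Fin r) => (e j (I₀ ι) : ℚ) with hM
  refine ⟨Matrix.vecMul (fun ι => a ι - x (I₀ ι)) M⁻¹, fun ι => ?_⟩
  have h1 : Matrix.vecMul (Matrix.vecMul (fun ι => a ι - x (I₀ ι)) M⁻¹) M =
      fun ι => a ι - x (I₀ ι) := by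
    rw [Matrix.vecMul_vecMul, Matrix.nonsing_inv_mul M (Ne.isUnit hdet), Matrix.vecMul_one]
  have h2 := congrFun h1 ι
  have h3 : Matrix.vecMul (Matrix.vecMul (fun ι => a ι - x (I₀ ι)) M⁻¹) M ι =
      ∑ j, Matrix.vecMul (fun ι => a ι - x (I₀ ι)) M⁻¹ j * (e j (I₀ ι) : ℚ) := rfl
  rw [← h3, h2]
  ring

theorem cpol_ne {r ℓ p : ℕ} (hp : p.Prime) {x : Fin ℓ → ℚ} {e : Fin r → Fin ℓ → ℤ}
    {I₀ : Fin r → Fin ℓ} (hdet : Matrix.det (Matrix.of fun (j ι : Fin r) => (e j (I₀ ι) : ℚ)) ≠ 0)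
    {T₁ T₂ : ℕ} {c : (Fin r → Fin T₁) × Fin T₂ → ℤ} (hc : ∃ i, c i ≠ 0) :
    ∃ k, cpol p x e I₀ c k ≠ 0 := by
  classical
  obtain ⟨⟨κ₀, k⟩, hk⟩ := hc
  refine ⟨k, fun h0 => ?_⟩
  obtain ⟨κ, hκ, hmin⟩ := Finset.exists_min_image
    ((univ : Finset (Fin r → Fin T₁)).filter fun κ => c (κ, k) ≠ 0)
    (fun κ => ∑ ι, (κ ι : ℕ)) ⟨κ₀, by simpa using hk⟩
  rw [Finset.mem_filter] at hκ
  obtain ⟨τ, hτ⟩ := exists_tau (x := x) hdet (fun ι => ((κ ι : ℕ) : ℚ))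
  have h1 := eval_cpol p x e I₀ c k τ
  rw [h0, map_zero] at h1
  simp only [hτ] at h1
  have hp0 : (p : ℚ) ≠ 0 := by exact_mod_cast hp.ne_zero
  rw [Finset.sum_eq_single κ] at h1
  · have h2 : ∏ ι, ((p : ℚ) ^ (padicValNat p (κ ι : ℕ).factorial) / ((κ ι : ℕ).factorial : ℕ) *
        ∏ j ∈ range (κ ι), (((κ ι : ℕ) : ℚ) - (j : ℚ))) ≠ 0 := by
      rw [Finset.prod_ne_zero_iff]
      intro ι _
      apply mul_ne_zero
      · apply div_ne_zero (pow_ne_zero _ hp0)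
        exact_mod_cast (κ ι : ℕ).factorial_ne_zero
      · rw [Finset.prod_ne_zero_iff]
        intro j hj
        rw [Finset.mem_range] at hj
        rw [sub_ne_zero]
        have : (κ ι : ℕ) ≠ j := by omega
        exact_mod_cast this
    have h3 : (c (κ, k) : ℚ) ≠ 0 := by exact_mod_cast hκ.2
    exact mul_ne_zero h3 h2 h1.symm
  · intro κ' _ hne
    by_cases hc' : c (κ', k) = 0
    · rw [hc']
      simp
    · have h4 : ∃ ι, (κ ι : ℕ) < κ' ι := by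
        by_contra hcon
        push Not at hcon
        have h5 := hmin κ' (by simpa using hc')
        have h6 : ∃ ι, (κ' ι : ℕ) < κ ι := by
          by_contra hcon2
          push Not at hcon2
          apply hne
          funext ι
          exact Fin.ext (le_antisymm (hcon ι) (hcon2 ι))
        obtain ⟨ι, hι⟩ := h6
        have h7 : ∑ ι, (κ' ι : ℕ) < ∑ ι, (κ ι : ℕ) :=
          Finset.sum_lt_sum (fun i _ => hcon i) ⟨ι, Finset.mem_univ _, hι⟩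
        omega
      obtain ⟨ι, hι⟩ := h4
      rw [Finset.prod_eq_zero (Finset.mem_univ ι), mul_zero]
      rw [Finset.prod_eq_zero (Finset.mem_range.2 hι), mul_zero]
      simp
  · intro h
    exact absurd (Finset.mem_univ _) h

private theorem deg_wi {r ℓ : ℕ} (x : Fin ℓ → ℚ) (e : Fin r → Fin ℓ → ℤ) (i : Fin ℓ) :
    (wi x e i).totalDegree ≤ 1 := by
  unfold wi wf
  refine (totalDegree_add _ _).trans (max_le ?_ ?_)
  · rw [totalDegree_C]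
    exact Nat.zero_le _
  · refine (totalDegree_finset_sum _ _).trans (Finset.sup_le fun j _ => ?_)
    refine (totalDegree_mul _ _).trans ?_
    rw [totalDegree_C, totalDegree_X, zero_add]

private theorem deg_bp {r : ℕ} (p κ : ℕ) {w : RR r} (hw : w.totalDegree ≤ 1) :
    (bp p κ w).totalDegree ≤ κ := by
  unfold bp
  refine (totalDegree_mul _ _).trans ?_
  rw [totalDegree_C, zero_add]
  refine (totalDegree_finset_prod _ _).trans ?_
  calc ∑ j ∈ range κ, (w - C (j : ℚ)).totalDegree ≤ ∑ j ∈ range κ, 1 := by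
        apply Finset.sum_le_sum
        intro j _
        refine (totalDegree_sub _ _).trans (max_le hw ?_)
        rw [totalDegree_C]
        exact Nat.zero_le _
    _ = κ := by simp

theorem cpol_deg {r ℓ p : ℕ} (x : Fin ℓ → ℚ) (e : Fin r → Fin ℓ → ℤ)
    (I₀ : Fin r → Fin ℓ) {T₁ T₂ : ℕ} (c : (Fin r → Fin T₁) × Fin T₂ → ℤ) (k : Fin T₂) :
    (cpol p x e I₀ c k).totalDegree ≤ r * T₁ := by
  unfold cpol
  refine (totalDegree_finset_sum _ _).trans (Finset.sup_le fun κ _ => ?_)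
  refine (totalDegree_mul _ _).trans ?_
  rw [totalDegree_C, zero_add]
  refine (totalDegree_finset_prod _ _).trans ?_
  calc ∑ ι, (bp p (κ ι) (wi x e (I₀ ι))).totalDegree ≤ ∑ _ι : Fin r, T₁ := by
        apply Finset.sum_le_sum
        intro ι _
        exact (deg_bp p _ (deg_wi x e _)).trans (κ ι).2.le
    _ = r * T₁ := by simp

private theorem ep_cast {p : ℕ} [Fact p.Prime] (κ : ℕ) (z : ℤ_[p]) :
    ((ep p κ z : ℤ_[p]) : ℚ_[p]) = (p : ℚ_[p]) ^ (padicValNat p κ.factorial) / (κ.factorial : ℕ) *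
      ∏ j ∈ range κ, ((z : ℚ_[p]) - j) := by
  have h1 := fact_choose z κ
  have h2 : ((κ.factorial : ℕ) : ℚ_[p]) * ((Ring.choose z κ : ℤ_[p]) : ℚ_[p]) =
      ((∏ j ∈ range κ, (z - (j : ℤ_[p])) : ℤ_[p]) : ℚ_[p]) := by
    rw [← h1, PadicInt.coe_mul, PadicInt.coe_natCast]
  have h3 : ((∏ j ∈ range κ, (z - (j : ℤ_[p])) : ℤ_[p]) : ℚ_[p]) =
      ∏ j ∈ range κ, ((z : ℚ_[p]) - j) := by
    have h4 := map_prod (PadicInt.Coe.ringHom (p := p)) (fun j : ℕ => z - (j : ℤ_[p])) (range κ)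
    refine Eq.trans h4 ?_
    refine Finset.prod_congr rfl fun j _ => ?_
    change ((z - (j : ℤ_[p]) : ℤ_[p]) : ℚ_[p]) = _
    rw [PadicInt.coe_sub, PadicInt.coe_natCast]
  have hf : ((κ.factorial : ℕ) : ℚ_[p]) ≠ 0 := by exact_mod_cast κ.factorial_ne_zero
  rw [← h3, ← h2]
  unfold ep
  rw [PadicInt.coe_mul, PadicInt.coe_pow, PadicInt.coe_natCast]
  field_simp

theorem cpol_eval {r ℓ p : ℕ} [Fact p.Prime] (x : Fin ℓ → ℚ) (e : Fin r → Fin ℓ → ℤ)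
    (I₀ : Fin r → Fin ℓ) {T₁ T₂ : ℕ} (c : (Fin r → Fin T₁) × Fin T₂ → ℤ) (k : Fin T₂)
    (τ : Fin r → ℚ) (z : Fin r → ℤ_[p])
    (hz : ∀ ι, ((z ι : ℤ_[p]) : ℚ_[p]) = ((x (I₀ ι) + ∑ j, τ j * e j (I₀ ι) : ℚ) : ℚ_[p])) :
    ((eval τ (cpol p x e I₀ c k) : ℚ) : ℚ_[p]) =
      ∑ κ : Fin r → Fin T₁, (c (κ, k) : ℚ_[p]) * ∏ ι, ((ep p (κ ι) (z ι) : ℤ_[p]) : ℚ_[p]) := by
  rw [eval_cpol, Rat.cast_sum]
  refine Finset.sum_congr rfl fun κ _ => ?_
  rw [Rat.cast_mul, Rat.cast_intCast, Rat.cast_prod]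
  congr 1
  refine Finset.prod_congr rfl fun ι _ => ?_
  refine Eq.trans ?_ (ep_cast (p := p) (κ ι : ℕ) (z ι)).symm
  rw [Rat.cast_mul, Rat.cast_prod, Rat.cast_div, Rat.cast_pow, Rat.cast_natCast, Rat.cast_natCast]
  congr 1
  refine Finset.prod_congr rfl fun j _ => ?_
  rw [Rat.cast_sub, Rat.cast_natCast]
  congr 1
  exact (hz ι).symm

end GamE
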