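import Mathlib

/-!
# Optimal coordinates on a rational subspace

PROOF. For `I : Fin r → Fin ℓ` let `d I = det (e j (I ι))_{j,ι} ∈ ℤ`. Some `d I` is not zero: the rows `e j` are independent over
`ℚ`, so the matrix has rank `r` and some `r` columns are independent (e.g. the columns span `ℚ^r`; extract a basis,
`Matrix.rank`, `exists_linearIndependent`). Choose `I₀` with `d I₀ ≠ 0` and `‖(d I₀ : ℤ_[p])‖` maximal (finitely many `I`). Let
`A = (e j (I₀ ι))_{j,ι}` over `ℚ_[p]`, invertible. For `i : Fin ℓ` Cramer's rule for the column `v = (e j i)_j`: the solution of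
`∑_ι A j ι * x ι = v j` is `x ι = det (A with column ι replaced by v) / det A = d (Function.update I₀ ι i) / d I₀`
(`Matrix.mulVec_cramer`, `Matrix.cramer_apply`), of norm at most `1` by maximality: `lam i ι` is this element of
`ℤ_[p]`.
-/

namespace GamE

open Finset

private theorem exists_I {r ℓ : ℕ} (e : Fin r → Fin ℓ → ℤ)
    (he : LinearIndependent ℚ (fun (j : Fin r) (i : Fin ℓ) => (e j i : ℚ))) :
    ∃ I : Fin r → Fin ℓ, Matrix.det (Matrix.of fun (j ι : Fin r) => e j (I ι)) ≠ 0 := by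
  let M : Matrix (Fin r) (Fin ℓ) ℚ := fun j i => (e j i : ℚ)
  have hrank : M.rank = r := by
    have := LinearIndependent.rank_matrix (M := M) he
    simpa using this
  have hspan : Submodule.span ℚ (Set.range M.col) = ⊤ := by
    apply Submodule.eq_top_of_finrank_eq
    rw [← Matrix.rank_eq_finrank_span_cols, hrank]
    simp
  obtain ⟨κ, a, ha, hsp, hli⟩ := exists_linearIndependent' ℚ M.col
  rw [hspan] at hsp
  let b : Module.Basis κ ℚ (Fin r → ℚ) := Module.Basis.mk hli (le_of_eq hsp.symm)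
  have : Finite κ := Module.Finite.finite_basis b
  have := Fintype.ofFinite κ
  have hcard : Fintype.card κ = r := by
    have h1 := Module.finrank_eq_card_basis b
    simpa using h1.symm
  let E : Fin r ≃ κ := (Fintype.equivFinOfCardEq hcard).symm
  refine ⟨a ∘ E, ?_⟩
  have h2 : LinearIndependent ℚ (Matrix.of fun (j ι : Fin r) => (e j ((a ∘ E) ι) : ℚ)).col := by
    exact hli.comp E E.injective
  rw [Matrix.linearIndependent_cols_iff_isUnit, Matrix.isUnit_iff_isUnit_det] at h2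
  intro h0
  apply h2.ne_zero
  have h3 : (Matrix.of fun (j ι : Fin r) => (e j ((a ∘ E) ι) : ℚ)) =
      (Matrix.of fun (j ι : Fin r) => e j ((a ∘ E) ι)).map (Int.castRingHom ℚ) := by
    ext j ι
    rfl
  rw [h3, ← RingHom.mapMatrix_apply, ← RingHom.map_det, h0, map_zero]

private theorem cramer_e {r ℓ : ℕ} (e : Fin r → Fin ℓ → ℤ) (I : Fin r → Fin ℓ) (i : Fin ℓ)
    (j : Fin r) : ∑ ι, Matrix.det (Matrix.of fun (j ι' : Fin r) => e j (Function.update I ι i ι')) *
      e j (I ι) = Matrix.det (Matrix.of fun (j ι : Fin r) => e j (I ι)) * e j i := by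
  have h1 := congrFun (Matrix.mulVec_cramer (Matrix.of fun (j ι : Fin r) => e j (I ι))
    (fun j => e j i)) j
  rw [Pi.smul_apply, smul_eq_mul] at h1
  rw [← h1, Matrix.mulVec, dotProduct]
  refine Finset.sum_congr rfl (fun ι _ => ?_)
  rw [Matrix.cramer_apply, mul_comm]
  congr 2
  ext j' ι'
  rw [Matrix.updateCol_apply, Matrix.of_apply, Matrix.of_apply, Function.update_apply]
  split_ifs <;> rfl

theorem exists_coord {p : ℕ} [Fact p.Prime] {r ℓ : ℕ} (e : Fin r → Fin ℓ → ℤ)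
    (he : LinearIndependent ℚ (fun (j : Fin r) (i : Fin ℓ) => (e j i : ℚ))) :
    ∃ (I₀ : Fin r → Fin ℓ) (lam : Fin ℓ → Fin r → ℤ_[p]),
      Matrix.det (Matrix.of fun (j ι : Fin r) => (e j (I₀ ι) : ℚ)) ≠ 0 ∧
      ∀ i j, (e j i : ℤ_[p]) = ∑ ι, lam i ι * (e j (I₀ ι) : ℤ_[p]) := by
  classical
  obtain ⟨I₁, hI₁⟩ := exists_I e he
  obtain ⟨I₀, -, hmax⟩ := Finset.exists_max_image (Finset.univ : Finset (Fin r → Fin ℓ))
    (fun I => ‖((Matrix.det (Matrix.of fun (j ι : Fin r) => e j (I ι)) : ℤ) : ℤ_[p])‖)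
    ⟨I₁, Finset.mem_univ _⟩
  have hI₀ : ((Matrix.det (Matrix.of fun (j ι : Fin r) => e j (I₀ ι)) : ℤ) : ℤ_[p]) ≠ 0 := by
    intro h0
    have h1 := hmax I₁ (Finset.mem_univ _)
    rw [h0, norm_zero] at h1
    have h2 : ((Matrix.det (Matrix.of fun (j ι : Fin r) => e j (I₁ ι)) : ℤ) : ℤ_[p]) = 0 :=
      norm_le_zero_iff.1 h1
    exact hI₁ (by exact_mod_cast h2)
  have hdiv : ∀ I : Fin r → Fin ℓ, ∃ x : ℤ_[p],
      ((Matrix.det (Matrix.of fun (j ι : Fin r) => e j (I ι)) : ℤ) : ℤ_[p]) =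
        x * ((Matrix.det (Matrix.of fun (j ι : Fin r) => e j (I₀ ι)) : ℤ) : ℤ_[p]) := by
    intro I
    have h1 := hmax I (Finset.mem_univ _)
    generalize ((Matrix.det (Matrix.of fun (j ι : Fin r) => e j (I ι)) : ℤ) : ℤ_[p]) = u at h1
    generalize ((Matrix.det (Matrix.of fun (j ι : Fin r) => e j (I₀ ι)) : ℤ) : ℤ_[p]) = w at h1 hI₀
    have hw : (w : ℚ_[p]) ≠ 0 := by
      intro h
      exact hI₀ (Subtype.ext h)
    refine ⟨⟨(u : ℚ_[p]) / w, ?_⟩, ?_⟩
    · rw [norm_div]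
      apply div_le_one_of_le₀ h1 (norm_nonneg _)
    · apply Subtype.ext
      show (u : ℚ_[p]) = (u : ℚ_[p]) / w * w
      rw [div_mul_cancel₀ _ hw]
  choose x hx using hdiv
  refine ⟨I₀, fun i ι => x (Function.update I₀ ι i), ?_, ?_⟩
  · have h3 : (Matrix.of fun (j ι : Fin r) => (e j (I₀ ι) : ℚ)) =
        (Matrix.of fun (j ι : Fin r) => e j (I₀ ι)).map (Int.castRingHom ℚ) := by
      ext j ι
      rfl
    rw [h3, ← RingHom.mapMatrix_apply, ← RingHom.map_det]
    intro h0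
    apply hI₀
    have h4 : Matrix.det (Matrix.of fun (j ι : Fin r) => e j (I₀ ι)) = 0 := by
      have h5 : ((Matrix.det (Matrix.of fun (j ι : Fin r) => e j (I₀ ι)) : ℤ) : ℚ) = 0 := h0
      exact_mod_cast h5
    rw [h4, Int.cast_zero]
  · intro i j
    have h1' : ∑ ι, ((Matrix.det (Matrix.of fun (j ι' : Fin r) => e j (Function.update I₀ ι i ι')) : ℤ) :
        ℤ_[p]) * (e j (I₀ ι) : ℤ_[p]) =
        ((Matrix.det (Matrix.of fun (j ι : Fin r) => e j (I₀ ι)) : ℤ) : ℤ_[p]) * (e j i : ℤ_[p]) := by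
      have := congrArg (Int.cast : ℤ → ℤ_[p]) (cramer_e e I₀ i j)
      rw [Int.cast_sum, Int.cast_mul] at this
      rw [← this]
      exact Finset.sum_congr rfl (fun ι _ => by rw [Int.cast_mul])
    apply mul_left_cancel₀ hI₀
    rw [← h1', Finset.mul_sum]
    refine Finset.sum_congr rfl (fun ι _ => ?_)
    rw [hx]
    ring

end GamE
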