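import Mathlib

/-!
# The Casoratian determinant

PROOF. Write `R_j = ∏_{l<j} σ^l R`, `v_i = (σ^j (a_i) R_j^(k_i))_{j ≥ 0}`. Note `R_{j+1} = R * σ (R_j)`, `R_j ≠ 0`.
CLAIM by strong induction on `n`: for every subset `S` of `Fin m` with `n` elements, the truncated vectors
`(v_i(j))_{j < n}`, `i ∈ S`, are linearly independent (i.e. `∑_{i ∈ S} c_i v_i(j) = 0` for all `j < n` implies `c = 0`). For
`n = m`, `S = univ` this gives the theorem (the columns of the matrix are independent; e.g.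
`Matrix.exists_mulVec_eq_zero_iff`).
Suppose `∑_{i∈S} c_i v_i(j) = 0` for `j < n`. If some `c_{i}`, `i ∈ S`, is `0` use the claim for `S \ {i}`, `n - 1`. So all the
`c_i ≠ 0`; fix `i₁ ∈ S` and divide: `c_{i₁} = 1`. If `n = 1`: `a_{i₁} = 0`, contradiction. For `j < n - 1`:
(a) the relation at `j+1`: `∑ c_i σ^{j+1}(a_i) R_{j+1}^{k_i} = 0`;
(b) `σ` of the relation at `j`: `∑ σ(c_i) σ^{j+1}(a_i) (R_{j+1}/R)^{k_i} = 0`.
`R^{k_{i₁}}` times (b) minus (a): the term `i₁` cancels (`σ 1 = 1`), so for `c'_i = σ(c_i) R^{k_{i₁}} / R^{k_i} - c_i`: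
`∑_{i ≠ i₁} c'_i σ^{j+1}(a_i) R_{j+1}^{k_i} = 0` for `j < n-1`; as `R_{j+1} = R σ(R_j)` this is
`∑_{i ≠ i₁} (c'_i R^{k_i}) σ(v_i(j)) = 0`; apply `σ⁻¹`: by the claim for `S \ {i₁}`, `n-1`, all the `c'_i = 0`:
`σ(c_i) R^{k_{i₁}} = R^{k_i} c_i`, `i ≠ i₁` (there is one as `n ≥ 2`). If `k_i > k_{i₁}` then `σ c_i = R^{k_i - k_{i₁}} c_i`, contradiction to
`hnc`. If `k_i < k_{i₁}` then `a = c_i⁻¹` satisfies `σ a = R^{k_{i₁} - k_i} a`, contradiction. (`k` is injective.)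
-/

namespace GamE

open Finset

private theorem cas_step {L : Type*} [Field L] (σ : L ≃+* L) (R : L) {m : ℕ} (k : Fin m → ℕ)
    (a : Fin m → L) (i : Fin m) (j : ℕ) :
    ((⇑σ)^[j + 1]) (a i) * (∏ l ∈ range (j + 1), ((⇑σ)^[l]) R) ^ (k i) =
      R ^ (k i) * σ (((⇑σ)^[j]) (a i) * (∏ l ∈ range j, ((⇑σ)^[l]) R) ^ (k i)) := by
  have h1 : ∏ l ∈ range (j + 1), ((⇑σ)^[l]) R = R * σ (∏ l ∈ range j, ((⇑σ)^[l]) R) := by
    rw [prod_range_succ', map_prod, Function.iterate_zero, id, mul_comm]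
    congr 1
    refine prod_congr rfl fun l _ => ?_
    rw [Function.iterate_succ_apply']
  rw [h1, map_mul, map_pow, Function.iterate_succ_apply', mul_pow]
  ring

private theorem cas_key {L : Type*} [Field L] (σ : L ≃+* L) {R : L} (hR : R ≠ 0)
    (hnc : ∀ m : ℕ, 1 ≤ m → ∀ a : L, a ≠ 0 → σ a ≠ R ^ m * a) {k k' : ℕ} (hk : k ≠ k') {c c' : L}
    (hc : c ≠ 0) (hc' : c' ≠ 0) (h : c * R ^ k * σ c' = σ c * c' * R ^ k') : False := by
  have hσc : σ c ≠ 0 := (map_ne_zero σ).2 hc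
  have hσc' : σ c' ≠ 0 := (map_ne_zero σ).2 hc'
  rcases lt_or_gt_of_ne hk with hlt | hlt
  · refine hnc (k' - k) (by omega) (c' / c) (div_ne_zero hc' hc) ?_
    have e : R ^ k' = R ^ k * R ^ (k' - k) := by rw [← pow_add]; congr 1; omega
    rw [map_div₀, div_eq_iff hσc]
    have hRk : R ^ k ≠ 0 := pow_ne_zero _ hR
    rw [e] at h
    field_simp
    have : R ^ k * (σ c' * c) = R ^ k * (R ^ (k' - k) * c' * σ c) := by
      linear_combination h
    exact mul_left_cancel₀ hRk (by linear_combination this)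
  · refine hnc (k - k') (by omega) (c / c') (div_ne_zero hc hc') ?_
    have e : R ^ k = R ^ k' * R ^ (k - k') := by rw [← pow_add]; congr 1; omega
    rw [map_div₀, div_eq_iff hσc']
    have hRk : R ^ k' ≠ 0 := pow_ne_zero _ hR
    rw [e] at h
    field_simp
    exact mul_left_cancel₀ hRk (by linear_combination -h)

private theorem cas_ind {L : Type*} [Field L] (σ : L ≃+* L) {R : L} (hR : R ≠ 0)
    (hnc : ∀ m : ℕ, 1 ≤ m → ∀ a : L, a ≠ 0 → σ a ≠ R ^ m * a)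
    {m : ℕ} {k : Fin m → ℕ} (hk : Function.Injective k) {a : Fin m → L} (ha : ∀ i, a i ≠ 0)
    (n : ℕ) : ∀ (S : Finset (Fin m)), S.card = n → ∀ c : Fin m → L,
      (∀ j < n, ∑ i ∈ S, c i * (((⇑σ)^[j]) (a i) * (∏ l ∈ range j, ((⇑σ)^[l]) R) ^ (k i)) = 0) →
      ∀ i ∈ S, c i = 0 := by
  induction n with
  | zero =>
    intro S hS c _ i hi
    rw [card_eq_zero] at hS
    rw [hS] at hi
    simp at hi
  | succ n ih =>
    intro S hS c hrel
    by_contra hne
    push Not at hne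
    obtain ⟨i₁, hi₁, hc₁⟩ := hne
    have hall : ∀ i ∈ S, c i ≠ 0 := by
      intro i' hi' h0
      have hne' : i₁ ≠ i' := by
        rintro rfl
        exact hc₁ h0
      refine hc₁ (ih (S.erase i') (by rw [card_erase_of_mem hi', hS]; rfl) c ?_ i₁
        (mem_erase.2 ⟨hne', hi₁⟩))
      intro j hj
      have h1 := hrel j (by omega)
      rw [← add_sum_erase _ _ hi', h0, zero_mul, zero_add] at h1
      exact h1
    have hd : ∀ i ∈ S.erase i₁, σ.symm (c i₁ * R ^ (k i₁) * σ (c i) - σ (c i₁) * c i * R ^ (k i)) = 0 := by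
      refine ih (S.erase i₁) (by rw [card_erase_of_mem hi₁, hS]; rfl) _ ?_
      intro j hj
      apply σ.injective
      rw [map_sum, map_zero]
      have hb := congrArg σ (hrel j (by omega))
      rw [map_sum, map_zero] at hb
      have ha' := hrel (j + 1) (by omega)
      have e : ∑ i ∈ S, (c i₁ * R ^ (k i₁) * σ (c i) - σ (c i₁) * c i * R ^ (k i)) *
          σ (((⇑σ)^[j]) (a i) * (∏ l ∈ range j, ((⇑σ)^[l]) R) ^ (k i)) = 0 := by
        have e1 : ∑ i ∈ S, (c i₁ * R ^ (k i₁) * σ (c i) - σ (c i₁) * c i * R ^ (k i)) *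
          σ (((⇑σ)^[j]) (a i) * (∏ l ∈ range j, ((⇑σ)^[l]) R) ^ (k i)) =
          c i₁ * R ^ (k i₁) * (∑ i ∈ S, σ (c i * (((⇑σ)^[j]) (a i) *
            (∏ l ∈ range j, ((⇑σ)^[l]) R) ^ (k i)))) -
          σ (c i₁) * (∑ i ∈ S, c i * (((⇑σ)^[j + 1]) (a i) *
            (∏ l ∈ range (j + 1), ((⇑σ)^[l]) R) ^ (k i))) := by
          rw [mul_sum, mul_sum, ← sum_sub_distrib]
          refine sum_congr rfl fun i _ => ?_
          rw [cas_step, map_mul σ (c i)]
          ring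
        rw [e1, hb, ha', mul_zero, mul_zero, sub_zero]
      rw [← add_sum_erase _ _ hi₁] at e
      have e0 : (c i₁ * R ^ (k i₁) * σ (c i₁) - σ (c i₁) * c i₁ * R ^ (k i₁)) = 0 := by ring
      rw [e0, zero_mul, zero_add] at e
      rw [← e]
      refine sum_congr rfl fun i _ => ?_
      rw [map_mul, RingEquiv.apply_symm_apply]
    rcases (S.erase i₁).eq_empty_or_nonempty with hemp | ⟨i₂, hi₂⟩
    · have h0 := hrel 0 (by omega)
      rw [← add_sum_erase _ _ hi₁, hemp, sum_empty, add_zero, range_zero, prod_empty, one_pow,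
        mul_one, Function.iterate_zero, id] at h0
      rcases mul_eq_zero.1 h0 with h | h
      · exact hc₁ h
      · exact ha _ h
    · have h2 := hd i₂ hi₂
      rw [map_eq_zero_iff σ.symm σ.symm.injective, sub_eq_zero] at h2
      rw [mem_erase] at hi₂
      exact cas_key σ hR hnc (fun h => hi₂.1 (hk h).symm) hc₁ (hall _ hi₂.2) h2

theorem casorati {L : Type*} [Field L] (σ : L ≃+* L) {R : L} (hR : R ≠ 0)
    (hnc : ∀ m : ℕ, 1 ≤ m → ∀ a : L, a ≠ 0 → σ a ≠ R ^ m * a)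
    {m : ℕ} {k : Fin m → ℕ} (hk : Function.Injective k) {a : Fin m → L} (ha : ∀ i, a i ≠ 0) :
    Matrix.det (Matrix.of fun (j i : Fin m) =>
      ((⇑σ)^[(j : ℕ)]) (a i) * (∏ l ∈ range (j : ℕ), ((⇑σ)^[l]) R) ^ (k i)) ≠ 0 := by
  intro hdet
  obtain ⟨c, hc, hM⟩ := Matrix.exists_mulVec_eq_zero_iff.2 hdet
  apply hc
  funext i
  refine cas_ind σ hR hnc hk ha m univ (by simp) c ?_ i (mem_univ i)
  intro j hj
  have h1 := congrFun hM ⟨j, hj⟩
  rw [Matrix.mulVec, dotProduct] at h1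
  simp only [Matrix.of_apply, Pi.zero_apply] at h1
  rw [← h1]
  exact sum_congr rfl fun i _ => mul_comm _ _

end GamE
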