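import Pool.Agent.GamE.NoCo
import Pool.Agent.GamE.Cas
import Pool.Agent.GamE.TrL

/-!
# Elimination of the function `U` (proof by helper22)

`A = AA p x e (e 0)`, `B = BB p x e (e 0)`; `N_j = ∏_{l<j} tr (e0 l) A`, `D_j = ∏_{l<j} tr (e0 l) B`, and `ρ` is the determinant
of the matrix `tr (e0 j) (c (k i)) * N_j^(k i) * D_j^(T₂ - k i)`, where `k` enumerates the nonzero `c k`.
-/

namespace GamE

open MvPolynomial Finset

namespace Rho

/-- the translation by `(1, 0, …, 0)` as an automorphism -/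
noncomputable def te (s : ℕ) : RR (s + 1) ≃+* RR (s + 1) :=
  RingEquiv.ofRingHom (tr (e0 1)).toRingHom (tr (e0 (-1))).toRingHom
    (by
      apply RingHom.ext
      intro f
      show tr (e0 1) (tr (e0 (-1)) f) = f
      rw [tr_tr, show (e0 (s := s) 1 + e0 (-1)) = 0 from by
        unfold e0; rw [← Pi.single_add]; simp, tr_zero])
    (by
      apply RingHom.ext
      intro f
      show tr (e0 (-1)) (tr (e0 1) f) = f
      rw [tr_tr, show (e0 (s := s) (-1) + e0 1) = 0 from by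
        unfold e0; rw [← Pi.single_add]; simp, tr_zero])

theorem te_apply (s : ℕ) (f : RR (s + 1)) : te s f = tr (e0 1) f := rfl

/-- the field -/
abbrev LL (s : ℕ) : Type := FractionRing (RR (s + 1))

/-- the automorphism of the field of fractions -/
noncomputable def sg (s : ℕ) : LL s ≃+* LL s := IsFractionRing.ringEquivOfRingEquiv (te s)

theorem sg_alg (s : ℕ) (f : RR (s + 1)) :
    sg s (algebraMap (RR (s + 1)) (LL s) f) = algebraMap (RR (s + 1)) (LL s) (tr (e0 1) f) := by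
  unfold sg
  rw [IsFractionRing.ringEquivOfRingEquiv_algebraMap, te_apply]

theorem tr_e0_succ (s j : ℕ) (f : RR (s + 1)) :
    tr (e0 1) (tr (e0 (j : ℚ)) f) = tr (e0 ((j + 1 : ℕ) : ℚ)) f := by
  rw [tr_tr, show (e0 (s := s) 1 + e0 (j : ℚ)) = e0 ((j + 1 : ℕ) : ℚ) from by
    unfold e0; rw [← Pi.single_add]; congr 1; push_cast; ring]

theorem sg_iter (s : ℕ) (f : RR (s + 1)) (j : ℕ) :
    ((⇑(sg s))^[j]) (algebraMap (RR (s + 1)) (LL s) f) =
      algebraMap (RR (s + 1)) (LL s) (tr (e0 (j : ℚ)) f) := by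
  induction j with
  | zero =>
    have : (e0 (s := s) ((0 : ℕ) : ℚ)) = 0 := by unfold e0; simp
    rw [this, tr_zero]
    rfl
  | succ j ih =>
    rw [Function.iterate_succ_apply', ih, sg_alg, tr_e0_succ]

theorem sg_iter_div (s : ℕ) (f g : RR (s + 1)) (j : ℕ) :
    ((⇑(sg s))^[j]) (algebraMap (RR (s + 1)) (LL s) f / algebraMap (RR (s + 1)) (LL s) g) =
      algebraMap (RR (s + 1)) (LL s) (tr (e0 (j : ℚ)) f) /
        algebraMap (RR (s + 1)) (LL s) (tr (e0 (j : ℚ)) g) := by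
  induction j with
  | zero =>
    have : (e0 (s := s) ((0 : ℕ) : ℚ)) = 0 := by unfold e0; simp
    rw [this, tr_zero, tr_zero]
    rfl
  | succ j ih =>
    rw [Function.iterate_succ_apply', ih, map_div₀, sg_alg, sg_alg, tr_e0_succ, tr_e0_succ]

theorem tr_ne {r : ℕ} (γ : Fin r → ℚ) {f : RR r} (hf : f ≠ 0) : tr γ f ≠ 0 := by
  intro h
  apply hf
  have h1 := congrArg (tr (-γ)) h
  rw [tr_tr, map_zero, neg_add_cancel, tr_zero] at h1
  exact h1

theorem deg_wf {r : ℕ} (x : ℚ) (e : Fin r → ℚ) : (wf x e).totalDegree ≤ 1 := by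
  unfold wf
  refine (totalDegree_add _ _).trans (max_le ?_ ?_)
  · rw [totalDegree_C]; exact Nat.zero_le _
  · apply totalDegree_finsetSum_le
    intro j _
    refine (totalDegree_mul _ _).trans ?_
    rw [totalDegree_C, totalDegree_X]

theorem deg_AA {r ℓ p H : ℕ} (x : Fin ℓ → ℚ) (e : Fin r → Fin ℓ → ℤ) (γ : Fin ℓ → ℤ)
    (hH : ∀ i, |γ i| ≤ (H : ℤ)) : (AA p x e γ).totalDegree ≤ ℓ * p * H := by
  unfold AA
  refine (totalDegree_finsetProd _ _).trans ?_
  have h1 : ∀ i ∈ (univ : Finset (Fin ℓ)), (∏ k ∈ (range (p * (γ i).toNat)).filter (fun k => ¬ p ∣ k),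
      (C (p : ℚ) * wi x e i + C (k : ℚ) : RR r)).totalDegree ≤ p * H := by
    intro i _
    refine (totalDegree_finsetProd _ _).trans ?_
    have h2 : ∀ k ∈ (range (p * (γ i).toNat)).filter (fun k => ¬ p ∣ k),
        (C (p : ℚ) * wi x e i + C (k : ℚ) : RR r).totalDegree ≤ 1 := by
      intro k _
      refine (totalDegree_add _ _).trans (max_le ?_ ?_)
      · refine (totalDegree_mul _ _).trans ?_
        rw [totalDegree_C, zero_add]
        exact deg_wf _ _
      · rw [totalDegree_C]; exact Nat.zero_le _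
    refine (Finset.sum_le_card_nsmul _ _ 1 h2).trans ?_
    rw [smul_eq_mul, mul_one]
    refine (Finset.card_filter_le _ _).trans ?_
    rw [Finset.card_range]
    refine Nat.mul_le_mul_left p ?_
    have h3 := hH i
    have h4 := le_abs_self (γ i)
    omega
  refine (Finset.sum_le_card_nsmul _ _ _ h1).trans ?_
  rw [Finset.card_univ, Fintype.card_fin, smul_eq_mul, mul_assoc]

theorem deg_BB {r ℓ p H : ℕ} (x : Fin ℓ → ℚ) (e : Fin r → Fin ℓ → ℤ) (γ : Fin ℓ → ℤ)
    (hH : ∀ i, |γ i| ≤ (H : ℤ)) : (BB p x e γ).totalDegree ≤ ℓ * p * H := by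
  unfold BB
  refine (totalDegree_finsetProd _ _).trans ?_
  have h1 : ∀ i ∈ (univ : Finset (Fin ℓ)), (∏ k ∈ (range (p * (-γ i).toNat)).filter (fun k => ¬ p ∣ k),
      (C (p : ℚ) * (wi x e i + C (γ i : ℚ)) + C (k : ℚ) : RR r)).totalDegree ≤ p * H := by
    intro i _
    refine (totalDegree_finsetProd _ _).trans ?_
    have h2 : ∀ k ∈ (range (p * (-γ i).toNat)).filter (fun k => ¬ p ∣ k),
        (C (p : ℚ) * (wi x e i + C (γ i : ℚ)) + C (k : ℚ) : RR r).totalDegree ≤ 1 := by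
      intro k _
      refine (totalDegree_add _ _).trans (max_le ?_ ?_)
      · refine (totalDegree_mul _ _).trans ?_
        rw [totalDegree_C, zero_add]
        refine (totalDegree_add _ _).trans (max_le (deg_wf _ _) ?_)
        rw [totalDegree_C]; exact Nat.zero_le _
      · rw [totalDegree_C]; exact Nat.zero_le _
    refine (Finset.sum_le_card_nsmul _ _ 1 h2).trans ?_
    rw [smul_eq_mul, mul_one]
    refine (Finset.card_filter_le _ _).trans ?_
    rw [Finset.card_range]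
    refine Nat.mul_le_mul_left p ?_
    have h3 := hH i
    have h4 := neg_abs_le (γ i)
    omega
  refine (Finset.sum_le_card_nsmul _ _ _ h1).trans ?_
  rw [Finset.card_univ, Fintype.card_fin, smul_eq_mul, mul_assoc]

/-- products of translates -/
noncomputable def PP {s : ℕ} (A : RR (s + 1)) (j : ℕ) : RR (s + 1) := ∏ l ∈ range j, tr (e0 (l : ℚ)) A

theorem PP_ne {s : ℕ} {A : RR (s + 1)} (hA : A ≠ 0) (j : ℕ) : PP A j ≠ 0 := by
  unfold PP
  rw [Finset.prod_ne_zero_iff]
  intro l _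
  exact tr_ne _ hA

theorem deg_PP {s d : ℕ} {A : RR (s + 1)} (hA : A.totalDegree ≤ d) (j : ℕ) :
    (PP A j).totalDegree ≤ j * d := by
  unfold PP
  refine (totalDegree_finsetProd _ _).trans ?_
  refine (Finset.sum_le_card_nsmul _ _ d (fun l _ => (totalDegree_tr _ _).trans hA)).trans ?_
  rw [Finset.card_range, smul_eq_mul]

theorem PP_alg {s : ℕ} (A B : RR (s + 1)) (j : ℕ) :
    (∏ l ∈ range j, ((⇑(sg s))^[l])
      (algebraMap (RR (s + 1)) (LL s) A / algebraMap (RR (s + 1)) (LL s) B)) =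
    algebraMap (RR (s + 1)) (LL s) (PP A j) / algebraMap (RR (s + 1)) (LL s) (PP B j) := by
  unfold PP
  rw [map_prod, map_prod, ← Finset.prod_div_distrib]
  exact Finset.prod_congr rfl (fun l _ => sg_iter_div s A B l)

theorem deg_det {r m d : ℕ} (M : Matrix (Fin m) (Fin m) (RR r)) (h : ∀ i j, (M i j).totalDegree ≤ d) :
    M.det.totalDegree ≤ m * d := by
  rw [Matrix.det_apply]
  apply totalDegree_finsetSum_le
  intro π _
  have h1 : (Equiv.Perm.sign π • ∏ i, M (π i) i : RR r).totalDegree ≤ (∏ i, M (π i) i).totalDegree := by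
    rcases Int.units_eq_one_or (Equiv.Perm.sign π) with h2 | h2
    · rw [h2, one_smul]
    · rw [h2, Units.neg_smul, one_smul, totalDegree_neg]
  refine h1.trans ?_
  refine (totalDegree_finsetProd _ _).trans ?_
  refine (Finset.sum_le_card_nsmul _ _ d (fun i _ => h _ _)).trans ?_
  rw [Finset.card_univ, Fintype.card_fin, smul_eq_mul]

end Rho

open Rho in
theorem exists_rho {s ℓ p T₂ d₀ H : ℕ} (hp : p.Prime) (x : Fin ℓ → ℚ)
    (e : Fin (s + 1) → Fin ℓ → ℤ) (hsum : ∑ i, e 0 i = 0) (hne : e 0 ≠ 0)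
    (hH : ∀ i, |e 0 i| ≤ (H : ℤ))
    (hnd : ∀ i j, 0 < e 0 i → e 0 j < 0 → ∀ n : ℤ, (p : ℚ) * (e 0 i * x j - e 0 j * x i) ≠ n)
    (c : Fin T₂ → RR (s + 1)) (hc : ∃ k, c k ≠ 0) (hd : ∀ k, (c k).totalDegree ≤ d₀) :
    ∃ ρ : RR (s + 1), ρ ≠ 0 ∧ ρ.totalDegree ≤ T₂ * (d₀ + T₂ ^ 2 * (ℓ * p * H)) ∧
      ∀ {K : Type} [Field K] [CharZero K] (τ : Fin (s + 1) → ℚ) (U : ℕ → K), (∀ j, U j ≠ 0) →
        (∀ j < T₂, ((eval (τ + e0 j) (BB p x e (e 0)) : ℚ) : K) * U (j + 1) =
          ((eval (τ + e0 j) (AA p x e (e 0)) : ℚ) : K) * U j) →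
        (∀ j < T₂, ∑ k : Fin T₂, ((eval (τ + e0 j) (c k) : ℚ) : K) * U j ^ (k : ℕ) = 0) →
        eval τ ρ = 0 := by
  classical
  have hA0 := AA_ne hp x e
  have hB0 := BB_ne hp x e
  have hdA := deg_AA (p := p) x e (e 0) hH
  have hdB := deg_BB (p := p) x e (e 0) hH
  have hnoc := fun {m : ℕ} (hm : 1 ≤ m) {F G : RR (s + 1)} (hF : F ≠ 0) (hG : G ≠ 0) =>
    no_cobound hp x e hsum hne hnd hm hF hG
  generalize AA p x e (e 0) = A at *
  generalize BB p x e (e 0) = B at *
  set ι := algebraMap (RR (s + 1)) (LL s) with hι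
  have hιi : Function.Injective ι := IsFractionRing.injective (RR (s + 1)) (LL s)
  have hι0 : ∀ f, f ≠ 0 → ι f ≠ 0 := by
    intro f hf h
    exact hf (hιi (by rw [h, map_zero]))
  set R : LL s := ι A / ι B with hR
  have hR0 : R ≠ 0 := div_ne_zero (hι0 _ hA0) (hι0 _ hB0)
  have hnc : ∀ m : ℕ, 1 ≤ m → ∀ a : LL s, a ≠ 0 → sg s a ≠ R ^ m * a := by
    intro m hm a ha h
    obtain ⟨F, G, hG, rfl⟩ := IsFractionRing.div_surjective (A := RR (s + 1)) a
    have hG0 : G ≠ 0 := nonZeroDivisors.ne_zero hG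
    have hF0 : F ≠ 0 := by
      rintro rfl
      rw [map_zero, zero_div] at ha
      exact ha rfl
    rw [map_div₀, sg_alg, sg_alg, ← hι, hR, div_pow, ← map_pow, ← map_pow] at h
    have h1 := hι0 _ hG0
    have h2 := hι0 _ (tr_ne (e0 1) hG0)
    have h3 := hι0 _ (pow_ne_zero m hB0)
    rw [div_mul_div_comm, div_eq_div_iff h2 (mul_ne_zero h3 h1), ← map_mul, ← map_mul, ← map_mul,
      ← map_mul] at h
    have h4 := hιi h
    refine hnoc hm hF0 hG0 ?_
    linear_combination h4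
  -- enumeration of the nonzero coefficients
  set S : Finset (Fin T₂) := univ.filter (fun k => c k ≠ 0) with hS
  obtain ⟨m, hm⟩ : ∃ m, S.card = m := ⟨_, rfl⟩
  let k : Fin m ↪o Fin T₂ := S.orderEmbOfFin hm
  have hkS : ∀ i, c (k i) ≠ 0 := by
    intro i
    have h1 : (k i) ∈ S := S.orderEmbOfFin_mem hm i
    exact (Finset.mem_filter.1 h1).2
  have hmpos : 0 < m := by
    rw [← hm, Finset.card_pos]
    obtain ⟨k0, hk0⟩ := hc
    exact ⟨k0, by rw [hS, Finset.mem_filter]; exact ⟨Finset.mem_univ _, hk0⟩⟩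
  have hmT : m ≤ T₂ := by
    rw [← hm]
    refine (Finset.card_le_univ _).trans ?_
    rw [Fintype.card_fin]
  let M : Matrix (Fin m) (Fin m) (RR (s + 1)) := Matrix.of fun j i =>
    tr (e0 ((j : ℕ) : ℚ)) (c (k i)) * PP A j ^ (k i : ℕ) * PP B j ^ (T₂ - (k i : ℕ))
  have hcas := casorati (sg s) hR0 hnc (k := fun i => ((k i : Fin T₂) : ℕ))
    (fun i j hij => k.injective (Fin.ext hij)) (a := fun i => ι (c (k i))) (fun i => hι0 _ (hkS i))
  have hMdet : ι M.det = (∏ j : Fin m, ι (PP B j) ^ T₂) * Matrix.det (Matrix.of fun (j i : Fin m) =>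
      ((⇑(sg s))^[(j : ℕ)]) (ι (c (k i))) * (∏ l ∈ range (j : ℕ), ((⇑(sg s))^[l]) R) ^ ((k i : Fin T₂) : ℕ)) := by
    rw [RingHom.map_det, ← Matrix.det_mul_column]
    congr 1
    ext j i
    rw [RingHom.mapMatrix_apply, Matrix.map_apply, Matrix.of_apply, Matrix.of_apply, hR, PP_alg, ← hι,
      hι, sg_iter, ← hι]
    show ι (tr (e0 ((j : ℕ) : ℚ)) (c (k i)) * PP A j ^ (k i : ℕ) * PP B j ^ (T₂ - (k i : ℕ))) = _
    rw [map_mul, map_mul, map_pow, map_pow, div_pow]
    have h1 : ι (PP B j) ^ T₂ = ι (PP B j) ^ (T₂ - (k i : ℕ)) * ι (PP B j) ^ ((k i : Fin T₂) : ℕ) := by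
      rw [← pow_add]
      congr 1
      have := (k i).2
      omega
    rw [h1]
    have h2 := pow_ne_zero ((k i : Fin T₂) : ℕ) (hι0 _ (PP_ne hB0 j))
    field_simp
  refine ⟨M.det, ?_, ?_, ?_⟩
  · intro h0
    rw [h0, map_zero] at hMdet
    refine (mul_ne_zero ?_ hcas) hMdet.symm
    rw [Finset.prod_ne_zero_iff]
    intro j _
    exact pow_ne_zero _ (hι0 _ (PP_ne hB0 j))
  · refine (deg_det M (d := d₀ + T₂ ^ 2 * (ℓ * p * H)) ?_).trans (Nat.mul_le_mul_right _ hmT)
    intro j i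
    show (tr (e0 ((j : ℕ) : ℚ)) (c (k i)) * PP A j ^ (k i : ℕ) * PP B j ^ (T₂ - (k i : ℕ))).totalDegree ≤ _
    refine (totalDegree_mul _ _).trans ?_
    have h1 := (totalDegree_mul (tr (e0 ((j : ℕ) : ℚ)) (c (k i))) (PP A j ^ (k i : ℕ)))
    have h2 := (totalDegree_tr (e0 ((j : ℕ) : ℚ)) (c (k i))).trans (hd (k i))
    have h3 := (totalDegree_pow (PP A j) (k i : ℕ)).trans (Nat.mul_le_mul_left _ (deg_PP hdA j))
    have h4 := (totalDegree_pow (PP B j) (T₂ - (k i : ℕ))).trans (Nat.mul_le_mul_left _ (deg_PP hdB j))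
    have h5 : (k i : ℕ) * (j * (ℓ * p * H)) + (T₂ - (k i : ℕ)) * (j * (ℓ * p * H)) =
        T₂ * (j * (ℓ * p * H)) := by
      rw [← Nat.add_mul]
      congr 1
      have := (k i).2
      omega
    have h6 : T₂ * (j * (ℓ * p * H)) ≤ T₂ ^ 2 * (ℓ * p * H) := by
      rw [← mul_assoc, pow_two]
      refine Nat.mul_le_mul_right _ (Nat.mul_le_mul_left _ ?_)
      have := j.2
      omega
    omega
  · intro K _ _ τ U hU hrec hzero
    -- the products
    have hprod : ∀ j, j ≤ T₂ → ((eval τ (PP B j) : ℚ) : K) * U j = ((eval τ (PP A j) : ℚ) : K) * U 0 := by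
      intro j
      induction j with
      | zero => intro _; simp [PP]
      | succ j ih =>
        intro hj
        have h1 := ih (by omega)
        have h2 := hrec j (by omega)
        have h3 : ∀ Q : RR (s + 1), eval τ (PP Q (j + 1)) = eval τ (PP Q j) * eval (τ + e0 j) Q := by
          intro Q
          unfold PP
          rw [Finset.prod_range_succ, map_mul, eval_tr]
        rw [h3, h3]
        push_cast
        linear_combination ((eval τ (PP B j) : ℚ) : K) * h2 + ((eval (τ + e0 j) A : ℚ) : K) * h1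
    let Q : RR (s + 1) →+* K := (Rat.castHom K).comp (eval τ)
    have hQ : ∀ f, Q f = ((eval τ f : ℚ) : K) := fun f => rfl
    have hker : (Q.mapMatrix M).det = 0 := by
      rw [← Matrix.exists_mulVec_eq_zero_iff]
      refine ⟨fun i => U 0 ^ ((k i : Fin T₂) : ℕ), ?_, ?_⟩
      · intro h
        have := congrFun h ⟨0, hmpos⟩
        exact (pow_ne_zero _ (hU 0)) this
      · funext j
        show ∑ i, (Q.mapMatrix M) j i * U 0 ^ ((k i : Fin T₂) : ℕ) = 0
        have hj : (j : ℕ) < T₂ := lt_of_lt_of_le j.2 hmT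
        have h1 := hzero j hj
        have hp1 := hprod j hj.le
        have h2 : ∑ i, (Q.mapMatrix M) j i * U 0 ^ ((k i : Fin T₂) : ℕ) =
            ((eval τ (PP B j) : ℚ) : K) ^ T₂ *
              ∑ i : Fin m, ((eval (τ + e0 j) (c (k i)) : ℚ) : K) * U j ^ ((k i : Fin T₂) : ℕ) := by
          rw [Finset.mul_sum]
          refine Finset.sum_congr rfl (fun i _ => ?_)
          rw [RingHom.mapMatrix_apply, Matrix.map_apply, hQ]
          show ((eval τ (tr (e0 ((j : ℕ) : ℚ)) (c (k i)) * PP A j ^ (k i : ℕ) *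
            PP B j ^ (T₂ - (k i : ℕ))) : ℚ) : K) * U 0 ^ ((k i : Fin T₂) : ℕ) = _
          rw [map_mul, map_mul, map_pow, map_pow, eval_tr]
          push_cast
          have h3 : ((eval τ (PP B j) : ℚ) : K) ^ T₂ =
              ((eval τ (PP B j) : ℚ) : K) ^ (T₂ - (k i : ℕ)) * ((eval τ (PP B j) : ℚ) : K) ^ (k i : ℕ) := by
            rw [← pow_add]
            congr 1
            have := (k i).2
            omega
          have h4 : (((eval τ (PP B j) : ℚ) : K) * U j) ^ (k i : ℕ) =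
              (((eval τ (PP A j) : ℚ) : K) * U 0) ^ (k i : ℕ) := by rw [hp1]
          rw [mul_pow, mul_pow] at h4
          rw [h3]
          linear_combination -((eval (τ + e0 j) (c (k i)) : ℚ) : K) *
            ((eval τ (PP B j) : ℚ) : K) ^ (T₂ - (k i : ℕ)) * h4
        rw [h2]
        have h5 : ∑ i : Fin m, ((eval (τ + e0 j) (c (k i)) : ℚ) : K) * U j ^ ((k i : Fin T₂) : ℕ) =
            ∑ k : Fin T₂, ((eval (τ + e0 j) (c k) : ℚ) : K) * U j ^ (k : ℕ) := by
          have h6 : ∑ k : Fin T₂, ((eval (τ + e0 j) (c k) : ℚ) : K) * U j ^ (k : ℕ) =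
              ∑ k ∈ S, ((eval (τ + e0 j) (c k) : ℚ) : K) * U j ^ (k : ℕ) := by
            symm
            apply Finset.sum_subset (Finset.subset_univ _)
            intro k' _ hk'
            have : c k' = 0 := by
              by_contra hne'
              exact hk' (by rw [hS, Finset.mem_filter]; exact ⟨Finset.mem_univ _, hne'⟩)
            rw [this, map_zero]
            simp
          rw [h6, ← S.image_orderEmbOfFin_univ hm, Finset.sum_image]
          intro a _ b _ hab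
          exact k.injective hab
        rw [h5, h1, mul_zero]
    rw [← RingHom.map_det, hQ] at hker
    exact_mod_cast hker

end GamE
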