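import Pool.Agent.GamE.ADefs
import Pool.Agent.GamP.Mor

/-!
# The difference equation of `U`

PROOF. For `γ_i ≥ 0`, `n = γ_i`: `h.block 1 n (w i)` (GamP/Mor): `Γ(p (w_i + n)) = (-1)^(p n) ∏_k (p w_i + k) Γ(p w_i)`; for `γ_i < 0`,
`n = -γ_i`: `Γ(p w_i) = (-1)^(p n) ∏_k (p (w_i + γ_i) + k) Γ(p (w_i + γ_i))`. Multiply everything; the signs are
`(-1)^(p S)` on both sides, `S = ∑ γ_i^+ = ∑ γ_i^-` (`hγ`). `ustep_eval`: `wi x e i` evaluates at `τ` to `x_i + ∑ τ_j e_j(i)`, cast to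
`ℚ_[p]` this is `w i` (`hw`).
-/

namespace GamE

open MvPolynomial Finset GamP

private theorem us_coe_prod {p : ℕ} [Fact p.Prime] {ι : Type*} (s : Finset ι) (f : ι → ℤ_[p]) :
    ((∏ i ∈ s, f i : ℤ_[p]) : ℚ_[p]) = ∏ i ∈ s, ((f i : ℤ_[p]) : ℚ_[p]) :=
  map_prod (PadicInt.Coe.ringHom (p := p)) f s

private theorem us_one {p : ℕ} [Fact p.Prime] {Γ : ℤ_[p] → ℤ_[p]} (h : IsMorita p Γ) (g : ℤ) (w : ℤ_[p]) :
    (-1) ^ (p * (-g).toNat) *
      ((∏ k ∈ (range (p * (-g).toNat)).filter (fun k => ¬ p ∣ k), ((p : ℤ_[p]) * (w + g) + k)) *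
        Γ (p * (w + g))) =
    (-1) ^ (p * g.toNat) *
      ((∏ k ∈ (range (p * g.toNat)).filter (fun k => ¬ p ∣ k), ((p : ℤ_[p]) * w + k)) *
        Γ (p * w)) := by
  rcases le_or_gt 0 g with hg | hg
  · obtain ⟨n, rfl⟩ := Int.eq_ofNat_of_zero_le hg
    have h1 : (-(n : ℤ)).toNat = 0 := by omega
    have h2 : ((n : ℤ)).toNat = n := by omega
    rw [h1, h2, Nat.mul_zero, pow_zero, one_mul, Finset.range_zero, Finset.filter_empty,
      Finset.prod_empty, one_mul, Int.cast_natCast]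
    have h3 := h.block 1 n w
    rw [mul_one, Nat.cast_one, mul_one] at h3
    rw [h3]
    ring
  · obtain ⟨n, hn⟩ := Int.eq_ofNat_of_zero_le (by omega : 0 ≤ -g)
    obtain rfl : g = -(n : ℤ) := by omega
    have h1 : (-(-(n : ℤ))).toNat = n := by omega
    have h2 : (-(n : ℤ)).toNat = 0 := by omega
    rw [h1, h2, Nat.mul_zero, pow_zero, one_mul, Finset.range_zero, Finset.filter_empty,
      Finset.prod_empty, one_mul]
    have h3 := h.block 1 n (w + ((-(n : ℤ) : ℤ) : ℤ_[p]))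
    rw [mul_one, Nat.cast_one, mul_one] at h3
    have h4 : w + ((-(n : ℤ) : ℤ) : ℤ_[p]) + (n : ℤ_[p]) = w := by
      push_cast
      ring
    rw [h4] at h3
    rw [h3]
    ring

theorem ustep {p : ℕ} [Fact p.Prime] {Γ : ℤ_[p] → ℤ_[p]} (h : IsMorita p Γ) {ℓ : ℕ}
    {γ : Fin ℓ → ℤ} (hγ : ∑ i, γ i = 0) (w : Fin ℓ → ℤ_[p]) :
    (∏ i, ∏ k ∈ (range (p * (-γ i).toNat)).filter (fun k => ¬ p ∣ k),
        ((p : ℤ_[p]) * (w i + γ i) + k)) * ∏ i, Γ (p * (w i + γ i)) =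
      (∏ i, ∏ k ∈ (range (p * (γ i).toNat)).filter (fun k => ¬ p ∣ k),
        ((p : ℤ_[p]) * w i + k)) * ∏ i, Γ (p * w i) := by
  have h1 : ∏ i, ((-1 : ℤ_[p]) ^ (p * (-γ i).toNat) *
      ((∏ k ∈ (range (p * (-γ i).toNat)).filter (fun k => ¬ p ∣ k),
        ((p : ℤ_[p]) * (w i + γ i) + k)) * Γ (p * (w i + γ i)))) =
      ∏ i, ((-1 : ℤ_[p]) ^ (p * (γ i).toNat) *
      ((∏ k ∈ (range (p * (γ i).toNat)).filter (fun k => ¬ p ∣ k),
        ((p : ℤ_[p]) * w i + k)) * Γ (p * w i))) :=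
    Finset.prod_congr rfl fun i _ => us_one h (γ i) (w i)
  rw [Finset.prod_mul_distrib, Finset.prod_mul_distrib, Finset.prod_mul_distrib,
    Finset.prod_mul_distrib, Finset.prod_pow_eq_pow_sum, Finset.prod_pow_eq_pow_sum] at h1
  have h2 : ∑ i, p * (-γ i).toNat = ∑ i, p * (γ i).toNat := by
    rw [← Finset.mul_sum, ← Finset.mul_sum]
    congr 1
    have h3 : (∑ i, ((γ i).toNat : ℤ)) - ∑ i, ((-γ i).toNat : ℤ) = 0 := by
      rw [← Finset.sum_sub_distrib, ← hγ]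
      refine Finset.sum_congr rfl fun i _ => ?_
      omega
    have h4 : (∑ i, ((γ i).toNat : ℤ)) = ∑ i, ((-γ i).toNat : ℤ) := by linarith
    exact_mod_cast h4.symm
  rw [h2] at h1
  have h5 : IsUnit ((-1 : ℤ_[p]) ^ (∑ i, p * (γ i).toNat)) := IsUnit.pow _ (by simp)
  exact h5.mul_left_cancel h1

theorem ustep_eval {p : ℕ} [Fact p.Prime] {Γ : ℤ_[p] → ℤ_[p]} (h : IsMorita p Γ) {r ℓ : ℕ}
    {γ : Fin ℓ → ℤ} (hγ : ∑ i, γ i = 0) (x : Fin ℓ → ℚ) (e : Fin r → Fin ℓ → ℤ) (τ : Fin r → ℚ)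
    (w : Fin ℓ → ℤ_[p])
    (hw : ∀ i, ((w i : ℤ_[p]) : ℚ_[p]) = ((x i + ∑ j, τ j * e j i : ℚ) : ℚ_[p])) :
    ((eval τ (BB p x e γ) : ℚ) : ℚ_[p]) * ((∏ i, Γ (p * (w i + γ i)) : ℤ_[p]) : ℚ_[p]) =
      ((eval τ (AA p x e γ) : ℚ) : ℚ_[p]) * ((∏ i, Γ (p * w i) : ℤ_[p]) : ℚ_[p]) := by
  have hE : ∀ i, ((eval τ (wi x e i) : ℚ) : ℚ_[p]) = ((w i : ℤ_[p]) : ℚ_[p]) := by
    intro i
    rw [hw]
    congr 1
    unfold wi wf
    rw [map_add, eval_C, map_sum]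
    congr 1
    refine Finset.sum_congr rfl fun j _ => ?_
    rw [map_mul, eval_C, eval_X, mul_comm]
  have hA : ((eval τ (AA p x e γ) : ℚ) : ℚ_[p]) =
      ((∏ i, ∏ k ∈ (range (p * (γ i).toNat)).filter (fun k => ¬ p ∣ k),
        ((p : ℤ_[p]) * w i + k) : ℤ_[p]) : ℚ_[p]) := by
    unfold AA
    rw [map_prod, Rat.cast_prod, us_coe_prod]
    refine Finset.prod_congr rfl fun i _ => ?_
    rw [map_prod, Rat.cast_prod, us_coe_prod]
    refine Finset.prod_congr rfl fun k _ => ?_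
    rw [map_add, map_mul, eval_C, eval_C, Rat.cast_add, Rat.cast_mul, hE]
    push_cast
    rfl
  have hB : ((eval τ (BB p x e γ) : ℚ) : ℚ_[p]) =
      ((∏ i, ∏ k ∈ (range (p * (-γ i).toNat)).filter (fun k => ¬ p ∣ k),
        ((p : ℤ_[p]) * (w i + γ i) + k) : ℤ_[p]) : ℚ_[p]) := by
    unfold BB
    rw [map_prod, Rat.cast_prod, us_coe_prod]
    refine Finset.prod_congr rfl fun i _ => ?_
    rw [map_prod, Rat.cast_prod, us_coe_prod]
    refine Finset.prod_congr rfl fun k _ => ?_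
    rw [map_add, map_mul, map_add, eval_C, eval_C, eval_C, Rat.cast_add, Rat.cast_mul, Rat.cast_add, hE]
    push_cast
    rfl
  rw [hA, hB, ← PadicInt.coe_mul, ← PadicInt.coe_mul, ustep h hγ w]

end GamE
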