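import Pool.Agent.GamE.Aux1
import Pool.Agent.GamE.Coord
import Pool.Agent.GamE.Bpol
import Pool.Agent.GamE.UStep
import Pool.Agent.GamE.Rho
import Pool.Agent.GamP.Cls

/-!
# Many polynomials of low degree which vanish at all the points

PROOF. `r = s + 1`, `T₂ = Z^(12 r + 5)`. Let `I₀`, `lam` be as in `exists_coord`, `x i = α₀ i / b`, `s₀ i ∈ ℤ_[p]` with `b s₀ i = α₀ i`
(`cls_isUnit` of `GamP/Cls`), `N₁` as in `exists_aux`. Let `N = max N₀ (max N₁ T₂)`, `N' = N + T₂`, `T₁ = Z^(hh+8) T₂ N'`, `c` from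
`exists_aux` for `N'`. Apply `exists_rho` with the polynomials `cpol p x e I₀ c k` (`cpol_ne`, `cpol_deg`: `d₀ = r T₁`, `H = Z^hh`). The
hypothesis `hnd`: if `p (e_0(i) x_j - e_0(j) x_i) = n ∈ ℤ` then `p (e_0(i) α₀_j + |e_0(j)| α₀_i) = n b`, `b` is prime to `p`, so
`b ∣ |e_0(j)| α₀_i + e_0(i) α₀_j`, contradiction to `h𝒜.nd` (`m = |e_0(j)|`, `m' = e_0(i)`, at most `Z^hh ≤ H`). `e 0 ≠ 0` by `he`.
Degree: `T₂ (r T₁ + T₂^2 ℓ p Z^hh) ≤ Z^(24 r + hh + 21) N`: `N' ≤ 2 N`, `r T₁ ≤ Z^(hh+10) T₂ N`, `T₂^2 ℓ p Z^hh ≤ Z^(hh+2) T₂ N` (`T₂ ≤ N`).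
Zeros: for `α ∈ 𝒜`, `n ∈ [0,N)^r` take `K = ℚ_[p]`, `τ = t α + qv n`, `s` with `b s_i = α_i`, `w_i = s_i + g α i + ∑ n_j e_j(i)`,
`U j = ∏_i Γ(p (w_i + j e_0(i)))` (cast to `ℚ_[p]`; nonzero, `IsMorita.norm`). First condition: `ustep_eval` at `τ + e0 j`, with
`w_i + j e_0(i)` (`ht` gives `hw`). Second: the point `n + j e_0 ∈ [0,N')^r` (`j < T₂`): `exists_aux` gives `G3 = 0` there; by
`pts_rel` `UU` at this point is `U j`, and `cpol_eval` (sum over `κ` and `k`: `Fintype.sum_prod_type`).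
-/

namespace GamE

open MvPolynomial Finset GamP

theorem exists_poly {p : ℕ} [Fact p.Prime] {Γ : ℤ_[p] → ℤ_[p]} (h : IsMorita p Γ)
    {s ℓ b D Z hh H c₀ : ℕ} (hpb : ¬ p ∣ b) (hℓ : 1 ≤ ℓ) (hZ : 2 * p * b * ℓ ≤ 2 ^ Z)
    (hpZ : 2 * p ≤ Z) (hℓZ : ℓ ≤ Z) (hrZ : s + 2 ≤ Z) (hDZ : D ≤ Z) (hHZ : Z ^ hh ≤ H)
    {𝒜 : Finset (Fin ℓ → ℕ)} (h𝒜 : Tup p Γ ℓ b D H c₀ 𝒜)
    {e : Fin (s + 1) → Fin ℓ → ℤ}
    (he : LinearIndependent ℚ (fun (j : Fin (s + 1)) (i : Fin ℓ) => (e j i : ℚ)))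
    (hes : ∀ j, ∑ i, e j i = 0) (heZ : ∀ j i, |e j i| ≤ (Z : ℤ) ^ hh)
    {α₀ : Fin ℓ → ℕ} (hα₀ : α₀ ∈ 𝒜) {t : (Fin ℓ → ℕ) → Fin (s + 1) → ℚ}
    {g : (Fin ℓ → ℕ) → Fin ℓ → ℤ} (ht01 : ∀ α ∈ 𝒜, ∀ j, 0 ≤ t α j ∧ t α j < 1)
    (ht : ∀ α ∈ 𝒜, ∀ i, (α i : ℚ) / b + g α i = (α₀ i : ℚ) / b + ∑ j, t α j * e j i) (N₀ : ℕ) :
    ∃ N, N₀ ≤ N ∧ ∃ f : RR (s + 1), f ≠ 0 ∧ f.totalDegree ≤ Z ^ (24 * (s + 1) + hh + 21) * N ∧
      ∀ α ∈ 𝒜, ∀ n : Fin (s + 1) → ℤ, (∀ i, 0 ≤ n i ∧ n i < N) → eval (t α + qv n) f = 0 := by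
  classical
  have hp : p.Prime := Fact.out
  have hp2 : 2 ≤ p := hp.two_le
  have hb1 : 1 ≤ b := by
    rcases Nat.eq_zero_or_pos b with h0 | h0
    · exact absurd (h0 ▸ dvd_zero p) hpb
    · exact h0
  have hbQ : (b : ℚ) ≠ 0 := by
    have : b ≠ 0 := by omega
    exact_mod_cast this
  have hbP : (b : ℚ_[p]) ≠ 0 := by
    have : b ≠ 0 := by omega
    exact_mod_cast this
  obtain ⟨I₀, lam, hdet, hlam⟩ := exists_coord (p := p) e he
  obtain ⟨u, hu⟩ := (cls_isUnit (p := p) hpb).exists_right_inv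
  have hs₀ : ∀ i, (b : ℤ_[p]) * (u * (α₀ i : ℤ_[p])) = α₀ i := by
    intro i
    rw [← mul_assoc, hu, one_mul]
  obtain ⟨N₁, hN₁⟩ := exists_aux h hpb hℓ hZ hpZ hℓZ (by omega) hDZ h𝒜 hes heZ hα₀ ht01 ht I₀ lam
    hlam (fun i => u * (α₀ i : ℤ_[p])) hs₀
  have hZ1 : 1 ≤ Z := by omega
  obtain ⟨T₂, hT₂⟩ : ∃ T₂, T₂ = Z ^ (12 * (s + 1) + 5) := ⟨_, rfl⟩
  rw [← hT₂] at hN₁
  have hT₂1 : 1 ≤ T₂ := by rw [hT₂]; exact Nat.one_le_pow _ _ hZ1
  obtain ⟨N, hN0, hNN1, hNT⟩ : ∃ N, N₀ ≤ N ∧ N₁ ≤ N ∧ T₂ ≤ N :=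
    ⟨max N₀ (max N₁ T₂), le_max_left _ _, (le_max_left _ _).trans (le_max_right _ _),
      (le_max_right _ _).trans (le_max_right _ _)⟩
  obtain ⟨c, hc0, hc⟩ := hN₁ (N + T₂) (by omega)
  obtain ⟨T₁, hT₁⟩ : ∃ T₁, T₁ = Z ^ (hh + 8) * T₂ * (N + T₂) := ⟨_, rfl⟩
  revert c
  rw [← hT₁]
  intro c hc0 hc
  -- the non degeneracy
  have hne : e 0 ≠ 0 := by
    intro h0
    apply he.ne_zero 0
    funext i
    rw [h0]
    simp
  have hHb : ∀ i, |e 0 i| ≤ ((Z ^ hh : ℕ) : ℤ) := by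
    intro i
    push_cast
    exact heZ 0 i
  have hnd : ∀ i j, 0 < e 0 i → e 0 j < 0 → ∀ n : ℤ,
      (p : ℚ) * (e 0 i * ((α₀ j : ℚ) / b) - e 0 j * ((α₀ i : ℚ) / b)) ≠ n := by
    intro i j hi hj n hn
    obtain ⟨m, hm⟩ := Int.eq_ofNat_of_zero_le hi.le
    obtain ⟨m', hm'⟩ := Int.eq_ofNat_of_zero_le (show 0 ≤ - e 0 j by omega)
    have hj' : e 0 j = -(m' : ℤ) := by omega
    rw [hm, hj'] at hn
    have h1 : (p : ℚ) * (m' * α₀ i + m * α₀ j) = n * b := by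
      rw [← hn]
      field_simp
      push_cast
      ring
    have h2 : (p : ℤ) * (m' * α₀ i + m * α₀ j) = n * b := by exact_mod_cast h1
    have h3 : (b : ℤ) ∣ (p : ℤ) * ((m' * α₀ i + m * α₀ j : ℕ) : ℤ) := by
      push_cast
      rw [h2]
      exact dvd_mul_left _ _
    have h4 : b ∣ p * (m' * α₀ i + m * α₀ j) := by exact_mod_cast h3
    have h5 : Nat.Coprime b p := ((Nat.Prime.coprime_iff_not_dvd hp).2 hpb).symm
    have h6 := h5.dvd_of_dvd_mul_left h4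
    have h7 := hHb i
    have h8 := hHb j
    rw [hm, abs_of_nonneg (by positivity)] at h7
    rw [hj', abs_neg, abs_of_nonneg (by positivity)] at h8
    have h7' : m ≤ Z ^ hh := by exact_mod_cast h7
    have h8' : m' ≤ Z ^ hh := by exact_mod_cast h8
    refine h𝒜.nd α₀ hα₀ i j ?_ m' m (by omega) (h8'.trans hHZ) (by omega) (h7'.trans hHZ) h6
    rintro rfl
    omega
  obtain ⟨ρ, hρ0, hρd, hρv⟩ := exists_rho (T₂ := T₂) (d₀ := (s + 1) * T₁) (H := Z ^ hh) hp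
    (fun i => (α₀ i : ℚ) / b) e (hes 0) hne hHb hnd
    (cpol p (fun i => (α₀ i : ℚ) / b) e I₀ c) (cpol_ne hp hdet hc0)
    (fun k => cpol_deg _ _ _ _ _)
  refine ⟨N, hN0, ρ, hρ0, ?_, ?_⟩
  · refine hρd.trans ?_
    have a1 : (s + 1) * T₁ ≤ Z ^ (hh + 10) * (T₂ * N) := by
      rw [hT₁]
      calc (s + 1) * (Z ^ (hh + 8) * T₂ * (N + T₂)) ≤ Z * (Z ^ (hh + 8) * T₂ * (Z * N)) := by
            apply Nat.mul_le_mul (by omega)
            apply Nat.mul_le_mul_left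
            have : 2 * N ≤ Z * N := Nat.mul_le_mul_right _ (by omega)
            omega
        _ = Z ^ (hh + 10) * (T₂ * N) := by ring
    have a2 : T₂ ^ 2 * (ℓ * p * Z ^ hh) ≤ Z ^ (hh + 2) * (T₂ * N) := by
      calc T₂ ^ 2 * (ℓ * p * Z ^ hh) = T₂ * T₂ * (ℓ * p * Z ^ hh) := by ring
        _ ≤ T₂ * N * (Z * Z * Z ^ hh) := by
            apply Nat.mul_le_mul (Nat.mul_le_mul_left _ hNT)
            apply Nat.mul_le_mul_right
            exact Nat.mul_le_mul hℓZ (by omega)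
        _ = Z ^ (hh + 2) * (T₂ * N) := by ring
    have a3 : Z ^ (hh + 2) ≤ Z ^ (hh + 10) := Nat.pow_le_pow_right hZ1 (by omega)
    have a4 : (s + 1) * T₁ + T₂ ^ 2 * (ℓ * p * Z ^ hh) ≤ Z ^ (hh + 11) * (T₂ * N) := by
      calc (s + 1) * T₁ + T₂ ^ 2 * (ℓ * p * Z ^ hh)
          ≤ Z ^ (hh + 10) * (T₂ * N) + Z ^ (hh + 10) * (T₂ * N) :=
            Nat.add_le_add a1 (a2.trans (Nat.mul_le_mul_right _ a3))
        _ = 2 * (Z ^ (hh + 10) * (T₂ * N)) := by ring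
        _ ≤ Z * (Z ^ (hh + 10) * (T₂ * N)) := Nat.mul_le_mul_right _ (by omega)
        _ = Z ^ (hh + 11) * (T₂ * N) := by ring
    calc T₂ * ((s + 1) * T₁ + T₂ ^ 2 * (ℓ * p * Z ^ hh)) ≤ T₂ * (Z ^ (hh + 11) * (T₂ * N)) :=
          Nat.mul_le_mul_left _ a4
      _ = Z ^ (24 * (s + 1) + hh + 21) * N := by
          rw [hT₂]
          have : Z ^ (24 * (s + 1) + hh + 21) =
              Z ^ (12 * (s + 1) + 5) * Z ^ (hh + 11) * Z ^ (12 * (s + 1) + 5) := by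
            rw [← pow_add, ← pow_add]
            congr 1
            ring
          rw [this]
          ring
  · intro α hα n hn
    -- the point
    have hs : ∀ i, (b : ℤ_[p]) * (u * (α i : ℤ_[p])) = α i := by
      intro i
      rw [← mul_assoc, hu, one_mul]
    obtain ⟨sα, hsα⟩ : ∃ sα : Fin ℓ → ℤ_[p], sα = fun i => u * (α i : ℤ_[p]) := ⟨_, rfl⟩
    have hs' : ∀ i, (b : ℤ_[p]) * sα i = α i := by
      intro i
      rw [hsα]
      exact hs i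
    obtain ⟨n', hn'⟩ : ∃ n' : ℕ → Fin (s + 1) → ℤ, n' = fun (j : ℕ) j' =>
      n j' + (Pi.single 0 (j : ℤ) : Fin (s + 1) → ℤ) j' := ⟨_, rfl⟩
    obtain ⟨W, hW⟩ : ∃ W : ℕ → Fin ℓ → ℤ_[p], W = fun j i =>
      sα i + ((g α i + ∑ j', n' j j' * e j' i : ℤ) : ℤ_[p]) := ⟨_, rfl⟩
    have hsum' : ∀ (j : ℕ) (i : Fin ℓ), ∑ j', n' j j' * e j' i = ∑ j', n j' * e j' i + j * e 0 i := by
      intro j i
      rw [hn']
      simp only [add_mul, Finset.sum_add_distrib]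
      congr 1
      rw [Finset.sum_eq_single 0]
      · rw [Pi.single_eq_same]
      · intro j' _ hj'
        rw [Pi.single_eq_of_ne hj', zero_mul]
      · intro h0
        exact absurd (Finset.mem_univ _) h0
    have hWs : ∀ j i, W (j + 1) i = W j i + (e 0 i : ℤ_[p]) := by
      intro j i
      rw [hW]
      simp only [hsum']
      push_cast
      ring
    have hWq : ∀ (j : ℕ) i, ((W j i : ℤ_[p]) : ℚ_[p]) =
        (((α₀ i : ℚ) / b + ∑ j', (t α + qv n + e0 (j : ℚ) : Fin (s + 1) → ℚ) j' * e j' i : ℚ) : ℚ_[p]) := by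
      intro j i
      have h1 : (α₀ i : ℚ) / b + ∑ j', (t α + qv n + e0 (j : ℚ) : Fin (s + 1) → ℚ) j' * e j' i =
          (α i : ℚ) / b + ((g α i + ∑ j', n' j j' * e j' i : ℤ) : ℚ) := by
        have h2 := ht α hα i
        have h3 : ∑ j', (t α + qv n + e0 (j : ℚ) : Fin (s + 1) → ℚ) j' * e j' i =
            ∑ j', t α j' * e j' i + ∑ j', (n j' : ℚ) * e j' i + j * e 0 i := by
          simp only [Pi.add_apply, add_mul, Finset.sum_add_distrib]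
          congr 1
          unfold e0
          rw [Finset.sum_eq_single 0]
          · rw [Pi.single_eq_same]
          · intro j' _ hj'
            rw [Pi.single_eq_of_ne hj', zero_mul]
          · intro h0
            exact absurd (Finset.mem_univ _) h0
        rw [h3, hsum']
        push_cast
        linarith
      have h4 : ((sα i : ℤ_[p]) : ℚ_[p]) = (α i : ℚ_[p]) / b := by
        rw [eq_div_iff hbP, mul_comm]
        have := congrArg (fun z : ℤ_[p] => (z : ℚ_[p])) (hs' i)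
        push_cast at this
        exact this
      rw [h1, hW]
      simp only
      rw [PadicInt.coe_add, h4, PadicInt.coe_intCast, Rat.cast_add, Rat.cast_div, Rat.cast_natCast,
        Rat.cast_natCast, Rat.cast_intCast]
    have hΓ : ∀ z, Γ z ≠ 0 := by
      intro z h0
      have := h.norm z
      rw [h0, norm_zero] at this
      exact zero_ne_one this
    have hprod : ∀ j, (∏ i, Γ (p * W j i)) ≠ 0 := by
      intro j
      rw [Finset.prod_ne_zero_iff]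
      intro i _
      exact hΓ _
    refine hρv (K := ℚ_[p]) (t α + qv n) (fun j => ((∏ i, Γ (p * W j i) : ℤ_[p]) : ℚ_[p])) ?_ ?_ ?_
    · intro j h0
      apply hprod j
      exact Subtype.ext h0
    · intro j _
      have h1 := ustep_eval h (hes 0) (fun i => (α₀ i : ℚ) / b) e (t α + qv n + e0 (j : ℚ)) (W j)
        (fun i => hWq j i)
      have h2 : (∏ i, Γ (p * W (j + 1) i)) = ∏ i, Γ (p * (W j i + (e 0 i : ℤ_[p]))) :=
        Finset.prod_congr rfl (fun i _ => by rw [hWs])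
      show _ * ((∏ i, Γ (p * W (j + 1) i) : ℤ_[p]) : ℚ_[p]) = _
      rw [h2]
      exact h1
    · intro j hj
      have h1 := hc α hα (n' j) (fun j' => by
        rw [hn']
        have h2 := hn j'
        by_cases h3 : j' = 0
        · subst h3
          simp only [Pi.single_eq_same]
          push_cast
          omega
        · simp only [Pi.single_eq_of_ne h3]
          push_cast
          omega) sα hs'
      have hUU : UU p Γ (fun i => u * (α₀ i : ℤ_[p]) - ∑ ι, lam i ι * (u * (α₀ (I₀ ι) : ℤ_[p]))) lam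
          (fun ι => sα (I₀ ι) + ((g α (I₀ ι) + ∑ j', n' j j' * e j' (I₀ ι) : ℤ) : ℤ_[p])) =
          ∏ i, Γ (p * W j i) := by
        unfold UU
        refine Finset.prod_congr rfl (fun i _ => ?_)
        rw [pts_rel hb1 (ht α hα) hlam hs' hs₀ (n' j) i, hW]
      unfold G3 at h1
      rw [hUU, Fintype.sum_prod_type_right] at h1
      have h5 : ∀ k : Fin T₂, ((eval (t α + qv n + e0 (j : ℚ))
          (cpol p (fun i => (α₀ i : ℚ) / b) e I₀ c k) : ℚ) : ℚ_[p]) =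
          ∑ κ : Fin (s + 1) → Fin T₁, (c (κ, k) : ℚ_[p]) *
            ∏ ι, ((ep p (κ ι) (W j (I₀ ι)) : ℤ_[p]) : ℚ_[p]) :=
        fun k => cpol_eval _ _ _ _ _ _ _ (fun ι => hWq j (I₀ ι))
      have h6 := congrArg (fun z : ℤ_[p] => (z : ℚ_[p])) h1
      simp only [PadicInt.coe_zero] at h6
      rw [← h6]
      rw [PadicInt.coe_sum]
      refine Finset.sum_congr rfl (fun k _ => ?_)
      rw [h5 k, Finset.sum_mul, PadicInt.coe_sum]
      refine Finset.sum_congr rfl (fun κ _ => ?_)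
      rw [PadicInt.coe_mul, PadicInt.coe_mul, PadicInt.coe_pow, PadicInt.coe_intCast]
      congr 2
      have h7 := map_prod (PadicInt.Coe.ringHom (p := p)) (fun ι => ep p (κ ι) (sα (I₀ ι) +
        ((g α (I₀ ι) + ∑ j', n' j j' * e j' (I₀ ι) : ℤ) : ℤ_[p]))) Finset.univ
      rw [hW]
      exact h7.symm

end GamE
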