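import Pool.Agent.GamE.ZDefs

/-!
# A generic combination, and representatives

PROOFS. `avoid`: let `V = Submodule.span ℚ S`, a `ℚ`-subspace of `RR r`; all its elements have total degree at most `d` and
lie in `Ideal.span S`. For `𝔭 ∈ P`, `V ∩ 𝔭` is a proper subspace of `V` (some `s ∈ S` is not in `𝔭`). A vector space over the
infinite field `ℚ` is not a finite union of proper subspaces (`Subspace.biUnion_ne_univ_of_top_notMem` or similar
in Mathlib). `exists_reps`: induction on `s` (insert `a`: if `a` is equivalent to an element of `t` keep `t`, otherwise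
insert `a` in `t`).
-/

namespace GamE

open MvPolynomial Finset

theorem avoid {r d : ℕ} (S : Set (RR r)) (hS : ∀ s ∈ S, s.totalDegree ≤ d)
    (P : Finset (Ideal (RR r))) (hP : ∀ 𝔭 ∈ P, ¬ Ideal.span S ≤ 𝔭) :
    ∃ g ∈ Ideal.span S, g.totalDegree ≤ d ∧ ∀ 𝔭 ∈ P, g ∉ 𝔭 := by
  classical
  let V : Submodule ℚ (RR r) := Submodule.span ℚ S
  have hV1 : V ≤ restrictTotalDegree (Fin r) ℚ d :=
    Submodule.span_le.2 fun s hs => (mem_restrictTotalDegree (Fin r) d s).2 (hS s hs)
  have hV2 : V ≤ (Ideal.span S).restrictScalars ℚ :=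
    Submodule.span_le.2 fun s hs => Ideal.subset_span hs
  let F : Finset (Submodule ℚ V) :=
    P.image fun 𝔭 : Ideal (RR r) => (𝔭.restrictScalars ℚ).comap V.subtype
  have hF : (⊤ : Submodule ℚ V) ∉ F := by
    intro h
    obtain ⟨𝔭, hp, he⟩ := Finset.mem_image.1 h
    refine hP 𝔭 hp (Ideal.span_le.2 fun s hs => ?_)
    have h1 : (⟨s, Submodule.subset_span hs⟩ : V) ∈ (⊤ : Submodule ℚ V) := Submodule.mem_top
    rw [← he] at h1
    exact h1
  have hne := Subspace.biUnion_ne_univ_of_top_notMem (k := ℚ) (E := V) (s := F) hF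
  obtain ⟨g, hg⟩ := (Set.ne_univ_iff_exists_notMem _).1 hne
  refine ⟨g, hV2 g.2, (mem_restrictTotalDegree (Fin r) d _).1 (hV1 g.2), fun 𝔭 hp hmem => hg ?_⟩
  simp only [Set.mem_iUnion]
  exact ⟨_, Finset.mem_image_of_mem _ hp, hmem⟩

theorem exists_reps {α : Type*} (s : Finset α) (R : α → α → Prop) (hR : Equivalence R) :
    ∃ t ⊆ s, (∀ a ∈ t, ∀ b ∈ t, R a b → a = b) ∧ ∀ a ∈ s, ∃ b ∈ t, R b a := by
  classical
  induction s using Finset.induction_on with
  | empty => exact ⟨∅, Finset.Subset.refl _, by simp, by simp⟩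
  | insert a s ha ih =>
    obtain ⟨t, hts, ht1, ht2⟩ := ih
    by_cases h : ∃ b ∈ t, R b a
    · refine ⟨t, hts.trans (Finset.subset_insert _ _), ht1, fun c hc => ?_⟩
      rcases Finset.mem_insert.1 hc with rfl | hc
      · exact h
      · exact ht2 c hc
    · push Not at h
      refine ⟨insert a t, Finset.insert_subset_insert _ hts, ?_, ?_⟩
      · intro b hb c hc hbc
        rcases Finset.mem_insert.1 hb with hba | hbt
        · rcases Finset.mem_insert.1 hc with hca | hct
          · rw [hba, hca]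
          · rw [hba] at hbc
            exact absurd (hR.symm hbc) (h c hct)
        · rcases Finset.mem_insert.1 hc with hca | hct
          · rw [hca] at hbc
            exact absurd hbc (h b hbt)
          · exact ht1 b hbt c hct hbc
      · intro c hc
        rcases Finset.mem_insert.1 hc with rfl | hc
        · exact ⟨c, Finset.mem_insert_self _ _, hR.refl _⟩
        · obtain ⟨b, hb, hbc⟩ := ht2 c hc
          exact ⟨b, Finset.mem_insert_of_mem hb, hbc⟩

end GamE
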