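import Pool.Agent.GamE.ZDefs

/-!
# Subgroups of `ℤ^r` with few classes in a box

PROOF. For `J : Finset (Fin r)` write `ℤ^J` for the vectors which vanish outside `J`. Let `J` be a subset of maximal
cardinality with `G ∩ ℤ^J = 0` (`∅` is one).
(1) For `i ∉ J` there is a nonzero element of `G ∩ ℤ^(insert i J)`, its `i`-th coordinate is nonzero (otherwise it
lies in `G ∩ ℤ^J`). So the `i`-th coordinate is injective on the subgroup `G ∩ ℤ^(insert i J)`, which is therefore
cyclic, generated by some `w_i` with `w_i(i) ≠ 0` (take the one with the smallest positive `i`-th coordinate, or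
use that subgroups of `ℤ` are cyclic: `AddSubgroup.isCyclic`/`Int.subgroup_cyclic`).
(2) The `w_i`, `i ∉ J`, are linearly independent over `ℚ` (the coordinates outside `J` form a diagonal matrix
with nonzero entries). So by `hrk`: `(r - J.card) + k ≤ r`, i.e. `k ≤ J.card`.
(3) The box `[0,M]^J` (extended by `0`) has `(M+1)^(J.card)` elements, pairwise incongruent modulo `G`. So
`(M+1)^(J.card) ≤ X < (M+1)^(k+1)`, so `J.card ≤ k`. Hence `J.card = k`; first claim.
(4) The family `v` = the `w_i`, `i ∉ J` (there are `r - k` of them). Size: let `i ∉ J`, `w = w_i`, `j` any index with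
`w j ≠ 0` (so `j ∈ insert i J`), `s = min |w j| (M+1)`. The vectors `n` of the box `[0,M]^(insert i J)` with `n j < s`
number `s (M+1)^k`, and are pairwise incongruent modulo `G`: a difference in `G` is a multiple `λ w`, and
`|λ w j| < |w j|` forces `λ = 0`. So `s (M+1)^k ≤ X < (M+1)^(k+1)`, so `s = |w j|` and `|w j| (M+1)^k ≤ X`.
-/

namespace GamE

open Finset

/-- a generator for the part of `G` supported on `insert i J` -/
private theorem gen_box {r : ℕ} (G : AddSubgroup (Fin r → ℤ)) (J : Finset (Fin r)) (i : Fin r)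
    (hJ : ∀ γ ∈ G, (∀ l, l ∉ J → γ l = 0) → γ = 0)
    (hi : ∃ γ ∈ G, (∀ l, l ∉ insert i J → γ l = 0) ∧ γ ≠ 0) :
    ∃ w : Fin r → ℤ, w ∈ G ∧ (∀ l, l ∉ insert i J → w l = 0) ∧ w i ≠ 0 ∧
      ∀ γ ∈ G, (∀ l, l ∉ insert i J → γ l = 0) → ∃ c : ℤ, γ = c • w := by
  have hne : ∀ γ ∈ G, (∀ l, l ∉ insert i J → γ l = 0) → γ i = 0 → γ = 0 := by
    intro γ hγ h1 h2
    refine hJ γ hγ fun l hl => ?_
    by_cases hli : l = i
    · rw [hli]; exact h2
    · exact h1 l (by simp [hli, hl])
  have hex : ∃ n : ℕ, ∃ w ∈ G, (∀ l, l ∉ insert i J → w l = 0) ∧ w i ≠ 0 ∧ (w i).natAbs = n := by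
    obtain ⟨γ, hγ, h1, h2⟩ := hi
    exact ⟨_, γ, hγ, h1, fun h3 => h2 (hne γ hγ h1 h3), rfl⟩
  classical
  obtain ⟨w, hw, hw1, hw2, hw3⟩ := Nat.find_spec hex
  refine ⟨w, hw, hw1, hw2, fun γ hγ h1 => ⟨γ i / w i, ?_⟩⟩
  have hd : γ - (γ i / w i) • w ∈ G := G.sub_mem hγ (G.zsmul_mem hw _)
  have hd1 : ∀ l, l ∉ insert i J → (γ - (γ i / w i) • w) l = 0 := by
    intro l hl
    simp [h1 l hl, hw1 l hl]
  have hd2 : (γ - (γ i / w i) • w) i = γ i % w i := by
    simp only [Pi.sub_apply, Pi.smul_apply, smul_eq_mul]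
    rw [Int.emod_def, mul_comm (w i)]
  have hd3 : (γ - (γ i / w i) • w) i = 0 := by
    by_contra hne0
    have hlt : ((γ - (γ i / w i) • w) i).natAbs < Nat.find hex := by
      rw [← hw3, hd2]
      have h4 := Int.emod_nonneg (γ i) hw2
      have h5 := Int.emod_lt_abs (γ i) hw2
      zify
      rw [abs_of_nonneg h4]
      exact h5
    exact Nat.find_min hex hlt ⟨_, hd, hd1, hne0, rfl⟩
  exact sub_eq_zero.1 (hne _ hd hd1 hd3)

theorem box_lemma {r k M X : ℕ} (G : AddSubgroup (Fin r → ℤ)) (hk : k ≤ r)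
    (hfew : ∀ T : Finset (Fin r → ℤ), (∀ γ ∈ T, ∀ i, 0 ≤ γ i ∧ γ i ≤ M) →
      (∀ γ ∈ T, ∀ γ' ∈ T, γ - γ' ∈ G → γ = γ') → T.card ≤ X)
    (hX : X < (M + 1) ^ (k + 1))
    (hrk : ∀ (m : ℕ) (v : Fin m → Fin r → ℤ), (∀ i, v i ∈ G) →
      LinearIndependent ℚ (fun i => qv (v i)) → m + k ≤ r) :
    (∃ T : Finset (Fin r → ℤ), T.card = (M + 1) ^ k ∧ (∀ γ ∈ T, ∀ i, 0 ≤ γ i ∧ γ i ≤ M) ∧
      (∀ γ ∈ T, ∀ γ' ∈ T, γ - γ' ∈ G → γ = γ')) ∧
    ∃ v : Fin (r - k) → Fin r → ℤ, (∀ i, v i ∈ G) ∧ LinearIndependent ℚ (fun i => qv (v i)) ∧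
      ∀ i j, |v i j| * ((M : ℤ) + 1) ^ k ≤ X := by
  classical
  have hex : ∃ J : Finset (Fin r), (∀ γ ∈ G, (∀ l, l ∉ J → γ l = 0) → γ = 0) ∧
      ∀ J' : Finset (Fin r), (∀ γ ∈ G, (∀ l, l ∉ J' → γ l = 0) → γ = 0) → J'.card ≤ J.card := by
    obtain ⟨J, hJ, hJm⟩ := Finset.exists_max_image
      (Finset.univ.filter fun J : Finset (Fin r) => ∀ γ ∈ G, (∀ l, l ∉ J → γ l = 0) → γ = 0)
      Finset.card ⟨∅, by
        simp only [Finset.mem_filter, Finset.mem_univ, true_and]
        intro γ _ h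
        funext l
        exact h l (Finset.notMem_empty l)⟩
    simp only [Finset.mem_filter, Finset.mem_univ, true_and] at hJ hJm
    exact ⟨J, hJ, hJm⟩
  obtain ⟨J, hJ, hJm⟩ := hex
  have hgen : ∀ i, ∃ w : Fin r → ℤ, i ∉ J → (w ∈ G ∧ (∀ l, l ∉ insert i J → w l = 0) ∧ w i ≠ 0 ∧
      ∀ γ ∈ G, (∀ l, l ∉ insert i J → γ l = 0) → ∃ c : ℤ, γ = c • w) := by
    intro i
    by_cases hi : i ∈ J
    · exact ⟨0, fun h => absurd hi h⟩
    · have h1 : ∃ γ ∈ G, (∀ l, l ∉ insert i J → γ l = 0) ∧ γ ≠ 0 := by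
        by_contra hcon
        have h2 : ∀ γ ∈ G, (∀ l, l ∉ insert i J → γ l = 0) → γ = 0 := by
          intro γ hγ h3
          by_contra h4
          exact hcon ⟨γ, hγ, h3, h4⟩
        have h3 := hJm _ h2
        rw [Finset.card_insert_of_notMem hi] at h3
        omega
      obtain ⟨w, hw⟩ := gen_box G J i hJ h1
      exact ⟨w, fun _ => hw⟩
  choose w hw using hgen
  have hli : ∀ (m : ℕ) (e : Fin m ≃ {x // x ∈ Jᶜ}),
      LinearIndependent ℚ (fun a => qv (w (e a))) := by
    intro m e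
    rw [Fintype.linearIndependent_iff]
    intro c hc a
    have hmem : ∀ b, (e b : Fin r) ∉ J := fun b => Finset.mem_compl.1 (e b).2
    have h1 := congrFun hc (e a : Fin r)
    rw [Finset.sum_apply, Finset.sum_eq_single a] at h1
    · simp only [Pi.smul_apply, smul_eq_mul, Pi.zero_apply, qv, mul_eq_zero, Int.cast_eq_zero] at h1
      rcases h1 with h1 | h1
      · exact h1
      · exact absurd h1 (hw _ (hmem a)).2.2.1
    · intro b _ hb
      have h2 : w (e b) (e a) = 0 := by
        refine (hw _ (hmem b)).2.1 _ ?_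
        rw [Finset.mem_insert, not_or]
        refine ⟨fun h => hb (e.injective (Subtype.ext h.symm)), hmem a⟩
      simp only [Pi.smul_apply, smul_eq_mul, qv, h2, Int.cast_zero, mul_zero]
    · intro h
      exact absurd (Finset.mem_univ a) h
  have hJr : J.card ≤ r := by
    have := Finset.card_le_univ J
    rwa [Fintype.card_fin] at this
  have hcc : Jᶜ.card = r - J.card := by rw [Finset.card_compl, Fintype.card_fin]
  have hk1 : k ≤ J.card := by
    have h1 := hrk (r - J.card) (fun a => w ((Finset.equivFinOfCardEq hcc).symm a))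
      (fun a => (hw _ (Finset.mem_compl.1 ((Finset.equivFinOfCardEq hcc).symm a).2)).1)
      (hli _ (Finset.equivFinOfCardEq hcc).symm)
    omega
  -- the box
  let T : Finset (Fin r → ℤ) :=
    Fintype.piFinset (fun i => if i ∈ J then Finset.Icc (0 : ℤ) M else {0})
  have hTc : T.card = (M + 1) ^ J.card := by
    rw [Fintype.card_piFinset]
    have h1 : ∀ i : Fin r, (if i ∈ J then Finset.Icc (0 : ℤ) M else {0}).card =
        if i ∈ J then M + 1 else 1 := by
      intro i
      split_ifs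
      · rw [Int.card_Icc]; omega
      · rw [Finset.card_singleton]
    rw [Finset.prod_congr rfl fun i _ => h1 i, Finset.prod_ite, Finset.prod_const,
      Finset.prod_const_one, mul_one, Finset.filter_mem_eq_inter, Finset.univ_inter]
  have hTb : ∀ γ ∈ T, ∀ i, 0 ≤ γ i ∧ γ i ≤ M := by
    intro γ hγ i
    have h1 := Fintype.mem_piFinset.1 hγ i
    by_cases hi : i ∈ J
    · rw [if_pos hi, Finset.mem_Icc] at h1; exact h1
    · rw [if_neg hi, Finset.mem_singleton] at h1
      rw [h1]
      exact ⟨le_rfl, Int.natCast_nonneg M⟩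
  have hTi : ∀ γ ∈ T, ∀ γ' ∈ T, γ - γ' ∈ G → γ = γ' := by
    intro γ hγ γ' hγ' h
    refine sub_eq_zero.1 (hJ _ h fun l hl => ?_)
    have h1 := Fintype.mem_piFinset.1 hγ l
    have h2 := Fintype.mem_piFinset.1 hγ' l
    rw [if_neg hl, Finset.mem_singleton] at h1 h2
    rw [Pi.sub_apply, h1, h2, sub_zero]
  have hTX := hfew T hTb hTi
  have hk2 : J.card = k := by
    refine le_antisymm ?_ hk1
    by_contra hcon
    have h1 : (M + 1) ^ (k + 1) ≤ (M + 1) ^ J.card := Nat.pow_le_pow_right (Nat.succ_pos M) (by omega)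
    rw [hTc] at hTX
    omega
  refine ⟨⟨T, by rw [hTc, hk2], hTb, hTi⟩, ?_⟩
  have hcc' : Jᶜ.card = r - k := by rw [hcc, hk2]
  refine ⟨fun a => w ((Finset.equivFinOfCardEq hcc').symm a),
    fun a => (hw _ (Finset.mem_compl.1 ((Finset.equivFinOfCardEq hcc').symm a).2)).1,
    hli _ (Finset.equivFinOfCardEq hcc').symm, fun a j => ?_⟩
  have hiJ : (((Finset.equivFinOfCardEq hcc').symm a : {x // x ∈ Jᶜ}) : Fin r) ∉ J :=
    Finset.mem_compl.1 ((Finset.equivFinOfCardEq hcc').symm a).2
  change |w (((Finset.equivFinOfCardEq hcc').symm a : {x // x ∈ Jᶜ}) : Fin r) j| *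
    ((M : ℤ) + 1) ^ k ≤ X
  generalize (((Finset.equivFinOfCardEq hcc').symm a : {x // x ∈ Jᶜ}) : Fin r) = i at hiJ ⊢
  obtain ⟨hw1, hw2, hw3, hw4⟩ := hw i hiJ
  by_cases hj0 : w i j = 0
  · rw [hj0, abs_zero, zero_mul]
    exact Int.natCast_nonneg X
  · have hjI : j ∈ insert i J := by
      by_contra h
      exact hj0 (hw2 j h)
    obtain ⟨t, ht⟩ : ∃ t : ℕ, t = min (w i j).natAbs (M + 1) := ⟨_, rfl⟩
    let T' : Finset (Fin r → ℤ) := Fintype.piFinset (fun l =>
      if l = j then Finset.Ico (0 : ℤ) t else if l ∈ insert i J then Finset.Icc (0 : ℤ) M else {0})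
    have hTc' : T'.card = t * (M + 1) ^ k := by
      rw [Fintype.card_piFinset]
      have h1 : ∀ l : Fin r, (if l = j then Finset.Ico (0 : ℤ) t else
          if l ∈ insert i J then Finset.Icc (0 : ℤ) M else {0}).card =
          if l = j then t else if l ∈ insert i J then M + 1 else 1 := by
        intro l
        split_ifs
        · rw [Int.card_Ico]; omega
        · rw [Int.card_Icc]; omega
        · rw [Finset.card_singleton]
      rw [Finset.prod_congr rfl fun l _ => h1 l, ← Finset.mul_prod_erase _ _ (Finset.mem_univ j),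
        if_pos rfl]
      congr 1
      have h2 : ∀ l ∈ Finset.univ.erase j, (if l = j then t else
          if l ∈ insert i J then M + 1 else 1) = if l ∈ insert i J then M + 1 else 1 := by
        intro l hl
        rw [if_neg (Finset.ne_of_mem_erase hl)]
      rw [Finset.prod_congr rfl h2, Finset.prod_ite, Finset.prod_const, Finset.prod_const_one,
        mul_one]
      congr 1
      have h3 : (Finset.univ.erase j).filter (fun l => l ∈ insert i J) = (insert i J).erase j := by
        ext l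
        simp only [Finset.mem_filter, Finset.mem_erase, Finset.mem_univ, and_true]
      rw [h3, Finset.card_erase_of_mem hjI, Finset.card_insert_of_notMem hiJ, hk2]
      rfl
    have hTb' : ∀ γ ∈ T', ∀ l, 0 ≤ γ l ∧ γ l ≤ M := by
      intro γ hγ l
      have h1 := Fintype.mem_piFinset.1 hγ l
      by_cases hlj : l = j
      · rw [if_pos hlj, Finset.mem_Ico] at h1
        have h2 : t ≤ M + 1 := by rw [ht]; exact min_le_right _ _
        omega
      · rw [if_neg hlj] at h1
        by_cases hl : l ∈ insert i J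
        · rw [if_pos hl, Finset.mem_Icc] at h1; exact h1
        · rw [if_neg hl, Finset.mem_singleton] at h1
          rw [h1]
          exact ⟨le_rfl, Int.natCast_nonneg M⟩
    have hTi' : ∀ γ ∈ T', ∀ γ' ∈ T', γ - γ' ∈ G → γ = γ' := by
      intro γ hγ γ' hγ' h
      have hsupp : ∀ l, l ∉ insert i J → (γ - γ') l = 0 := by
        intro l hl
        have hlj : l ≠ j := fun h => hl (h ▸ hjI)
        have h1 := Fintype.mem_piFinset.1 hγ l
        have h2 := Fintype.mem_piFinset.1 hγ' l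
        rw [if_neg hlj, if_neg hl, Finset.mem_singleton] at h1 h2
        rw [Pi.sub_apply, h1, h2, sub_zero]
      obtain ⟨c, hc⟩ := hw4 _ h hsupp
      have h1 := Fintype.mem_piFinset.1 hγ j
      have h2 := Fintype.mem_piFinset.1 hγ' j
      rw [if_pos rfl, Finset.mem_Ico] at h1 h2
      have h3 : γ j - γ' j = c * w i j := congrFun hc j
      have h4 : t ≤ (w i j).natAbs := by rw [ht]; exact min_le_left _ _
      have hc0 : c = 0 := by
        by_contra hcne
        have h5 : 1 ≤ c.natAbs := Int.natAbs_pos.2 hcne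
        have h6 : (c * w i j).natAbs = c.natAbs * (w i j).natAbs := Int.natAbs_mul _ _
        have h7 : (w i j).natAbs ≤ c.natAbs * (w i j).natAbs := Nat.le_mul_of_pos_left _ h5
        have h8 : (γ j - γ' j).natAbs < t := by omega
        rw [h3, h6] at h8
        omega
      rw [hc0, zero_smul] at hc
      exact sub_eq_zero.1 hc
    have hX' := hfew T' hTb' hTi'
    rw [hTc'] at hX'
    have ht1 : t < M + 1 := by
      by_contra hcon
      have h1 : (M + 1) * (M + 1) ^ k ≤ t * (M + 1) ^ k := Nat.mul_le_mul_right _ (by omega)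
      rw [pow_succ, mul_comm] at hX
      omega
    have ht2 : t = (w i j).natAbs := by
      rcases min_choice (w i j).natAbs (M + 1) with h | h
      · rw [ht, h]
      · rw [← ht] at h
        omega
    rw [ht2] at hX'
    have h9 : (((w i j).natAbs * (M + 1) ^ k : ℕ) : ℤ) ≤ (X : ℤ) := by exact_mod_cast hX'
    rw [Nat.cast_mul, Int.natCast_natAbs] at h9
    push_cast at h9
    exact h9

end GamE
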