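import Pool.Agent.GamE.ZDefs

/-!
# Elementary lemmas on the dimension

PROOFS. `le_dj`: `Finset.le_sup`. `exists_ind`: `∅` is independent modulo `I ≠ ⊤` (`supported ℚ ∅` is the set of the
constants), so the filtered set is nonempty and the supremum is attained (`Finset.exists_mem_eq_sup`).
`dj_bot`: all the variables are independent modulo `⊥`. `dj_anti`: `Ind J A → Ind I A` for `I ≤ J`.
-/

namespace GamE

open MvPolynomial Finset

variable {r : ℕ}

theorem le_dj {I : Ideal (RR r)} {J : Finset (Fin r)} (h : Ind I J) : J.card ≤ dj I := by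
  classical
  unfold dj
  exact Finset.le_sup (f := card) (Finset.mem_filter.2 ⟨Finset.mem_univ J, h⟩)

private theorem ind_empty {I : Ideal (RR r)} (h : I ≠ ⊤) : Ind I ∅ := by
  intro f hf hfI
  rw [Finset.coe_empty, supported_empty] at hf
  obtain ⟨c, rfl⟩ := Algebra.mem_bot.1 hf
  by_contra hc
  have hc0 : c ≠ 0 := by
    rintro rfl
    exact hc (map_zero _)
  refine h ((Ideal.eq_top_iff_one _).2 ?_)
  have h1 : (algebraMap ℚ (RR r) c⁻¹) * algebraMap ℚ (RR r) c = 1 := by
    rw [← map_mul, inv_mul_cancel₀ hc0, map_one]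
  rw [← h1]
  exact Ideal.mul_mem_left _ _ hfI

theorem exists_ind {I : Ideal (RR r)} (h : I ≠ ⊤) : ∃ J : Finset (Fin r), J.card = dj I ∧ Ind I J := by
  classical
  have hne : ((univ : Finset (Finset (Fin r))).filter (Ind I)).Nonempty :=
    ⟨∅, Finset.mem_filter.2 ⟨Finset.mem_univ _, ind_empty h⟩⟩
  obtain ⟨J, hJ, hJ2⟩ := Finset.exists_mem_eq_sup _ hne card
  refine ⟨J, ?_, (Finset.mem_filter.1 hJ).2⟩
  unfold dj
  rw [← hJ2]

theorem dj_le (I : Ideal (RR r)) : dj I ≤ r := by
  unfold dj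
  refine Finset.sup_le (fun J _ => ?_)
  have := Finset.card_le_univ J
  rwa [Fintype.card_fin] at this

theorem dj_bot : dj (⊥ : Ideal (RR r)) = r := by
  refine le_antisymm (dj_le _) ?_
  have h : Ind (⊥ : Ideal (RR r)) univ := fun f _ hf => (Ideal.mem_bot).1 hf
  have h2 := le_dj h
  rwa [Finset.card_univ, Fintype.card_fin] at h2

theorem dj_anti {I J : Ideal (RR r)} (h : I ≤ J) : dj J ≤ dj I := by
  classical
  unfold dj
  refine Finset.sup_mono (fun A hA => ?_)
  rw [Finset.mem_filter] at hA ⊢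
  exact ⟨hA.1, fun f hf hfI => hA.2 f hf (h hfI)⟩

end GamE
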