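import Pool.Agent.GamE.HF1
import Pool.Agent.GamE.TrL
import Pool.Agent.GamE.Dj

/-!
# The start of the chain

PROOF. `B = fun _ => ∅`. `⊥` is prime of dimension `r` (`dj_bot`); `JJ f 0` contains `tr 0 f = f ≠ 0`;
`hf ⊥ t ≤ (t+1)^r ≤ (t+d)^r`; the fields on `B j`, `1 ≤ j ≤ 0`, are void; `cov`: `⊥ ≤ 𝔮`.
-/

namespace GamE

open MvPolynomial Finset

theorem stage_zero {r : ℕ} {f : RR r} (hf0 : f ≠ 0) {d : ℕ} (hd : 1 ≤ d) (M : ℕ) :
    ∃ B, Stage f d M 0 {⊥} B := by
  refine ⟨fun _ => ∅, ?_⟩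
  constructor
  · intro 𝔭 hp
    rw [Finset.mem_singleton] at hp
    subst hp
    refine ⟨Ideal.isPrime_bot, ?_⟩
    rw [dj_bot, Nat.add_zero]
  · intro 𝔭 hp hle
    rw [Finset.mem_singleton] at hp
    subst hp
    have hmem : f ∈ JJ f (0 * M) := by
      refine Ideal.subset_span ⟨0, fun i => ⟨le_refl _, ?_⟩, ?_⟩
      · simp
      · have h0 : qv (0 : Fin r → ℤ) = 0 := by
          funext i
          simp [qv]
        rw [h0, tr_zero]
    have h2 := hle hmem
    rw [Ideal.mem_bot] at h2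
    exact hf0 h2
  · intro t
    rw [Finset.inf_singleton, Nat.mul_zero, pow_zero, pow_zero, one_mul, one_mul, Nat.sub_zero]
    exact (hf_bot t).trans (Nat.pow_le_pow_left (by omega) r)
  · intro j h1 h2
    omega
  · intro j h1 h2
    omega
  · intro j h1 h2
    omega
  · intro 𝔮 _ _
    left
    rw [Finset.inf_singleton]
    exact bot_le

end GamE
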