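import Pool.Agent.GamE.DjLt

/-!
# Krull's principal ideal theorem for the dimension

For a prime `𝔮` the dimension `dj 𝔮` is the transcendence degree of `R ⧸ 𝔮`. Noether normalization of `R ⧸ 𝔭`, going
down and Krull's principal ideal theorem give `trdeg (R ⧸ 𝔮) ≥ trdeg (R ⧸ 𝔭) - 1`.
-/

namespace GamE

open MvPolynomial Finset

theorem ind_iff_algInd {r : ℕ} (I : Ideal (RR r)) (J : Finset (Fin r)) :
    Ind I J ↔ AlgebraicIndependent ℚ (fun j : J => Ideal.Quotient.mk I (X (j : Fin r))) := by
  rw [algebraicIndependent_iff]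
  have key : ∀ p : MvPolynomial J ℚ,
      aeval (fun j : J => Ideal.Quotient.mk I (X (j : Fin r))) p
        = Ideal.Quotient.mk I (rename (fun j : J => (j : Fin r)) p) := by
    intro p
    have h1 : (aeval (fun j : J => Ideal.Quotient.mk I (X (j : Fin r)))) =
        (Ideal.Quotient.mkₐ ℚ I).comp (rename (fun j : J => (j : Fin r))) := by
      ext j
      simp
    rw [h1]
    simp
  constructor
  · intro h p hp
    rw [key, Ideal.Quotient.eq_zero_iff_mem] at hp
    have h2 := h (rename (fun j : J => (j : Fin r)) p) (by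
      rw [supported_eq_range_rename]
      exact ⟨p, rfl⟩) hp
    exact (rename_injective _ Subtype.val_injective) (by simpa using h2)
  · intro h f hf hfI
    rw [supported_eq_range_rename] at hf
    obtain ⟨p, rfl⟩ := hf
    have := h p (by
      rw [key, Ideal.Quotient.eq_zero_iff_mem]
      exact hfI)
    rw [this]
    simp

theorem dj_eq_trdeg_step {r : ℕ} (𝔮 : Ideal (RR r)) (hq : 𝔮.IsPrime) :
    ((dj 𝔮 : ℕ) : Cardinal) = Algebra.trdeg ℚ (RR r ⧸ 𝔮) := by
  apply le_antisymm
  · obtain ⟨J, hJ, hI⟩ := exists_ind hq.ne_top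
    rw [ind_iff_algInd] at hI
    have := hI.lift_cardinalMk_le_trdeg
    rw [← hJ]
    simpa using this
  · haveI : IsDomain (RR r ⧸ 𝔮) := Ideal.Quotient.isDomain 𝔮
    set s : Set (RR r ⧸ 𝔮) := Set.range (fun i : Fin r => Ideal.Quotient.mk 𝔮 (X i)) with hs
    have hadj : Algebra.adjoin ℚ s = ⊤ := by
      have h1 : s = (Ideal.Quotient.mkₐ ℚ 𝔮) '' (Set.range (X : Fin r → RR r)) := by
        rw [hs, ← Set.range_comp]
        rfl
      rw [h1, ← AlgHom.map_adjoin, adjoin_range_X, Algebra.map_top,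
        AlgHom.range_eq_top]
      exact Ideal.Quotient.mkₐ_surjective ℚ 𝔮
    haveI : Algebra.IsAlgebraic (Algebra.adjoin ℚ s) (RR r ⧸ 𝔮) := by
      constructor
      intro x
      have hx : x ∈ Algebra.adjoin ℚ s := by rw [hadj]; trivial
      exact isAlgebraic_algebraMap (⟨x, hx⟩ : Algebra.adjoin ℚ s)
    obtain ⟨t, hts, ht⟩ := exists_isTranscendenceBasis_subset (R := ℚ) s
    have hch : ∀ x : t, ∃ i : Fin r, Ideal.Quotient.mk 𝔮 (X i) = (x : RR r ⧸ 𝔮) := by
      intro x
      obtain ⟨i, hi⟩ := hts x.2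
      exact ⟨i, hi⟩
    choose c hc using hch
    have hcinj : Function.Injective c := by
      intro x y hxy
      apply Subtype.ext
      rw [← hc x, ← hc y, hxy]
    haveI : Finite t := Finite.of_injective c hcinj
    haveI : Fintype t := Fintype.ofFinite t
    classical
    let J : Finset (Fin r) := Finset.univ.image c
    have hJcard : J.card = Fintype.card t := by
      rw [Finset.card_image_of_injective _ hcinj, Finset.card_univ]
    have hJind : Ind 𝔮 J := by
      rw [ind_iff_algInd]
      have hmem : ∀ j : J, ∃ x : t, c x = (j : Fin r) := by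
        intro j
        have := j.2
        simp only [J, Finset.mem_image, Finset.mem_univ, true_and] at this
        exact this
      choose d hd using hmem
      have hdinj : Function.Injective d := by
        intro x y hxy
        apply Subtype.ext
        rw [← hd x, ← hd y, hxy]
      have h3 : (fun j : J => Ideal.Quotient.mk 𝔮 (X (j : Fin r))) = (Subtype.val : t → _) ∘ d := by
        funext j
        simp only [Function.comp]
        rw [← hc (d j), hd j]
      rw [h3]
      exact ht.1.comp d hdinj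
    have h4 := le_dj hJind
    rw [← ht.cardinalMk_eq_trdeg, Cardinal.mk_fintype, ← hJcard]
    exact_mod_cast h4

/-- under an integral extension of an integrally closed domain a prime of height at most one lies over a principal
prime -/
theorem under_eq_span {S A : Type*} [CommRing S] [CommRing A] [IsDomain S] [IsDomain A] [Algebra S A]
    [Algebra.HasGoingDown S A] [IsNoetherianRing A]
    (hinj : Function.Injective (algebraMap S A)) (Q : Ideal A) [hQ : Q.IsPrime] (hht : Q.height ≤ 1)
    {π : S} (hπ : Prime π) (hmem : π ∈ Q.under S) : Q.under S = Ideal.span {π} := by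
  by_contra hne
  haveI hPp : (Ideal.span {π}).IsPrime := by
    rw [Ideal.span_singleton_prime hπ.ne_zero]
    exact hπ
  have hlt : Ideal.span {π} < Q.under S := by
    refine lt_of_le_of_ne ?_ (Ne.symm hne)
    rw [Ideal.span_singleton_le_iff_mem]
    exact hmem
  haveI : Q.LiesOver (Q.under S) := ⟨rfl⟩
  obtain ⟨P, hPQ, hP, hPl⟩ := Ideal.exists_ideal_lt_liesOver_of_lt Q hlt
  have hPbot : (⊥ : Ideal A) < P := by
    rw [bot_lt_iff_ne_bot]
    rintro rfl
    have h1 := hPl.over
    have h2 : π ∈ Ideal.span {π} := Ideal.mem_span_singleton_self π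
    rw [h1] at h2
    have h3 : algebraMap S A π = 0 := by
      simpa [Ideal.under_def] using h2
    exact hπ.ne_zero (hinj (by rw [h3, map_zero]))
  haveI : (⊥ : Ideal A).IsPrime := Ideal.isPrime_bot
  haveI : Q.FiniteHeight := inferInstance
  haveI : P.FiniteHeight := inferInstance
  haveI : (⊥ : Ideal A).FiniteHeight := inferInstance
  have h1 := Ideal.height_strict_mono_of_isPrime_of_isPrime hPbot
  have h2 := Ideal.height_strict_mono_of_isPrime_of_isPrime hPQ
  have h3 : P.height < 1 := lt_of_lt_of_le h2 hht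
  have h4 : P.height = 0 := by simpa using h3
  rw [h4] at h1
  simp at h1

/-- `s - 1` variables remain algebraically independent modulo a principal prime -/
theorem le_trdeg_add_one {s : ℕ} {A : Type} [CommRing A] [Algebra ℚ A]
    (ψ : MvPolynomial (Fin s) ℚ →ₐ[ℚ] A)
    (hker : RingHom.ker ψ = ⊥ ∨ ∃ π : MvPolynomial (Fin s) ℚ, Prime π ∧
      RingHom.ker ψ = Ideal.span {π}) : (s : Cardinal) ≤ Algebra.trdeg ℚ A + 1 := by
  rcases hker with h | ⟨π, hπ, hker⟩
  · have hinj : Function.Injective ψ := (RingHom.injective_iff_ker_eq_bot _).2 h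
    have h1 : AlgebraicIndependent ℚ (fun i : Fin s => ψ (X i)) :=
      (algebraicIndependent_X (Fin s) ℚ).map' hinj
    have h2 := h1.lift_cardinalMk_le_trdeg
    have h3 : (s : Cardinal) ≤ Algebra.trdeg ℚ A := by simpa using h2
    exact h3.trans (by simp)
  · -- a variable occurs in `π`
    have hk : ∃ k : Fin s, π.degreeOf k ≠ 0 := by
      by_contra hcon
      push Not at hcon
      have hvars : π.vars = ∅ := by
        rw [Finset.eq_empty_iff_forall_notMem]
        intro i hi
        have h5 : 0 < π.degreeOf i := by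
          rw [degreeOf_eq_sup]
          obtain ⟨d, hd, hid⟩ := (mem_vars_iff_mem_support i).1 hi
          refine lt_of_lt_of_le ?_ (Finset.le_sup (f := fun m => m i) hd)
          exact Nat.pos_of_ne_zero (by simpa using hid)
        exact absurd (hcon i) h5.ne'
      have hC : π = C (constantCoeff π) := by
        exact (vars_eq_empty_iff_eq_C).1 hvars
      have h0 : constantCoeff π ≠ 0 := by
        intro h0
        apply hπ.ne_zero
        rw [hC, h0, map_zero]
      apply hπ.not_isUnit
      rw [hC]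
      exact (isUnit_iff_ne_zero.2 h0).map C
    obtain ⟨k, hk⟩ := hk
    have hind : AlgebraicIndependent ℚ (fun i : {j : Fin s // j ≠ k} => ψ (X (i : Fin s))) := by
      rw [algebraicIndependent_iff]
      intro p hp
      have h1 : aeval (fun i : {j : Fin s // j ≠ k} => ψ (X (i : Fin s))) p =
          ψ (rename (fun i : {j : Fin s // j ≠ k} => (i : Fin s)) p) := by
        have : aeval (fun i : {j : Fin s // j ≠ k} => ψ (X (i : Fin s))) =
            ψ.comp (rename (fun i : {j : Fin s // j ≠ k} => (i : Fin s))) := by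
          ext i
          simp
        rw [this]
        simp
      rw [h1] at hp
      have h2 : rename (fun i : {j : Fin s // j ≠ k} => (i : Fin s)) p ∈ RingHom.ker ψ := hp
      rw [hker, Ideal.mem_span_singleton] at h2
      obtain ⟨h, hh⟩ := h2
      by_contra hp0
      have hren0 : rename (fun i : {j : Fin s // j ≠ k} => (i : Fin s)) p ≠ 0 := by
        intro h0
        exact hp0 ((rename_injective _ Subtype.val_injective) (by simpa using h0))
      have hh0 : h ≠ 0 := by
        rintro rfl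
        rw [mul_zero] at hh
        exact hren0 hh
      have hdeg := degreeOf_mul_eq (n := k) hπ.ne_zero hh0
      rw [← hh] at hdeg
      have hdeg0 : degreeOf k (rename (fun i : {j : Fin s // j ≠ k} => (i : Fin s)) p) = 0 := by
        rw [← Nat.le_zero, degreeOf_le_iff]
        intro m hm
        rw [support_rename_of_injective Subtype.val_injective] at hm
        obtain ⟨m', _, rfl⟩ := Finset.mem_image.1 hm
        rw [Finsupp.mapDomain_of_notMem_range]
        rintro ⟨⟨j, hj⟩, hjk⟩
        exact hj hjk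
      omega
    have h2 := hind.lift_cardinalMk_le_trdeg
    have h3 : ((Fintype.card {j : Fin s // j ≠ k} : ℕ) : Cardinal) ≤ Algebra.trdeg ℚ A := by
      simpa using h2
    have h4 : Fintype.card {j : Fin s // j ≠ k} + 1 = s := by
      have hs : 0 < s := Fin.pos k
      have h6 : Fintype.card {j : Fin s // j ≠ k} = s - 1 := by
        rw [Fintype.card_subtype_compl]
        simp
      omega
    calc (s : Cardinal) = ((Fintype.card {j : Fin s // j ≠ k} : ℕ) : Cardinal) + 1 := by
          rw [← Nat.cast_succ, Nat.succ_eq_add_one, h4]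
      _ ≤ _ := by gcongr

theorem dj_step {r : ℕ} {𝔭 𝔮 : Ideal (RR r)} (hp : 𝔭.IsPrime) {g : RR r} (hg : g ∉ 𝔭)
    (hq : 𝔮 ∈ (𝔭 ⊔ Ideal.span {g}).minimalPrimes) : dj 𝔮 + 1 = dj 𝔭 := by
  have hqp : 𝔮.IsPrime := hq.1.1
  have hle : 𝔭 ⊔ Ideal.span {g} ≤ 𝔮 := hq.1.2
  have hpq : 𝔭 ≤ 𝔮 := le_sup_left.trans hle
  have hgq : g ∈ 𝔮 := hle (Ideal.mem_sup_right (Ideal.mem_span_singleton_self g))
  have hlt : 𝔭 < 𝔮 := lt_of_le_of_ne hpq (by rintro rfl; exact hg hgq)
  have h1 := dj_lt hp hqp hlt
  haveI : IsDomain (RR r ⧸ 𝔭) := Ideal.Quotient.isDomain 𝔭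
  obtain ⟨s, φ, hφinj, hφfin⟩ := exists_finite_inj_algHom_of_fg ℚ (RR r ⧸ 𝔭)
  letI : Algebra (MvPolynomial (Fin s) ℚ) (RR r ⧸ 𝔭) := φ.toRingHom.toAlgebra
  haveI : IsScalarTower ℚ (MvPolynomial (Fin s) ℚ) (RR r ⧸ 𝔭) :=
    IsScalarTower.of_algHom φ
  have hamap : algebraMap (MvPolynomial (Fin s) ℚ) (RR r ⧸ 𝔭) = φ.toRingHom := rfl
  haveI hfin : Module.Finite (MvPolynomial (Fin s) ℚ) (RR r ⧸ 𝔭) := hφfin
  haveI : Algebra.IsIntegral (MvPolynomial (Fin s) ℚ) (RR r ⧸ 𝔭) := Algebra.IsIntegral.of_finite _ _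
  haveI : FaithfulSMul (MvPolynomial (Fin s) ℚ) (RR r ⧸ 𝔭) := by
    rw [faithfulSMul_iff_algebraMap_injective]
    exact hφinj
  -- the transcendence degree of the domain
  have htr : Algebra.trdeg ℚ (RR r ⧸ 𝔭) = (s : Cardinal) := by
    have hb := (IsTranscendenceBasis.mvPolynomial (Fin s) ℚ).algebraMap_comp
      (A := RR r ⧸ 𝔭)
    have := hb.lift_cardinalMk_eq_trdeg
    simpa using this.symm
  -- the prime
  set Q : Ideal (RR r ⧸ 𝔭) := 𝔮.map (Ideal.Quotient.mk 𝔭) with hQ
  have hQcomap : Q.comap (Ideal.Quotient.mk 𝔭) = 𝔮 := by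
    rw [hQ, Ideal.comap_map_of_surjective _ Ideal.Quotient.mk_surjective, ← RingHom.ker_eq_comap_bot,
      Ideal.mk_ker]
    exact sup_eq_left.2 hpq
  haveI hQp : Q.IsPrime := by
    rw [hQ]
    refine Ideal.map_isPrime_of_surjective Ideal.Quotient.mk_surjective ?_
    rw [Ideal.mk_ker]
    exact hpq
  have hQmin : Q ∈ (Ideal.span {Ideal.Quotient.mk 𝔭 g}).minimalPrimes := by
    refine ⟨⟨hQp, ?_⟩, ?_⟩
    · rw [Ideal.span_singleton_le_iff_mem]
      exact Ideal.mem_map_of_mem _ hgq
    · rintro P ⟨hP, hPg⟩ hPQ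
      have h2 : 𝔮 ≤ P.comap (Ideal.Quotient.mk 𝔭) := by
        refine hq.2 ⟨hP.comap _, ?_⟩ ?_
        · rw [sup_le_iff]
          constructor
          · intro x hx
            rw [Ideal.mem_comap, Ideal.Quotient.eq_zero_iff_mem.2 hx]
            exact zero_mem _
          · rw [Ideal.span_singleton_le_iff_mem, Ideal.mem_comap]
            exact hPg (Ideal.mem_span_singleton_self _)
        · rw [← hQcomap]
          exact Ideal.comap_mono hPQ
      rw [hQ]
      exact Ideal.map_le_iff_le_comap.2 h2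
  have hht : Q.height ≤ 1 :=
    Ideal.height_le_one_of_isPrincipal_of_mem_minimalPrimes _ Q hQmin
  -- the map to the quotient
  let ψ : MvPolynomial (Fin s) ℚ →ₐ[ℚ] (RR r ⧸ 𝔮) := (Ideal.Quotient.factorₐ ℚ hpq).comp φ
  have hkerψ : RingHom.ker ψ = Q.under (MvPolynomial (Fin s) ℚ) := by
    ext x
    rw [RingHom.mem_ker, Ideal.under_def, Ideal.mem_comap, hamap]
    obtain ⟨y, hy⟩ := Ideal.Quotient.mk_surjective (φ x)
    have h3 : φ.toRingHom x = φ x := rfl
    rw [h3]
    show Ideal.Quotient.factorₐ ℚ hpq (φ x) = 0 ↔ _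
    rw [← hy]
    have h4 : Ideal.Quotient.factorₐ ℚ hpq (Ideal.Quotient.mk 𝔭 y) = Ideal.Quotient.mk 𝔮 y := rfl
    rw [h4, Ideal.Quotient.eq_zero_iff_mem, ← Ideal.mem_comap, hQcomap]
  have h5 : (s : Cardinal) ≤ Algebra.trdeg ℚ (RR r ⧸ 𝔮) + 1 := by
    apply le_trdeg_add_one ψ
    by_cases hbot : Q.under (MvPolynomial (Fin s) ℚ) = ⊥
    · left
      rw [hkerψ, hbot]
    · right
      haveI : (Q.under (MvPolynomial (Fin s) ℚ)).IsPrime := inferInstance
      obtain ⟨π, hπm, hπ⟩ := Ideal.IsPrime.exists_mem_prime_of_ne_bot this hbot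
      refine ⟨π, hπ, ?_⟩
      rw [hkerψ]
      exact under_eq_span hφinj Q hht hπ hπm
  rw [← dj_eq_trdeg_step 𝔮 hqp, ← htr, ← dj_eq_trdeg_step 𝔭 hp] at h5
  have h6 : dj 𝔭 ≤ dj 𝔮 + 1 := by exact_mod_cast h5
  omega

end GamE
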