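import Pool.Agent.GamE.HFc
import Pool.Agent.GamE.TrL
import Pool.Agent.GamE.DjStep
import Pool.Agent.GamE.Avoid

/-!
# One step of the chain, first part

PROOF. Let `a = P.inf id`. By `h.notle` and `avoid` (with `S` the generating set of `JJ f (k*M)`, degrees by
`totalDegree_tr`) there is `g ∈ JJ f (k*M)`, `g.totalDegree ≤ d`, `g ∉ 𝔭` for all `𝔭 ∈ P`. Let `I = a ⊔ span {g}` and `N` the
finite set of the minimal primes of `I` (`Ideal.finite_minimalPrimes_of_isNoetherianRing`).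
* `g * x ∈ a → x ∈ a`: in every `𝔭 ∈ P` (primes).
* for `𝔫 ∈ N`: `a ≤ 𝔫`, so `𝔭 ≤ 𝔫` for some `𝔭 ∈ P` (`Ideal.IsPrime.inf_le'`; if `P = ∅` then `a = ⊤`, impossible), and
  `𝔫 ∈ (𝔭 ⊔ span {g}).minimalPrimes` (a prime between `𝔭 ⊔ span {g} ≥ I` and `𝔫` equals `𝔫` by minimality), so
  `dj 𝔫 + 1 = dj 𝔭` (`dj_step`), `dj 𝔭 + k = r`.
* `hf I t`: `hf_chain` with `J = I`, `K = 3^(r k) d^k`, `s = r - (k+1)` (`s + 1 = r - k`), and
  `3^(s+1) * 3^(r k) ≤ 3^(r (k+1))`.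
* last claim: `I ≤ 𝔮`, so there is a minimal prime below `𝔮` (`Ideal.exists_minimalPrimes_le`).
-/

namespace GamE

open MvPolynomial Finset

theorem chain_step {r : ℕ} {f : RR r} {d M k : ℕ} (hd : 1 ≤ d) (hfd : f.totalDegree ≤ d)
    (hk : k < r) {P : Finset (Ideal (RR r))} {B : ℕ → Finset (Ideal (RR r))}
    (h : Stage f d M k P B) :
    ∃ (I : Ideal (RR r)) (N : Finset (Ideal (RR r))),
      (∀ 𝔫 ∈ N, 𝔫.IsPrime ∧ dj 𝔫 + (k + 1) = r ∧ I ≤ 𝔫) ∧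
      (∀ t, hf I t ≤ 3 ^ (r * (k + 1)) * d ^ (k + 1) * (t + d) ^ (r - (k + 1))) ∧
      (∀ 𝔮 : Ideal (RR r), 𝔮.IsPrime → P.inf id ≤ 𝔮 → JJ f (k * M) ≤ 𝔮 →
        I ≤ 𝔮 ∧ ∃ 𝔫 ∈ N, 𝔫 ≤ 𝔮) := by
  classical
  obtain ⟨g, hgS, hgd, hgP⟩ := avoid
    {h : RR r | ∃ γ : Fin r → ℤ, (∀ i, 0 ≤ γ i ∧ γ i ≤ ((k * M : ℕ) : ℤ)) ∧ h = tr (qv γ) f}
    (by
      rintro s ⟨γ, _, rfl⟩
      exact (totalDegree_tr _ _).trans hfd) P h.notle
  have hgJ : g ∈ JJ f (k * M) := hgS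
  have hap : ∀ 𝔭 ∈ P, P.inf id ≤ 𝔭 := fun 𝔭 hp => Finset.inf_le (f := id) hp
  have hreg : ∀ x, g * x ∈ P.inf id → x ∈ P.inf id := by
    intro x hx
    rw [Submodule.mem_finsetInf]
    intro 𝔭 hp
    have h1 : g * x ∈ 𝔭 := hap 𝔭 hp hx
    exact ((h.prime 𝔭 hp).1.mem_or_mem h1).resolve_left (hgP 𝔭 hp)
  have haI : P.inf id ≤ P.inf id ⊔ Ideal.span {g} := le_sup_left
  have hgI : g ∈ P.inf id ⊔ Ideal.span {g} :=
    (le_sup_right : Ideal.span {g} ≤ P.inf id ⊔ Ideal.span {g})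
      (Ideal.subset_span (Set.mem_singleton g))
  refine ⟨P.inf id ⊔ Ideal.span {g},
    (Ideal.finite_minimalPrimes_of_isNoetherianRing (RR r) (P.inf id ⊔ Ideal.span {g})).toFinset,
    ?_, ?_, ?_⟩
  · intro 𝔫 hn
    rw [Set.Finite.mem_toFinset] at hn
    have hpr : 𝔫.IsPrime := hn.1.1
    have hle : P.inf id ⊔ Ideal.span {g} ≤ 𝔫 := hn.1.2
    refine ⟨hpr, ?_, hle⟩
    obtain ⟨𝔭, hp, hpn⟩ := (Ideal.IsPrime.inf_le' hpr).1 (haI.trans hle)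
    have hpn' : 𝔭 ≤ 𝔫 := hpn
    have hmin : 𝔫 ∈ (𝔭 ⊔ Ideal.span {g}).minimalPrimes := by
      refine ⟨⟨hpr, sup_le hpn' (le_sup_right.trans hle)⟩, ?_⟩
      intro 𝔮 hq hqn
      exact hn.2 ⟨hq.1, (sup_le_sup_right (hap 𝔭 hp) _).trans hq.2⟩ hqn
    have h1 := dj_step (h.prime 𝔭 hp).1 (hgP 𝔭 hp) hmin
    have h2 := (h.prime 𝔭 hp).2
    omega
  · intro t
    have hs : r - k = (r - (k + 1)) + 1 := by omega
    have h1 := hf_chain hd hgd hreg haI hgI (K := 3 ^ (r * k) * d ^ k) (s := r - (k + 1))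
      (fun t => by
        have h2 := h.hil t
        rw [hs] at h2
        exact h2) t
    refine h1.trans ?_
    have h3 : 3 ^ (r - (k + 1) + 1) ≤ 3 ^ r := Nat.pow_le_pow_right (by norm_num) (by omega)
    calc 3 ^ (r - (k + 1) + 1) * (3 ^ (r * k) * d ^ k) * d * (t + d) ^ (r - (k + 1))
        = 3 ^ (r - (k + 1) + 1) * (3 ^ (r * k) * (d ^ k * d) * (t + d) ^ (r - (k + 1))) := by ring
      _ ≤ 3 ^ r * (3 ^ (r * k) * (d ^ k * d) * (t + d) ^ (r - (k + 1))) :=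
          Nat.mul_le_mul_right _ h3
      _ = 3 ^ (r * (k + 1)) * d ^ (k + 1) * (t + d) ^ (r - (k + 1)) := by
          rw [Nat.mul_succ, pow_add, pow_succ]
          ring
  · intro 𝔮 hq haq hJq
    have hIq : P.inf id ⊔ Ideal.span {g} ≤ 𝔮 := by
      refine sup_le haq ?_
      rw [Ideal.span_singleton_le_iff_mem]
      exact hJq hgJ
    refine ⟨hIq, ?_⟩
    haveI := hq
    obtain ⟨𝔫, hn, hnq⟩ := Ideal.exists_minimalPrimes_le hIq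
    exact ⟨𝔫, (Set.Finite.mem_toFinset _).2 hn, hnq⟩

end GamE
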