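import Pool.Agent.GamE.HF1

/-!
# Lower bound for the Hilbert function, and the number of incomparable primes

PROOFS.
* `hf_lower`: by prime avoidance there is for each `i` an element `e i ∈ ⋂_{j ≠ i} q j`, `e i ∉ q i` (if
  `⋂_{j≠i} q j ≤ q i` then some `q j ≤ q i`: `Ideal.IsPrime.inf_le'`). Let `t₀ = max_i deg (e i)`. Let `V i` be the
  span of the monomials in the variables of `J i` with all the exponents at most `u`; `dim V i = (u+1)^δ`,
  degrees at most `δ u`. The map `(v_i) ↦ class of ∑ v_i e_i` from `⨁ V i` to `R/I` is injective: if `∑ v_i e_i ∈ I ≤ q j`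
  then `v_j e_j ∈ q j` (the other `e_i` are in `q j`), `v_j ∈ q j`, `v_j = 0` by `Ind`. Its image lies in the image of
  `R_{δ u + t₀}`. (E.g. show that the family indexed by `(i, exponent vector in Fin (u+1)^{J i})` is linearly
  independent in `R/I` and use `LinearIndependent.fintype_card_le_finrank`-like lemmas.)
* `prime_count`: choose `u = t₀ + d`: `card ι * (u+1)^δ ≤ K (δ u + t₀ + d)^δ = K ((δ+1) u)^δ ≤ K (δ+1)^δ (u+1)^δ`.
-/

namespace GamE

open MvPolynomial Finset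

private theorem hf2_finite (r t : ℕ) : Module.Finite ℚ (restrictTotalDegree (Fin r) ℚ t) := by
  have hset : Set.Finite {n : Fin r →₀ ℕ | (n.sum fun _ e => e) ≤ t} := by
    refine Set.Finite.subset
      (Set.finite_Iic (Finsupp.equivFunOnFinite.symm (fun _ : Fin r => t))) ?_
    intro n hn
    have hn' : (n.sum fun _ e => e) ≤ t := hn
    rw [Set.mem_Iic]
    intro i
    rw [Finsupp.sum_fintype _ _ (fun _ => rfl)] at hn'
    have h1 : n i ≤ ∑ j, n j := Finset.single_le_sum (f := fun j => n j)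
      (fun _ _ => Nat.zero_le _) (Finset.mem_univ i)
    have h2 : (Finsupp.equivFunOnFinite.symm (fun _ : Fin r => t)) i = t := rfl
    rw [h2]
    exact h1.trans hn'
  haveI : Finite {n : Fin r →₀ ℕ | (n.sum fun _ e => e) ≤ t} := hset
  exact Module.Finite.of_basis
    (basisRestrictSupport ℚ {n : Fin r →₀ ℕ | (n.sum fun _ e => e) ≤ t})

/-- the exponent vector which is `a` on `J` and zero outside -/
private noncomputable def hf2_ex {r : ℕ} (J : Finset (Fin r)) (u : ℕ) (a : J → Fin (u + 1)) :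
    Fin r →₀ ℕ :=
  Finsupp.equivFunOnFinite.symm (fun x => if h : x ∈ J then (a ⟨x, h⟩ : ℕ) else 0)

private theorem hf2_ex_apply {r : ℕ} (J : Finset (Fin r)) (u : ℕ) (a : J → Fin (u + 1))
    (x : Fin r) : hf2_ex J u a x = if h : x ∈ J then (a ⟨x, h⟩ : ℕ) else 0 := rfl

private theorem hf2_ex_inj {r : ℕ} (J : Finset (Fin r)) (u : ℕ) (a b : J → Fin (u + 1))
    (h : hf2_ex J u a = hf2_ex J u b) : a = b := by
  funext x
  have h1 := DFunLike.congr_fun h x.1
  rw [hf2_ex_apply, hf2_ex_apply, dif_pos x.2, dif_pos x.2] at h1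
  exact Fin.ext h1

private theorem hf2_ex_deg {r : ℕ} (J : Finset (Fin r)) (u : ℕ) (a : J → Fin (u + 1)) (c : ℚ) :
    (monomial (hf2_ex J u a) c : RR r).totalDegree ≤ J.card * u := by
  refine (totalDegree_monomial_le _ _).trans ?_
  rw [Finsupp.sum_fintype _ _ (fun _ => rfl)]
  calc ∑ x, id (hf2_ex J u a x) ≤ ∑ x : Fin r, (if x ∈ J then u else 0) := by
        refine Finset.sum_le_sum fun x _ => ?_
        rw [id, hf2_ex_apply]
        by_cases h : x ∈ J
        · rw [dif_pos h, if_pos h]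
          have := (a ⟨x, h⟩).2
          omega
        · rw [dif_neg h, if_neg h]
    _ = J.card * u := by
        rw [Finset.sum_ite_mem, Finset.univ_inter, Finset.sum_const, smul_eq_mul]

private theorem hf2_ex_supp {r : ℕ} (J : Finset (Fin r)) (u : ℕ) (a : J → Fin (u + 1)) (c : ℚ) :
    (monomial (hf2_ex J u a) c : RR r) ∈ supported ℚ (J : Set (Fin r)) := by
  by_cases hc : c = 0
  · rw [hc, map_zero]
    exact zero_mem _
  · rw [mem_supported, vars_monomial hc]
    intro x hx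
    have hx' : hf2_ex J u a x ≠ 0 := Finsupp.mem_support_iff.1 hx
    rw [hf2_ex_apply] at hx'
    by_contra hxJ
    have hxJ' : x ∉ J := hxJ
    rw [dif_neg hxJ'] at hx'
    exact hx' rfl

theorem hf_lower {r : ℕ} {ι : Type*} [Fintype ι] {I : Ideal (RR r)} {q : ι → Ideal (RR r)}
    (hq : ∀ i, (q i).IsPrime) (hinc : ∀ i j, i ≠ j → ¬ q i ≤ q j) (hI : ∀ i, I ≤ q i) {δ : ℕ}
    {J : ι → Finset (Fin r)} (hJ : ∀ i, (J i).card = δ) (hind : ∀ i, Ind (q i) (J i)) :
    ∃ t₀ : ℕ, ∀ u : ℕ, Fintype.card ι * (u + 1) ^ δ ≤ hf I (δ * u + t₀) := by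
  classical
  have hex : ∀ i, ∃ e : RR r, (∀ j, j ≠ i → e ∈ q j) ∧ e ∉ q i := by
    intro i
    by_contra hcon
    push Not at hcon
    have hle : (Finset.univ.erase i).inf q ≤ q i := by
      intro e he
      refine hcon e fun j hj => ?_
      rw [Submodule.mem_finsetInf] at he
      exact he j (Finset.mem_erase.2 ⟨hj, Finset.mem_univ j⟩)
    obtain ⟨j, hj, hji⟩ := (Ideal.IsPrime.inf_le' (hq i)).1 hle
    exact hinc j i (Finset.ne_of_mem_erase hj) hji
  choose e he hei using hex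
  refine ⟨Finset.univ.sup (fun i => (e i).totalDegree), fun u => ?_⟩
  set t₀ := Finset.univ.sup (fun i => (e i).totalDegree) with ht0
  have hdeg : ∀ i, (e i).totalDegree ≤ t₀ := fun i =>
    Finset.le_sup (f := fun i => (e i).totalDegree) (Finset.mem_univ i)
  let φ := (Ideal.Quotient.mkₐ ℚ I).toLinearMap
  let b : (Σ i : ι, (J i → Fin (u + 1))) → RR r ⧸ I := fun x =>
    φ (e x.1 * monomial (hf2_ex (J x.1) u x.2) 1)
  have hb : LinearIndependent ℚ b := by
    rw [Fintype.linearIndependent_iff]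
    intro g hg
    let w : ι → RR r := fun i => ∑ a : J i → Fin (u + 1), monomial (hf2_ex (J i) u a) (g ⟨i, a⟩)
    have h1 : φ (∑ i, e i * w i) = 0 := by
      rw [← hg, Fintype.sum_sigma, map_sum]
      refine Finset.sum_congr rfl fun i _ => ?_
      have h2 : e i * w i = ∑ a : J i → Fin (u + 1),
          g ⟨i, a⟩ • (e i * monomial (hf2_ex (J i) u a) 1) := by
        rw [Finset.mul_sum]
        refine Finset.sum_congr rfl fun a _ => ?_
        rw [← mul_smul_comm, smul_monomial, smul_eq_mul, mul_one]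
      rw [h2, map_sum]
      refine Finset.sum_congr rfl fun a _ => ?_
      rw [map_smul]
    have h3 : ∑ i, e i * w i ∈ I := Ideal.Quotient.eq_zero_iff_mem.1 h1
    rintro ⟨j, a⟩
    have h4 : e j * w j ∈ q j := by
      have h5 : ∑ i, e i * w i ∈ q j := hI j h3
      rw [← Finset.add_sum_erase _ _ (Finset.mem_univ j)] at h5
      have h6 : ∑ i ∈ Finset.univ.erase j, e i * w i ∈ q j := by
        refine Ideal.sum_mem _ fun i hi => ?_
        exact Ideal.mul_mem_right _ _ (he i j (Finset.ne_of_mem_erase hi).symm)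
      exact (Ideal.add_mem_iff_left _ h6).1 h5
    have h7 : w j ∈ q j := ((hq j).mem_or_mem h4).resolve_left (hei j)
    have h8 : w j = 0 := by
      refine hind j (w j) ?_ h7
      exact Subalgebra.sum_mem _ fun a _ => hf2_ex_supp _ _ _ _
    have h9 : coeff (hf2_ex (J j) u a) (w j) = g ⟨j, a⟩ := by
      show coeff (hf2_ex (J j) u a)
        (∑ a : J j → Fin (u + 1), monomial (hf2_ex (J j) u a) (g ⟨j, a⟩)) = g ⟨j, a⟩
      rw [coeff_sum, Finset.sum_eq_single a]
      · rw [coeff_monomial, if_pos rfl]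
      · intro a' _ ha'
        rw [coeff_monomial, if_neg (fun h => ha' (hf2_ex_inj _ _ _ _ h))]
      · intro h
        exact absurd (Finset.mem_univ a) h
    rw [← h9, h8, coeff_zero]
  have hcard : Fintype.card (Σ i : ι, (J i → Fin (u + 1))) = Fintype.card ι * (u + 1) ^ δ := by
    rw [Fintype.card_sigma]
    have : ∀ i, Fintype.card (J i → Fin (u + 1)) = (u + 1) ^ δ := by
      intro i
      rw [Fintype.card_fun, Fintype.card_fin, Fintype.card_coe, hJ i]
    rw [Finset.sum_congr rfl (fun i _ => this i), Finset.sum_const, smul_eq_mul,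
      Finset.card_univ]
  rw [← hcard, ← finrank_span_eq_card hb]
  unfold hf
  haveI := hf2_finite r (δ * u + t₀)
  haveI : Module.Finite ℚ
      ((restrictTotalDegree (Fin r) ℚ (δ * u + t₀)).map (Ideal.Quotient.mkₐ ℚ I).toLinearMap) :=
    inferInstance
  refine Submodule.finrank_mono ?_
  rw [Submodule.span_le]
  rintro _ ⟨⟨i, a⟩, rfl⟩
  refine Submodule.mem_map_of_mem ?_
  rw [mem_restrictTotalDegree]
  refine (totalDegree_mul _ _).trans ?_
  have h10 := hf2_ex_deg (J i) u a 1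
  rw [hJ i] at h10
  have h11 := hdeg i
  show (e i).totalDegree + (monomial (hf2_ex (J i) u a) 1 : RR r).totalDegree ≤ δ * u + t₀
  omega

theorem prime_count {r : ℕ} {I : Ideal (RR r)} (D : Finset (Ideal (RR r)))
    (hq : ∀ 𝔮 ∈ D, 𝔮.IsPrime) (hinc : ∀ 𝔮 ∈ D, ∀ 𝔮' ∈ D, 𝔮 ≠ 𝔮' → ¬ 𝔮 ≤ 𝔮')
    (hI : ∀ 𝔮 ∈ D, I ≤ 𝔮) {δ : ℕ} (hJ : ∀ 𝔮 ∈ D, ∃ J : Finset (Fin r), J.card = δ ∧ Ind 𝔮 J)
    {K d : ℕ} (hK : ∀ t, hf I t ≤ K * (t + d) ^ δ) : D.card ≤ K * (δ + 1) ^ δ := by
  classical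
  choose J hJc hJi using hJ
  obtain ⟨t₀, ht⟩ := hf_lower (ι := D) (I := I) (q := fun i => i.1) (fun i => hq i.1 i.2)
    (fun i j hij => hinc i.1 i.2 j.1 j.2 (fun h => hij (Subtype.ext h)))
    (fun i => hI i.1 i.2) (δ := δ) (J := fun i => J i.1 i.2) (fun i => hJc i.1 i.2)
    (fun i => hJi i.1 i.2)
  have h1 := (ht (t₀ + d)).trans (hK _)
  rw [Fintype.card_coe] at h1
  have h2 : (δ * (t₀ + d) + t₀ + d) = (δ + 1) * (t₀ + d) := by ring
  rw [h2, mul_pow] at h1
  have h3 : (t₀ + d) ^ δ ≤ (t₀ + d + 1) ^ δ := Nat.pow_le_pow_left (Nat.le_succ _) δ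
  have h4 : D.card * (t₀ + d + 1) ^ δ ≤ K * (δ + 1) ^ δ * (t₀ + d + 1) ^ δ := by
    calc D.card * (t₀ + d + 1) ^ δ ≤ K * ((δ + 1) ^ δ * (t₀ + d) ^ δ) := h1
      _ = K * (δ + 1) ^ δ * (t₀ + d) ^ δ := by ring
      _ ≤ K * (δ + 1) ^ δ * (t₀ + d + 1) ^ δ := Nat.mul_le_mul_left _ h3
  exact Nat.le_of_mul_le_mul_right h4 (pow_pos (Nat.succ_pos _) _)

end GamE
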