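import Pool.Agent.GamE.ChainB
import Pool.Agent.GamE.HF2

/-!
# One step of the chain, second part

PROOF. Take `I`, `N` of `chain_step`. Let
`P' = {𝔫 ∈ N | ¬ JJ f ((k+1)*M) ≤ 𝔫}`, and
`W = {𝔫 ∈ N | JJ f ((k+1)*M) ≤ 𝔫, and there are no j, 1 ≤ j ≤ k, 𝔫' ∈ B j, γ with sh γ 𝔫' ≤ 𝔫}` (the new bad primes).
By `exists_reps` with the relation `∃ γ : Fin r → ℤ, sh γ 𝔞 = 𝔟` (equivalence: `sh_zero`, `sh_sh`) choose `T ⊆ W`, pairwise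
inequivalent, such that every `𝔫 ∈ W` is `sh γ 𝔫'` with `𝔫' ∈ T`. Let `B' = Function.update B (k+1) T`
(so `B' j = B j` for `j ≤ k`).
* `prime`, `notle`, `bprime`, `bineq`: clear. `hil`: `I ≤ P'.inf id`, `hf_anti`.
* KEY CLAIM: for `𝔫 ∈ W` and `γ ∈ [0,M]^r`: `I ≤ sh γ 𝔫`. By `JJ_sh`: `JJ f (k*M) ≤ sh γ 𝔫` (`(k+1)*M = k*M + M`), so also
  `JJ f ((k-1)*M) ≤ sh γ 𝔫` (`JJ_mono`); `h.cov` for the prime `sh γ 𝔫` (`sh_prime`): either `P.inf id ≤ sh γ 𝔫`, then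
  `I ≤ sh γ 𝔫` by the last claim of `chain_step`; or `sh γ' 𝔫' ≤ sh γ 𝔫` with `𝔫' ∈ B j`, `1 ≤ j ≤ k`, so
  `sh (γ' - γ) 𝔫' ≤ 𝔫` (apply `sh (-γ)`: `sh_le_sh`, `sh_sh`), contradiction with `𝔫 ∈ W`.
* `bfew` for `j = k+1`: all the elements of `D` are primes of dimension `r - (k+1)` (`dj_sh`) which contain `I`; distinct ones
  are incomparable (`dj_lt`); `prime_count` with `δ = r - (k+1)`, `K = 3^(r (k+1)) d^(k+1)` (`exists_ind` gives `J`, a prime is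
  not `⊤`); `(δ+1)^δ ≤ r^r` since `δ + 1 ≤ r`, `3^(r(k+1)) ≤ 3^(r r)`. For `j ≤ k`: `h.bfew`.
* `cov`: let `𝔮` be a prime with `JJ f (((k+1)-1)*M) = JJ f (k*M) ≤ 𝔮`. `h.cov` (`JJ_mono`): if the second alternative holds,
  done. If `P.inf id ≤ 𝔮`: there is `𝔫 ∈ N`, `𝔫 ≤ 𝔮`. If `𝔫 ∈ P'` then `P'.inf id ≤ 𝔫 ≤ 𝔮`. Otherwise `JJ f ((k+1)*M) ≤ 𝔫`: if `𝔫` is
  not in `W` we have `sh γ 𝔫' ≤ 𝔫 ≤ 𝔮` with `𝔫' ∈ B j`, `j ≤ k`; if `𝔫 ∈ W` then `𝔫 = sh γ 𝔫'` with `𝔫' ∈ T = B' (k+1)`.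
-/

namespace GamE

open MvPolynomial Finset

theorem stage_succ {r : ℕ} {f : RR r} {d M k : ℕ} (hd : 1 ≤ d) (hfd : f.totalDegree ≤ d)
    (hk : k < r) {P : Finset (Ideal (RR r))} {B : ℕ → Finset (Ideal (RR r))}
    (h : Stage f d M k P B) :
    ∃ (P' : Finset (Ideal (RR r))) (B' : ℕ → Finset (Ideal (RR r))), Stage f d M (k + 1) P' B' := by
  classical
  obtain ⟨I, N, hN, hhf, hcov⟩ := chain_step hd hfd hk h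
  set W : Finset (Ideal (RR r)) := N.filter (fun 𝔫 => JJ f ((k + 1) * M) ≤ 𝔫 ∧
    ¬ ∃ j, 1 ≤ j ∧ j ≤ k ∧ ∃ 𝔫' ∈ B j, ∃ γ : Fin r → ℤ, sh γ 𝔫' ≤ 𝔫) with hWdef
  set P' : Finset (Ideal (RR r)) := N.filter (fun 𝔫 => ¬ JJ f ((k + 1) * M) ≤ 𝔫) with hP'def
  have hequiv : Equivalence (fun 𝔞 𝔟 : Ideal (RR r) => ∃ γ : Fin r → ℤ, sh γ 𝔞 = 𝔟) := by
    refine ⟨fun 𝔞 => ⟨0, sh_zero 𝔞⟩, ?_, ?_⟩
    · rintro 𝔞 𝔟 ⟨γ, rfl⟩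
      refine ⟨-γ, ?_⟩
      rw [sh_sh, neg_add_cancel, sh_zero]
    · rintro 𝔞 𝔟 𝔠 ⟨γ, rfl⟩ ⟨γ', rfl⟩
      exact ⟨γ' + γ, (sh_sh γ' γ 𝔞).symm⟩
  obtain ⟨T, hTW, hTineq, hTrep⟩ := exists_reps W _ hequiv
  have hkM : (k + 1) * M = k * M + M := by ring
  have hWmem : ∀ 𝔫 ∈ W, 𝔫 ∈ N ∧ JJ f ((k + 1) * M) ≤ 𝔫 ∧
      ¬ ∃ j, 1 ≤ j ∧ j ≤ k ∧ ∃ 𝔫' ∈ B j, ∃ γ : Fin r → ℤ, sh γ 𝔫' ≤ 𝔫 := by
    intro 𝔫 h𝔫
    exact Finset.mem_filter.1 h𝔫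
  -- the key claim
  have key : ∀ 𝔫 ∈ W, ∀ γ : Fin r → ℤ, (∀ i, 0 ≤ γ i ∧ γ i ≤ M) → I ≤ sh γ 𝔫 := by
    intro 𝔫 h𝔫 γ hγ
    obtain ⟨hnN, hJ, hno⟩ := hWmem 𝔫 h𝔫
    have hprime : (sh γ 𝔫).IsPrime := sh_prime γ (hN 𝔫 hnN).1
    have h1 : JJ f (k * M) ≤ sh γ 𝔫 := JJ_sh (by rw [← hkM]; exact hJ) hγ
    have h2 : JJ f ((k - 1) * M) ≤ sh γ 𝔫 :=
      le_trans (JJ_mono (Nat.mul_le_mul_right M (Nat.sub_le k 1))) h1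
    rcases h.cov (sh γ 𝔫) hprime h2 with h3 | ⟨j, hj1, hjk, 𝔫', hn', γ', h4⟩
    · exact (hcov (sh γ 𝔫) hprime h3 h1).1
    · exfalso
      apply hno
      refine ⟨j, hj1, hjk, 𝔫', hn', -γ + γ', ?_⟩
      have h5 := (sh_le_sh (-γ)).2 h4
      rw [sh_sh, sh_sh, neg_add_cancel, sh_zero] at h5
      exact h5
  refine ⟨P', Function.update B (k + 1) T, ?_⟩
  refine ⟨?_, ?_, ?_, ?_, ?_, ?_, ?_⟩
  · -- prime
    intro 𝔭 h𝔭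
    have h1 := hN 𝔭 (Finset.mem_filter.1 h𝔭).1
    exact ⟨h1.1, h1.2.1⟩
  · -- notle
    intro 𝔭 h𝔭
    exact (Finset.mem_filter.1 h𝔭).2
  · -- hil
    intro t
    refine le_trans (hf_anti ?_ t) (hhf t)
    apply Finset.le_inf
    intro 𝔭 h𝔭
    exact (hN 𝔭 (Finset.mem_filter.1 h𝔭).1).2.2
  · -- bprime
    intro j hj1 hjk 𝔫 h𝔫
    by_cases hjk' : j = k + 1
    · subst hjk'
      rw [Function.update_self] at h𝔫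
      have h1 := hN 𝔫 (hWmem 𝔫 (hTW h𝔫)).1
      exact ⟨h1.1, h1.2.1⟩
    · rw [Function.update_of_ne hjk'] at h𝔫
      exact h.bprime j hj1 (by omega) 𝔫 h𝔫
  · -- bineq
    intro j hj1 hjk 𝔫 h𝔫 𝔫' h𝔫' γ hγ
    by_cases hjk' : j = k + 1
    · subst hjk'
      rw [Function.update_self] at h𝔫 h𝔫'
      exact hTineq 𝔫 h𝔫 𝔫' h𝔫' ⟨γ, hγ⟩
    · rw [Function.update_of_ne hjk'] at h𝔫 h𝔫'
      exact h.bineq j hj1 (by omega) 𝔫 h𝔫 𝔫' h𝔫' γ hγ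
  · -- bfew
    intro j hj1 hjk D hD
    by_cases hjk' : j = k + 1
    · subst hjk'
      rw [Function.update_self] at hD
      have hDp : ∀ 𝔮 ∈ D, 𝔮.IsPrime ∧ dj 𝔮 + (k + 1) = r ∧ I ≤ 𝔮 := by
        intro 𝔮 h𝔮
        obtain ⟨𝔫, h𝔫, γ, hγ, rfl⟩ := hD 𝔮 h𝔮
        have hW : 𝔫 ∈ W := hTW h𝔫
        have h1 := hN 𝔫 (hWmem 𝔫 hW).1
        refine ⟨sh_prime γ h1.1, ?_, key 𝔫 hW γ hγ⟩
        rw [dj_sh]
        exact h1.2.1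
      have hcount := prime_count (I := I) D (fun 𝔮 h𝔮 => (hDp 𝔮 h𝔮).1)
        (fun 𝔮 h𝔮 𝔮' h𝔮' hne hle => by
          have hlt : 𝔮 < 𝔮' := lt_of_le_of_ne hle hne
          have h1 := dj_lt (hDp 𝔮 h𝔮).1 (hDp 𝔮' h𝔮').1 hlt
          have h2 := (hDp 𝔮 h𝔮).2.1
          have h3 := (hDp 𝔮' h𝔮').2.1
          omega)
        (fun 𝔮 h𝔮 => (hDp 𝔮 h𝔮).2.2) (δ := r - (k + 1))
        (fun 𝔮 h𝔮 => by
          obtain ⟨J, hJ1, hJ2⟩ := exists_ind (hDp 𝔮 h𝔮).1.ne_top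
          refine ⟨J, ?_, hJ2⟩
          have h2 := (hDp 𝔮 h𝔮).2.1
          omega)
        (K := 3 ^ (r * (k + 1)) * d ^ (k + 1)) (d := d) hhf
      have hr : 1 ≤ r := by omega
      have e1 : (r - (k + 1) + 1) ^ (r - (k + 1)) ≤ r ^ r := by
        calc (r - (k + 1) + 1) ^ (r - (k + 1)) ≤ r ^ (r - (k + 1)) :=
              Nat.pow_le_pow_left (by omega) _
          _ ≤ r ^ r := Nat.pow_le_pow_right hr (Nat.sub_le _ _)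
      have e2 : 3 ^ (r * (k + 1)) ≤ 3 ^ (r * r) :=
        Nat.pow_le_pow_right (by norm_num) (Nat.mul_le_mul_left r hk)
      calc D.card ≤ 3 ^ (r * (k + 1)) * d ^ (k + 1) * (r - (k + 1) + 1) ^ (r - (k + 1)) := hcount
        _ ≤ 3 ^ (r * r) * d ^ (k + 1) * r ^ r :=
            Nat.mul_le_mul (Nat.mul_le_mul_right _ e2) e1
        _ = 3 ^ (r * r) * r ^ r * d ^ (k + 1) := by ring
    · rw [Function.update_of_ne hjk'] at hD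
      exact h.bfew j hj1 (by omega) D hD
  · -- cov
    intro 𝔮 hq hJ
    have hJ' : JJ f (k * M) ≤ 𝔮 := by
      have : (k + 1 - 1) * M = k * M := by simp
      rw [this] at hJ
      exact hJ
    have h2 : JJ f ((k - 1) * M) ≤ 𝔮 :=
      le_trans (JJ_mono (Nat.mul_le_mul_right M (Nat.sub_le k 1))) hJ'
    rcases h.cov 𝔮 hq h2 with h3 | ⟨j, hj1, hjk, 𝔫', hn', γ', h4⟩
    · obtain ⟨hI, 𝔫, hnN, hnq⟩ := hcov 𝔮 hq h3 hJ'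
      by_cases hb : JJ f ((k + 1) * M) ≤ 𝔫
      · right
        by_cases hex : ∃ j, 1 ≤ j ∧ j ≤ k ∧ ∃ 𝔫' ∈ B j, ∃ γ : Fin r → ℤ, sh γ 𝔫' ≤ 𝔫
        · obtain ⟨j, hj1, hjk, 𝔫', hn', γ', h4⟩ := hex
          refine ⟨j, hj1, by omega, 𝔫', ?_, γ', le_trans h4 hnq⟩
          rw [Function.update_of_ne (by omega)]
          exact hn'
        · have hW : 𝔫 ∈ W := Finset.mem_filter.2 ⟨hnN, hb, hex⟩
          obtain ⟨𝔟, h𝔟, γ, hγ⟩ := hTrep 𝔫 hW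
          refine ⟨k + 1, by omega, le_refl _, 𝔟, ?_, γ, ?_⟩
          · rw [Function.update_self]
            exact h𝔟
          · rw [hγ]
            exact hnq
      · left
        have hP : 𝔫 ∈ P' := Finset.mem_filter.2 ⟨hnN, hb⟩
        exact le_trans (Finset.inf_le (f := id) hP) hnq
    · right
      refine ⟨j, hj1, by omega, 𝔫', ?_, γ', h4⟩
      rw [Function.update_of_ne (by omega)]
      exact hn'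

end GamE
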