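import Mathlib

/-!
# Counting degenerate tuples (owner: helper7)
-/

namespace GamE

open Finset

theorem cong_count {b m n : ℕ} (hb : 1 ≤ b) (hm : 1 ≤ m) (A : Finset ℕ)
    (hA : ∀ a ∈ A, a < b ∧ b ∣ m * a + n) : A.card ≤ m := by
  have h1 : ∀ a ∈ A, (m * a + n) / b ∈ Finset.Ico ((n + (b - 1)) / b) ((n + (b - 1)) / b + m) := by
    intro a ha
    obtain ⟨h1, q, hq⟩ := hA a ha
    rw [hq, Nat.mul_div_cancel_left _ (by omega), Finset.mem_Ico]
    have h2 := Nat.div_add_mod (n + (b - 1)) b
    have h3 := Nat.mod_lt (n + (b - 1)) (by omega : 0 < b)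
    have h4 : m * a + m ≤ m * b := by nlinarith
    constructor
    · by_contra hlt
      push Not at hlt
      have h5 : b * (q + 1) ≤ b * ((n + (b - 1)) / b) := Nat.mul_le_mul_left _ hlt
      rw [mul_add, mul_one] at h5
      have h6 : n ≤ m * a + n := by omega
      omega
    · by_contra hge
      push Not at hge
      have h5 : b * ((n + (b - 1)) / b + m) ≤ b * q := Nat.mul_le_mul_left _ hge
      rw [mul_add] at h5
      have h6 : b * m = m * b := mul_comm _ _
      omega
  have h2 : Set.InjOn (fun a => (m * a + n) / b) (A : Set ℕ) := by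
    intro a ha a' ha' he
    obtain ⟨_, q, hq⟩ := hA a ha
    obtain ⟨_, q', hq'⟩ := hA a' ha'
    simp only at he
    rw [hq, hq', Nat.mul_div_cancel_left _ (by omega), Nat.mul_div_cancel_left _ (by omega)] at he
    subst he
    have : m * a = m * a' := by omega
    exact Nat.eq_of_mul_eq_mul_left (by omega) this
  calc A.card ≤ _ := Finset.card_le_card_of_injOn _ h1 h2
    _ = m := by rw [Nat.card_Ico]; omega

open Classical in
theorem deg_count {s b m m' : ℕ} (hb : 1 ≤ b) (hm : 1 ≤ m) (S : Finset ℕ) (hS : ∀ a ∈ S, a < b)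
    {i j : Fin (s + 1)} (hij : i ≠ j) :
    ((Fintype.piFinset fun _ : Fin (s + 1) => S).filter
      (fun x => b ∣ m * x i + m' * x j)).card ≤ m * S.card ^ s := by
  obtain ⟨j', hj'⟩ := Fin.exists_succAbove_eq hij.symm
  have h0 : (Fintype.piFinset fun _ : Fin s => S).card = S.card ^ s := by
    rw [Fintype.card_piFinset]
    simp
  rw [← h0]
  refine Finset.card_le_mul_card_image_of_maps_to (f := fun x : Fin (s + 1) → ℕ => i.removeNth x) ?_ m ?_
  · intro x hx
    rw [Finset.mem_filter, Fintype.mem_piFinset] at hx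
    rw [Fintype.mem_piFinset]
    intro k
    exact hx.1 _
  · intro y hy
    have h1 : (((Fintype.piFinset fun _ : Fin (s + 1) => S).filter
      (fun x => b ∣ m * x i + m' * x j)).filter (fun x => i.removeNth x = y)).card =
      ((((Fintype.piFinset fun _ : Fin (s + 1) => S).filter
      (fun x => b ∣ m * x i + m' * x j)).filter (fun x => i.removeNth x = y)).image
        (fun x => x i)).card := by
      rw [Finset.card_image_of_injOn]
      intro x hx x' hx' he
      rw [Finset.mem_coe, Finset.mem_filter] at hx hx'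
      rw [← Fin.insertNth_self_removeNth i x, ← Fin.insertNth_self_removeNth i x', hx.2, hx'.2]
      simp only at he
      rw [he]
    rw [h1]
    refine cong_count (n := m' * y j') hb hm _ ?_
    intro a ha
    rw [Finset.mem_image] at ha
    obtain ⟨x, hx, rfl⟩ := ha
    rw [Finset.mem_filter, Finset.mem_filter, Fintype.mem_piFinset] at hx
    obtain ⟨⟨h2, h3⟩, h4⟩ := hx
    refine ⟨hS _ (h2 i), ?_⟩
    rw [← h4]
    simp only [Fin.removeNth, hj']
    exact h3

end GamE
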