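import Pool.Agent.GamP.Irr

/-!
# Degrees of products (owner: helper7)
-/

namespace GamE

open Finset Polynomial GamP

variable {p : ℕ} [Fact p.Prime]

open IntermediateField Module

private theorem aeval_coe (y : ℤ_[p]) (F : ℤ[X]) :
    aeval (y : ℚ_[p]) F = ((aeval y F : ℤ_[p]) : ℚ_[p]) := by
  have h := Polynomial.map_aeval_eq_aeval_map (R := ℤ) (S := ℤ_[p]) (T := ℤ) (U := ℚ_[p])
    (φ := RingHom.id ℤ) (ψ := PadicInt.Coe.ringHom) (Subsingleton.elim _ _) F y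
  rw [Polynomial.map_id] at h
  exact h.symm

private theorem aeval_eq_zero_iff (y : ℤ_[p]) (F : ℤ[X]) :
    aeval (y : ℚ_[p]) F = 0 ↔ aeval y F = 0 := by
  rw [aeval_coe]
  constructor
  · intro h
    exact PadicInt.ext h
  · intro h
    rw [h]
    rfl

private theorem natDegree_mapQ (F : ℤ[X]) :
    (F.map (Int.castRingHom ℚ)).natDegree = F.natDegree :=
  Polynomial.natDegree_map_eq_of_injective (RingHom.injective_int _) F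

private theorem aeval_mapQ (F : ℤ[X]) (x : ℚ_[p]) :
    aeval x (F.map (Int.castRingHom ℚ)) = aeval x F := by
  rw [show Int.castRingHom ℚ = algebraMap ℤ ℚ from rfl, Polynomial.aeval_map_algebraMap]

private theorem toMin {d : ℕ} {y : ℤ_[p]} (h : DegLE d y) :
    IsIntegral ℚ (y : ℚ_[p]) ∧ (minpoly ℚ (y : ℚ_[p])).natDegree ≤ d := by
  obtain ⟨F, hF, hd, h0⟩ := h
  have hF' : F.map (Int.castRingHom ℚ) ≠ 0 := by
    rw [Ne, Polynomial.map_eq_zero_iff (RingHom.injective_int _)]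
    exact hF
  have h1 : aeval (y : ℚ_[p]) (F.map (Int.castRingHom ℚ)) = 0 := by
    rw [aeval_mapQ, aeval_eq_zero_iff]
    exact h0
  have halg : IsAlgebraic ℚ (y : ℚ_[p]) := ⟨_, hF', h1⟩
  refine ⟨halg.isIntegral, ?_⟩
  have h2 := Polynomial.natDegree_le_of_dvd (minpoly.dvd ℚ (y : ℚ_[p]) h1) hF'
  rw [natDegree_mapQ] at h2
  exact h2.trans hd

private theorem ofMin {d : ℕ} {y : ℤ_[p]} (hi : IsIntegral ℚ (y : ℚ_[p]))
    (hd : (minpoly ℚ (y : ℚ_[p])).natDegree ≤ d) :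
    ∃ F : ℤ[X], Irreducible (F.map (Int.castRingHom ℚ)) ∧ F.natDegree ≤ d ∧ aeval y F = 0 := by
  obtain ⟨b, hbM, hb⟩ := IsLocalization.integerNormalization_spec (nonZeroDivisors ℤ)
    (minpoly ℚ (y : ℚ_[p]))
  set F := IsLocalization.integerNormalization (nonZeroDivisors ℤ) (minpoly ℚ (y : ℚ_[p])) with hF
  have hb0 : ((b : ℤ) : ℚ) ≠ 0 := by
    have := nonZeroDivisors.ne_zero hbM
    exact_mod_cast this
  have hmap : F.map (Int.castRingHom ℚ) = C ((b : ℤ) : ℚ) * minpoly ℚ (y : ℚ_[p]) := by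
    have e : F.map (Int.castRingHom ℚ) = (b : ℤ) • minpoly ℚ (y : ℚ_[p]) := hb
    rw [e, ← Int.cast_smul_eq_zsmul ℚ, Polynomial.smul_eq_C_mul]
  have hunit : IsUnit (C ((b : ℤ) : ℚ) : ℚ[X]) := Polynomial.isUnit_C.2 (isUnit_iff_ne_zero.2 hb0)
  refine ⟨F, ?_, ?_, ?_⟩
  · rw [hmap, irreducible_isUnit_mul hunit]
    exact minpoly.irreducible hi
  · rw [← natDegree_mapQ, hmap, Polynomial.natDegree_C_mul hb0]
    exact hd
  · rw [← aeval_eq_zero_iff, ← aeval_mapQ, hmap, map_mul, minpoly.aeval, mul_zero]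

private theorem ofMem {d : ℕ} {y : ℤ_[p]} (E : IntermediateField ℚ ℚ_[p]) [FiniteDimensional ℚ E]
    (hd : finrank ℚ E ≤ d) (hy : (y : ℚ_[p]) ∈ E) : DegLE d y := by
  have h1 : IsIntegral ℚ (⟨(y : ℚ_[p]), hy⟩ : E) := IsIntegral.of_finite ℚ _
  have h2 : IsIntegral ℚ (y : ℚ_[p]) := h1.map E.val
  have h3 : (minpoly ℚ (y : ℚ_[p])).natDegree ≤ d := by
    have h4 := minpoly.natDegree_le (A := ℚ) (⟨(y : ℚ_[p]), hy⟩ : E)
    have h5 : minpoly ℚ (⟨(y : ℚ_[p]), hy⟩ : E) = minpoly ℚ (y : ℚ_[p]) :=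
      IntermediateField.minpoly_eq (⟨(y : ℚ_[p]), hy⟩ : E)
    rw [h5] at h4
    exact h4.trans hd
  obtain ⟨F, hF, hd, h0⟩ := ofMin h2 h3
  refine ⟨F, ?_, hd, h0⟩
  rintro rfl
  rw [Polynomial.map_zero] at hF
  exact not_irreducible_zero hF

theorem DegLE.mul {d₁ d₂ : ℕ} {y₁ y₂ : ℤ_[p]} (h₁ : DegLE d₁ y₁) (h₂ : DegLE d₂ y₂) :
    DegLE (d₁ * d₂) (y₁ * y₂) := by
  obtain ⟨hi₁, hd₁⟩ := toMin h₁
  obtain ⟨hi₂, hd₂⟩ := toMin h₂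
  have hf₁ : FiniteDimensional ℚ ℚ⟮(y₁ : ℚ_[p])⟯ := adjoin.finiteDimensional hi₁
  have hf₂ : FiniteDimensional ℚ ℚ⟮(y₂ : ℚ_[p])⟯ := adjoin.finiteDimensional hi₂
  have hdeg : finrank ℚ ↥(ℚ⟮(y₁ : ℚ_[p])⟯ ⊔ ℚ⟮(y₂ : ℚ_[p])⟯) ≤ d₁ * d₂ := by
    refine (finrank_sup_le _ _).trans ?_
    rw [adjoin.finrank hi₁, adjoin.finrank hi₂]
    exact Nat.mul_le_mul hd₁ hd₂
  refine ofMem (ℚ⟮(y₁ : ℚ_[p])⟯ ⊔ ℚ⟮(y₂ : ℚ_[p])⟯) hdeg ?_
  have h1 : (y₁ : ℚ_[p]) ∈ ℚ⟮(y₁ : ℚ_[p])⟯ ⊔ ℚ⟮(y₂ : ℚ_[p])⟯ :=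
    (le_sup_left : ℚ⟮(y₁ : ℚ_[p])⟯ ≤ _) (mem_adjoin_simple_self ℚ _)
  have h2 : (y₂ : ℚ_[p]) ∈ ℚ⟮(y₁ : ℚ_[p])⟯ ⊔ ℚ⟮(y₂ : ℚ_[p])⟯ :=
    (le_sup_right : ℚ⟮(y₂ : ℚ_[p])⟯ ≤ _) (mem_adjoin_simple_self ℚ _)
  have e : ((y₁ * y₂ : ℤ_[p]) : ℚ_[p]) = (y₁ : ℚ_[p]) * (y₂ : ℚ_[p]) := by push_cast; rfl
  rw [e]
  exact mul_mem h1 h2

theorem DegLE.one : DegLE 1 (1 : ℤ_[p]) := by
  refine ⟨X - 1, ?_, ?_, by simp⟩
  · intro h
    have := congrArg (Polynomial.eval 0) h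
    simp at this
  · have : (X - 1 : ℤ[X]) = X - C 1 := by simp
    rw [this, natDegree_X_sub_C]

theorem DegLE.prod {d n : ℕ} {y : Fin n → ℤ_[p]} (h : ∀ i, DegLE d (y i)) :
    DegLE (d ^ n) (∏ i, y i) := by
  induction n with
  | zero => simpa using DegLE.one
  | succ n ih =>
    rw [Fin.prod_univ_castSucc, pow_succ]
    exact DegLE.mul (ih fun i => h _) (h _)

end GamE
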