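import Pool.Agent.GamE.Rec
import Pool.Agent.GamE.DegMul
import Pool.Agent.GamE.Cong

/-!
# The counting argument (owner: helper7)
-/

namespace GamE

open Finset GamP

/-- the basis of the hyperplane of the vectors with sum zero -/
def eh (s : ℕ) (j : Fin s) (i : Fin (s + 1)) : ℤ :=
  if i = j.castSucc then 1 else if i = Fin.last s then -1 else 0

theorem eh_cast (s : ℕ) (j k : Fin s) : eh s j k.castSucc = if j = k then 1 else 0 := by
  unfold eh
  by_cases h : j = k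
  · simp [h]
  · have h1 : ¬ k.castSucc = j.castSucc := fun h2 => h (Fin.castSucc_injective _ h2).symm
    have h2 : ¬ k.castSucc = Fin.last s := Fin.castSucc_ne_last k
    simp [h, h1, h2]

theorem eh_last (s : ℕ) (j : Fin s) : eh s j (Fin.last s) = -1 := by
  unfold eh
  have h1 : ¬ Fin.last s = j.castSucc := fun h => Fin.castSucc_ne_last j h.symm
  simp [h1]

theorem eh_ind (s : ℕ) :
    LinearIndependent ℚ (fun (j : Fin s) (i : Fin (s + 1)) => (eh s j i : ℚ)) := by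
  rw [Fintype.linearIndependent_iff]
  intro c hc k
  have h1 := congrFun hc k.castSucc
  simp only [Finset.sum_apply, Pi.smul_apply, smul_eq_mul, Pi.zero_apply, eh_cast] at h1
  simpa using h1

theorem eh_sum (s : ℕ) (j : Fin s) : ∑ i, eh s j i = 0 := by
  rw [Fin.sum_univ_castSucc, eh_last]
  simp [eh_cast]

theorem eh_abs (s : ℕ) (j : Fin s) (i : Fin (s + 1)) : |eh s j i| ≤ 1 := by
  unfold eh
  split_ifs <;> simp

theorem eh_span (s : ℕ) {y : Fin (s + 1) → ℚ} (hy : ∑ i, y i = 0) :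
    y ∈ Submodule.span ℚ (Set.range fun (j : Fin s) (i : Fin (s + 1)) => (eh s j i : ℚ)) := by
  rw [Submodule.mem_span_range_iff_exists_fun]
  refine ⟨fun j => y j.castSucc, ?_⟩
  funext i
  simp only [Finset.sum_apply, Pi.smul_apply, smul_eq_mul]
  refine Fin.lastCases ?_ (fun k => ?_) i
  · rw [Fin.sum_univ_castSucc] at hy
    simp only [eh_last, Int.cast_neg, Int.cast_one, mul_neg, mul_one, Finset.sum_neg_distrib]
    linarith
  · simp [eh_cast]

open Classical in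
theorem count_pow (s : ℕ) : ∃ u : ℕ, ∀ {p : ℕ} [Fact p.Prime] {Γ : ℤ_[p] → ℤ_[p]},
    IsMorita p Γ → ∀ {b d Z : ℕ}, ¬ p ∣ b → 2 * p * b * (s + 1) ≤ 2 ^ Z → 2 * p ≤ Z →
    s + 1 ≤ Z → d ^ (s + 1) ≤ Z → ∀ {S : Finset ℕ},
    (∀ α ∈ S, α < b ∧ ∃ x : ℤ_[p], (b : ℤ_[p]) * x = α ∧ DegLE d (Γ (p * x))) →
    ∀ V : Finset ℕ, (∀ x : Fin (s + 1) → ℕ, (∀ i, x i ∈ S) → ∑ i, x i ∈ V) →
    S.card ^ (s + 1) ≤ V.card * Z ^ u + (s + 1) ^ 2 * Z ^ (3 * u) * S.card ^ s := by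
  obtain ⟨u, hu⟩ := rec_bound (s + 1) (by omega) s 0
  refine ⟨u, ?_⟩
  intro p _ Γ h b d Z hpb hZ hpZ hsZ hdZ S hS V hV
  have hb : 1 ≤ b := by
    rcases Nat.eq_zero_or_pos b with rfl | h1
    · simp at hpb
    · exact h1
  have hZ1 : 1 ≤ Z := by omega
  obtain ⟨Q, hQ⟩ : ∃ Q, Q = Fintype.piFinset fun _ : Fin (s + 1) => S := ⟨_, rfl⟩
  have hQc : Q.card = S.card ^ (s + 1) := by
    rw [hQ, Fintype.card_piFinset]
    simp
  have hQS : ∀ x ∈ Q, ∀ i, x i ∈ S := by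
    intro x hx
    rw [hQ, Fintype.mem_piFinset] at hx
    exact hx
  obtain ⟨H, hH⟩ : ∃ H, H = Z ^ u := ⟨_, rfl⟩
  -- the index set of the small relations
  obtain ⟨R, hR⟩ : ∃ R : Finset ((Fin (s + 1) × Fin (s + 1)) × ℕ × ℕ),
    R = (Finset.univ ×ˢ (Finset.Icc 1 H ×ˢ Finset.Icc 1 H)).filter (fun q => q.1.1 ≠ q.1.2) :=
    ⟨_, rfl⟩
  have hRc : R.card ≤ (s + 1) ^ 2 * (H * H) := by
    rw [hR]
    refine (Finset.card_filter_le _ _).trans ?_
    rw [Finset.card_product, Finset.card_product, Nat.card_Icc, Finset.card_univ,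
      Fintype.card_prod, Fintype.card_fin]
    simp only [Nat.add_sub_cancel]
    rw [sq]
  -- the tuples without small relations
  have hnd : ∀ c, ((Q.filter fun x => ∀ q ∈ R, ¬ b ∣ q.2.1 * x q.1.1 + q.2.2 * x q.1.2).filter
      (fun x => ∑ i, x i = c)).card ≤ Z ^ u := by
    intro c
    obtain ⟨𝒜, h𝒜⟩ : ∃ 𝒜, 𝒜 = (Q.filter fun x => ∀ q ∈ R,
      ¬ b ∣ q.2.1 * x q.1.1 + q.2.2 * x q.1.2).filter (fun x => ∑ i, x i = c) := ⟨_, rfl⟩
    rw [← h𝒜]
    have hmem : ∀ x ∈ 𝒜, x ∈ Q ∧ (∀ q ∈ R, ¬ b ∣ q.2.1 * x q.1.1 + q.2.2 * x q.1.2) ∧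
        ∑ i, x i = c := by
      intro x hx
      rw [h𝒜, Finset.mem_filter, Finset.mem_filter] at hx
      exact ⟨hx.1.1, hx.1.2, hx.2⟩
    have hT : Tup p Γ (s + 1) b (d ^ (s + 1)) (Z ^ u) c 𝒜 := by
      refine ⟨fun x hx i => (hS _ (hQS x (hmem x hx).1 i)).1, fun x hx => (hmem x hx).2.2, ?_, ?_⟩
      · intro x hx
        have h1 := fun i => (hS _ (hQS x (hmem x hx).1 i)).2
        choose y hy using h1
        exact ⟨y, fun i => (hy i).1, DegLE.prod fun i => (hy i).2⟩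
      · intro x hx i j hij m m' h1 h2 h3 h4
        refine (hmem x hx).2.1 ((i, j), (m, m')) ?_
        rw [hR, Finset.mem_filter, Finset.mem_product, Finset.mem_product, Finset.mem_Icc,
          Finset.mem_Icc, hH]
        exact ⟨⟨Finset.mem_univ _, ⟨h1, h2⟩, ⟨h3, h4⟩⟩, hij⟩
    refine hu h hpb hZ hpZ hsZ (by omega) hdZ hT (e := eh s) (eh_ind s) (eh_sum s) ?_
      (fun i => if i = Fin.last s then (c : ℚ) / b else 0) ?_
    · intro j i
      rw [pow_zero]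
      exact eh_abs s j i
    · intro x hx
      refine ⟨0, eh_span s ?_⟩
      simp only [Pi.zero_apply, Int.cast_zero, add_zero]
      rw [Finset.sum_sub_distrib, ← Finset.sum_div]
      have h1 := (hmem x hx).2.2
      have h2 : ∑ i, (x i : ℚ) = c := by exact_mod_cast h1
      rw [h2, Finset.sum_ite_eq' Finset.univ (Fin.last s)]
      simp
  have hnd' : (Q.filter fun x => ∀ q ∈ R, ¬ b ∣ q.2.1 * x q.1.1 + q.2.2 * x q.1.2).card ≤
      V.card * Z ^ u := by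
    have h1 := Finset.card_le_mul_card_image_of_maps_to
      (s := Q.filter fun x => ∀ q ∈ R, ¬ b ∣ q.2.1 * x q.1.1 + q.2.2 * x q.1.2)
      (t := V) (f := fun x => ∑ i, x i) ?_ (Z ^ u) (fun c _ => hnd c)
    · rw [mul_comm]
      exact h1
    · intro x hx
      rw [Finset.mem_filter] at hx
      exact hV x (hQS x hx.1)
  -- the tuples with a small relation
  have hd' : (Q.filter fun x => ¬ ∀ q ∈ R, ¬ b ∣ q.2.1 * x q.1.1 + q.2.2 * x q.1.2).card ≤
      (s + 1) ^ 2 * Z ^ (3 * u) * S.card ^ s := by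
    have h1 : (Q.filter fun x => ¬ ∀ q ∈ R, ¬ b ∣ q.2.1 * x q.1.1 + q.2.2 * x q.1.2) ⊆
        R.biUnion (fun q => Q.filter fun x => b ∣ q.2.1 * x q.1.1 + q.2.2 * x q.1.2) := by
      intro x hx
      rw [Finset.mem_filter] at hx
      obtain ⟨h1, h2⟩ := hx
      push Not at h2
      obtain ⟨q, hq, hq'⟩ := h2
      rw [Finset.mem_biUnion]
      exact ⟨q, hq, Finset.mem_filter.mpr ⟨h1, hq'⟩⟩
    calc _ ≤ _ := Finset.card_le_card h1
      _ ≤ ∑ q ∈ R, _ := Finset.card_biUnion_le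
      _ ≤ ∑ q ∈ R, H * S.card ^ s := by
        refine Finset.sum_le_sum fun q hq => ?_
        rw [hR, Finset.mem_filter, Finset.mem_product, Finset.mem_product, Finset.mem_Icc] at hq
        obtain ⟨⟨_, ⟨h2, h3⟩, _⟩, h4⟩ := hq
        rw [hQ]
        refine (deg_count hb h2 S (fun a ha => (hS a ha).1) h4).trans ?_
        exact Nat.mul_le_mul_right _ h3
      _ = R.card * (H * S.card ^ s) := by rw [Finset.sum_const, smul_eq_mul]
      _ ≤ (s + 1) ^ 2 * (H * H) * (H * S.card ^ s) := Nat.mul_le_mul_right _ hRc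
      _ = (s + 1) ^ 2 * Z ^ (3 * u) * S.card ^ s := by
        rw [hH, show 3 * u = u + u + u by ring, pow_add, pow_add]
        ring
  have h1 := Finset.card_filter_add_card_filter_not (s := Q)
    (fun x => ∀ q ∈ R, ¬ b ∣ q.2.1 * x q.1.1 + q.2.2 * x q.1.2)
  rw [← hQc, ← h1]
  exact Nat.add_le_add hnd' hd'

end GamE
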