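import Pool.Agent.GamE.ADefs
import Pool.Agent.GamP.Block3

/-!
# Differences of the building blocks in an arbitrary direction

PROOF of `DR_gammaL`. For `lam` a natural number `m`: the sequence `t ↦ g (m t)` of a sequence `g` of the class `DR M` is in
`DR M` (the difference `f(t+1) - f(t)` of `f t = g (m t)` is `∑_{j<m} (Δ g)(m t + j)`; by induction on `k`,
`(Δ^k f)(t)` is a sum of shifts of `(Δ^k g)`: prove for all `k`: there is a finite family of natural numbers `n_a` with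
`(Δ^k f)(t) = ∑_a (Δ^k g)(m t + n_a)`); `g t = Γ (p (2 p^4 t + c))`, `DR_gamma` of `GamP/Block3`. In general: for fixed `k`, `t` the
`k`-th difference at `t` (`fwdDiff_iter_eq_sum_shift`) is a continuous function of `lam`, the set of the `lam` for
which it is divisible by `(p^2)^k` is closed (`isClosed_dvd` of `GamP/Zero`) and contains the natural numbers, which are
dense (`PadicInt.denseRange_natCast`).
`DR_epa`: `DD_ez` (GamP/Block2), `ep_nat` (GamP/Bin), `DR.of_int` (GamP/Diff2), as in `DR_ep` of `GamP/Block3`.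
-/

namespace GamE

open Finset Polynomial GamP

variable {p : ℕ} [Fact p.Prime] {Γ : ℤ_[p] → ℤ_[p]}

private theorem drl_sub {R : Type*} [CommRing R] (M : R) (m : ℕ) : ∀ (k r : ℕ) (g : ℕ → R),
    (∀ j ≤ k, ∀ t, M ^ (j + r) ∣ (fwdDiff 1)^[j] g t) →
    ∀ n t, M ^ (k + r) ∣ (fwdDiff 1)^[k] (fun t => g (m * t + n)) t
  | 0, r, g, hg, n, t => hg 0 le_rfl (m * t + n)
  | k + 1, r, g, hg, n, t => by
    rw [Function.iterate_succ_apply]
    have e : fwdDiff 1 (fun t => g (m * t + n)) =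
        ∑ j ∈ range m, fun t => (fwdDiff 1 g) (m * t + (n + j)) := by
      funext t
      rw [Finset.sum_apply]
      simp only [fwdDiff]
      have h1 := Finset.sum_range_sub (fun j => g (m * t + (n + j))) m
      simp only [add_zero] at h1
      have h2 : ∀ j, m * t + (n + j) + 1 = m * t + (n + (j + 1)) := fun j => by ring
      have h3 : m * (t + 1) + n = m * t + (n + m) := by ring
      simp only [h2, h3]
      exact h1.symm
    rw [e, fwdDiff_iter_finsetSum, Finset.sum_apply]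
    refine Finset.dvd_sum fun j _ => ?_
    have h := drl_sub M m k (r + 1) (fwdDiff 1 g) (fun i hi t => by
      rw [← Function.iterate_succ_apply]
      have h4 := hg (i + 1) (by omega) t
      have e2 : i + (r + 1) = i + 1 + r := by omega
      rw [e2]
      exact h4) (n + j) t
    have e2 : k + 1 + r = k + (r + 1) := by omega
    rw [e2]
    exact h

theorem DR_gammaL (h : IsMorita p Γ) (c lam : ℤ_[p]) :
    DR ((p : ℤ_[p]) ^ 2) (fun t : ℕ => Γ (p * (2 * (p : ℤ_[p]) ^ 4 * (lam * (t : ℤ_[p])) + c))) := by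
  intro k t
  have hΓ : Continuous Γ := h.1
  have hF : Continuous (fun lam : ℤ_[p] => (fwdDiff 1)^[k]
      (fun t : ℕ => Γ (p * (2 * (p : ℤ_[p]) ^ 4 * (lam * (t : ℤ_[p])) + c))) t) := by
    simp only [fwdDiff_iter_eq_sum_shift]
    refine continuous_finsetSum _ fun i _ => ?_
    have h1 : Continuous (fun lam : ℤ_[p] =>
        Γ (p * (2 * (p : ℤ_[p]) ^ 4 * (lam * ((t + i • 1 : ℕ) : ℤ_[p])) + c))) :=
      hΓ.comp (by fun_prop)
    simp only [zsmul_eq_mul]
    exact continuous_const.mul h1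
  have e0 : ((p : ℤ_[p]) ^ 2) ^ k = (p : ℤ_[p]) ^ (2 * k) := by rw [← pow_mul]
  rw [e0]
  have hcl : IsClosed {lam : ℤ_[p] | (p : ℤ_[p]) ^ (2 * k) ∣ (fwdDiff 1)^[k]
      (fun t : ℕ => Γ (p * (2 * (p : ℤ_[p]) ^ 4 * (lam * (t : ℤ_[p])) + c))) t} :=
    (isClosed_dvd (p := p) (2 * k)).preimage hF
  have hnat : Set.range (fun n : ℕ => (n : ℤ_[p])) ⊆
      {lam : ℤ_[p] | (p : ℤ_[p]) ^ (2 * k) ∣ (fwdDiff 1)^[k]
        (fun t : ℕ => Γ (p * (2 * (p : ℤ_[p]) ^ 4 * (lam * (t : ℤ_[p])) + c))) t} := by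
    rintro _ ⟨m, rfl⟩
    have h1 := drl_sub ((p : ℤ_[p]) ^ 2) m k 0
      (fun t : ℕ => Γ (p * (2 * (p : ℤ_[p]) ^ 4 * (t : ℤ_[p]) + c)))
      (fun j _ t => DR_gamma h c j t) 0 t
    rw [add_zero, e0] at h1
    simp only [add_zero, Nat.cast_mul] at h1
    exact h1
  have hd := PadicInt.denseRange_natCast (p := p)
  have h3 := hcl.closure_subset_iff.mpr hnat
  exact h3 (hd lam)

theorem DR_epa (i a : ℕ) :
    DR ((p : ℤ_[p]) ^ 2) (fun t : ℕ => ep p i ((a : ℤ_[p]) + 2 * (p : ℤ_[p]) ^ 4 * (t : ℤ_[p]))) := by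
  have hp : p.Prime := Fact.out
  have h1 := DR.of_int (R := ℤ_[p]) (DD_ez hp i a)
  push_cast at h1
  have e : (fun t : ℕ => ep p i ((a : ℤ_[p]) + 2 * (p : ℤ_[p]) ^ 4 * (t : ℤ_[p]))) =
      fun t : ℕ => ((ez p i (a + 2 * p ^ 4 * t) : ℤ) : ℤ_[p]) := by
    funext t
    rw [← ep_nat]
    push_cast
    rfl
  rw [e]
  exact h1

end GamE
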