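import Pool.Agent.GamE.Dj

/-!
# The dimension drops for strictly larger primes

PROOF. Suppose `dj 𝔭 ≤ dj 𝔮`; by `exists_ind` take `J` with `Ind 𝔮 J`, `J.card = dj 𝔮` (`𝔮 ≠ ⊤`). Then `Ind 𝔭 J` (as `𝔭 ≤ 𝔮`), so
`J.card ≤ dj 𝔭`, so `J.card = dj 𝔭 = dj 𝔮`. Let `h ∈ 𝔮`, `h ∉ 𝔭`, `A = R/𝔭` (a domain), `B` the image of
`supported ℚ J` (isomorphic to a polynomial ring). Every variable `X i` is algebraic over `B` in `A`: for
`i ∈ J` clear, for `i ∉ J` the set `insert i J` is not independent modulo `𝔭` by maximality (its cardinality is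
`dj 𝔭 + 1`), this gives a nonzero polynomial relation in which `X i` occurs. So `A` is algebraic over `B`
(`Algebra.IsAlgebraic`, adjoin of algebraic elements; e.g. work in the fraction field, or use
`Algebra.IsAlgebraic` lemmas/`isAlgebraic_of ...`), so the class of `h` is a root of a nonzero polynomial over
`B`; as `A` is a domain and `h ≠ 0` in `A` we can choose one with nonzero constant coefficient `a₀ ∈ B`
(divide by powers of `T`). Then `a₀ ∈ h A`, i.e. a nonzero element of `supported ℚ J` lies in `𝔮`: contradiction with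
`Ind 𝔮 J`. (Possible alternative: `Algebra.trdeg` of `R/𝔭` and `R/𝔮` if Mathlib has the lemmas.)
-/

namespace GamE

open MvPolynomial Finset

theorem aeval_quot {r : ℕ} (𝔮 : Ideal (RR r)) (p : RR r) :
    aeval (fun i => Ideal.Quotient.mk 𝔮 (X i)) p = Ideal.Quotient.mk 𝔮 p := by
  have h1 : aeval (fun i => Ideal.Quotient.mk 𝔮 (X i)) = Ideal.Quotient.mkₐ ℚ 𝔮 := by
    ext i; simp
  rw [h1]; rfl

/-- Independence modulo an ideal is algebraic independence in the quotient. -/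
theorem ind_iff {r : ℕ} (𝔮 : Ideal (RR r)) (J : Set (Fin r)) [Fintype J] :
    Ind 𝔮 J.toFinset ↔ AlgebraicIndependent ℚ
      (fun i : J => Ideal.Quotient.mk 𝔮 (X (i : Fin r))) := by
  have h2 := algebraicIndependent_comp_subtype (R := ℚ) (s := J)
    (x := fun i => Ideal.Quotient.mk 𝔮 (X i))
  unfold Ind
  rw [Set.coe_toFinset]
  simp only [aeval_quot, Ideal.Quotient.eq_zero_iff_mem] at h2
  exact h2.symm

theorem adjoin_X_quot {r : ℕ} (𝔮 : Ideal (RR r)) :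
    Algebra.adjoin ℚ (Set.range (fun i => Ideal.Quotient.mk 𝔮 (X i))) = ⊤ := by
  rw [eq_top_iff]
  rintro a -
  obtain ⟨p, rfl⟩ := Ideal.Quotient.mk_surjective a
  rw [Algebra.adjoin_range_eq_range_aeval]
  exact ⟨p, aeval_quot 𝔮 p⟩

/-- The dimension of a prime is the transcendence degree of the quotient. -/
theorem dj_eq_trdeg {r : ℕ} {𝔮 : Ideal (RR r)} (hq : 𝔮.IsPrime) :
    (dj 𝔮 : Cardinal) = Algebra.trdeg ℚ (RR r ⧸ 𝔮) := by
  classical
  have hdom : IsDomain (RR r ⧸ 𝔮) := Ideal.Quotient.isDomain 𝔮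
  apply le_antisymm
  · obtain ⟨J, hJ, hJ2⟩ := exists_ind hq.ne_top
    have h0 : Ind 𝔮 (J : Set (Fin r)).toFinset := by rwa [Finset.toFinset_coe]
    have h1 := ((ind_iff 𝔮 (J : Set (Fin r))).1 h0).cardinalMk_le_trdeg
    rw [← hJ]
    have h2 : Cardinal.mk ↥(J : Set (Fin r)) = (J.card : Cardinal) := by
      rw [Cardinal.mk_fintype]; simp
    rwa [h2] at h1
  · have halg : Algebra.IsAlgebraic
        (Algebra.adjoin ℚ (Set.range (fun i => Ideal.Quotient.mk 𝔮 (X i)))) (RR r ⧸ 𝔮) := by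
      rw [adjoin_X_quot]
      refine ⟨fun a => ?_⟩
      exact isAlgebraic_algebraMap (⟨a, Algebra.mem_top⟩ : (⊤ : Subalgebra ℚ (RR r ⧸ 𝔮)))
    have hfs : FaithfulSMul ℚ (RR r ⧸ 𝔮) :=
      (faithfulSMul_iff_algebraMap_injective ℚ _).2 (algebraMap ℚ (RR r ⧸ 𝔮)).injective
    obtain ⟨t, ht, hb⟩ := exists_isTranscendenceBasis_subset (R := ℚ)
      (Set.range (fun i => Ideal.Quotient.mk 𝔮 (X i)))
    obtain ⟨J, hJ, hJt⟩ := (show Set.SurjOn (fun i => Ideal.Quotient.mk 𝔮 (X i)) Set.univ t by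
      intro a ha
      obtain ⟨i, hi⟩ := ht ha
      exact ⟨i, trivial, hi⟩).exists_bijOn_subset
    have hind : Ind 𝔮 J.toFinset := by
      rw [ind_iff]
      have h1 := (algebraicIndependent_image (R := ℚ) hJt.injOn).2
        (by rw [hJt.image_eq]; exact hb.1)
      exact h1
    have hc : Cardinal.mk t = Cardinal.mk J := by
      rw [Cardinal.mk_congr (hJt.equiv _)]
    rw [← hb.cardinalMk_eq_trdeg]
    have h2 := le_dj hind
    rw [Set.toFinset_card] at h2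
    rw [hc, Cardinal.mk_fintype]
    exact_mod_cast h2

theorem dj_lt {r : ℕ} {𝔭 𝔮 : Ideal (RR r)} (hp : 𝔭.IsPrime) (hq : 𝔮.IsPrime) (h : 𝔭 < 𝔮) :
    dj 𝔮 < dj 𝔭 := by
  classical
  by_contra hcon
  rw [not_lt] at hcon
  have hdom : IsDomain (RR r ⧸ 𝔭) := Ideal.Quotient.isDomain 𝔭
  obtain ⟨J, hJ, hJ2⟩ := exists_ind hq.ne_top
  have hJp : Ind 𝔭 (J : Set (Fin r)).toFinset := by
    rw [Finset.toFinset_coe]
    exact fun f hf hfp => hJ2 f hf (h.le hfp)
  have hi := (ind_iff 𝔭 (J : Set (Fin r))).1 hJp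
  have hbasis := hi.isTranscendenceBasis_of_trdeg_le_of_finite (by
    rw [← dj_eq_trdeg hp]
    simpa [hJ] using hcon)
  have halg := hbasis.isAlgebraic
  obtain ⟨g, hg, hg'⟩ := SetLike.exists_of_lt h
  have hne : Ideal.Quotient.mk 𝔭 g ≠ 0 := by
    rw [Ne, Ideal.Quotient.eq_zero_iff_mem]; exact hg'
  obtain ⟨b, hb, hdvd⟩ := (halg.isAlgebraic (Ideal.Quotient.mk 𝔭 g)).exists_nonzero_dvd
    (mem_nonZeroDivisors_of_ne_zero hne)
  obtain ⟨f, hf, hfb⟩ : ∃ f ∈ supported ℚ (J : Set (Fin r)),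
      Ideal.Quotient.mk 𝔭 f = (b : RR r ⧸ 𝔭) := by
    obtain ⟨b', hb'⟩ : ∃ b' : RR r ⧸ 𝔭, b' = b := ⟨_, rfl⟩
    have hb2 : b' ∈ Algebra.adjoin ℚ
        (Set.range fun i : (J : Set (Fin r)) => Ideal.Quotient.mk 𝔭 (X (i : Fin r))) := by
      rw [hb']; exact b.2
    rw [Algebra.adjoin_range_eq_range_aeval] at hb2
    obtain ⟨p, hpb⟩ := hb2
    rw [← hb']
    refine ⟨rename (Subtype.val : {i // i ∈ (J : Set (Fin r))} → Fin r) p, ?_, ?_⟩
    · rw [supported_eq_range_rename]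
      exact ⟨p, rfl⟩
    · rw [← aeval_quot, aeval_rename]
      exact hpb
  obtain ⟨c, hc⟩ := hdvd
  obtain ⟨c, rfl⟩ := Ideal.Quotient.mk_surjective c
  have h1 : Ideal.Quotient.mk 𝔭 f = Ideal.Quotient.mk 𝔭 (g * c) := by
    rw [hfb, map_mul]
    exact hc
  have h2 : f - g * c ∈ 𝔭 := Ideal.Quotient.eq.1 h1
  have h3 : f ∈ 𝔮 := by
    have h4 := add_mem (h.le h2) (Ideal.mul_mem_right c 𝔮 hg)
    rwa [sub_add_cancel] at h4
  have h5 : f = 0 := hJ2 f hf h3
  apply hb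
  rw [h5, map_zero] at hfb
  exact Subtype.ext hfb.symm

end GamE
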