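import Mathlib

/-!
# The final real estimates (owner: helper7)
-/

namespace GamE

private theorem z_le (s : ℕ) {p d b : ℕ} (hp : 2 ≤ p) (hd : 1 ≤ d) (hb : 1 ≤ b) :
    ∃ Z : ℕ, 2 * p * b * (s + 1) ≤ 2 ^ Z ∧ 2 * p ≤ Z ∧ s + 1 ≤ Z ∧ d ^ (s + 1) ≤ Z ∧
      (Z : ℝ) ≤ (3 * s + 13 : ℕ) * ((p : ℝ) * d * Real.log (2 * b)) ^ (s + 1) := by
  obtain ⟨n, hn⟩ : ∃ n, n = 2 * p * b * (s + 1) := ⟨_, rfl⟩
  have hn1 : 1 ≤ n := by
    rw [hn]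
    have : 0 < 2 * p * b * (s + 1) := by positivity
    omega
  refine ⟨2 * p + (s + 1) + d ^ (s + 1) + (Nat.log 2 n + 1), ?_, by omega, by omega, by omega, ?_⟩
  · rw [← hn]
    have h1 : n < 2 ^ (Nat.log 2 n + 1) := Nat.lt_pow_succ_log_self (by norm_num) _
    refine h1.le.trans (Nat.pow_le_pow_right (by norm_num) (by omega))
  · have hl2 : (1 / 2 : ℝ) < Real.log 2 := by
      have := Real.log_two_gt_d9
      linarith
    have hb1 : (1 : ℝ) ≤ b := by exact_mod_cast hb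
    have hp2 : (2 : ℝ) ≤ p := by exact_mod_cast hp
    have hd1 : (1 : ℝ) ≤ d := by exact_mod_cast hd
    have hs0 : (0 : ℝ) ≤ s := Nat.cast_nonneg s
    obtain ⟨L, hL⟩ : ∃ L, L = Real.log (2 * b) := ⟨_, rfl⟩
    have hL1 : 1 / 2 < L := by
      rw [hL]
      exact hl2.trans_le (Real.log_le_log (by norm_num) (by linarith))
    have h1 : 2 ^ Nat.log 2 n ≤ n := Nat.pow_log_le_self 2 (by omega)
    have h2 : (2 : ℝ) ^ Nat.log 2 n ≤ n := by exact_mod_cast h1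
    have h3 : (Nat.log 2 n : ℝ) * Real.log 2 ≤ Real.log n := by
      rw [← Real.log_pow]
      exact Real.log_le_log (by positivity) h2
    have h4 : Real.log n ≤ s + p + L := by
      have e : (n : ℝ) = (s + 1) * p * (2 * b) := by rw [hn]; push_cast; ring
      rw [e, Real.log_mul (by positivity) (by positivity), Real.log_mul (by positivity)
        (by positivity), hL]
      have h5 := Real.log_le_sub_one_of_pos (show (0 : ℝ) < s + 1 by positivity)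
      have h6 := Real.log_le_sub_one_of_pos (show (0 : ℝ) < p by positivity)
      linarith
    have h5 : (Nat.log 2 n : ℝ) ≤ 2 * (s + p + L) := by
      have h6 : (0 : ℝ) ≤ Nat.log 2 n := Nat.cast_nonneg _
      nlinarith
    obtain ⟨P, hP⟩ : ∃ P, P = (p : ℝ) * d * Real.log (2 * b) := ⟨_, rfl⟩
    rw [← hP]
    rw [← hL] at hP
    have hpL : 1 ≤ (p : ℝ) * L := by nlinarith
    have hP1 : (1 : ℝ) ≤ P := by rw [hP]; nlinarith
    have hPd : (d : ℝ) ≤ P := by rw [hP]; nlinarith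
    have hPL : L ≤ P := by
      rw [hP]
      have : 1 ≤ (p : ℝ) * d := by nlinarith
      nlinarith
    have hPp : (p : ℝ) ≤ 2 * P := by
      rw [hP]
      have h7 : 1 ≤ 2 * (d * L) := by nlinarith
      nlinarith
    obtain ⟨E, hE⟩ : ∃ E, E = P ^ (s + 1) := ⟨_, rfl⟩
    rw [← hE]
    have hPE : P ≤ E := by rw [hE]; exact le_self_pow₀ hP1 (by omega)
    have hE1 : 1 ≤ E := hP1.trans hPE
    have hdE : (d : ℝ) ^ (s + 1) ≤ E := by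
      rw [hE]
      exact pow_le_pow_left₀ (by positivity) hPd _
    have hsE : (s : ℝ) ≤ s * E := by nlinarith
    push_cast
    nlinarith

theorem fin3 {ε : ℝ} (hε : 0 < ε) : ∃ s : ℕ, ∀ u : ℕ, ∃ C : ℕ, ∀ p d b M K : ℕ, 2 ≤ p → 1 ≤ d →
    1 ≤ b → 1 ≤ M → (∀ Z : ℕ, 2 * p * b * (s + 1) ≤ 2 ^ Z → 2 * p ≤ Z → s + 1 ≤ Z →
      d ^ (s + 1) ≤ Z → K ^ (s + 1) ≤ (s + 1) ^ 2 * M * Z ^ u + (s + 1) ^ 2 * Z ^ (3 * u) * K ^ s) →
    (K : ℝ) ≤ C * ((p : ℝ) * d * Real.log (2 * b)) ^ C * (M : ℝ) ^ ε := by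
  obtain ⟨s, hs⟩ : ∃ s : ℕ, 1 / ε ≤ s := exists_nat_ge _
  refine ⟨s, fun u => ⟨2 * (s + 1) ^ 2 * (3 * s + 13) ^ (3 * u) + (s + 1) * (3 * u), ?_⟩⟩
  obtain ⟨C, hC⟩ : ∃ C : ℕ, C = 2 * (s + 1) ^ 2 * (3 * s + 13) ^ (3 * u) + (s + 1) * (3 * u) :=
    ⟨_, rfl⟩
  rw [← hC]
  intro p d b M K hp hd hb hM h
  obtain ⟨Z, h1, h2, h3, h4, hZ⟩ := z_le s hp hd hb
  have hK := h Z h1 h2 h3 h4
  have hb1 : (1 : ℝ) ≤ b := by exact_mod_cast hb
  have hM1 : (1 : ℝ) ≤ M := by exact_mod_cast hM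
  have hM0 : (0 : ℝ) ≤ M := by linarith
  have hp2 : (2 : ℝ) ≤ p := by exact_mod_cast hp
  have hd1 : (1 : ℝ) ≤ d := by exact_mod_cast hd
  obtain ⟨P, hP⟩ : ∃ P, P = (p : ℝ) * d * Real.log (2 * b) := ⟨_, rfl⟩
  have hP1 : (1 : ℝ) ≤ P := by
    have hl2 : (1 / 2 : ℝ) < Real.log 2 := by
      have := Real.log_two_gt_d9
      linarith
    have hL1 : 1 / 2 < Real.log (2 * b) :=
      hl2.trans_le (Real.log_le_log (by norm_num) (by linarith))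
    have hpL : 1 ≤ (p : ℝ) * Real.log (2 * b) := by nlinarith
    rw [hP]
    nlinarith
  rw [← hP] at hZ ⊢
  have hZ1 : 1 ≤ Z := by omega
  have hZr : (1 : ℝ) ≤ Z := by exact_mod_cast hZ1
  have hMe : (1 : ℝ) ≤ (M : ℝ) ^ ε := Real.one_le_rpow hM1 hε.le
  have hZu : (1 : ℝ) ≤ (Z : ℝ) ^ (3 * u) := one_le_pow₀ hZr
  have hs0 : (0 : ℝ) ≤ s := Nat.cast_nonneg s
  obtain ⟨W, hW⟩ : ∃ W : ℝ, W = 2 * ((s : ℝ) + 1) ^ 2 * Z ^ (3 * u) := ⟨_, rfl⟩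
  have hW1 : 1 ≤ W := by
    rw [hW]
    nlinarith [one_le_pow₀ (n := 2) (show (1 : ℝ) ≤ s + 1 by linarith)]
  -- the bound in terms of `Z`
  have key : (K : ℝ) ≤ W * (M : ℝ) ^ ε := by
    by_contra hcon
    push Not at hcon
    have hX : W < K := by
      refine lt_of_le_of_lt ?_ hcon
      nlinarith
    have hKr : (K : ℝ) ^ (s + 1) ≤ ((s : ℝ) + 1) ^ 2 * M * Z ^ u +
        ((s : ℝ) + 1) ^ 2 * Z ^ (3 * u) * K ^ s := by exact_mod_cast hK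
    have hKs : (0 : ℝ) ≤ (K : ℝ) ^ s := by positivity
    have h5 : 2 * (((s : ℝ) + 1) ^ 2 * Z ^ (3 * u) * K ^ s) ≤ (K : ℝ) ^ (s + 1) := by
      have h0 := mul_le_mul_of_nonneg_right hX.le hKs
      calc _ = W * K ^ s := by rw [hW]; ring
        _ ≤ K * K ^ s := h0
        _ = _ := by ring
    have h6 : (K : ℝ) ^ (s + 1) ≤ 2 * (((s : ℝ) + 1) ^ 2 * M * Z ^ u) := by linarith
    have h7 : (Z : ℝ) ^ u ≤ Z ^ (3 * u) := pow_le_pow_right₀ hZr (by omega)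
    have h9 : (K : ℝ) ^ (s + 1) ≤ W * M := by
      calc (K : ℝ) ^ (s + 1) ≤ _ := h6
        _ ≤ 2 * (((s : ℝ) + 1) ^ 2 * M * Z ^ (3 * u)) := by gcongr
        _ = _ := by rw [hW]; ring
    have h10 : (M : ℝ) ≤ ((M : ℝ) ^ ε) ^ (s + 1) := by
      rw [← Real.rpow_natCast, ← Real.rpow_mul hM0]
      refine (Real.rpow_one (M : ℝ)).symm.le.trans (Real.rpow_le_rpow_of_exponent_le hM1 ?_)
      rw [div_le_iff₀ hε] at hs
      push_cast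
      nlinarith
    have h11 : W ≤ W ^ (s + 1) := le_self_pow₀ hW1 (by omega)
    have h12 : W * M ≤ (W * (M : ℝ) ^ ε) ^ (s + 1) := by
      rw [mul_pow]
      exact mul_le_mul h11 h10 hM0 (by positivity)
    have h13 : (W * (M : ℝ) ^ ε) ^ (s + 1) < (K : ℝ) ^ (s + 1) :=
      pow_lt_pow_left₀ hcon (by positivity) (by omega)
    linarith
  -- the bound for `Z`
  have hZ3 : (Z : ℝ) ^ (3 * u) ≤ ((3 * s + 13 : ℕ) : ℝ) ^ (3 * u) * P ^ ((s + 1) * (3 * u)) := by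
    calc (Z : ℝ) ^ (3 * u) ≤ (((3 * s + 13 : ℕ) : ℝ) * P ^ (s + 1)) ^ (3 * u) :=
          pow_le_pow_left₀ (by positivity) hZ _
      _ = _ := by rw [mul_pow, ← pow_mul]
  have hC1 : 2 * ((s : ℝ) + 1) ^ 2 * ((3 * s + 13 : ℕ) : ℝ) ^ (3 * u) ≤ C := by
    have h5 : 2 * (s + 1) ^ 2 * (3 * s + 13) ^ (3 * u) ≤ C := by omega
    exact_mod_cast h5
  have hC2 : P ^ ((s + 1) * (3 * u)) ≤ P ^ C := pow_le_pow_right₀ hP1 (by omega)
  calc (K : ℝ) ≤ _ := key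
    _ ≤ (2 * ((s : ℝ) + 1) ^ 2 * (((3 * s + 13 : ℕ) : ℝ) ^ (3 * u) * P ^ ((s + 1) * (3 * u)))) *
      (M : ℝ) ^ ε := by rw [hW]; gcongr
    _ = (2 * ((s : ℝ) + 1) ^ 2 * ((3 * s + 13 : ℕ) : ℝ) ^ (3 * u)) * P ^ ((s + 1) * (3 * u)) *
      (M : ℝ) ^ ε := by ring
    _ ≤ C * P ^ C * (M : ℝ) ^ ε := by gcongr

end GamE
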