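import Pool.Agent.GamE.Cnt
import Pool.Agent.GamE.Fin3
import Pool.Agent.GamP.Cls
import Pool.Agent.GamP.Exist

/-!
# The main theorem (owner: helper7)
-/

namespace GamE

open Finset GamP

/-- the sums of the tuples -/
theorem card_sums {b s P a₀ a₁ M : ℕ} (hb : 1 ≤ b) (hM : 1 ≤ M) :
    ∃ V : Finset ℕ, V.card ≤ (s + 1) ^ 2 * M ∧ ∀ x : Fin (s + 1) → ℕ,
      (∀ i, ∃ m < M, x i = P * (a₀ + m * a₁) % b) → ∑ i, x i ∈ V := by
  classical
  refine ⟨((range ((s + 1) * M)) ×ˢ (range (s + 1))).image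
    (fun q => P * ((s + 1) * a₀ + q.1 * a₁) % b + b * q.2), ?_, ?_⟩
  · refine Finset.card_image_le.trans ?_
    rw [Finset.card_product, Finset.card_range, Finset.card_range]
    exact le_of_eq (by ring)
  · intro x hx
    choose m hm hxm using hx
    rw [Finset.mem_image]
    refine ⟨(∑ i, m i, (∑ i, x i) / b), ?_, ?_⟩
    · rw [Finset.mem_product, Finset.mem_range, Finset.mem_range]
      constructor
      · calc ∑ i, m i < ∑ _i : Fin (s + 1), M :=
              Finset.sum_lt_sum_of_nonempty Finset.univ_nonempty fun i _ => hm i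
          _ = (s + 1) * M := by simp
      · rw [Nat.div_lt_iff_lt_mul (by omega)]
        calc ∑ i, x i < ∑ _i : Fin (s + 1), b :=
              Finset.sum_lt_sum_of_nonempty Finset.univ_nonempty fun i _ => by
                rw [hxm i]
                exact Nat.mod_lt _ (by omega)
          _ = (s + 1) * b := by simp
    · have h1 : ∑ i, x i ≡ P * ((s + 1) * a₀ + (∑ i, m i) * a₁) [MOD b] := by
        have h2 : P * ((s + 1) * a₀ + (∑ i, m i) * a₁) = ∑ i, P * (a₀ + m i * a₁) := by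
          rw [← Finset.mul_sum, Finset.sum_add_distrib, Finset.sum_mul]
          simp
        rw [h2]
        refine Nat.ModEq.sum fun i _ => ?_
        rw [hxm i]
        exact Nat.mod_modEq _ _
      have h3 : (∑ i, x i) % b = P * ((s + 1) * a₀ + (∑ i, m i) * a₁) % b := h1
      simp only
      rw [← h3]
      exact Nat.mod_add_div _ _

theorem main3 {ε : ℝ} (hε : 0 < ε) : ∃ C : ℕ, ∀ (p : ℕ) [Fact p.Prime] (Γ : ℤ_[p] → ℤ_[p]),
    IsMorita p Γ → ∀ d b : ℕ, 1 ≤ d → ¬ p ∣ b → ∀ a₀ a₁ M : ℕ, a₁.Coprime b → M ≤ b →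
      ({m : ℕ | m < M ∧ AlgAt Γ d (a₀ + m * a₁) b}.ncard : ℝ) ≤
        C * ((p : ℝ) * d * Real.log (2 * b)) ^ C * (M : ℝ) ^ ε := by
  classical
  obtain ⟨s, hs⟩ := fin3 hε
  obtain ⟨u, hu⟩ := count_pow s
  obtain ⟨C, hC⟩ := hs u
  refine ⟨C, ?_⟩
  intro p _ Γ h d b hd hpb a₀ a₁ M ha₁ hMb
  have hb : 1 ≤ b := by
    rcases Nat.eq_zero_or_pos b with rfl | hb
    · exact absurd (dvd_zero p) hpb
    · exact hb
  have hb1 : (1 : ℝ) ≤ b := by exact_mod_cast hb
  rcases Nat.eq_zero_or_pos M with rfl | hM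
  · have h0 : {m : ℕ | m < 0 ∧ AlgAt Γ d (a₀ + m * a₁) b} = ∅ := by
      ext m
      simp
    rw [h0, Set.ncard_empty]
    have hlog : 0 ≤ Real.log (2 * b) := Real.log_nonneg (by linarith)
    simp only [Nat.cast_zero]
    positivity
  have hbz : (b : ℤ_[p]) ≠ 0 := by exact_mod_cast (by omega : b ≠ 0)
  have hcop : Nat.Coprime p b := ((Fact.out : p.Prime).coprime_iff_not_dvd).mpr hpb
  obtain ⟨k, hk0, hk1⟩ := Nat.chineseRemainder hcop 0 1
  obtain ⟨P, hP⟩ : p ∣ k := (Nat.modEq_zero_iff_dvd).mp hk0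
  -- the class of the `m`-th point
  obtain ⟨φ, hφ⟩ : ∃ φ : ℕ → ℕ, φ = fun m => P * (a₀ + m * a₁) % b := ⟨_, rfl⟩
  have hφ1 : ∀ m, p * φ m ≡ a₀ + m * a₁ [MOD b] := by
    intro m
    have h1 : p * φ m ≡ p * (P * (a₀ + m * a₁)) [MOD b] := by
      rw [hφ]
      exact (Nat.mod_modEq _ _).mul_left p
    refine h1.trans ?_
    have h2 : p * (P * (a₀ + m * a₁)) = k * (a₀ + m * a₁) := by rw [hP]; ring
    rw [h2]
    have h3 := hk1.mul_right (a₀ + m * a₁)
    rwa [one_mul] at h3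
  have hφb : ∀ m, φ m < b := by
    intro m
    rw [hφ]
    exact Nat.mod_lt _ (by omega)
  obtain ⟨T, hT⟩ : ∃ T, T = (range M).filter (fun m => AlgAt Γ d (a₀ + m * a₁) b) := ⟨_, rfl⟩
  have hTn : {m : ℕ | m < M ∧ AlgAt Γ d (a₀ + m * a₁) b}.ncard = T.card := by
    have h2 : {m : ℕ | m < M ∧ AlgAt Γ d (a₀ + m * a₁) b} = (T : Set ℕ) := by
      ext m
      rw [hT]
      simp
    rw [h2, Set.ncard_coe_finset]
  have hinj : Set.InjOn φ (T : Set ℕ) := by
    intro m hm m' hm' he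
    rw [Finset.mem_coe, hT, Finset.mem_filter, Finset.mem_range] at hm hm'
    have h1 : a₀ + m * a₁ ≡ a₀ + m' * a₁ [MOD b] := by
      refine (hφ1 m).symm.trans ?_
      rw [he]
      exact hφ1 m'
    have h2 : m * a₁ ≡ m' * a₁ [MOD b] := Nat.ModEq.add_left_cancel' a₀ h1
    have h3 : m ≡ m' [MOD b] := Nat.ModEq.cancel_right_of_coprime
      (by rw [Nat.gcd_comm]; exact ha₁) h2
    exact Nat.ModEq.eq_of_lt_of_lt h3 (hm.1.trans_le hMb) (hm'.1.trans_le hMb)
  rw [hTn, ← Finset.card_image_of_injOn hinj]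
  obtain ⟨V, hVc, hV⟩ := card_sums (b := b) (s := s) (P := P) (a₀ := a₀) (a₁ := a₁) hb hM
  refine hC p d b M _ (Fact.out : p.Prime).two_le hd hb hM fun Z h2 h3 h4 h5 => ?_
  have hmain := hu h hpb h2 h3 h4 h5 (S := T.image φ) ?_ V ?_
  · refine hmain.trans ?_
    gcongr
  · intro α hα
    rw [Finset.mem_image] at hα
    obtain ⟨m, hm, rfl⟩ := hα
    rw [hT, Finset.mem_filter, Finset.mem_range] at hm
    obtain ⟨x', hx', hdx'⟩ := (algAt_mod h hpb (hφ1 m) d).mpr hm.2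
    obtain ⟨w, hw⟩ := (cls_isUnit (p := p) hpb).exists_right_inv
    have hs' : (b : ℤ_[p]) * (w * (φ m : ℕ)) = (φ m : ℕ) := by rw [← mul_assoc, hw, one_mul]
    refine ⟨hφb m, w * (φ m : ℕ), hs', ?_⟩
    have hxs : x' = p * (w * (φ m : ℕ)) := by
      apply mul_left_cancel₀ hbz
      rw [hx']; push_cast
      calc (p : ℤ_[p]) * (φ m : ℕ) = (p : ℤ_[p]) * ((b : ℤ_[p]) * (w * (φ m : ℕ))) := by rw [hs']
        _ = _ := by ring
    rw [← hxs]
    exact hdx'
  · intro x hx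
    refine hV x fun i => ?_
    obtain ⟨m, hm, hxm⟩ := Finset.mem_image.mp (hx i)
    rw [hT, Finset.mem_filter, Finset.mem_range] at hm
    refine ⟨m, hm.1, ?_⟩
    rw [← hxm, hφ]

end GamE
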