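import Pool.Agent.GamE.ZDefs

/-!
# The Hilbert function

`hf I t` is the dimension of the image `V_t` of the (finite dimensional) space `R_t` of the polynomials of
total degree at most `t` in `R/I`. (`R_t` is spanned by the finitely many monomials of degree at most `t`;
`restrictTotalDegree`, `mem_restrictTotalDegree`; prove `Module.Finite` first.)

PROOFS.
* `hf_anti`: for `I ≤ J` the image for `J` is the image of the image for `I` (`Ideal.Quotient.factor`):
  `Submodule.finrank_map_le`.
* `hf_mono`: `R_t ≤ R_t'`.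
* `hf_step`: multiplication by the class of `g` is an INJECTIVE linear map of `R/I` to itself (`hreg`); it maps
  `V_t(I)` into `V_{t+d}(I)` (`totalDegree_mul`), into the kernel of `R/I → R/J` (as `g ∈ J`); the map
  `V_{t+d}(I) → V_{t+d}(J)` is surjective: rank-nullity, `dim V_{t+d}(I) = dim V_{t+d}(J) + dim ker`, and
  `dim ker ≥ dim V_t(I)`.
* `hf_bot`: the number of monomials of degree at most `t` is at most `(t+1)^r` (exponents in `[0,t]`).
-/

namespace GamE

open MvPolynomial Finset

private theorem map_factor {r : ℕ} {I J : Ideal (RR r)} (h : I ≤ J) (S : Submodule ℚ (RR r)) :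
    (S.map (Ideal.Quotient.mkₐ ℚ I).toLinearMap).map (Ideal.Quotient.factorₐ ℚ h).toLinearMap =
      S.map (Ideal.Quotient.mkₐ ℚ J).toLinearMap := by
  rw [← Submodule.map_comp]
  rfl

theorem hf_anti {r : ℕ} {I J : Ideal (RR r)} (h : I ≤ J) (t : ℕ) : hf J t ≤ hf I t := by
  unfold hf
  rw [← map_factor h]
  exact Submodule.finrank_map_le _ _

private theorem rtd_mono {r : ℕ} {t t' : ℕ} (h : t ≤ t') :
    restrictTotalDegree (Fin r) ℚ t ≤ restrictTotalDegree (Fin r) ℚ t' := by
  intro p hp
  rw [mem_restrictTotalDegree] at hp ⊢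
  exact hp.trans h

theorem hf_mono {r : ℕ} (I : Ideal (RR r)) {t t' : ℕ} (h : t ≤ t') : hf I t ≤ hf I t' := by
  unfold hf
  exact Submodule.finrank_mono (Submodule.map_mono (rtd_mono h))

theorem hf_step {r d : ℕ} {I J : Ideal (RR r)} {g : RR r} (hd : g.totalDegree ≤ d)
    (hreg : ∀ a, g * a ∈ I → a ∈ I) (hIJ : I ≤ J) (hg : g ∈ J) (t : ℕ) :
    hf J (t + d) + hf I t ≤ hf I (t + d) := by
  unfold hf
  set mI : RR r →ₗ[ℚ] (RR r ⧸ I) := (Ideal.Quotient.mkₐ ℚ I).toLinearMap with hmI
  set V : Submodule ℚ (RR r ⧸ I) := (restrictTotalDegree (Fin r) ℚ (t + d)).map mI with hV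
  set W : Submodule ℚ (RR r ⧸ I) := (restrictTotalDegree (Fin r) ℚ t).map mI with hW
  set φ : (RR r ⧸ I) →ₗ[ℚ] (RR r ⧸ J) := (Ideal.Quotient.factorₐ ℚ hIJ).toLinearMap with hφ
  set μ : (RR r ⧸ I) →ₗ[ℚ] (RR r ⧸ I) := LinearMap.mulLeft ℚ (mI g) with hμ
  have hinj : Function.Injective μ := by
    rw [← LinearMap.ker_eq_bot, LinearMap.ker_eq_bot']
    intro x hx
    obtain ⟨a, rfl⟩ := Ideal.Quotient.mk_surjective x
    have h1 : (Ideal.Quotient.mk I) (g * a) = 0 := by
      rw [map_mul]
      exact hx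
    rw [Ideal.Quotient.eq_zero_iff_mem] at h1 ⊢
    exact hreg a h1
  have hWV : W.map μ ≤ V := by
    rintro _ ⟨_, ⟨a, ha, rfl⟩, rfl⟩
    refine ⟨g * a, ?_, ?_⟩
    · rw [SetLike.mem_coe, mem_restrictTotalDegree] at ha ⊢
      refine (totalDegree_mul _ _).trans ?_
      omega
    · exact map_mul (Ideal.Quotient.mk I) g a
  have hWk : W.map μ ≤ LinearMap.ker φ := by
    rintro _ ⟨_, ⟨a, ha, rfl⟩, rfl⟩
    rw [LinearMap.mem_ker]
    have h1 : μ (mI a) = (Ideal.Quotient.mk I) (g * a) := (map_mul (Ideal.Quotient.mk I) g a).symm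
    rw [h1]
    have h2 : φ ((Ideal.Quotient.mk I) (g * a)) = (Ideal.Quotient.mk J) (g * a) := rfl
    rw [h2, Ideal.Quotient.eq_zero_iff_mem]
    exact J.mul_mem_right a hg
  have hfin : Module.Finite ℚ V := inferInstance
  have h1 : Module.finrank ℚ (LinearMap.range (φ.domRestrict V)) +
      Module.finrank ℚ (LinearMap.ker (φ.domRestrict V)) = Module.finrank ℚ V :=
    LinearMap.finrank_range_add_finrank_ker _
  have h2 : LinearMap.range (φ.domRestrict V) =
      (restrictTotalDegree (Fin r) ℚ (t + d)).map (Ideal.Quotient.mkₐ ℚ J).toLinearMap := by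
    rw [← map_factor hIJ, LinearMap.range_domRestrict]
  have h3 : (W.map μ).submoduleOf V ≤ LinearMap.ker (φ.domRestrict V) := by
    intro x hx
    rw [LinearMap.mem_ker]
    exact LinearMap.mem_ker.1 (hWk hx)
  have h4 : Module.finrank ℚ ((W.map μ).submoduleOf V) = Module.finrank ℚ (W.map μ) :=
    LinearEquiv.finrank_eq (Submodule.submoduleOfEquivOfLe hWV)
  have h5 : Module.finrank ℚ (W.map μ) = Module.finrank ℚ W :=
    (LinearEquiv.finrank_eq (Submodule.equivMapOfInjective μ hinj W)).symm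
  have h6 := Submodule.finrank_mono h3
  rw [← h2]
  omega

theorem hf_bot {r : ℕ} (t : ℕ) : hf (⊥ : Ideal (RR r)) t ≤ (t + 1) ^ r := by
  classical
  unfold hf
  refine (Submodule.finrank_map_le _ _).trans ?_
  refine (Submodule.finrank_mono (restrictTotalDegree_le_restrictDegree (Fin r) ℚ t)).trans ?_
  let S : Set (Fin r →₀ ℕ) := {n | ∀ i, n i ≤ t}
  let e : S → (Fin r → Fin (t + 1)) := fun n i => ⟨n.1 i, Nat.lt_succ_of_le (n.2 i)⟩
  have he : Function.Injective e := by
    intro n m h
    apply Subtype.ext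
    ext i
    have h1 := congrFun h i
    exact congrArg Fin.val h1
  have : Finite S := Finite.of_injective e he
  have hF : Fintype S := Fintype.ofFinite S
  have h1 : Module.finrank ℚ (restrictDegree (Fin r) ℚ t) = Fintype.card S :=
    Module.finrank_eq_card_basis (basisRestrictSupport ℚ S)
  rw [h1]
  refine (Fintype.card_le_of_injective e he).trans ?_
  simp

end GamE
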