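import Pool.Agent.GamE.HF1

/-!
# One step of the chain for the Hilbert function

PROOFS. `hf_mul`: induction on `m`: by `hf_step` at `t + m d`,
`hf I (t + (m+1) d) ≥ hf J (t + (m+1) d) + hf I (t + m d) ≥ hf J t + m * hf J t` (`hf_mono`).
`hf_chain`: let `m = t / d + 2`, so `t + d ≤ m d ≤ t + 2 d`. Then
`hf J t * (t + d) ≤ hf J t * m * d ≤ d * hf I (t + m d) ≤ d * K * (t + m d + d)^(s+1) ≤ d * K * (3 (t+d))^(s+1)`;
divide by `t + d > 0`.
-/

namespace GamE

open MvPolynomial Finset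

theorem hf_mul {r d : ℕ} {I J : Ideal (RR r)} {g : RR r} (hd : g.totalDegree ≤ d)
    (hreg : ∀ a, g * a ∈ I → a ∈ I) (hIJ : I ≤ J) (hg : g ∈ J) (m t : ℕ) :
    m * hf J t ≤ hf I (t + m * d) := by
  induction m with
  | zero => simp
  | succ m ih =>
    have h1 := hf_step hd hreg hIJ hg (t + m * d)
    have h2 : hf J t ≤ hf J (t + m * d + d) := hf_mono J (by omega)
    have e : t + (m + 1) * d = t + m * d + d := by ring
    rw [e]
    calc (m + 1) * hf J t = hf J t + m * hf J t := by ring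
      _ ≤ hf J (t + m * d + d) + hf I (t + m * d) := Nat.add_le_add h2 ih
      _ ≤ _ := h1

theorem hf_chain {r d : ℕ} {I J : Ideal (RR r)} {g : RR r} (hd1 : 1 ≤ d) (hd : g.totalDegree ≤ d)
    (hreg : ∀ a, g * a ∈ I → a ∈ I) (hIJ : I ≤ J) (hg : g ∈ J) {K s : ℕ}
    (hI : ∀ t, hf I t ≤ K * (t + d) ^ (s + 1)) (t : ℕ) :
    hf J t ≤ 3 ^ (s + 1) * K * d * (t + d) ^ s := by
  have hm1 : t + d ≤ (t / d + 2) * d := by
    have h1 := Nat.div_add_mod t d
    have h2 := Nat.mod_lt t (show 0 < d by omega)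
    have e : (t / d + 2) * d = d * (t / d) + 2 * d := by ring
    omega
  have hm2 : (t / d + 2) * d ≤ t + 2 * d := by
    have h1 := Nat.div_add_mod t d
    have e : (t / d + 2) * d = d * (t / d) + 2 * d := by ring
    omega
  obtain ⟨m, hm⟩ : ∃ m, m = t / d + 2 := ⟨_, rfl⟩
  rw [← hm] at hm1 hm2
  have h1 := hf_mul hd hreg hIJ hg m t
  have h2 := hI (t + m * d)
  have h3 : (t + m * d + d) ^ (s + 1) ≤ (3 * (t + d)) ^ (s + 1) :=
    Nat.pow_le_pow_left (by omega) _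
  have h4 : hf J t * (t + d) ≤ 3 ^ (s + 1) * K * d * (t + d) ^ s * (t + d) := by
    calc hf J t * (t + d) ≤ hf J t * (m * d) := Nat.mul_le_mul_left _ hm1
      _ = d * (m * hf J t) := by ring
      _ ≤ d * hf I (t + m * d) := Nat.mul_le_mul_left _ h1
      _ ≤ d * (K * (t + m * d + d) ^ (s + 1)) := Nat.mul_le_mul_left _ h2
      _ ≤ d * (K * (3 * (t + d)) ^ (s + 1)) :=
        Nat.mul_le_mul_left _ (Nat.mul_le_mul_left _ h3)
      _ = 3 ^ (s + 1) * K * d * (t + d) ^ s * (t + d) := by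
        rw [mul_pow, pow_succ (t + d) s]
        ring
  exact Nat.le_of_mul_le_mul_right h4 (by omega)

end GamE
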