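import Pool.Agent.GamE.TDefs

/-!
# The coefficient of the difference equation is not a coboundary

PROOF. Let `γ = e 0`, `K = FractionRing (MvPolynomial (Fin s) ℚ)`, and
`φ : RR (s+1) → K[X]` the injective ring homomorphism `finSuccEquiv` followed by `Polynomial.map (algebraMap _ K)`
(`X 0 ↦ X`, `X (j+1) ↦ C (X j)`). `φ (tr (e0 1) F) = (φ F).comp (X + 1)`. The images of `AA`, `BB` are products of
polynomials of degree one in `X` (`wi x e i ↦ C u_i + C γ_i * X`, `u_i = x_i + ∑_{j≥1} e_j(i) X_{j-1}`), nonzero.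
Use `no_eq` of `Pool/Agent/GamP/Tr.lean` (it is private there: copy it with the private lemmas which it
uses): for `A, B, F, G ∈ K[X]` nonzero, `θ` a root of `A` with `B (θ + l) ≠ 0` for all `l : ℤ`, `J ≥ 1`:
`F * (G.comp (X+1) * B^J) = F.comp (X+1) * A^J * G` is impossible (our equation is this one with `F` and `G`
exchanged). Here: since `∑ γ_i = 0`, `γ ≠ 0` there is `i` with `γ_i > 0`; the factor `k = 1` (`1 < p γ_i`, `p ∤ 1`) of `AA` has the
root `θ = -(p u_i + 1) / (p γ_i)`. A factor of `BB` belongs to `j` with `γ_j < 0` and `k'`; if it vanishes at `θ + l`, then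
`p (u_j + γ_j (θ + l) + γ_j) + k' = 0`, multiply by `γ_i`:
`p γ_i u_j - γ_j (p u_i + 1) + p γ_i γ_j (l + 1) + γ_i k' = 0` in `MvPolynomial (Fin s) ℚ`; take the constant coefficients
(`u_i ↦ x_i`): `p (γ_i x_j - γ_j x_i) = γ_j - p γ_i γ_j (l+1) - γ_i k' ∈ ℤ`, contradiction to `hnd`.
-/

namespace GamE

section copy

open Polynomial

private theorem mult_shift {K : Type*} [Field K] (F : K[X]) (x : K) :
    (F.comp (X + C 1)).rootMultiplicity x = F.rootMultiplicity (x + 1) := by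
  rw [rootMultiplicity_eq_rootMultiplicity, rootMultiplicity_eq_rootMultiplicity (p := F),
    comp_assoc]
  congr 2
  rw [add_comp, X_comp, C_comp, add_assoc, ← C_add]

private theorem mult_pow {K : Type*} [Field K] {F : K[X]} (hF : F ≠ 0) (x : K) (n : ℕ) :
    (F ^ n).rootMultiplicity x = n * F.rootMultiplicity x := by
  induction n with
  | zero =>
    rw [pow_zero, zero_mul]
    exact rootMultiplicity_eq_zero (by simp)
  | succ n ih =>
    rw [pow_succ, rootMultiplicity_mul (mul_ne_zero (pow_ne_zero n hF) hF), ih, Nat.succ_mul]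

/-- a nonzero polynomial has no zero far away in `a + ℤ` -/
private theorem far {K : Type*} [Field K] [CharZero K] {F : K[X]} (hF : F ≠ 0) (a : K) :
    ∃ M : ℕ, ∀ k : ℤ, (M : ℤ) ≤ |k| → F.eval (a + k) ≠ 0 := by
  classical
  have hfin : {k : ℤ | F.eval (a + k) = 0}.Finite := by
    refine Set.Finite.of_finite_image (f := fun k : ℤ => a + (k : K)) ?_ ?_
    · refine (F.roots.toFinset.finite_toSet).subset ?_
      rintro x ⟨k, hk, rfl⟩
      rw [Finset.mem_coe, Multiset.mem_toFinset, mem_roots hF]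
      exact hk
    · intro k _ l _ hkl
      have h1 : (k : K) = l := add_left_cancel hkl
      exact_mod_cast h1
  refine ⟨(∑ k ∈ hfin.toFinset, k.natAbs) + 1, fun k hk h0 => ?_⟩
  have h1 : k ∈ hfin.toFinset := hfin.mem_toFinset.2 h0
  have h2 : k.natAbs ≤ ∑ k ∈ hfin.toFinset, k.natAbs :=
    Finset.single_le_sum (f := fun k : ℤ => k.natAbs) (fun _ _ => Nat.zero_le _) h1
  have h3 : |k| = (k.natAbs : ℤ) := Int.abs_eq_natAbs k
  rw [h3] at hk
  have h4 : (∑ k ∈ hfin.toFinset, k.natAbs) + 1 ≤ k.natAbs := by exact_mod_cast hk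
  omega

/-- the equation satisfied by the extreme coefficients is impossible -/
private theorem no_eq {K : Type*} [Field K] [CharZero K] {A B F G : K[X]} (hA : A ≠ 0) (hB : B ≠ 0)
    (hF : F ≠ 0) (hG : G ≠ 0) {a : K} (ha : A.eval a = 0) (hab : ∀ k : ℤ, B.eval (a + k) ≠ 0)
    {J : ℕ} (hJ : 1 ≤ J)
    (h : F * (G.comp (X + C 1) * B ^ J) = F.comp (X + C 1) * A ^ J * G) : False := by
  have hcomp : ∀ {Q : K[X]}, Q ≠ 0 → Q.comp (X + C 1) ≠ 0 := by
    intro Q hQ h0
    exact hQ ((comp_X_add_C_eq_zero_iff (t := 1)).1 h0)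
  set u : ℤ → ℤ := fun k => (F.rootMultiplicity (a + k) : ℤ) - (G.rootMultiplicity (a + k) : ℤ)
    with hu
  have hstep : ∀ k : ℤ, u k = u (k + 1) + J * (A.rootMultiplicity (a + k) : ℤ) := by
    intro k
    have h1 : (F * (G.comp (X + C 1) * B ^ J)).rootMultiplicity (a + k) =
        (F.comp (X + C 1) * A ^ J * G).rootMultiplicity (a + k) := by rw [h]
    have hG' := hcomp hG
    have hF' := hcomp hF
    rw [rootMultiplicity_mul (mul_ne_zero hF (mul_ne_zero hG' (pow_ne_zero _ hB))),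
      rootMultiplicity_mul (mul_ne_zero hG' (pow_ne_zero _ hB)),
      rootMultiplicity_mul (mul_ne_zero (mul_ne_zero hF' (pow_ne_zero _ hA)) hG),
      rootMultiplicity_mul (mul_ne_zero hF' (pow_ne_zero _ hA)), mult_shift, mult_shift,
      mult_pow hB, mult_pow hA] at h1
    have hB0 : B.rootMultiplicity (a + k) = 0 := rootMultiplicity_eq_zero (hab k)
    rw [hB0, mul_zero, add_zero] at h1
    have e : a + (k : K) + 1 = a + ((k + 1 : ℤ) : K) := by
      push_cast
      ring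
    rw [e] at h1
    have h2 : ((F.rootMultiplicity (a + k) : ℕ) : ℤ) +
        (G.rootMultiplicity (a + ((k + 1 : ℤ) : K)) : ℤ) =
        (F.rootMultiplicity (a + ((k + 1 : ℤ) : K)) : ℤ) + J * (A.rootMultiplicity (a + k) : ℤ) +
        (G.rootMultiplicity (a + k) : ℤ) := by exact_mod_cast h1
    simp only [hu]
    linarith
  have hanti : Antitone u := by
    refine antitone_int_of_succ_le fun k => ?_
    have h1 := hstep k
    have h2 : (0 : ℤ) ≤ J * (A.rootMultiplicity (a + k) : ℤ) := by positivity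
    linarith
  obtain ⟨M, hM⟩ := far (mul_ne_zero hF hG) a
  have hzero : ∀ k : ℤ, (M : ℤ) ≤ |k| → u k = 0 := by
    intro k hk
    have h1 := hM k hk
    rw [eval_mul] at h1
    have h2 : F.rootMultiplicity (a + k) = 0 := rootMultiplicity_eq_zero (left_ne_zero_of_mul h1)
    have h3 : G.rootMultiplicity (a + k) = 0 := rootMultiplicity_eq_zero (right_ne_zero_of_mul h1)
    simp only [hu]
    rw [h2, h3, sub_self]
  have h0 : u 0 ≤ 0 := by
    have h1 := hanti (show (-(M : ℤ)) ≤ 0 by omega)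
    rwa [hzero (-(M : ℤ)) (by rw [abs_neg]; exact le_abs_self _)] at h1
  have h1 : 0 ≤ u 1 := by
    have h1 := hanti (show (1 : ℤ) ≤ M + 1 by omega)
    rwa [hzero ((M : ℤ) + 1) (by rw [abs_of_nonneg (by omega)]; omega)] at h1
  have h2 := hstep 0
  rw [Int.cast_zero, add_zero, zero_add] at h2
  have h3 : 1 ≤ A.rootMultiplicity a := (rootMultiplicity_pos hA).2 ha
  have h4 : (1 : ℤ) ≤ J * (A.rootMultiplicity a : ℤ) := by
    have : 1 * 1 ≤ J * A.rootMultiplicity a := Nat.mul_le_mul hJ h3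
    exact_mod_cast this
  linarith

end copy

open MvPolynomial Finset

/-- coefficient field -/
abbrev KK (s : ℕ) : Type := FractionRing (MvPolynomial (Fin s) ℚ)

/-- `RR (s+1)` as polynomials in the first variable, over the field of fractions in the other ones -/
noncomputable def ph (s : ℕ) : RR (s + 1) →+* Polynomial (KK s) :=
  (Polynomial.mapRingHom (algebraMap (MvPolynomial (Fin s) ℚ) (KK s))).comp
    (finSuccEquiv ℚ s).toRingEquiv.toRingHom

theorem ph_apply (s : ℕ) (F : RR (s + 1)) :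
    ph s F = Polynomial.map (algebraMap (MvPolynomial (Fin s) ℚ) (KK s)) (finSuccEquiv ℚ s F) := rfl

theorem ph_inj (s : ℕ) : Function.Injective (ph s) := by
  intro F G h
  rw [ph_apply, ph_apply] at h
  exact (finSuccEquiv ℚ s).injective
    (Polynomial.map_injective _ (IsFractionRing.injective (MvPolynomial (Fin s) ℚ) (KK s)) h)

theorem ph_ne {s : ℕ} {F : RR (s + 1)} (hF : F ≠ 0) : ph s F ≠ 0 := by
  intro h
  exact hF (ph_inj s (by rw [h, map_zero]))

theorem ph_C (s : ℕ) (q : ℚ) :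
    ph s (C q) = Polynomial.C (algebraMap (MvPolynomial (Fin s) ℚ) (KK s) (C q)) := by
  rw [ph_apply]
  have h : finSuccEquiv ℚ s (C q) = Polynomial.C (C q) := by
    have h1 : (finSuccEquiv ℚ s).symm (Polynomial.C (C q)) = C q := by
      have := RingHom.congr_fun (finSuccEquiv_comp_C_eq_C (R := ℚ) s) q
      simpa using this
    rw [← h1, AlgEquiv.apply_symm_apply]
  rw [h, Polynomial.map_C]

theorem ph_X0 (s : ℕ) : ph s (X 0) = Polynomial.X := by
  rw [ph_apply, finSuccEquiv_X_zero, Polynomial.map_X]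

theorem ph_Xs (s : ℕ) (j : Fin s) :
    ph s (X j.succ) = Polynomial.C (algebraMap (MvPolynomial (Fin s) ℚ) (KK s) (X j)) := by
  rw [ph_apply, finSuccEquiv_X_succ, Polynomial.map_C]

theorem ph_tr (s : ℕ) (F : RR (s + 1)) :
    ph s (tr (e0 1) F) = (ph s F).comp (Polynomial.X + Polynomial.C 1) := by
  have h : (ph s).comp (tr (e0 (s := s) 1)).toRingHom =
      (Polynomial.compRingHom (Polynomial.X + Polynomial.C 1)).comp (ph s) := by
    apply MvPolynomial.ringHom_ext
    · intro q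
      show ph s (tr (e0 1) (C q)) = (ph s (C q)).comp _
      have h1 : tr (e0 (s := s) 1) (C q) = C q := by
        unfold tr
        rw [aeval_C]
        rfl
      rw [h1, ph_C, Polynomial.C_comp]
    · intro j
      show ph s (tr (e0 1) (X j)) = (ph s (X j)).comp _
      have h1 : tr (e0 (s := s) 1) (X j) = X j + C (e0 (s := s) 1 j) := by
        unfold tr
        rw [aeval_X]
      rw [h1, map_add, ph_C]
      refine Fin.cases ?_ ?_ j
      · rw [ph_X0, Polynomial.X_comp]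
        simp [e0]
      · intro j
        rw [ph_Xs, Polynomial.C_comp]
        simp [e0]
  exact RingHom.congr_fun h F

/-- the part of `wi` which does not involve the first variable -/
noncomputable def uu {s ℓ : ℕ} (x : Fin ℓ → ℚ) (e : Fin (s + 1) → Fin ℓ → ℤ) (i : Fin ℓ) :
    MvPolynomial (Fin s) ℚ := wf (x i) (fun j => (e j.succ i : ℚ))

theorem const_uu {s ℓ : ℕ} (x : Fin ℓ → ℚ) (e : Fin (s + 1) → Fin ℓ → ℤ) (i : Fin ℓ) :
    constantCoeff (uu x e i) = x i := by
  unfold uu wf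
  rw [map_add, map_sum, constantCoeff_C, Finset.sum_eq_zero, add_zero]
  intro j _
  rw [map_mul, constantCoeff_X, mul_zero]

theorem ph_wi {s ℓ : ℕ} (x : Fin ℓ → ℚ) (e : Fin (s + 1) → Fin ℓ → ℤ) (i : Fin ℓ) :
    ph s (wi x e i) = Polynomial.C (algebraMap (MvPolynomial (Fin s) ℚ) (KK s) (uu x e i)) +
      Polynomial.C (algebraMap (MvPolynomial (Fin s) ℚ) (KK s) (C (e 0 i : ℚ))) * Polynomial.X := by
  unfold wi uu wf
  rw [Fin.sum_univ_succ, map_add, map_add, map_mul, map_sum, ph_C, ph_C, ph_X0, map_add, map_sum,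
    map_add, map_sum]
  have h1 : ∀ j : Fin s, ph s (C ((e j.succ i : ℤ) : ℚ) * X j.succ) =
      Polynomial.C (algebraMap (MvPolynomial (Fin s) ℚ) (KK s) (C ((e j.succ i : ℤ) : ℚ) * X j)) := by
    intro j
    rw [map_mul, ph_C, ph_Xs, map_mul, map_mul]
  rw [Finset.sum_congr rfl (fun j _ => h1 j)]
  ring

theorem factor_ne {s ℓ p : ℕ} (hp : p.Prime) (x : Fin ℓ → ℚ) (e : Fin (s + 1) → Fin ℓ → ℤ) (i : Fin ℓ)
    (hi : e 0 i ≠ 0) (a b : ℚ) : (C (p : ℚ) * (wi x e i + C a) + C b : RR (s + 1)) ≠ 0 := by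
  intro h
  have h1 := congrArg (ph s) h
  rw [map_zero, map_add, map_mul, map_add, ph_wi, ph_C, ph_C, ph_C] at h1
  have h2 := congrArg (fun Q => Polynomial.coeff Q 1) h1
  simp only [Polynomial.coeff_add, Polynomial.coeff_C_mul, Polynomial.coeff_C_succ,
    Polynomial.coeff_X_one, Polynomial.coeff_zero, zero_add, add_zero, mul_one] at h2
  rw [← map_mul, ← C_mul] at h2
  have h3 : (C ((p : ℚ) * (e 0 i : ℚ)) : MvPolynomial (Fin s) ℚ) = 0 := by
    apply IsFractionRing.injective (MvPolynomial (Fin s) ℚ) (KK s)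
    rw [h2, map_zero]
  rw [C_eq_zero] at h3
  have h4 : (p : ℚ) ≠ 0 := by exact_mod_cast hp.ne_zero
  have h5 : ((e 0 i : ℤ) : ℚ) ≠ 0 := by exact_mod_cast hi
  exact (mul_ne_zero h4 h5) h3

theorem AA_ne {s ℓ p : ℕ} (hp : p.Prime) (x : Fin ℓ → ℚ) (e : Fin (s + 1) → Fin ℓ → ℤ) :
    AA p x e (e 0) ≠ 0 := by
  unfold AA
  rw [Finset.prod_ne_zero_iff]
  intro i _
  rw [Finset.prod_ne_zero_iff]
  intro k hk
  rw [Finset.mem_filter, Finset.mem_range] at hk
  have hi : e 0 i ≠ 0 := by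
    intro h
    rw [h] at hk
    simp at hk
  have := factor_ne hp x e i hi 0 (k : ℚ)
  rwa [C_0, add_zero] at this

theorem BB_ne {s ℓ p : ℕ} (hp : p.Prime) (x : Fin ℓ → ℚ) (e : Fin (s + 1) → Fin ℓ → ℤ) :
    BB p x e (e 0) ≠ 0 := by
  unfold BB
  rw [Finset.prod_ne_zero_iff]
  intro i _
  rw [Finset.prod_ne_zero_iff]
  intro k hk
  rw [Finset.mem_filter, Finset.mem_range] at hk
  have hi : e 0 i ≠ 0 := by
    intro h
    rw [h] at hk
    simp at hk
  exact factor_ne hp x e i hi _ (k : ℚ)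

theorem no_cobound {s ℓ p : ℕ} (hp : p.Prime) (x : Fin ℓ → ℚ) (e : Fin (s + 1) → Fin ℓ → ℤ)
    (hsum : ∑ i, e 0 i = 0) (hne : e 0 ≠ 0)
    (hnd : ∀ i j, 0 < e 0 i → e 0 j < 0 → ∀ n : ℤ, (p : ℚ) * (e 0 i * x j - e 0 j * x i) ≠ n)
    {m : ℕ} (hm : 1 ≤ m) {F G : RR (s + 1)} (hF : F ≠ 0) (hG : G ≠ 0) :
    tr (e0 1) F * G * (BB p x e (e 0)) ^ m ≠ (AA p x e (e 0)) ^ m * F * tr (e0 1) G := by
  intro h
  -- a positive coordinate
  obtain ⟨i, hi⟩ : ∃ i, 0 < e 0 i := by
    by_contra hc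
    push Not at hc
    apply hne
    funext i
    have h1 := (Finset.sum_eq_zero_iff_of_nonpos (fun i _ => hc i)).1 hsum i (Finset.mem_univ i)
    exact h1
  have h1 := congrArg (ph s) h
  rw [map_mul, map_mul, map_mul, map_mul, map_pow, map_pow, ph_tr, ph_tr] at h1
  set κ := algebraMap (MvPolynomial (Fin s) ℚ) (KK s) with hκ
  have hκi : Function.Injective κ := IsFractionRing.injective (MvPolynomial (Fin s) ℚ) (KK s)
  have hκ0 : ∀ q : ℚ, q ≠ 0 → κ (C q) ≠ 0 := by
    intro q hq h0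
    apply hq
    have : (C q : MvPolynomial (Fin s) ℚ) = 0 := hκi (by rw [h0, map_zero])
    rwa [C_eq_zero] at this
  have hp0 : (p : ℚ) ≠ 0 := by exact_mod_cast hp.ne_zero
  have hi0 : ((e 0 i : ℤ) : ℚ) ≠ 0 := by exact_mod_cast hi.ne'
  set g := κ (C ((e 0 i : ℤ) : ℚ)) with hg
  set P := κ (C (p : ℚ)) with hP
  have hg0 : g ≠ 0 := hκ0 _ hi0
  have hP0 : P ≠ 0 := hκ0 _ hp0
  set θ : KK s := -(P * κ (uu x e i) + 1) / (P * g) with hθ
  have hθ' : P * g * θ = -(P * κ (uu x e i) + 1) := by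
    rw [hθ]
    field_simp
  -- root of `AA`
  have hA : (ph s (AA p x e (e 0))).eval θ = 0 := by
    unfold AA
    rw [map_prod, Polynomial.eval_prod]
    refine Finset.prod_eq_zero (Finset.mem_univ i) ?_
    rw [map_prod, Polynomial.eval_prod]
    have hmem : 1 ∈ (range (p * (e 0 i).toNat)).filter (fun k => ¬ p ∣ k) := by
      rw [Finset.mem_filter, Finset.mem_range]
      refine ⟨?_, ?_⟩
      · have h2 : 2 ≤ p := hp.two_le
        have h3 : 1 ≤ (e 0 i).toNat := by omega
        calc 1 < 2 * 1 := by norm_num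
          _ ≤ p * (e 0 i).toNat := Nat.mul_le_mul h2 h3
      · intro h2
        exact hp.one_lt.ne' (Nat.dvd_one.1 h2)
    refine Finset.prod_eq_zero hmem ?_
    rw [map_add, map_mul, ph_wi, ph_C, ph_C]
    simp only [Polynomial.eval_add, Polynomial.eval_mul, Polynomial.eval_C, Polynomial.eval_X,
      Nat.cast_one, map_one, Polynomial.eval_one]
    rw [← hκ, ← hP, ← hg]
    linear_combination hθ'
  -- no zero of `BB` in `θ + ℤ`
  have hB : ∀ l : ℤ, (ph s (BB p x e (e 0))).eval (θ + l) ≠ 0 := by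
    intro l
    unfold BB
    rw [map_prod, Polynomial.eval_prod, Finset.prod_ne_zero_iff]
    intro j _
    rw [map_prod, Polynomial.eval_prod, Finset.prod_ne_zero_iff]
    intro k hk h0
    rw [Finset.mem_filter, Finset.mem_range] at hk
    have hj : e 0 j < 0 := by
      by_contra hc
      have : (-(e 0 j)).toNat = 0 := by omega
      have hk1 := hk.1
      rw [this] at hk1
      simp at hk1
    rw [map_add, map_mul, map_add, ph_wi, ph_C, ph_C, ph_C] at h0
    simp only [Polynomial.eval_add, Polynomial.eval_mul, Polynomial.eval_C, Polynomial.eval_X] at h0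
    rw [← hκ, ← hP] at h0
    -- multiply by `g`
    have h2 : κ (C ((p : ℚ) * (e 0 i : ℚ)) * uu x e j - C ((e 0 j : ℚ)) * (C (p : ℚ) * uu x e i + 1) +
        C ((p : ℚ) * (e 0 i : ℚ) * (e 0 j : ℚ) * ((l : ℚ) + 1) + (e 0 i : ℚ) * (k : ℚ))) = 0 := by
      have hl : κ (C (l : ℚ)) = (l : KK s) := by
        have : (C (l : ℚ) : MvPolynomial (Fin s) ℚ) = ((l : ℤ) : MvPolynomial (Fin s) ℚ) := by
          exact map_intCast (C : ℚ →+* MvPolynomial (Fin s) ℚ) l
        rw [this, map_intCast]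
      simp only [map_add, map_sub, map_mul, map_one]
      rw [hl, ← hg, ← hP]
      linear_combination g * h0 - (κ (C ((e 0 j : ℤ) : ℚ))) * hθ'
    have h3 : (C ((p : ℚ) * (e 0 i : ℚ)) * uu x e j - C ((e 0 j : ℚ)) * (C (p : ℚ) * uu x e i + 1) +
        C ((p : ℚ) * (e 0 i : ℚ) * (e 0 j : ℚ) * ((l : ℚ) + 1) + (e 0 i : ℚ) * (k : ℚ)) :
        MvPolynomial (Fin s) ℚ) = 0 := hκi (by rw [h2, map_zero])
    have h4 := congrArg constantCoeff h3
    simp only [map_add, map_sub, map_mul, constantCoeff_C, const_uu, map_one, map_zero] at h4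
    refine hnd i j hi hj (e 0 j - p * (e 0 i) * (e 0 j) * (l + 1) - (e 0 i) * k) ?_
    push_cast
    linear_combination h4
  refine no_eq (ph_ne (AA_ne hp x e)) (ph_ne (BB_ne hp x e)) (ph_ne hG) (ph_ne hF) hA hB hm ?_
  linear_combination h1

end GamE
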