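import Pool.Agent.GamP.Mor
import Pool.Agent.GamP.Bin
import Pool.Agent.GamP.Ints

/-!
# Block products over an arithmetic progression, numerator of any sign

`RZ p a b n = ∏_{0 < k < p n, p ∤ k} (p a + k b) ∈ ℤ`.

PROOFS.
* `RZ_fact`: as `HH2` of `GamP/Ints2` over `ℤ`: group the `k = j + p i` (`prod_filter_blocks` of `GamP/Ints`), `0 < j < p`, `i < n`:
  `RZ = ∏_j ∏_{i<n} ((p a + j b) + (p b) i)`; `n! ∣ (p b)^n * (inner product)` (`fact_dvd_int` of `GamP/Bin`, up to the sign of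
  the step: `∏_{i<n} (A + β i)`, replace `i` by `n-1-i`), `inner product ≠ 0` (`p ∤ k b`), and
  `|(p a + j b) + p b i| ≤ p b (n + 1) + p b + p b i = p b (n + 2 + i)` so
  `|inner product| ≤ (p b)^n (2n+1)!/(n+1)! = (p b)^n n! (2n+1 choose n) ≤ (p b)^n n! 4^n`. So
  `A = ∏_j ((p b)^n * inner / n!)` satisfies `|A| ≤ ((p b)^(2n) 4^n)^(p-1) = (2 p b)^(2 n (p-1))`.
* `RZ_gamma`: `h.block 1 n x` (GamP/Mor) and `b * (p x + k) = p a + k b`, the number of the `k` is `(p-1) n`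
  (`key_aux` of `GamP/Vanish` is the case `a ∈ ℕ`; `card_units` there).
-/

namespace GamE

open Finset GamP

/-- `∏_{0 < k < p n, p ∤ k} (p a + k b)` -/
def RZ (p : ℕ) (a : ℤ) (b n : ℕ) : ℤ :=
  ∏ k ∈ (range (p * n)).filter (fun k => ¬ p ∣ k), ((p : ℤ) * a + k * b)

private theorem rz_asc (n : ℕ) : ∏ i ∈ range n, (n + 2 + i) ≤ n.factorial * 4 ^ n := by
  rw [← Nat.ascFactorial_eq_prod_range, show n + 2 = (n + 1) + 1 from rfl,
    Nat.ascFactorial_eq_factorial_mul_choose]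
  refine Nat.mul_le_mul_left _ ?_
  have h1 := Nat.choose_middle_le_pow n
  rwa [show n + 1 + n = 2 * n + 1 by ring]

private theorem rz_dvd (β : ℕ) (A : ℤ) (n : ℕ) :
    (n.factorial : ℤ) ∣ (β : ℤ) ^ n * ∏ i ∈ range n, (A + β * i) := by
  have h1 := fact_dvd_int β (A + β * (n - 1)) n
  have h2 : ∏ j ∈ range n, (A + (β : ℤ) * (n - 1) - β * j) = ∏ i ∈ range n, (A + (β : ℤ) * i) := by
    rw [← Finset.prod_range_reflect]
    refine prod_congr rfl fun j hj => ?_
    rw [mem_range] at hj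
    have h3 : ((n - 1 - j : ℕ) : ℤ) = (n : ℤ) - 1 - j := by omega
    rw [h3]
    ring
  rwa [h2] at h1

theorem RZ_fact {p b n : ℕ} (hp : p.Prime) (hb : ¬ p ∣ b) {a : ℤ} (ha : |a| ≤ (b : ℤ) * (n + 1)) :
    ∃ A : ℤ, A ≠ 0 ∧ |A| ≤ (2 * (p : ℤ) * b) ^ (2 * p * n) ∧
      ((p : ℤ) * b) ^ (n * (p - 1)) * RZ p a b n = A * (n.factorial : ℤ) ^ (p - 1) := by
  have hb0 : 0 < b := Nat.pos_of_ne_zero (fun h => hb (h ▸ dvd_zero p))
  have hpp := hp.pos
  set J := (range (p * 1)).filter (fun j => ¬ p ∣ j) with hJ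
  have hcard : J.card = p - 1 := by
    have := card_J hp 1
    rwa [mul_one (p - 1)] at this
  have hRZ : RZ p a b n = ∏ j ∈ J, ∏ i ∈ range n, (((p : ℤ) * a + j * b) + ((p * b : ℕ) : ℤ) * i) := by
    have h1 := prod_filter_blocks p 1 n (fun k => ((p : ℤ) * a + k * b))
    rw [mul_one p] at h1
    rw [RZ, h1, hJ, mul_one p]
    refine Finset.prod_congr rfl fun j _ => Finset.prod_congr rfl fun i _ => ?_
    push_cast
    ring
  have hq : ∀ j : ℕ, ∃ h : ℤ, ((p * b : ℕ) : ℤ) ^ n * ∏ i ∈ range n, (((p : ℤ) * a + j * b) +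
      ((p * b : ℕ) : ℤ) * i) = n.factorial * h := fun j => rz_dvd (p * b) ((p : ℤ) * a + j * b) n
  choose h hh using hq
  have hbound : ∀ j ∈ J, |h j| ≤ (2 * (p : ℤ) * b) ^ (2 * n) := by
    intro j hj
    rw [hJ, Finset.mem_filter, Finset.mem_range, mul_one] at hj
    have h1 : |∏ i ∈ range n, (((p : ℤ) * a + j * b) + ((p * b : ℕ) : ℤ) * i)| ≤
        ∏ i ∈ range n, (((p * b : ℕ) : ℤ) * ((n + 2 + i : ℕ) : ℤ)) := by
      rw [Finset.abs_prod]
      refine Finset.prod_le_prod (fun i _ => abs_nonneg _) fun i _ => ?_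
      have h2 : |(p : ℤ) * a| ≤ p * (b * (n + 1)) := by
        rw [abs_mul, abs_of_nonneg (by positivity : (0 : ℤ) ≤ p)]
        exact mul_le_mul_of_nonneg_left ha (by positivity)
      have h3 : |(j : ℤ) * b| ≤ p * b := by
        rw [abs_of_nonneg (by positivity)]
        have : (j : ℤ) ≤ p := by exact_mod_cast hj.1.le
        exact mul_le_mul_of_nonneg_right this (by positivity)
      have h4 : |((p * b : ℕ) : ℤ) * (i : ℤ)| = p * b * i := by
        rw [abs_of_nonneg (by positivity)]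
        push_cast
        ring
      calc |((p : ℤ) * a + j * b) + ((p * b : ℕ) : ℤ) * i|
          ≤ |(p : ℤ) * a + j * b| + |((p * b : ℕ) : ℤ) * i| := abs_add_le _ _
        _ ≤ (|(p : ℤ) * a| + |(j : ℤ) * b|) + |((p * b : ℕ) : ℤ) * i| := by
            gcongr
            exact abs_add_le _ _
        _ ≤ (p * (b * (n + 1)) + p * b) + p * b * i := by
            rw [h4]
            gcongr
        _ = ((p * b : ℕ) : ℤ) * ((n + 2 + i : ℕ) : ℤ) := by
            push_cast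
            ring
    have h4 : ∏ i ∈ range n, (((p * b : ℕ) : ℤ) * ((n + 2 + i : ℕ) : ℤ)) ≤
        ((p * b : ℕ) : ℤ) ^ n * ((n.factorial : ℤ) * 4 ^ n) := by
      rw [Finset.prod_mul_distrib, Finset.prod_const, Finset.card_range]
      refine mul_le_mul_of_nonneg_left ?_ (by positivity)
      exact_mod_cast rz_asc n
    have hf : (0 : ℤ) < n.factorial := by exact_mod_cast Nat.factorial_pos n
    have h5 : (n.factorial : ℤ) * |h j| ≤ n.factorial * (2 * (p : ℤ) * b) ^ (2 * n) := by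
      have h6 : (n.factorial : ℤ) * |h j| = |(n.factorial : ℤ) * h j| := by
        rw [abs_mul, abs_of_pos hf]
      rw [h6, ← hh j, abs_mul, abs_of_nonneg (by positivity : (0 : ℤ) ≤ ((p * b : ℕ) : ℤ) ^ n)]
      calc ((p * b : ℕ) : ℤ) ^ n * |∏ i ∈ range n, (((p : ℤ) * a + j * b) + ((p * b : ℕ) : ℤ) * i)|
          ≤ ((p * b : ℕ) : ℤ) ^ n * (((p * b : ℕ) : ℤ) ^ n * ((n.factorial : ℤ) * 4 ^ n)) :=
            mul_le_mul_of_nonneg_left (h1.trans h4) (by positivity)
        _ = n.factorial * (2 * (p : ℤ) * b) ^ (2 * n) := by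
            have h7 : (4 : ℤ) ^ n = 2 ^ n * 2 ^ n := by
              rw [← mul_pow]
              norm_num
            rw [h7, two_mul n, pow_add, mul_pow, mul_pow]
            push_cast
            rw [mul_pow]
            ring
    exact le_of_mul_le_mul_left h5 hf
  have hmain : ((p : ℤ) * b) ^ (n * (p - 1)) * RZ p a b n =
      (∏ j ∈ J, h j) * (n.factorial : ℤ) ^ (p - 1) := by
    have h1 : ((p : ℤ) * b) = ((p * b : ℕ) : ℤ) := by push_cast; ring
    rw [hRZ, h1, pow_mul, ← hcard, ← Finset.prod_const, ← Finset.prod_mul_distrib,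
      Finset.prod_congr rfl fun j _ => hh j, Finset.prod_mul_distrib, Finset.prod_const, mul_comm]
  have hpz : (0 : ℤ) < (p : ℤ) * b := by positivity
  refine ⟨∏ j ∈ J, h j, ?_, ?_, hmain⟩
  · intro h0
    rw [h0, zero_mul] at hmain
    rcases mul_eq_zero.1 hmain with h1 | h1
    · exact absurd h1 (pow_pos hpz _).ne'
    · rw [RZ, Finset.prod_eq_zero_iff] at h1
      obtain ⟨k, hk, hk0⟩ := h1
      rw [Finset.mem_filter] at hk
      have h2 : (p : ℤ) ∣ (k : ℤ) * b := by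
        refine ⟨-a, ?_⟩
        linear_combination hk0
      have h3 : p ∣ k * b := by exact_mod_cast h2
      rcases hp.dvd_mul.1 h3 with h4 | h4
      · exact hk.2 h4
      · exact hb h4
  · have h1 : (1 : ℤ) ≤ 2 * (p : ℤ) * b := by nlinarith
    calc |∏ j ∈ J, h j| = ∏ j ∈ J, |h j| := Finset.abs_prod _ _
      _ ≤ ∏ _j ∈ J, (2 * (p : ℤ) * b) ^ (2 * n) :=
        Finset.prod_le_prod (fun j _ => abs_nonneg _) hbound
      _ = (2 * (p : ℤ) * b) ^ (2 * n * (p - 1)) := by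
        rw [Finset.prod_const, hcard, ← pow_mul]
      _ ≤ (2 * (p : ℤ) * b) ^ (2 * p * n) := by
        refine pow_le_pow_right₀ h1 ?_
        calc 2 * n * (p - 1) ≤ 2 * n * p := Nat.mul_le_mul_left _ (Nat.sub_le _ _)
          _ = 2 * p * n := by ring

theorem RZ_gamma {p : ℕ} [Fact p.Prime] {Γ : ℤ_[p] → ℤ_[p]} (h : IsMorita p Γ) {b : ℕ} {a : ℤ}
    {x : ℤ_[p]} (hx : (b : ℤ_[p]) * x = (a : ℤ_[p])) (n : ℕ) :
    (b : ℤ_[p]) ^ (n * (p - 1)) * Γ (p * (x + n)) =
      (-1) ^ (p * n) * (RZ p a b n : ℤ_[p]) * Γ (p * x) := by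
  have hp : p.Prime := Fact.out
  have h1 := h.block 1 n x
  rw [Nat.cast_one, mul_one, mul_one] at h1
  have h2 : (b : ℤ_[p]) ^ (n * (p - 1)) *
      ∏ k ∈ (range (p * n)).filter (fun k => ¬ p ∣ k), ((p : ℤ_[p]) * x + k) =
      (RZ p a b n : ℤ_[p]) := by
    have hcard : ((range (p * n)).filter (fun k => ¬ p ∣ k)).card = n * (p - 1) := by
      rw [card_J hp n, mul_comm]
    rw [← hcard, ← Finset.prod_const, ← Finset.prod_mul_distrib]
    unfold RZ
    push_cast
    refine Finset.prod_congr rfl fun k _ => ?_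
    rw [← hx]
    ring
  rw [h1, ← h2]
  ring

end GamE
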