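import Pool.Agent.GamE.ZE
import Pool.Agent.GamE.Aux2

/-!
# The recursion on the dimension (owner: helper7)
-/

namespace GamE

open MvPolynomial Finset GamP

theorem Tup.mono {p : ℕ} [Fact p.Prime] {Γ : ℤ_[p] → ℤ_[p]} {ℓ b D H H' c : ℕ}
    {𝒜 𝒜' : Finset (Fin ℓ → ℕ)} (h : Tup p Γ ℓ b D H c 𝒜) (hs : 𝒜' ⊆ 𝒜) (hH : H' ≤ H) :
    Tup p Γ ℓ b D H' c 𝒜' where
  lt α hα := h.lt α (hs hα)
  sum α hα := h.sum α (hs hα)
  alg α hα := h.alg α (hs hα)
  nd α hα i j hij m m' h1 h2 h3 h4 :=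
    h.nd α (hs hα) i j hij m m' h1 (h2.trans hH) h3 (h4.trans hH)

/-- normalisation modulo the lattice -/
private theorem norm_t {r ℓ : ℕ} {e : Fin r → Fin ℓ → ℤ} {y : Fin ℓ → ℚ}
    (hy : y ∈ Submodule.span ℚ (Set.range fun (j : Fin r) (i : Fin ℓ) => (e j i : ℚ))) :
    ∃ (t : Fin r → ℚ) (g : Fin ℓ → ℤ), (∀ j, 0 ≤ t j ∧ t j < 1) ∧
      ∀ i, y i + g i = ∑ j, t j * e j i := by
  rw [Submodule.mem_span_range_iff_exists_fun] at hy
  obtain ⟨τ, hτ⟩ := hy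
  refine ⟨fun j => Int.fract (τ j), fun i => - ∑ j, ⌊τ j⌋ * e j i,
    fun j => ⟨Int.fract_nonneg _, Int.fract_lt_one _⟩, fun i => ?_⟩
  rw [← hτ]
  simp only [Finset.sum_apply, Pi.smul_apply, smul_eq_mul, Int.cast_neg, Int.cast_sum,
    Int.cast_mul]
  rw [← sub_eq_add_neg, ← Finset.sum_sub_distrib]
  refine Finset.sum_congr rfl fun j _ => ?_
  rw [← sub_mul, Int.self_sub_floor]

private theorem eq_of_cong {ℓ b : ℕ} {α α' : Fin ℓ → ℕ} (hα : ∀ i, α i < b)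
    (hα' : ∀ i, α' i < b) {g : Fin ℓ → ℤ} (h : ∀ i, (α i : ℚ) / b = (α' i : ℚ) / b + g i) :
    α = α' := by
  funext i
  have hb : (b : ℚ) ≠ 0 := by
    have := hα i
    exact_mod_cast (by omega : b ≠ 0)
  have h1 := h i
  have h2 : (α i : ℚ) = α' i + b * g i := by
    field_simp at h1
    linarith
  have h3 : (α i : ℤ) = α' i + b * g i := by exact_mod_cast h2
  have h4 : (α i : ℤ) % b = α i := Int.emod_eq_of_lt (by positivity) (by exact_mod_cast hα i)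
  have h5 : (α' i : ℤ) % b = α' i := Int.emod_eq_of_lt (by positivity) (by exact_mod_cast hα' i)
  have h6 : (α i : ℤ) % b = (α' i : ℤ) % b := by
    rw [h3, Int.add_mul_emod_self_left]
  have h7 : (α i : ℤ) = α' i := by rw [← h4, h6, h5]
  exact_mod_cast h7

/-- the exponent `w` -/
def ww (r hh : ℕ) : ℕ := r * r + 2 * r + r * (24 * r + hh + 21)

private theorem zc_le {r Z hh : ℕ} (h3 : 3 ≤ Z) (hr : r + 1 ≤ Z) :
    zc r (Z ^ (24 * r + hh + 21)) ≤ Z ^ ww r hh := by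
  unfold zc ww
  calc 3 ^ (r * r) * r ^ r * (r + 1) ^ r * (Z ^ (24 * r + hh + 21)) ^ r ≤
      Z ^ (r * r) * Z ^ r * Z ^ r * (Z ^ (24 * r + hh + 21)) ^ r := by
        gcongr
        omega
    _ = Z ^ (r * r + 2 * r + r * (24 * r + hh + 21)) := by
        rw [← pow_mul, ← pow_add, ← pow_add, ← pow_add]
        congr 1
        ring

theorem rec_bound (ℓ : ℕ) (hℓ : 1 ≤ ℓ) (r : ℕ) : ∀ hh : ℕ, ∃ u : ℕ,
    ∀ {p : ℕ} [Fact p.Prime] {Γ : ℤ_[p] → ℤ_[p]}, IsMorita p Γ → ∀ {b D Z c₀ : ℕ},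
    ¬ p ∣ b → 2 * p * b * ℓ ≤ 2 ^ Z → 2 * p ≤ Z → ℓ ≤ Z → r + 1 ≤ Z → D ≤ Z →
    ∀ {𝒜 : Finset (Fin ℓ → ℕ)}, Tup p Γ ℓ b D (Z ^ u) c₀ 𝒜 → ∀ {e : Fin r → Fin ℓ → ℤ},
    LinearIndependent ℚ (fun (j : Fin r) (i : Fin ℓ) => (e j i : ℚ)) →
    (∀ j, ∑ i, e j i = 0) → (∀ j i, |e j i| ≤ (Z : ℤ) ^ hh) → ∀ β : Fin ℓ → ℚ,
    (∀ α ∈ 𝒜, ∃ g : Fin ℓ → ℤ, (fun i => (α i : ℚ) / b + g i - β i) ∈
      Submodule.span ℚ (Set.range fun (j : Fin r) (i : Fin ℓ) => (e j i : ℚ))) →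
    𝒜.card ≤ Z ^ u := by
  classical
  induction r using Nat.strong_induction_on with
  | _ r ih =>
  intro hh
  rcases Nat.eq_zero_or_pos r with rfl | hr
  · refine ⟨0, ?_⟩
    intro p _ Γ h b D Z c₀ hpb hZ hpZ hℓZ hrZ hDZ 𝒜 h𝒜 e he hes heZ β hβ
    rw [pow_zero, Finset.card_le_one]
    intro α hα α' hα'
    obtain ⟨g, hg⟩ := hβ α hα
    obtain ⟨g', hg'⟩ := hβ α' hα'
    rw [Set.range_eq_empty, Submodule.span_empty, Submodule.mem_bot] at hg hg'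
    refine eq_of_cong (h𝒜.lt α hα) (h𝒜.lt α' hα') (g := g' - g) fun i => ?_
    have h1 := congrFun hg i
    have h2 := congrFun hg' i
    simp only [Pi.zero_apply, Pi.sub_apply, Int.cast_sub] at h1 h2 ⊢
    linarith
  obtain ⟨s, rfl⟩ : ∃ s, r = s + 1 := ⟨r - 1, by omega⟩
  choose! U hU using fun m (hm : m < s + 1) => ih m hm (ww (s + 1) hh + hh + 1)
  obtain ⟨u, hu⟩ : ∃ u, u = ww (s + 1) hh + 1 + (∑ m ∈ range (s + 1), U m) + hh := ⟨_, rfl⟩
  refine ⟨u, ?_⟩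
  intro p _ Γ h b D Z c₀ hpb hZ hpZ hℓZ hrZ hDZ 𝒜 h𝒜 e he hes heZ β hβ
  have hp2 : 2 ≤ p := (Fact.out : p.Prime).two_le
  have hZ1 : 1 ≤ Z := by omega
  rcases 𝒜.eq_empty_or_nonempty with rfl | ⟨α₀, hα₀⟩
  · simp
  obtain ⟨g₀, hg₀⟩ := hβ α₀ hα₀
  have key : ∀ α ∈ 𝒜, ∃ (t : Fin (s + 1) → ℚ) (g : Fin ℓ → ℤ), (∀ j, 0 ≤ t j ∧ t j < 1) ∧
      ∀ i, (α i : ℚ) / b + g i = (α₀ i : ℚ) / b + ∑ j, t j * e j i := by
    intro α hα
    obtain ⟨g, hg⟩ := hβ α hα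
    obtain ⟨t, g', ht, hg'⟩ := norm_t (Submodule.sub_mem _ hg hg₀)
    refine ⟨t, g - g₀ + g', ht, fun i => ?_⟩
    rw [← hg' i]
    simp only [Pi.sub_apply, Pi.add_apply, Int.cast_add, Int.cast_sub]
    ring
  choose! t g ht01 ht using key
  -- the points
  have hinj : ∀ α ∈ 𝒜, ∀ α' ∈ 𝒜, (∃ n : Fin (s + 1) → ℤ, t α - t α' = qv n) → α = α' := by
    rintro α hα α' hα' ⟨n, hn⟩
    refine eq_of_cong (h𝒜.lt α hα) (h𝒜.lt α' hα')
      (g := fun i => g α' i - g α i + ∑ j, n j * e j i) fun i => ?_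
    have h1 := ht α hα i
    have h2 := ht α' hα' i
    have h3 : ∑ j, t α j * (e j i : ℚ) = ∑ j, t α' j * (e j i : ℚ) + ∑ j, (n j : ℚ) * e j i := by
      rw [← Finset.sum_add_distrib]
      refine Finset.sum_congr rfl fun j _ => ?_
      have := congrFun hn j
      simp only [Pi.sub_apply, qv] at this
      rw [← this]
      ring
    push_cast
    linarith
  have hcard : (𝒜.image t).card = 𝒜.card := by
    refine Finset.card_image_of_injOn fun α hα α' hα' h1 => hinj α hα α' hα' ⟨0, ?_⟩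
    rw [h1, sub_self]
    funext j
    simp [qv]
  rw [← hcard]
  have hzc := zc_le (r := s + 1) (hh := hh) (by omega : 3 ≤ Z) (by omega)
  have hmain := zero_estimate (r := s + 1) (by omega) (A := Z ^ (24 * (s + 1) + hh + 21))
    (Nat.one_le_pow _ _ hZ1) (𝒜.image t) ?_ ?_ (F := Z ^ (∑ m ∈ range (s + 1), U m)) ?_
  · calc (𝒜.image t).card ≤ _ := hmain
      _ ≤ Z ^ ww (s + 1) hh * (Z * Z ^ (∑ m ∈ range (s + 1), U m)) := by
        gcongr
        calc 1 + (s + 1) * Z ^ (∑ m ∈ range (s + 1), U m) ≤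
            1 * Z ^ (∑ m ∈ range (s + 1), U m) + (s + 1) * Z ^ (∑ m ∈ range (s + 1), U m) := by
              gcongr
              rw [one_mul]
              exact Nat.one_le_pow _ _ hZ1
          _ = (s + 2) * Z ^ (∑ m ∈ range (s + 1), U m) := by ring
          _ ≤ Z * Z ^ (∑ m ∈ range (s + 1), U m) := by gcongr
      _ = Z ^ (ww (s + 1) hh + 1 + ∑ m ∈ range (s + 1), U m) := by rw [pow_add, pow_add]; ring
      _ ≤ Z ^ u := Nat.pow_le_pow_right hZ1 (by omega)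
  · intro x hx y hy hxy
    rw [Finset.mem_image] at hx hy
    obtain ⟨α, hα, rfl⟩ := hx
    obtain ⟨α', hα', rfl⟩ := hy
    rw [hinj α hα α' hα' hxy]
  · intro N₀
    obtain ⟨N, hN, f, hf0, hfd, hfz⟩ := exists_poly h hpb hℓ hZ hpZ hℓZ (by omega) hDZ
      (hh := hh) (Nat.pow_le_pow_right hZ1 (by omega)) h𝒜 he hes heZ hα₀ ht01 ht N₀
    refine ⟨N, hN, f, hf0, hfd, ?_⟩
    intro x hx n hn
    rw [Finset.mem_image] at hx
    obtain ⟨α, hα, rfl⟩ := hx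
    exact hfz α hα n hn
  · intro m hm v hv hvz x₀ Q hQ hQx
    obtain ⟨𝒜', h𝒜'⟩ : ∃ 𝒜', 𝒜' = 𝒜.filter (fun α => t α ∈ Q) := ⟨_, rfl⟩
    have hs' : 𝒜' ⊆ 𝒜 := by rw [h𝒜']; exact Finset.filter_subset _ _
    have hQc : Q.card ≤ 𝒜'.card := by
      have h1 : Q ⊆ 𝒜'.image t := by
        intro x hx
        obtain ⟨α, hα, rfl⟩ := Finset.mem_image.mp (hQ hx)
        exact Finset.mem_image_of_mem _ (by rw [h𝒜']; exact Finset.mem_filter.mpr ⟨hα, hx⟩)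
      exact (Finset.card_le_card h1).trans Finset.card_image_le
    refine hQc.trans ?_
    have hUm : U m ≤ ∑ m ∈ range (s + 1), U m :=
      Finset.single_le_sum (f := U) (fun _ _ => Nat.zero_le _) (Finset.mem_range.mpr hm)
    refine le_trans ?_ (Nat.pow_le_pow_right hZ1 hUm)
    obtain ⟨L, hL⟩ : ∃ L : (Fin (s + 1) → ℚ) →ₗ[ℚ] (Fin ℓ → ℚ),
      L = Fintype.linearCombination ℚ (fun (j : Fin (s + 1)) (i : Fin ℓ) => (e j i : ℚ)) :=
      ⟨_, rfl⟩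
    have hLa : ∀ x i, L x i = ∑ j, x j * e j i := by
      intro x i
      rw [hL, Fintype.linearCombination_apply, Finset.sum_apply]
      rfl
    have hLinj : LinearMap.ker L = ⊥ := by
      rw [hL]
      exact LinearMap.ker_eq_bot.mpr
        (linearIndependent_iff_injective_fintypeLinearCombination.mp he)
    have hLe : (fun (k : Fin m) (i : Fin ℓ) => ((∑ j, v k j * e j i : ℤ) : ℚ)) =
        L ∘ fun k => qv (v k) := by
      funext k i
      rw [Function.comp_apply, hLa]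
      simp [qv]
    refine hU m hm h hpb hZ hpZ hℓZ (by omega) hDZ (𝒜 := 𝒜')
      (h𝒜.mono hs' (Nat.pow_le_pow_right hZ1 (by omega)))
      (e := fun k i => ∑ j, v k j * e j i) ?_ ?_ ?_ (fun i => (α₀ i : ℚ) / b + L x₀ i) ?_
    · rw [hLe]
      exact hv.map' L hLinj
    · intro k
      rw [Finset.sum_comm]
      refine Finset.sum_eq_zero fun j _ => ?_
      rw [← Finset.mul_sum, hes, mul_zero]
    · intro k i
      calc |∑ j, v k j * e j i| ≤ ∑ j, |v k j * e j i| := Finset.abs_sum_le_sum_abs _ _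
        _ ≤ ∑ j : Fin (s + 1), (Z : ℤ) ^ ww (s + 1) hh * (Z : ℤ) ^ hh := by
          refine Finset.sum_le_sum fun j _ => ?_
          rw [abs_mul]
          have h1 : |v k j| ≤ (Z : ℤ) ^ ww (s + 1) hh := (hvz k j).trans (by exact_mod_cast hzc)
          have h2 := heZ j i
          have h3 : 0 ≤ |e j i| := abs_nonneg _
          gcongr
        _ = ((s + 1 : ℕ) : ℤ) * ((Z : ℤ) ^ ww (s + 1) hh * (Z : ℤ) ^ hh) := by
          rw [Finset.sum_const, Finset.card_univ, Fintype.card_fin, nsmul_eq_mul]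
        _ ≤ (Z : ℤ) * ((Z : ℤ) ^ ww (s + 1) hh * (Z : ℤ) ^ hh) := by
          gcongr
          omega
        _ = (Z : ℤ) ^ (ww (s + 1) hh + hh + 1) := by rw [pow_add, pow_add]; ring
    · intro α hα
      have hα1 : α ∈ 𝒜 := hs' hα
      have hα2 : t α ∈ Q := by
        rw [h𝒜'] at hα
        exact (Finset.mem_filter.mp hα).2
      obtain ⟨n, hn⟩ := hQx _ hα2
      refine ⟨fun i => g α i + ∑ j, n j * e j i, ?_⟩
      rw [hLe, Set.range_comp, ← Submodule.map_span]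
      refine ⟨_, hn, ?_⟩
      funext i
      have h1 := ht α hα1 i
      rw [map_sub, map_add, Pi.sub_apply, Pi.add_apply, hLa (t α), hLa (qv n)]
      simp only [qv]
      push_cast
      linarith

end GamE
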