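import Pool.Agent.GamE.DRL
import Pool.Agent.GamP.PropM

/-!
# The auxiliary function is small everywhere if it is small on a box

PROOF. For a finite set `S` of indices let `P(S)`: for every `z` such that for each `ι ∉ S` there is a natural number
`t < 2 p^4 L` with `z ι = t`, `p^(2L) ∣ G3 z`. `P(∅)` is `hL`. `P(S) → P(insert ι₀ S)`: let `z` be given, write
`z ι₀ = a + 2 p^4 w`, `a < 2 p^4` (`exists_res` of `GamP/PropM`). Let `g(w') = G3 (Function.update z ι₀ (a + 2 p^4 w'))`. `g` is
continuous (`ep_cont` of `GamP/Bin`, `Γ` is continuous), and `t ↦ g t` is in the class `DR (p^2)`: `DR.sum`, `DR.mul`,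
`DR.const`, `DR.pow`, `DR.prod` (GamP/Diff2), `DR_epa` for the factor of `ι₀` (the others are constant), `DR_gammaL` with
`lam = lam i ι₀` for the factors of `UU`. For `t < L` the point `a + 2 p^4 t` is a natural number `< 2 p^4 L`, so
`p^(2L) ∣ g t` by `P(S)`. By `small2` (GamP/Zero2) `p^(2L) ∣ g w = G3 z`.
-/

namespace GamE

open Finset Polynomial GamP

variable {p : ℕ} [Fact p.Prime] {Γ : ℤ_[p] → ℤ_[p]}

private theorem sum_update {r : ℕ} (lam : Fin r → ℤ_[p]) (z : Fin r → ℤ_[p]) (i₀ : Fin r)
    (v : ℤ_[p]) : ∑ i, lam i * Function.update z i₀ v i =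
      lam i₀ * v + ∑ i ∈ univ.erase i₀, lam i * z i := by
  rw [← add_sum_erase _ _ (mem_univ i₀), Function.update_self]
  congr 1
  refine sum_congr rfl fun i hi => ?_
  rw [Function.update_of_ne (ne_of_mem_erase hi)]

theorem G3_small (h : IsMorita p Γ) {r ℓ : ℕ} (μ : Fin ℓ → ℤ_[p]) (lam : Fin ℓ → Fin r → ℤ_[p])
    (T₁ T₂ : ℕ) (c : (Fin r → Fin T₁) × Fin T₂ → ℤ) (L : ℕ)
    (hL : ∀ t : Fin r → Fin (2 * p ^ 4 * L), (p : ℤ_[p]) ^ (2 * L) ∣
      G3 p Γ μ lam T₁ T₂ c (fun ι => ((t ι : ℕ) : ℤ_[p]))) (z : Fin r → ℤ_[p]) :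
    (p : ℤ_[p]) ^ (2 * L) ∣ G3 p Γ μ lam T₁ T₂ c z := by
  classical
  have hΓ := h.1
  have hcont : Continuous (G3 p Γ μ lam T₁ T₂ c) := by
    unfold G3 UU
    refine continuous_finsetSum _ fun i _ => ?_
    refine (continuous_const.mul (continuous_finsetProd _ fun ι _ => ?_)).mul
      ((continuous_finsetProd _ fun j _ => ?_).pow _)
    · exact (ep_cont _).comp (continuous_apply ι)
    · refine hΓ.comp (continuous_const.mul (continuous_const.add ?_))
      exact continuous_finsetSum _ fun ι _ => continuous_const.mul (continuous_apply ι)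
  have key : ∀ S : Finset (Fin r), ∀ z : Fin r → ℤ_[p],
      (∀ ι, ι ∉ S → ∃ t : ℕ, t < 2 * p ^ 4 * L ∧ z ι = (t : ℤ_[p])) →
      (p : ℤ_[p]) ^ (2 * L) ∣ G3 p Γ μ lam T₁ T₂ c z := by
    intro S
    induction S using Finset.induction_on with
    | empty =>
      intro z hz
      choose t ht htz using fun ι => hz ι (notMem_empty ι)
      have h1 := hL (fun ι => ⟨t ι, ht ι⟩)
      have h2 : z = fun ι => ((t ι : ℕ) : ℤ_[p]) := funext htz
      rw [h2]
      exact h1
    | insert ι₀ S hι₀ ih =>
      intro z hz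
      obtain ⟨a, ha, w, haw⟩ := exists_res (z ι₀)
      have hz0 : Function.update z ι₀ ((a : ℤ_[p]) + 2 * (p : ℤ_[p]) ^ 4 * w) = z := by
        rw [← haw, Function.update_eq_self]
      rw [← hz0]
      refine small2 (G := fun w' => G3 p Γ μ lam T₁ T₂ c
        (Function.update z ι₀ ((a : ℤ_[p]) + 2 * (p : ℤ_[p]) ^ 4 * w'))) ?_ ?_ L ?_ w
      · refine hcont.comp (continuous_const.update ι₀ ?_)
        fun_prop
      · unfold G3 UU
        refine DR.sum _ _ fun i _ => ?_
        refine DR.mul (DR.mul (DR.const _ _) (DR.prod _ _ fun ι _ => ?_))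
          (DR.pow (DR.prod _ _ fun j _ => ?_) _)
        · by_cases hι : ι = ι₀
          · subst hι
            simp only [Function.update_self]
            exact DR_epa _ _
          · simp only [Function.update_of_ne hι]
            exact DR.const _ _
        · have h1 := DR_gammaL h (μ j + (lam j ι₀ * a + ∑ ι ∈ univ.erase ι₀, lam j ι * z ι))
            (lam j ι₀)
          have h2 : (fun t : ℕ => Γ (p * (μ j + ∑ ι, lam j ι *
              Function.update z ι₀ ((a : ℤ_[p]) + 2 * (p : ℤ_[p]) ^ 4 * (t : ℤ_[p])) ι))) =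
              (fun t : ℕ => Γ (p * (2 * (p : ℤ_[p]) ^ 4 * (lam j ι₀ * (t : ℤ_[p])) +
                (μ j + (lam j ι₀ * a + ∑ ι ∈ univ.erase ι₀, lam j ι * z ι))))) := by
            funext t
            rw [sum_update]
            congr 1
            ring
          rw [h2]
          exact h1
      · intro t ht
        refine ih _ fun ι hι => ?_
        by_cases hιι : ι = ι₀
        · subst hιι
          refine ⟨a + 2 * p ^ 4 * t, ?_, ?_⟩
          · calc a + 2 * p ^ 4 * t < 2 * p ^ 4 + 2 * p ^ 4 * t := by omega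
              _ = 2 * p ^ 4 * (t + 1) := by ring
              _ ≤ 2 * p ^ 4 * L := Nat.mul_le_mul_left _ ht
          · rw [Function.update_self]
            push_cast
            ring
        · rw [Function.update_of_ne hιι]
          exact hz ι (by
            rw [mem_insert]
            rintro (h1 | h1)
            · exact hιι h1
            · exact hι h1)
  exact key univ z fun ι hι => absurd (mem_univ ι) hι

end GamE
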