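import Pool.Agent.GamE.Affine
import Pool.Agent.GamE.Box

/-!
# The points on the bad primes

PROOF. Put `X = 3^(r r) r^r d^j`. Let `R` be the set of the `𝔫 ∈ B j` for which there are `x ∈ Q`, `n` with
`∀ g ∈ 𝔫, eval (x + qv n) g = 0`. For `𝔫 ∈ R` let `G` be the subgroup `{γ | sh γ 𝔫 = 𝔫}` (`sh_sh`, `sh_zero`). Apply `box_lemma` with
`k = j`: `hfew`: for `T` as there the ideals `sh γ 𝔫`, `γ ∈ T`, are distinct (`sh γ 𝔫 = sh γ' 𝔫 → γ - γ' ∈ G`), so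
`T.card ≤ X` by `h.bfew`. `hrk`: if `v_1..v_m ∈ G` are independent then `tr (qv v_i)` maps `𝔫` to itself, so
`m ≤ dj 𝔫 = r - j` by `stab_affine`. So we get `T_𝔫` with `(M+1)^j` elements and `v : Fin (r - j) → ..` in `G`, independent,
`|v i l| (M+1)^j ≤ X ≤ c (M+1)^j`, so `|v i l| ≤ c`.
(1) The points of `Q` on (a translate of) `𝔫`: let `x₀ + n₀` be a zero of `𝔫`, as above. For every other zero `x + n` we
have `x + n - (x₀ + n₀) ∈ span v` (second part of `stab_affine`, `dj 𝔫 = r - j`). So by `hF` at most `F` elements `x` of `Q` have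
some `n` such that `x + n` is a zero of `𝔫`.
(2) `R.card ≤ c`: the ideals `sh γ 𝔫`, `𝔫 ∈ R`, `γ ∈ T_𝔫`, are pairwise distinct (for different `𝔫` by `h.bineq`: `sh γ 𝔫 = sh γ' 𝔫'` gives
`sh (γ - γ') 𝔫 = 𝔫'`), so `R.card * (M+1)^j ≤ X ≤ c (M+1)^j` by `h.bfew`.
-/

namespace GamE

open MvPolynomial Finset

/-- the stabilizer of an ideal -/
private noncomputable def stb {r : ℕ} (𝔫 : Ideal (RR r)) : AddSubgroup (Fin r → ℤ) where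
  carrier := {γ | sh γ 𝔫 = 𝔫}
  add_mem' := by
    intro a b ha hb
    show sh (a + b) 𝔫 = 𝔫
    rw [← sh_sh, show sh b 𝔫 = 𝔫 from hb, show sh a 𝔫 = 𝔫 from ha]
  zero_mem' := sh_zero 𝔫
  neg_mem' := by
    intro a ha
    show sh (-a) 𝔫 = 𝔫
    conv_lhs => rw [← show sh a 𝔫 = 𝔫 from ha]
    rw [sh_sh, neg_add_cancel, sh_zero]

private theorem sh_sub {r : ℕ} {γ γ' : Fin r → ℤ} {𝔫 𝔫' : Ideal (RR r)}
    (h : sh γ 𝔫 = sh γ' 𝔫') : sh (γ - γ') 𝔫 = 𝔫' := by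
  have h1 := congrArg (sh (-γ')) h
  rw [sh_sh, sh_sh, neg_add_cancel, sh_zero] at h1
  rw [sub_eq_neg_add]
  exact h1

private theorem per_ideal {r : ℕ} {f : RR r} {d M j c F : ℕ} {P : Finset (Ideal (RR r))}
    {B : ℕ → Finset (Ideal (RR r))} (h : Stage f d M r P B) (hj1 : 1 ≤ j) (hjr : j ≤ r)
    (hX : 3 ^ (r * r) * r ^ r * d ^ j < (M + 1) ^ (j + 1))
    (hc : 3 ^ (r * r) * r ^ r * d ^ j ≤ c * (M + 1) ^ j) (Q : Finset (Fin r → ℚ))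
    (hF : ∀ v : Fin (r - j) → Fin r → ℤ, LinearIndependent ℚ (fun i => qv (v i)) →
      (∀ i l, |v i l| ≤ (c : ℤ)) → ∀ x₀ : Fin r → ℚ, ∀ Q' ⊆ Q,
      (∀ x ∈ Q', ∃ n : Fin r → ℤ, x + qv n - x₀ ∈
        Submodule.span ℚ (Set.range fun i => qv (v i))) → Q'.card ≤ F)
    {𝔫 : Ideal (RR r)} (hn : 𝔫 ∈ B j) (x₀ : Fin r → ℚ) (hx₀ : ∀ g ∈ 𝔫, eval x₀ g = 0) :
    (∃ T : Finset (Fin r → ℤ), T.card = (M + 1) ^ j ∧ (∀ γ ∈ T, ∀ i, 0 ≤ γ i ∧ γ i ≤ M) ∧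
      ∀ γ ∈ T, ∀ γ' ∈ T, sh γ 𝔫 = sh γ' 𝔫 → γ = γ') ∧
    ∀ Q' ⊆ Q, (∀ x ∈ Q', ∃ n : Fin r → ℤ, ∀ g ∈ 𝔫, eval (x + qv n) g = 0) → Q'.card ≤ F := by
  classical
  obtain ⟨hprime, hdj⟩ := h.bprime j hj1 hjr 𝔫 hn
  have hst : ∀ γ ∈ stb 𝔫, ∀ f ∈ 𝔫, tr (qv γ) f ∈ 𝔫 := by
    intro γ hγ f hf
    have h1 : sh γ 𝔫 = 𝔫 := hγ
    rw [← h1] at hf
    exact hf
  obtain ⟨⟨T, hT1, hT2, hT3⟩, v, hv1, hv2, hv3⟩ := box_lemma (k := j) (M := M)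
    (X := 3 ^ (r * r) * r ^ r * d ^ j) (stb 𝔫) hjr (by
      intro T hT hinj
      have h1 : (T.image fun γ => sh γ 𝔫).card = T.card := by
        refine Finset.card_image_of_injOn ?_
        intro γ hγ γ' hγ' hγγ
        exact hinj γ hγ γ' hγ' (sh_sub hγγ)
      rw [← h1]
      refine h.bfew j hj1 hjr _ ?_
      intro 𝔡 h𝔡
      rw [Finset.mem_image] at h𝔡
      obtain ⟨γ, hγ, rfl⟩ := h𝔡
      exact ⟨𝔫, hn, γ, hT γ hγ, rfl⟩) hX (by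
      intro m v hv hind
      have h1 := (stab_affine hprime hind (fun i => hst _ (hv i)) hx₀).1
      omega)
  refine ⟨⟨T, hT1, hT2, fun γ hγ γ' hγ' he => hT3 γ hγ γ' hγ' (sh_sub he)⟩, ?_⟩
  intro Q' hQ' hz
  refine hF v hv2 (fun i l => ?_) x₀ Q' hQ' fun x hx => ?_
  · have h1 := hv3 i l
    have h2 : ((3 ^ (r * r) * r ^ r * d ^ j : ℕ) : ℤ) ≤ (c : ℤ) * ((M : ℤ) + 1) ^ j := by
      exact_mod_cast hc
    have h3 : (0 : ℤ) < ((M : ℤ) + 1) ^ j := by positivity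
    exact le_of_mul_le_mul_right (h1.trans h2) h3
  · obtain ⟨n, hn⟩ := hz x hx
    refine ⟨n, ?_⟩
    exact (stab_affine hprime hv2 (fun i => hst _ (hv1 i)) hx₀).2 (by omega) _ hn

theorem bad_points {r : ℕ} {f : RR r} {d M j c F : ℕ} {P : Finset (Ideal (RR r))}
    {B : ℕ → Finset (Ideal (RR r))} (h : Stage f d M r P B) (hj1 : 1 ≤ j) (hjr : j ≤ r)
    (hX : 3 ^ (r * r) * r ^ r * d ^ j < (M + 1) ^ (j + 1))
    (hc : 3 ^ (r * r) * r ^ r * d ^ j ≤ c * (M + 1) ^ j) (Q : Finset (Fin r → ℚ))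
    (hF : ∀ v : Fin (r - j) → Fin r → ℤ, LinearIndependent ℚ (fun i => qv (v i)) →
      (∀ i l, |v i l| ≤ (c : ℤ)) → ∀ x₀ : Fin r → ℚ, ∀ Q' ⊆ Q,
      (∀ x ∈ Q', ∃ n : Fin r → ℤ, x + qv n - x₀ ∈
        Submodule.span ℚ (Set.range fun i => qv (v i))) → Q'.card ≤ F)
    (hQ : ∀ x ∈ Q, ∃ n : Fin r → ℤ, ∃ 𝔫 ∈ B j, ∀ g ∈ 𝔫, eval (x + qv n) g = 0) :
    Q.card ≤ c * F := by
  classical
  obtain ⟨R, hR⟩ : ∃ R : Finset (Ideal (RR r)), R = (B j).filter fun 𝔫 =>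
      ∃ x ∈ Q, ∃ n : Fin r → ℤ, ∀ g ∈ 𝔫, eval (x + qv n) g = 0 := ⟨_, rfl⟩
  have hRmem : ∀ 𝔫 ∈ R, 𝔫 ∈ B j ∧ ∃ x₀ : Fin r → ℚ, ∀ g ∈ 𝔫, eval x₀ g = 0 := by
    intro 𝔫 hn
    rw [hR, Finset.mem_filter] at hn
    obtain ⟨hB, x, -, n, hx⟩ := hn
    exact ⟨hB, _, hx⟩
  have hper : ∀ 𝔫 ∈ R, (∃ T : Finset (Fin r → ℤ), T.card = (M + 1) ^ j ∧
      (∀ γ ∈ T, ∀ i, 0 ≤ γ i ∧ γ i ≤ M) ∧
      ∀ γ ∈ T, ∀ γ' ∈ T, sh γ 𝔫 = sh γ' 𝔫 → γ = γ') ∧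
      ∀ Q' ⊆ Q, (∀ x ∈ Q', ∃ n : Fin r → ℤ, ∀ g ∈ 𝔫, eval (x + qv n) g = 0) →
        Q'.card ≤ F := by
    intro 𝔫 hn
    obtain ⟨hB, x₀, hx₀⟩ := hRmem 𝔫 hn
    exact per_ideal h hj1 hjr hX hc Q hF hB x₀ hx₀
  have hTex : ∀ 𝔫 : Ideal (RR r), ∃ T : Finset (Fin r → ℤ), 𝔫 ∈ R → T.card = (M + 1) ^ j ∧
      (∀ γ ∈ T, ∀ i, 0 ≤ γ i ∧ γ i ≤ M) ∧
      ∀ γ ∈ T, ∀ γ' ∈ T, sh γ 𝔫 = sh γ' 𝔫 → γ = γ' := by
    intro 𝔫
    by_cases hn : 𝔫 ∈ R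
    · obtain ⟨T, hT⟩ := (hper 𝔫 hn).1
      exact ⟨T, fun _ => hT⟩
    · exact ⟨∅, fun h' => absurd h' hn⟩
  choose T hT using hTex
  -- (2)
  have hRc : R.card ≤ c := by
    obtain ⟨D, hD⟩ : ∃ D : Finset (Ideal (RR r)), D = R.biUnion fun 𝔫 =>
        (T 𝔫).image fun γ => sh γ 𝔫 := ⟨_, rfl⟩
    have hDc : D.card = R.card * (M + 1) ^ j := by
      rw [hD, Finset.card_biUnion]
      · rw [Finset.sum_congr rfl (g := fun _ => (M + 1) ^ j), Finset.sum_const, smul_eq_mul]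
        intro 𝔫 hn
        rw [Finset.card_image_of_injOn, (hT 𝔫 hn).1]
        intro γ hγ γ' hγ' he
        exact (hT 𝔫 hn).2.2 γ hγ γ' hγ' he
      · intro 𝔫 hn 𝔫' hn' hne
        rw [Function.onFun, Finset.disjoint_left]
        intro 𝔡 h1 h2
        rw [Finset.mem_image] at h1 h2
        obtain ⟨γ, hγ, h1⟩ := h1
        obtain ⟨γ', hγ', h2⟩ := h2
        apply hne
        exact h.bineq j hj1 hjr 𝔫 (hRmem 𝔫 hn).1 𝔫' (hRmem 𝔫' hn').1 (γ - γ')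
          (sh_sub (h1.trans h2.symm))
    have hDX : D.card ≤ 3 ^ (r * r) * r ^ r * d ^ j := by
      refine h.bfew j hj1 hjr D ?_
      intro 𝔡 h𝔡
      rw [hD, Finset.mem_biUnion] at h𝔡
      obtain ⟨𝔫, hn, h1⟩ := h𝔡
      rw [Finset.mem_image] at h1
      obtain ⟨γ, hγ, h1⟩ := h1
      exact ⟨𝔫, (hRmem 𝔫 hn).1, γ, (hT 𝔫 hn).2.1 γ hγ, h1.symm⟩
    rw [hDc] at hDX
    exact le_of_mul_le_mul_right (hDX.trans hc) (by positivity)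
  -- (1)
  have hcov : Q ⊆ R.biUnion fun 𝔫 => Q.filter fun x =>
      ∃ n : Fin r → ℤ, ∀ g ∈ 𝔫, eval (x + qv n) g = 0 := by
    intro x hx
    obtain ⟨n, 𝔫, hn, hz⟩ := hQ x hx
    rw [Finset.mem_biUnion]
    refine ⟨𝔫, ?_, Finset.mem_filter.2 ⟨hx, n, hz⟩⟩
    rw [hR, Finset.mem_filter]
    exact ⟨hn, x, hx, n, hz⟩
  calc Q.card ≤ (R.biUnion fun 𝔫 => Q.filter fun x =>
        ∃ n : Fin r → ℤ, ∀ g ∈ 𝔫, eval (x + qv n) g = 0).card := Finset.card_le_card hcov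
    _ ≤ R.card * F := by
        refine Finset.card_biUnion_le_card_mul _ _ _ fun 𝔫 hn => ?_
        refine (hper 𝔫 hn).2 _ (Finset.filter_subset _ _) fun x hx => ?_
        exact (Finset.mem_filter.1 hx).2
    _ ≤ c * F := Nat.mul_le_mul_right _ hRc

end GamE
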