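import Mathlib

/-!
# Zero estimate for unions of translates of the lattice `ℤ^r` in `ℚ^r`: definitions

See `Pool/Agent/GamE/BLUEPRINT.md`.
-/

namespace GamE

open MvPolynomial Finset

/-- polynomials in `r` variables -/
abbrev RR (r : ℕ) : Type := MvPolynomial (Fin r) ℚ

/-- translation `f(z) ↦ f(z + γ)` -/
noncomputable def tr {r : ℕ} (γ : Fin r → ℚ) : RR r →ₐ[ℚ] RR r := aeval (fun i => X i + C (γ i))

/-- integral vectors as rational ones -/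
def qv {r : ℕ} (γ : Fin r → ℤ) : Fin r → ℚ := fun i => (γ i : ℚ)

/-- The Hilbert function of an ideal: the dimension of the space of the polynomials of total degree at
most `t` modulo `I`. -/
noncomputable def hf {r : ℕ} (I : Ideal (RR r)) (t : ℕ) : ℕ :=
  Module.finrank ℚ ((restrictTotalDegree (Fin r) ℚ t).map (Ideal.Quotient.mkₐ ℚ I).toLinearMap)

/-- the variables in `J` are algebraically independent modulo `I` -/
def Ind {r : ℕ} (I : Ideal (RR r)) (J : Finset (Fin r)) : Prop :=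
  ∀ f ∈ supported ℚ (J : Set (Fin r)), f ∈ I → f = 0

open Classical in
/-- the dimension: the largest number of variables which are algebraically independent modulo `I` -/
noncomputable def dj {r : ℕ} (I : Ideal (RR r)) : ℕ :=
  ((univ : Finset (Finset (Fin r))).filter (Ind I)).sup card

/-- the translate of an ideal: the zero set is moved by `+ γ` -/
noncomputable def sh {r : ℕ} (γ : Fin r → ℤ) (I : Ideal (RR r)) : Ideal (RR r) :=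
  I.comap (tr (qv γ))

/-- the ideal generated by the translates of `f` by the integral vectors of the box `[0, K]^r` -/
noncomputable def JJ {r : ℕ} (f : RR r) (K : ℕ) : Ideal (RR r) :=
  Ideal.span {h | ∃ γ : Fin r → ℤ, (∀ i, 0 ≤ γ i ∧ γ i ≤ K) ∧ h = tr (qv γ) f}

/-- The `k`-th stage of the chain: `P` is a finite set of primes of dimension `r - k`, `B j` is the
finite set of the bad primes of dimension `r - j`, `1 ≤ j ≤ k`. -/
structure Stage {r : ℕ} (f : RR r) (d M k : ℕ) (P : Finset (Ideal (RR r)))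
    (B : ℕ → Finset (Ideal (RR r))) : Prop where
  prime : ∀ 𝔭 ∈ P, 𝔭.IsPrime ∧ dj 𝔭 + k = r
  notle : ∀ 𝔭 ∈ P, ¬ JJ f (k * M) ≤ 𝔭
  hil : ∀ t, hf (P.inf id) t ≤ 3 ^ (r * k) * d ^ k * (t + d) ^ (r - k)
  bprime : ∀ j, 1 ≤ j → j ≤ k → ∀ 𝔫 ∈ B j, 𝔫.IsPrime ∧ dj 𝔫 + j = r
  bineq : ∀ j, 1 ≤ j → j ≤ k → ∀ 𝔫 ∈ B j, ∀ 𝔫' ∈ B j, ∀ γ : Fin r → ℤ, sh γ 𝔫 = 𝔫' → 𝔫 = 𝔫'
  bfew : ∀ j, 1 ≤ j → j ≤ k → ∀ D : Finset (Ideal (RR r)),
    (∀ 𝔡 ∈ D, ∃ 𝔫 ∈ B j, ∃ γ : Fin r → ℤ, (∀ i, 0 ≤ γ i ∧ γ i ≤ M) ∧ 𝔡 = sh γ 𝔫) →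
    D.card ≤ 3 ^ (r * r) * r ^ r * d ^ j
  cov : ∀ 𝔮 : Ideal (RR r), 𝔮.IsPrime → JJ f ((k - 1) * M) ≤ 𝔮 →
    P.inf id ≤ 𝔮 ∨ ∃ j, 1 ≤ j ∧ j ≤ k ∧ ∃ 𝔫 ∈ B j, ∃ γ : Fin r → ℤ, sh γ 𝔫 ≤ 𝔮

end GamE
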