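import Pool.Agent.GamE.HF2

/-!
# The number of the isolated points

PROOF. For `x ∈ Q`, `n ∈ [0,M]^r` let `𝔪_(x,n) = ker (eval (x + qv n))`, a prime (maximal) ideal which contains `P.inf id` by
`hV`. The points `x + qv n` are pairwise distinct (`hQ`), so these ideals are pairwise distinct and incomparable
(`X i - C (x i + n i)` is in one and not in the other). `prime_count` with `δ = 0`, `J = ∅` (`Ind 𝔪 ∅`: `supported ℚ ∅` are the
constants), `K = 3^(r r) d^r`, by `h.hil` (`r - r = 0`).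
-/

namespace GamE

open MvPolynomial Finset

private theorem ker_eval_le {r : ℕ} {a b : Fin r → ℚ}
    (h : RingHom.ker (eval a : RR r →+* ℚ) ≤ RingHom.ker (eval b : RR r →+* ℚ)) : a = b := by
  funext i
  have h1 : (X i - C (a i) : RR r) ∈ RingHom.ker (eval a : RR r →+* ℚ) := by
    rw [RingHom.mem_ker, map_sub, eval_X, eval_C, sub_self]
  have h2 := RingHom.mem_ker.1 (h h1)
  rw [map_sub, eval_X, eval_C, sub_eq_zero] at h2
  exact h2.symm

theorem good_points {r : ℕ} {f : RR r} {d M : ℕ} {P : Finset (Ideal (RR r))}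
    {B : ℕ → Finset (Ideal (RR r))} (h : Stage f d M r P B) (Q : Finset (Fin r → ℚ))
    (hQ : ∀ x ∈ Q, ∀ y ∈ Q, (∃ n : Fin r → ℤ, x - y = qv n) → x = y)
    (hV : ∀ x ∈ Q, ∀ n : Fin r → ℤ, (∀ i, 0 ≤ n i ∧ n i ≤ M) →
      ∀ g ∈ P.inf id, eval (x + qv n) g = 0) :
    Q.card * (M + 1) ^ r ≤ 3 ^ (r * r) * d ^ r := by
  classical
  let box : Finset (Fin r → ℤ) := Fintype.piFinset (fun _ => Finset.Icc (0 : ℤ) M)
  have hbox : ∀ n, n ∈ box ↔ ∀ i, 0 ≤ n i ∧ n i ≤ M := by
    intro n
    simp only [box, Fintype.mem_piFinset, Finset.mem_Icc]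
  have hboxc : box.card = (M + 1) ^ r := by
    simp only [box, Fintype.card_piFinset, Int.card_Icc, Finset.prod_const, Finset.card_univ,
      Fintype.card_fin]
    congr 1
  let φ : (Fin r → ℚ) × (Fin r → ℤ) → Ideal (RR r) :=
    fun z => RingHom.ker (eval (z.1 + qv z.2) : RR r →+* ℚ)
  let D : Finset (Ideal (RR r)) := (Q ×ˢ box).image φ
  have hinj : Set.InjOn φ (Q ×ˢ box : Finset _) := by
    rintro ⟨x, n⟩ hx ⟨y, m⟩ hy hxy
    rw [Finset.mem_coe, Finset.mem_product] at hx hy
    have h1 : x + qv n = y + qv m := ker_eval_le (le_of_eq hxy)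
    have h2 : x = y := by
      apply hQ x hx.1 y hy.1
      refine ⟨m - n, ?_⟩
      funext i
      have h3 := congrFun h1 i
      simp only [Pi.add_apply, qv] at h3
      simp only [Pi.sub_apply, qv]
      push_cast
      linarith
    subst h2
    have h3 : n = m := by
      funext i
      have h4 := congrFun h1 i
      simp only [Pi.add_apply, qv] at h4
      exact_mod_cast add_left_cancel h4
    rw [h3]
  have hDc : D.card = Q.card * (M + 1) ^ r := by
    rw [Finset.card_image_of_injOn hinj, Finset.card_product, hboxc]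
  have hc := prime_count (I := P.inf id) D
    (by
      intro 𝔮 h𝔮
      obtain ⟨z, -, rfl⟩ := Finset.mem_image.1 h𝔮
      exact RingHom.ker_isPrime _)
    (by
      intro 𝔮 h𝔮 𝔮' h𝔮' hne hle
      obtain ⟨z, -, rfl⟩ := Finset.mem_image.1 h𝔮
      obtain ⟨z', -, rfl⟩ := Finset.mem_image.1 h𝔮'
      apply hne
      have := ker_eval_le hle
      change RingHom.ker _ = RingHom.ker _
      rw [this])
    (by
      intro 𝔮 h𝔮 g hg
      obtain ⟨⟨x, n⟩, hz, rfl⟩ := Finset.mem_image.1 h𝔮
      rw [Finset.mem_product] at hz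
      exact RingHom.mem_ker.2 (hV x hz.1 n ((hbox n).1 hz.2) g hg))
    (δ := 0)
    (by
      intro 𝔮 h𝔮
      obtain ⟨z, -, rfl⟩ := Finset.mem_image.1 h𝔮
      refine ⟨∅, Finset.card_empty, ?_⟩
      intro g hg hgk
      rw [Finset.coe_empty, supported_empty, Algebra.mem_bot] at hg
      obtain ⟨c, rfl⟩ := hg
      have h1 := RingHom.mem_ker.1 hgk
      rw [algebraMap_eq, eval_C] at h1
      rw [h1, map_zero])
    (K := 3 ^ (r * r) * d ^ r) (d := d)
    (by
      intro t
      have h1 := h.hil t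
      rwa [Nat.sub_self] at h1)
  rw [hDc, pow_zero, mul_one] at hc
  exact hc

end GamE
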