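import Pool.Agent.GamE.ChainA
import Pool.Agent.GamE.ChainC
import Pool.Agent.GamE.ZGood
import Pool.Agent.GamE.ZBad

/-!
# The zero estimate (owner: helper7)
-/

namespace GamE

open MvPolynomial Finset

theorem exists_chain {r : ℕ} {f : RR r} (hf0 : f ≠ 0) {d : ℕ} (hd : 1 ≤ d)
    (hfd : f.totalDegree ≤ d) (M : ℕ) (k : ℕ) (hk : k ≤ r) :
    ∃ (P : Finset (Ideal (RR r))) (B : ℕ → Finset (Ideal (RR r))), Stage f d M k P B := by
  induction k with
  | zero =>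
    obtain ⟨B, hB⟩ := stage_zero hf0 hd M
    exact ⟨_, B, hB⟩
  | succ k ih =>
    obtain ⟨P, B, hB⟩ := ih (by omega)
    exact stage_succ hd hfd (by omega) hB

/-- the constant of the zero estimate -/
def zc (r A : ℕ) : ℕ := 3 ^ (r * r) * r ^ r * (r + 1) ^ r * A ^ r

private theorem zc_bound {r A j N M : ℕ} (hr : 1 ≤ r) (hA : 1 ≤ A) (hj : j ≤ r)
    (hN : N ≤ (M + 1) * (r + 1)) :
    3 ^ (r * r) * r ^ r * (A * N) ^ j ≤ zc r A * (M + 1) ^ j := by
  have h1 : (A * N) ^ j ≤ A ^ r * (r + 1) ^ r * (M + 1) ^ j := by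
    calc (A * N) ^ j ≤ (A * ((M + 1) * (r + 1))) ^ j := by gcongr
      _ = A ^ j * (r + 1) ^ j * (M + 1) ^ j := by rw [mul_pow, mul_pow]; ring
      _ ≤ A ^ r * (r + 1) ^ r * (M + 1) ^ j := by
        gcongr
        · omega
  calc 3 ^ (r * r) * r ^ r * (A * N) ^ j ≤
      3 ^ (r * r) * r ^ r * (A ^ r * (r + 1) ^ r * (M + 1) ^ j) := by gcongr
    _ = zc r A * (M + 1) ^ j := by unfold zc; ring

theorem zero_estimate {r : ℕ} (hr : 1 ≤ r) {A : ℕ} (hA : 1 ≤ A) (Pts : Finset (Fin r → ℚ))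
    (hP : ∀ x ∈ Pts, ∀ y ∈ Pts, (∃ n : Fin r → ℤ, x - y = qv n) → x = y)
    (hf : ∀ N₀ : ℕ, ∃ N, N₀ ≤ N ∧ ∃ f : RR r, f ≠ 0 ∧ f.totalDegree ≤ A * N ∧
      ∀ x ∈ Pts, ∀ n : Fin r → ℤ, (∀ i, 0 ≤ n i ∧ n i < N) → eval (x + qv n) f = 0) {F : ℕ}
    (hF : ∀ m < r, ∀ v : Fin m → Fin r → ℤ, LinearIndependent ℚ (fun i => qv (v i)) →
      (∀ i l, |v i l| ≤ (zc r A : ℤ)) → ∀ x₀ : Fin r → ℚ, ∀ Q ⊆ Pts,
      (∀ x ∈ Q, ∃ n : Fin r → ℤ, x + qv n - x₀ ∈
        Submodule.span ℚ (Set.range fun i => qv (v i))) → Q.card ≤ F) :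
    Pts.card ≤ zc r A * (1 + r * F) := by
  classical
  obtain ⟨N, hN0, f, hf0, hfd, hfz⟩ := hf ((r + 1) * (zc r A + 2))
  obtain ⟨M, hM⟩ : ∃ M, M = (N - 1) / (r + 1) := ⟨_, rfl⟩
  have hNpos : 1 ≤ N := le_trans (by nlinarith [Nat.zero_le (zc r A)]) hN0
  have hN1 : N ≤ (M + 1) * (r + 1) := by
    have := Nat.lt_mul_div_succ (N - 1) (Nat.succ_pos r)
    rw [Nat.succ_eq_add_one, ← hM] at this
    have h2 : (r + 1) * (M + 1) = (M + 1) * (r + 1) := mul_comm _ _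
    omega
  have hrM : (r + 1) * M ≤ N - 1 := by
    rw [hM]
    exact Nat.mul_div_le _ _
  have hrM' : r * M < N := by
    have : r * M ≤ (r + 1) * M := by gcongr; omega
    omega
  have hcM : zc r A < M + 1 := by
    have h1 : zc r A + 1 ≤ M := by
      rw [hM, Nat.le_div_iff_mul_le (Nat.succ_pos r)]
      change (zc r A + 1) * (r + 1) ≤ N - 1
      have h2 : (zc r A + 1) * (r + 1) + (r + 1) = (r + 1) * (zc r A + 2) := by ring
      omega
    omega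
  have hd1 : 1 ≤ A * N := Nat.mul_pos hA hNpos
  obtain ⟨P, B, hS⟩ := exists_chain hf0 hd1 hfd M r le_rfl
  let Q1 : Finset (Fin r → ℚ) := Pts.filter (fun x => ∀ n : Fin r → ℤ, (∀ i, 0 ≤ n i ∧ n i ≤ M) →
      ∀ g ∈ P.inf id, eval (x + qv n) g = 0)
  let Q2 : ℕ → Finset (Fin r → ℚ) := fun j => Pts.filter (fun x => ∃ n : Fin r → ℤ, ∃ 𝔫 ∈ B j,
      ∀ g ∈ 𝔫, eval (x + qv n) g = 0)
  have hQ1 : Q1.card ≤ zc r A := by
    have h1 := good_points hS Q1 (fun x hx y hy => hP x (Finset.mem_filter.1 hx).1 y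
      (Finset.mem_filter.1 hy).1) (fun x hx => (Finset.mem_filter.1 hx).2)
    have h2 : 3 ^ (r * r) * (A * N) ^ r ≤ zc r A * (M + 1) ^ r := by
      refine le_trans ?_ (zc_bound hr hA le_rfl hN1)
      have h3 : 1 ≤ r ^ r := Nat.one_le_pow _ _ hr
      calc 3 ^ (r * r) * (A * N) ^ r = 3 ^ (r * r) * 1 * (A * N) ^ r := by ring
        _ ≤ 3 ^ (r * r) * r ^ r * (A * N) ^ r := by gcongr
    have h3 := h1.trans h2
    exact Nat.le_of_mul_le_mul_right h3 (pow_pos (Nat.succ_pos M) r)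
  have hQ2 : ∀ j ∈ Finset.Icc 1 r, (Q2 j).card ≤ zc r A * F := by
    intro j hj
    rw [Finset.mem_Icc] at hj
    have hc := zc_bound (j := j) hr hA hj.2 hN1
    refine bad_points hS hj.1 hj.2 ?_ hc (Q2 j) ?_ (fun x hx => (Finset.mem_filter.1 hx).2)
    · refine lt_of_le_of_lt hc ?_
      rw [pow_succ, mul_comm]
      exact Nat.mul_lt_mul_of_pos_left hcM (pow_pos (Nat.succ_pos M) j)
    · intro v hv hvb x₀ Q' hQ' hx
      exact hF (r - j) (by omega) v hv hvb x₀ Q' (hQ'.trans (Finset.filter_subset _ _)) hx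
  have hcover : Pts ⊆ Q1 ∪ (Finset.Icc 1 r).biUnion Q2 := by
    intro x hx
    by_cases hx1 : x ∈ Q1
    · exact Finset.mem_union_left _ hx1
    apply Finset.mem_union_right
    have hx2 : ∃ n : Fin r → ℤ, (∀ i, 0 ≤ n i ∧ n i ≤ M) ∧ ∃ g ∈ P.inf id, eval (x + qv n) g ≠ 0 := by
      by_contra hcon
      push Not at hcon
      exact hx1 (Finset.mem_filter.2 ⟨hx, hcon⟩)
    obtain ⟨n, hn, g, hg, hgx⟩ := hx2
    have hprime : (RingHom.ker (eval (x + qv n) : RR r →+* ℚ)).IsPrime := RingHom.ker_isPrime _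
    have hJJ : JJ f ((r - 1) * M) ≤ RingHom.ker (eval (x + qv n) : RR r →+* ℚ) := by
      unfold JJ
      rw [Ideal.span_le]
      rintro h ⟨γ, hγ, rfl⟩
      change tr (qv γ) f ∈ RingHom.ker (eval (x + qv n) : RR r →+* ℚ)
      rw [RingHom.mem_ker, eval_tr, add_assoc, ← qv_add]
      apply hfz x hx
      intro i
      have h1 := hn i
      have h2 := hγ i
      have h3 : ((r - 1) * M : ℕ) + M ≤ r * M := by
        obtain ⟨r', rfl⟩ : ∃ r', r = r' + 1 := ⟨r - 1, by omega⟩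
        rw [Nat.add_sub_cancel]
        apply le_of_eq
        ring
      have h4 : (((r - 1) * M : ℕ) : ℤ) + (M : ℤ) < (N : ℤ) := by exact_mod_cast lt_of_le_of_lt h3 hrM'
      rw [Pi.add_apply]
      constructor
      · linarith [h1.1, h2.1]
      · linarith [h1.2, h2.2]
    rcases hS.cov _ hprime hJJ with h1 | ⟨j, hj1, hjr, 𝔫, h𝔫, γ, hγ⟩
    · exact absurd (RingHom.mem_ker.1 (h1 hg)) hgx
    · rw [Finset.mem_biUnion]
      refine ⟨j, Finset.mem_Icc.2 ⟨hj1, hjr⟩, Finset.mem_filter.2 ⟨hx, n - γ, 𝔫, h𝔫, ?_⟩⟩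
      intro g' hg'
      have h2 := eval_sh (γ := γ) (I := 𝔫) (x := x + qv n) (fun g'' hg'' => RingHom.mem_ker.1 (hγ hg'')) g' hg'
      have h3 : x + qv (n - γ) = x + qv n - qv γ := by
        funext i
        simp only [qv, Pi.add_apply, Pi.sub_apply]
        push_cast
        ring
      rw [h3]
      exact h2
  calc Pts.card ≤ (Q1 ∪ (Finset.Icc 1 r).biUnion Q2).card := Finset.card_le_card hcover
    _ ≤ Q1.card + ((Finset.Icc 1 r).biUnion Q2).card := Finset.card_union_le _ _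
    _ ≤ zc r A + ∑ j ∈ Finset.Icc 1 r, (Q2 j).card := by
      gcongr
      exact Finset.card_biUnion_le
    _ ≤ zc r A + ∑ j ∈ Finset.Icc 1 r, zc r A * F := by
      gcongr with j hj
      exact hQ2 j hj
    _ = zc r A * (1 + r * F) := by
      rw [Finset.sum_const, Nat.card_Icc, smul_eq_mul]
      simp only [Nat.add_sub_cancel]
      ring

end GamE
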